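import Pool.Agent.SCG.HCod
import Pool.Agent.BEO.CompS
import Pool.Agent.BEO.FrmRank
import Pool.Agent.BEO.CycDim

/-!
# SCG-HTre: the spanning tree (proof by helper88)
-/

set_option autoImplicit false

open Finset
open scoped Classical

namespace Pool.Agent.SCG

open Pool.Agent.Helper35.OG (Flag GMap across side)
open Pool.Agent.BEO (F2 ed rp cyc ev twist tph frm frm_rank finrank_cyc look comp ddp mem_ddp comp_look)

variable {n : ℕ}

/-- the graph of a list -/
private def gr (n : ℕ) (B : Adl) : SimpleGraph (Fin n) :=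
  SimpleGraph.fromRel fun u v : Fin n => ((u : ℕ), (v : ℕ)) ∈ B

private lemma gr_adj (B : Adl) (u v : Fin n) :
    (gr n B).Adj u v ↔ u ≠ v ∧ (((u : ℕ), (v : ℕ)) ∈ B ∨ ((v : ℕ), (u : ℕ)) ∈ B) := by
  unfold gr
  rw [SimpleGraph.fromRel_adj]

private lemma gr_mono {B B' : Adl} (h : ∀ x ∈ B, x ∈ B') : gr n B ≤ gr n B' := by
  intro u v huv
  rw [gr_adj] at huv ⊢
  exact ⟨huv.1, huv.2.imp (h _) (h _)⟩

private lemma reach_of_gen {G : SimpleGraph (Fin n)} {A B : Adl} (h : Lists G A) (hB : ∀ x ∈ B, x ∈ A) {a b : ℕ}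
    (hab : Relation.EqvGen (fun a b => (a, b) ∈ B) a b) :
    a = b ∨ ∃ u v : Fin n, (u : ℕ) = a ∧ (v : ℕ) = b ∧ (gr n B).Reachable u v := by
  induction hab with
  | rel a b hab =>
    obtain ⟨u, v, huv, e⟩ := h.2 _ (hB _ hab)
    have e1 : a = u := congrArg Prod.fst e
    have e2 : b = v := congrArg Prod.snd e
    refine Or.inr ⟨u, v, e1.symm, e2.symm, SimpleGraph.Adj.reachable ?_⟩
    rw [gr_adj]
    refine ⟨huv.ne, Or.inl ?_⟩
    rw [← e1, ← e2]
    exact hab
  | refl a => exact Or.inl rfl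
  | symm a b _ ih =>
    rcases ih with ih | ⟨u, v, h1, h2, h3⟩
    · exact Or.inl ih.symm
    · exact Or.inr ⟨v, u, h2, h1, h3.symm⟩
  | trans a b c _ _ ih1 ih2 =>
    rcases ih1 with ih1 | ⟨u, v, h1, h2, h3⟩
    · rw [ih1]
      exact ih2
    · rcases ih2 with ih2 | ⟨u', v', h1', h2', h3'⟩
      · exact Or.inr ⟨u, v, h1, h2.trans ih2, h3⟩
      · have e : v = u' := Fin.ext (h2.trans h1'.symm)
        rw [← e] at h3'
        exact Or.inr ⟨u, v', h1, h2', h3.trans h3'⟩

private lemma gen_of_reach {B : Adl} {u v : Fin n} (h : (gr n B).Reachable u v) :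
    Relation.EqvGen (fun a b => (a, b) ∈ B) (u : ℕ) (v : ℕ) := by
  rw [SimpleGraph.reachable_iff_reflTransGen] at h
  induction h with
  | refl => exact Relation.EqvGen.refl _
  | tail _ hab ih =>
    refine Relation.EqvGen.trans _ _ _ ih ?_
    rw [gr_adj] at hab
    rcases hab.2 with h | h
    · exact Relation.EqvGen.rel _ _ h
    · exact Relation.EqvGen.symm _ _ (Relation.EqvGen.rel _ _ h)

private lemma gen_iff {G : SimpleGraph (Fin n)} {A B : Adl} (h : Lists G A) (hB : ∀ x ∈ B, x ∈ A) (u v : Fin n) :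
    Relation.EqvGen (fun a b => (a, b) ∈ B) (u : ℕ) (v : ℕ) ↔ (gr n B).Reachable u v := by
  constructor
  · intro hg
    rcases reach_of_gen h hB hg with e | ⟨u', v', h1, h2, h3⟩
    · rw [Fin.ext e]
    · rw [Fin.ext h1, Fin.ext h2] at h3
      exact h3
  · exact gen_of_reach

/-- the step -/
private def sT (A : Adl) (B : Adl) (e : ℕ × ℕ) : Adl :=
  if decide (look (cmA A B) e.1 e.1 = look (cmA A B) e.2 e.2) then B else B ++ [e]

private lemma tre_eq (A : Adl) : tre A = A.foldl (sT A) [] := rfl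

private lemma cond_iff {G : SimpleGraph (Fin n)} {A B : Adl} (h : Lists G A) (hB : ∀ x ∈ B, x ∈ A) (u v : Fin n)
    (he : ((u : ℕ), (v : ℕ)) ∈ A) :
    (look (cmA A B) (u : ℕ) (u : ℕ) = look (cmA A B) (v : ℕ) (v : ℕ)) ↔ (gr n B).Reachable u v := by
  rw [← gen_iff h hB]
  have hm : ∀ x ∈ A, x.1 ∈ ddp (A.map Prod.fst ++ A.map Prod.snd) ∧ x.2 ∈ ddp (A.map Prod.fst ++ A.map Prod.snd) := by
    intro x hx
    rw [mem_ddp, mem_ddp]
    exact ⟨List.mem_append_left _ (List.mem_map_of_mem hx), List.mem_append_right _ (List.mem_map_of_mem hx)⟩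
  unfold cmA
  exact comp_look _ _ (fun r hr => hm r (hB r hr)) _ _ (hm _ he).1 (hm _ he).2

private lemma fold_inv {G : SimpleGraph (Fin n)} {A : Adl} (h : Lists G A) (L : Adl) (hL : ∀ x ∈ L, x ∈ A) (B : Adl)
    (hB : ∀ x ∈ B, x ∈ A) (hac : (gr n B).IsAcyclic) :
    (∀ x ∈ L.foldl (sT A) B, x ∈ A) ∧ (gr n (L.foldl (sT A) B)).IsAcyclic ∧
      (∀ x ∈ B, x ∈ L.foldl (sT A) B) ∧
      ∀ u v : Fin n, ((u : ℕ), (v : ℕ)) ∈ L → (gr n (L.foldl (sT A) B)).Reachable u v := by
  induction L generalizing B with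
  | nil => exact ⟨hB, hac, fun x hx => hx, fun u v huv => absurd huv List.not_mem_nil⟩
  | cons e L ih =>
    have heA : e ∈ A := hL e List.mem_cons_self
    obtain ⟨u, v, huv, he⟩ := h.2 e heA
    have hLs : ∀ x ∈ L, x ∈ A := fun x hx => hL x (List.mem_cons_of_mem _ hx)
    rw [List.foldl_cons]
    have hstep : (∀ x ∈ sT A B e, x ∈ A) ∧ (gr n (sT A B e)).IsAcyclic ∧ (∀ x ∈ B, x ∈ sT A B e) ∧
        (gr n (sT A B e)).Reachable u v := by
      have hc := cond_iff h hB u v (he ▸ heA)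
      by_cases hr : (gr n B).Reachable u v
      · have e1 : sT A B e = B := by
          unfold sT
          rw [if_pos]
          rw [he]
          exact decide_eq_true (hc.2 hr)
        rw [e1]
        exact ⟨hB, hac, fun x hx => hx, hr⟩
      · have e1 : sT A B e = B ++ [e] := by
          unfold sT
          rw [if_neg]
          rw [he]
          intro hd
          exact hr (hc.1 (of_decide_eq_true hd))
        rw [e1]
        have e2 : gr n (B ++ [e]) = gr n B ⊔ SimpleGraph.edge u v := by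
          ext a b
          rw [SimpleGraph.sup_adj, gr_adj, gr_adj, SimpleGraph.edge_adj]
          simp only [List.mem_append, List.mem_singleton, he, Prod.mk.injEq, Fin.val_inj]
          constructor
          · rintro ⟨hne, (h1 | h1) | (h1 | h1)⟩
            · exact Or.inl ⟨hne, Or.inl h1⟩
            · exact Or.inr ⟨Or.inl h1, hne⟩
            · exact Or.inl ⟨hne, Or.inr h1⟩
            · exact Or.inr ⟨Or.inr ⟨h1.2, h1.1⟩, hne⟩
          · rintro (⟨hne, h1 | h1⟩ | ⟨h1 | h1, hne⟩)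
            · exact ⟨hne, Or.inl (Or.inl h1)⟩
            · exact ⟨hne, Or.inr (Or.inl h1)⟩
            · exact ⟨hne, Or.inl (Or.inr h1)⟩
            · exact ⟨hne, Or.inr (Or.inr ⟨h1.2, h1.1⟩)⟩
        refine ⟨?_, ?_, fun x hx => List.mem_append_left _ hx, ?_⟩
        · intro x hx
          rcases List.mem_append.1 hx with hx | hx
          · exact hB x hx
          · rw [List.mem_singleton.1 hx]
            exact heA
        · rw [e2]
          exact (SimpleGraph.isAcyclic_add_edge_iff_of_not_reachable u v hr).2 hac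
        · refine SimpleGraph.Adj.reachable ?_
          rw [gr_adj]
          refine ⟨huv.ne, Or.inl ?_⟩
          rw [← he]
          exact List.mem_append_right _ (List.mem_singleton.2 rfl)
    obtain ⟨s1, s2, s3, s4⟩ := hstep
    obtain ⟨t1, t2, t3, t4⟩ := ih hLs (sT A B e) s1 s2
    refine ⟨t1, t2, fun x hx => t3 x (s3 x hx), fun a b hab => ?_⟩
    rcases List.mem_cons.1 hab with hab | hab
    · have e3 := hab.trans he
      have ea : a = u := Fin.ext (congrArg Prod.fst e3)
      have eb : b = v := Fin.ext (congrArg Prod.snd e3)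
      rw [ea, eb]
      exact s4.mono (gr_mono t3)
    · exact t4 a b hab

theorem tre_spec {G : SimpleGraph (Fin n)} {A : Adl} (h : Lists G A) (hG : G.Connected) (hn : 2 ≤ n) :
    ∃ G0 : SimpleGraph (Fin n), G0 ≤ G ∧ G0.Connected ∧ Lists G0 (tre A) ∧ Nat.card G0.edgeSet + 1 ≤ n := by
  have hbot : gr n [] = ⊥ := by
    ext a b
    rw [gr_adj]
    simp
  obtain ⟨h1, h2, -, h4⟩ := fold_inv h A (fun x hx => hx) [] (fun x hx => absurd hx List.not_mem_nil)
    (by rw [hbot]; exact SimpleGraph.isAcyclic_bot)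
  rw [← tre_eq] at h1 h2 h4
  have hle : gr n (tre A) ≤ G := by
    intro u v huv
    rw [gr_adj] at huv
    rw [h.1]
    exact huv.2.imp (h1 _) (h1 _)
  have hreach : ∀ u v, (gr n (tre A)).Reachable u v := by
    intro u v
    have h5 := hG.preconnected u v
    rw [SimpleGraph.reachable_iff_reflTransGen] at h5
    induction h5 with
    | refl => exact SimpleGraph.Reachable.refl _
    | tail _ hab ih =>
      refine ih.trans ?_
      rcases (h.1 _ _).1 hab with h6 | h6
      · exact h4 _ _ h6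
      · exact (h4 _ _ h6).symm
  have : Nonempty (Fin n) := ⟨⟨0, by omega⟩⟩
  have hcon : (gr n (tre A)).Connected := ⟨hreach⟩
  have hne : ∀ u v : Fin n, ((u : ℕ), (v : ℕ)) ∈ tre A → u ≠ v := by
    intro u v huv
    have h6 : G.Adj u v := (h.1 _ _).2 (Or.inl (h1 _ huv))
    exact h6.ne
  refine ⟨gr n (tre A), hle, hcon, ⟨fun u v => ?_, fun x hx => ?_⟩, ?_⟩
  · rw [gr_adj]
    constructor
    · exact fun h6 => h6.2
    · rintro (h6 | h6)
      · exact ⟨hne _ _ h6, Or.inl h6⟩
      · exact ⟨(hne _ _ h6).symm, Or.inr h6⟩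
  · obtain ⟨u, v, huv, e⟩ := h.2 x (h1 x hx)
    refine ⟨u, v, ?_, e⟩
    rw [gr_adj]
    exact ⟨huv.ne, Or.inl (e ▸ hx)⟩
  · have ht : (gr n (tre A)).IsTree := ⟨hcon, h2⟩
    have h7 := ht.card_edgeFinset
    rw [Fintype.card_fin] at h7
    rw [Nat.card_eq_fintype_card, ← SimpleGraph.edgeFinset_card]
    exact h7.le

theorem tree_eg {G0 : SimpleGraph (Fin n)} (h0 : G0.Connected) (hn : 2 ≤ n) (hc : Nat.card G0.edgeSet + 1 ≤ n)
    (S : GMap G0) : S.eg = 0 := by
  have hnt : Nontrivial (Fin n) := Fin.nontrivial_iff_two_le.2 hn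
  have h1 := finrank_cyc h0
  rw [Nat.card_eq_fintype_card (α := Fin n), Fintype.card_fin] at h1
  have h2 : Module.finrank F2 (cyc G0) = 0 := by omega
  have h3 := frm_rank h0 S
  have h4 := LinearMap.finrank_range_le (frm S)
  rw [← h3]
  have h5 : Module.finrank F2 (LinearMap.range (frm S)) = 0 := by omega
  rw [h5]
  rfl

end Pool.Agent.SCG
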