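import Pool.Agent.BEO.Alg

/-!
# SCG: the algorithm

A piece is given by a list `K` of edges and a vertex `u`: its vertices are the vertices joined to `u` by edges outside
`K`. For every piece with at most `C` edges in `K` a table stores, for every way it can look from outside, a set of
edges inside the piece with the largest number of closed faces.
-/

set_option autoImplicit false

namespace Pool.Agent.SCG

open Pool.Agent.BEO (look memb ddp comp stp bfs par tup cds Pt Ec Inp Stt sd ac ek fl fcl zl lb xo bvs nF isO nE nV nxc)

section one

/-- the edges -/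
def edl (l : Inp) : List Ec := ddp ((fl l).map ek)

/-- the vertices -/
def vl (l : Inp) : List ℕ := ddp ((fl l).map Prod.fst)

/-- the edges of `c` occurring an odd number of times -/
def nrm (l : Inp) (c : List Ec) : List Ec := (edl l).filter fun e => par c e

/-- the other flag of the corner -/
def nx (l : Inp) (p : Pt) : Pt := look l p p

/-- the step across an edge in the twisted map -/
def acx (c : List Ec) (p : Pt) : Pt := if par c (ek p) then sd (ac p) else ac p

/-- the components of the graph without `K` -/
def vcl (l : Inp) (K : List Ec) : List (ℕ × ℕ) :=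
  comp (vl l) (((fl l).filter fun p => !memb K (ek p)).map fun p => (p.1, p.2.1))

/-- is `v` in the component of `u`? -/
def inU (l : Inp) (K : List Ec) (u v : ℕ) : Bool := decide (look (vcl l K) v v = look (vcl l K) u u)

/-- the flags at the vertices of the piece -/
def flU (l : Inp) (K : List Ec) (u : ℕ) : List Pt := (fl l).filter fun p => inU l K u p.1

/-- the flags over inner edges -/
def fli (l : Inp) (K : List Ec) (u : ℕ) : List Pt := (flU l K u).filter fun p => !memb K (ek p)

/-- the flags at the boundary -/
def flb (l : Inp) (K : List Ec) (u : ℕ) : List Pt := (flU l K u).filter fun p => memb K (ek p)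

/-- the steps along the faces inside -/
def relU (l : Inp) (K : List Ec) (u : ℕ) (c : List Ec) : List (Pt × Pt) :=
  (flU l K u).map (fun p => (p, nx l p)) ++ (fli l K u).map fun p => (p, acx c p)

/-- their classes -/
def labU (l : Inp) (K : List Ec) (u : ℕ) (c : List Ec) : List (Pt × Pt) := comp (flU l K u) (relU l K u c)

/-- the number of faces closed inside -/
def clo (l : Inp) (K : List Ec) (u : ℕ) (c : List Ec) : ℕ :=
  ((ddp ((labU l K u c).map Prod.snd)).filter fun x =>
    !((flb l K u).any fun p => decide (look (labU l K u c) p p = x))).length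

/-- coloured flags -/
def ptC (l : Inp) (K : List Ec) (u : ℕ) : List (Pt × Bool) := (flU l K u).flatMap fun p => [(p, false), (p, true)]

/-- the steps between coloured flags inside -/
def relC (l : Inp) (K : List Ec) (u : ℕ) (c : List Ec) : List ((Pt × Bool) × (Pt × Bool)) :=
  (ptC l K u).map (fun q => (q, (nx l q.1, !q.2))) ++ ((ptC l K u).map (fun q => (q, (sd q.1, !q.2))) ++
    ((ptC l K u).filter fun q => !memb K (ek q.1)).map fun q => (q, (acx c q.1, !q.2)))

/-- their classes -/
def labC (l : Inp) (K : List Ec) (u : ℕ) (c : List Ec) : List ((Pt × Bool) × (Pt × Bool)) :=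
  comp (ptC l K u) (relC l K u c)

/-- equality of labels -/
def bF (lab : List (Pt × Pt)) (p q : Pt) : Bool := decide (look lab p p = look lab q q)

/-- equality of labels of coloured flags -/
def bC (lab : List ((Pt × Bool) × (Pt × Bool))) (p q : Pt) (b : Bool) : Bool :=
  decide (look lab (p, false) (p, false) = look lab (q, b) (q, b))

/-- the pairs of boundary flags -/
def prs (l : Inp) (K : List Ec) (u : ℕ) : List (Pt × Pt) :=
  (flb l K u).flatMap fun p => (flb l K u).map fun q => (p, q)

/-- how the piece looks from outside -/
def sgn (l : Inp) (K : List Ec) (u : ℕ) (c : List Ec) : List Bool :=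
  ((flU l K u).any fun p => bC (labC l K u c) p p true) ::
    (prs l K u).flatMap fun x => [bF (labU l K u c) x.1 x.2, bC (labC l K u c) x.1 x.2 false,
      bC (labC l K u c) x.1 x.2 true]

/-- an element with the largest value (empty list if there is none) -/
def bst {β : Type} (val : β → ℕ) (l : List β) : List β :=
  l.foldl (fun acc x => if acc.any (fun y => decide (val x ≤ val y)) then acc else [x]) []

/-- the Boolean lists of length at most `m` -/
def bls (m : ℕ) : List (List Bool) := cds [[false], [true]] m

/-- for every way to look from outside one set with the largest number of closed faces -/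
def sel (m : ℕ) (l : Inp) (K : List Ec) (u : ℕ) (cs : List (List Ec)) : List (List Ec) :=
  (bls m).flatMap fun σ => bst (clo l K u) (cs.filter fun c => decide (sgn l K u c = σ))

/-- the arcs of the graph of states of the piece -/
def arU (k : ℕ) (l : Inp) (es : List Ec) (fs : List Pt) : List ((Stt × Stt) × Ec) := fs.flatMap fun p =>
  (bvs k).flatMap fun v => [false, true].map fun b =>
    (((fcl l p, (v, b)), (fcl l (sd p), (xo v (lb l es (ek p)), !b))), ek p)

/-- the first steps from the face of `p0` -/
def inu (l : Inp) (es : List Ec) (fs : List Pt) (p0 : Pt) : List (Stt × List Ec) :=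
  (fs.filter fun p => decide (fcl l p = fcl l p0)).map fun p => ((fcl l (sd p), (lb l es (ek p), true)), [ek p])

/-- the canonical walks in the piece -/
def wlu (k : ℕ) (l : Inp) (es : List Ec) (fs : List Pt) : List (List Ec) := fs.flatMap fun p0 =>
  (bfs (arU k l es fs) (inu l es fs p0)).map Prod.snd

/-- the candidates in a good piece -/
def leaf (k T : ℕ) (l : Inp) (fs : List Pt) : List (List Ec) :=
  cds (fs.map fun p => [ek p]) T ++ (tup (edl l) k).flatMap fun es => cds (wlu k l es fs) T

/-- the tables -/
abbrev Tab : Type := List ((List Ec × ℕ) × List (List Ec))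

/-- the pieces -/
def keys (C : ℕ) (l : Inp) : List (List Ec × ℕ) :=
  (cds ((edl l).map fun e => [e]) C).flatMap fun K => (vl l).map fun u => (K, u)

/-- the edges of `K` at the component of `u` -/
def prn (l : Inp) (K : List Ec) (u : ℕ) : List Ec := (ddp K).filter fun e => inU l K u e.1 || inU l K u e.2

/-- the table of a part -/
def sub (l : Inp) (tab : Tab) (K : List Ec) (u : ℕ) : List (List Ec) := look tab (prn l K u, u) []

/-- the candidates obtained by deleting an inner edge -/
def cmb (l : Inp) (tab : Tab) (K : List Ec) (u : ℕ) : List (List Ec) := (fli l K u).flatMap fun p =>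
  (sub l tab (ek p :: K) (ek p).1).flatMap fun a =>
    ([] :: sub l tab (ek p :: K) (ek p).2).flatMap fun b => [a ++ b, ek p :: (a ++ b)]

/-- one round -/
def rnd (C m k T : ℕ) (l : Inp) (tab : Tab) : Tab := (keys C l).map fun q =>
  (q, sel m l q.1 q.2 ((leaf k T l (fli l q.1 q.2) ++ cmb l tab q.1 q.2).map (nrm l)))

/-- the final table -/
def tabN (C m k T : ℕ) (l : Inp) : Tab := (rnd C m k T l)^[(fl l).length + 1] []

/-- the entries for the whole graph -/
def ent (C m k T : ℕ) (l : Inp) : List (List Ec) := look (tabN C m k T l) ([], (vl l).headD 0) []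

/-- a set of edges whose twist has the largest number of faces -/
def bst0 (C m k T : ℕ) (l : Inp) : List Ec := (bst (nF l) (ent C m k T l)).headD []

/-- the largest number of faces of an orientable twist -/
def bst1 (C m k T : ℕ) (l : Inp) : ℕ :=
  ((ent C m k T l).map fun c => if isO l c then nF l c else 0).foldl max 0

/-- the orientable genus -/
def genN (C m k T : ℕ) (l : Inp) : ℕ := (2 + nE l - (nV l + bst1 C m k T l)) / 2

end one

section two

/-- a list of pairs of adjacent vertices -/
abbrev Adl : Type := List (ℕ × ℕ)

/-- the vertices joined to `u` -/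
def nbl (A : Adl) (u : ℕ) : List ℕ :=
  (A.filter fun e => decide (e.1 = u)).map Prod.snd ++ (A.filter fun e => decide (e.2 = u)).map Prod.fst

/-- the smallest element (`d` if there is none) -/
def mnl (l : List ℕ) (d : ℕ) : ℕ := l.foldl (fun a x => if decide (x < a) then x else a) d

/-- the neighbour of `u` following `v` in cyclic order -/
def sc (A : Adl) (u v : ℕ) : ℕ :=
  (fun up : List ℕ => if up.isEmpty then mnl (nbl A u) v else mnl up (up.headD v))
    ((nbl A u).filter fun w => decide (v < w))

/-- the neighbour of `u` preceding `v`, found by search -/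
def pd (A : Adl) (u v : ℕ) : ℕ := ((nbl A u).filter fun w => decide (sc A u w = v)).headD v

/-- the pair of the flag `(u, v, b)` and the other flag of its corner in the standard map -/
def stp1 (A : Adl) (u v : ℕ) : List (Pt × Pt) :=
  [((u, (v, true)), (u, (sc A u v, false))), ((u, (v, false)), (u, (pd A u v, true)))]

/-- the code of the standard map: at every vertex the neighbours in cyclic order -/
def std (A : Adl) : Inp := A.flatMap fun e => stp1 A e.1 e.2 ++ stp1 A e.2 e.1

/-- the code of the twisted map -/
def twl (l : Inp) (c : List Ec) : Inp := (fl l).map fun p => (p, nxc l c p)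

/-- the components of the graph with the vertices of `A` and the edges of `B` -/
def cmA (A B : Adl) : List (ℕ × ℕ) := comp (ddp (A.map Prod.fst ++ A.map Prod.snd)) B

/-- a spanning tree -/
def tre (A : Adl) : Adl := A.foldl (fun B e =>
  if decide (look (cmA A B) e.1 e.1 = look (cmA A B) e.2 e.2) then B else B ++ [e]) []

/-- one step of the embedding algorithm: `s` is a graph and a set of edges; add the edge `e` and optimise -/
def stq (C m k T : ℕ) (s : Adl × List Ec) (e : ℕ × ℕ) : Adl × List Ec :=
  (s.1 ++ [e], (fun l : Inp => nrm l (s.2 ++ bst0 C m k T l)) (twl (std (s.1 ++ [e])) s.2))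

/-- a set of edges whose twist of the standard map has the smallest Euler genus -/
def emb (C m k T : ℕ) (A : Adl) : List Ec := (A.foldl (stq C m k T) (tre A, [])).2

/-- the algorithm -/
def main (C m k T : ℕ) (A : Adl) : ℕ := genN C m k T (twl (std A) (emb C m k T A))

end two

end Pool.Agent.SCG
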