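import Pool.Agent.SCG.HStd
import Pool.Agent.SCG.Alg

/-!
# SCG-HCod: the standard map is computed correctly
-/

set_option autoImplicit false

open Finset
open scoped Classical

namespace Pool.Agent.SCG

open Pool.Agent.Helper35.OG (Flag GMap across side)
open Pool.Agent.BEO (F2 ed rp cyc ev twist tph cod Codes ec lamOf Inp Ec Pt nxc fl)

variable {n : ℕ}

/-- `A` lists the edges of `G` (every edge in at least one order) -/
def Lists (G : SimpleGraph (Fin n)) (A : Adl) : Prop :=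
  (∀ u v : Fin n, G.Adj u v ↔ ((u : ℕ), (v : ℕ)) ∈ A ∨ ((v : ℕ), (u : ℕ)) ∈ A) ∧
    ∀ x ∈ A, ∃ u v : Fin n, G.Adj u v ∧ x = ((u : ℕ), (v : ℕ))

private theorem nbl_iff (A : Adl) (u x : ℕ) : x ∈ nbl A u ↔ (u, x) ∈ A ∨ (x, u) ∈ A := by
  unfold nbl
  rw [List.mem_append, List.mem_map, List.mem_map]
  constructor
  · rintro (⟨e, he, rfl⟩ | ⟨e, he, rfl⟩)
    · obtain ⟨h1, h2⟩ := List.mem_filter.1 he
      have h3 : e.1 = u := of_decide_eq_true h2
      left
      rw [← h3]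
      exact h1
    · obtain ⟨h1, h2⟩ := List.mem_filter.1 he
      have h3 : e.2 = u := of_decide_eq_true h2
      right
      rw [← h3]
      exact h1
  · rintro (h | h)
    · exact Or.inl ⟨(u, x), List.mem_filter.2 ⟨h, decide_eq_true rfl⟩, rfl⟩
    · exact Or.inr ⟨(x, u), List.mem_filter.2 ⟨h, decide_eq_true rfl⟩, rfl⟩

theorem mem_nbl {G : SimpleGraph (Fin n)} {A : Adl} (h : Lists G A) (u : Fin n) (x : ℕ) :
    x ∈ nbl A (u : ℕ) ↔ ∃ v : Fin n, G.Adj u v ∧ x = v := by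
  rw [nbl_iff]
  constructor
  · rintro (h1 | h1)
    · obtain ⟨u', v', ha, he⟩ := h.2 _ h1
      rw [Prod.mk.injEq] at he
      have hu : u = u' := Fin.ext he.1
      exact ⟨v', by rw [hu]; exact ha, he.2⟩
    · obtain ⟨u', v', ha, he⟩ := h.2 _ h1
      rw [Prod.mk.injEq] at he
      have hu : u = v' := Fin.ext he.2
      exact ⟨u', by rw [hu]; exact ha.symm, he.1⟩
  · rintro ⟨v, ha, rfl⟩
    exact (h.1 u v).1 ha

private theorem mnl_spec (l : List ℕ) : ∀ d : ℕ, (mnl l d = d ∨ mnl l d ∈ l) ∧ mnl l d ≤ d ∧ ∀ x ∈ l, mnl l d ≤ x := by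
  induction l with
  | nil =>
    intro d
    exact ⟨Or.inl rfl, le_refl _, fun x hx => absurd hx List.not_mem_nil⟩
  | cons a t ih =>
    intro d
    have e : mnl (a :: t) d = mnl t (if decide (a < d) then a else d) := rfl
    rw [e]
    by_cases h : a < d
    · rw [if_pos (decide_eq_true h)]
      obtain ⟨h1, h2, h3⟩ := ih a
      refine ⟨?_, h2.trans h.le, ?_⟩
      · rcases h1 with h1 | h1
        · right
          rw [h1]
          exact List.mem_cons_self
        · exact Or.inr (List.mem_cons_of_mem _ h1)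
      · intro x hx
        rcases List.mem_cons.1 hx with hx | hx
        · rw [hx]
          exact h2
        · exact h3 x hx
    · rw [if_neg (by simpa using h)]
      obtain ⟨h1, h2, h3⟩ := ih d
      refine ⟨?_, h2, ?_⟩
      · rcases h1 with h1 | h1
        · exact Or.inl h1
        · exact Or.inr (List.mem_cons_of_mem _ h1)
      · intro x hx
        rcases List.mem_cons.1 hx with hx | hx
        · rw [hx]
          omega
        · exact h3 x hx

private def IsSc (G : SimpleGraph (Fin n)) (u v : Fin n) (m : ℕ) : Prop :=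
  (∃ w : Fin n, G.Adj u w ∧ m = w) ∧ (((v : ℕ) < m ∧ ∀ w : Fin n, G.Adj u w → v < w → m ≤ (w : ℕ)) ∨
    ((∀ w, G.Adj u w → w ≤ v) ∧ ∀ w : Fin n, G.Adj u w → m ≤ (w : ℕ)))

private theorem isSc_uniq {G : SimpleGraph (Fin n)} {u v : Fin n} {m m' : ℕ} (h : IsSc G u v m) (h' : IsSc G u v m') :
    m = m' := by
  obtain ⟨⟨w, hw, rfl⟩, h1⟩ := h
  obtain ⟨⟨w', hw', rfl⟩, h1'⟩ := h'
  rcases h1 with ⟨h2, h3⟩ | ⟨h2, h3⟩ <;> rcases h1' with ⟨h2', h3'⟩ | ⟨h2', h3'⟩
  · exact le_antisymm (h3 w' hw' h2') (h3' w hw h2)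
  · have := h2' w hw
    exact absurd h2 (by simpa using this)
  · have := h2 w' hw'
    exact absurd h2' (by simpa using this)
  · exact le_antisymm (h3 w' hw') (h3' w hw)

private theorem scG_isSc (G : SimpleGraph (Fin n)) (u v : Fin n) (h : G.Adj u v) : IsSc G u v (scG G u v : ℕ) := by
  by_cases hu : (upN G u v).Nonempty
  · have e : scG G u v = (upN G u v).min' hu := by
      unfold scG
      rw [dif_pos hu]
    have hm := (upN G u v).min'_mem hu
    rw [← e] at hm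
    unfold upN at hm
    rw [mem_filter] at hm
    refine ⟨⟨_, hm.2.1, rfl⟩, Or.inl ⟨hm.2.2, fun w hw hvw => ?_⟩⟩
    have : scG G u v ≤ w := by
      rw [e]
      refine (upN G u v).min'_le w ?_
      unfold upN
      rw [mem_filter]
      exact ⟨mem_univ _, hw, hvw⟩
    exact this
  · have ha : (alN G u).Nonempty := by
      refine ⟨v, ?_⟩
      unfold alN
      rw [mem_filter]
      exact ⟨mem_univ _, h⟩
    have e : scG G u v = (alN G u).min' ha := by
      unfold scG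
      rw [dif_neg hu, dif_pos ha]
    have hm := (alN G u).min'_mem ha
    rw [← e] at hm
    unfold alN at hm
    rw [mem_filter] at hm
    refine ⟨⟨_, hm.2, rfl⟩, Or.inr ⟨fun w hw => ?_, fun w hw => ?_⟩⟩
    · by_contra hc
      refine hu ⟨w, ?_⟩
      unfold upN
      rw [mem_filter]
      exact ⟨mem_univ _, hw, not_le.mp hc⟩
    · have : scG G u v ≤ w := by
        rw [e]
        refine (alN G u).min'_le w ?_
        unfold alN
        rw [mem_filter]
        exact ⟨mem_univ _, hw⟩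
      exact this

theorem sc_eq {G : SimpleGraph (Fin n)} {A : Adl} (h : Lists G A) (u v : Fin n) (hv : G.Adj u v) :
    sc A (u : ℕ) (v : ℕ) = (scG G u v : ℕ) := by
  refine isSc_uniq ?_ (scG_isSc G u v hv)
  have hup : ∀ w : ℕ, w ∈ ((nbl A (u : ℕ)).filter fun w => decide ((v : ℕ) < w)) ↔
      (∃ w' : Fin n, G.Adj u w' ∧ w = w') ∧ (v : ℕ) < w := by
    intro w
    rw [List.mem_filter, mem_nbl h]
    simp
  unfold sc
  generalize ((nbl A (u : ℕ)).filter fun w => decide ((v : ℕ) < w)) = up at hup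
  cases up with
  | nil =>
    show IsSc G u v (mnl (nbl A (u : ℕ)) (v : ℕ))
    obtain ⟨h1, h2, h3⟩ := mnl_spec (nbl A (u : ℕ)) (v : ℕ)
    refine ⟨?_, Or.inr ⟨?_, ?_⟩⟩
    · rcases h1 with h1 | h1
      · exact ⟨v, hv, h1⟩
      · exact (mem_nbl h u _).1 h1
    · intro w hw
      by_contra hc
      have : (w : ℕ) ∈ ([] : List ℕ) := (hup (w : ℕ)).2 ⟨⟨w, hw, rfl⟩, not_le.1 hc⟩
      exact absurd this List.not_mem_nil
    · intro w hw
      exact h3 _ ((mem_nbl h u _).2 ⟨w, hw, rfl⟩)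
  | cons a t =>
    show IsSc G u v (mnl (a :: t) a)
    obtain ⟨h1, h2, h3⟩ := mnl_spec (a :: t) a
    have h4 : mnl (a :: t) a ∈ a :: t := by
      rcases h1 with h1 | h1
      · rw [h1]
        exact List.mem_cons_self
      · exact h1
    obtain ⟨h5, h6⟩ := (hup _).1 h4
    refine ⟨h5, Or.inl ⟨h6, ?_⟩⟩
    intro w hw hvw
    exact h3 _ ((hup _).2 ⟨⟨w, hw, rfl⟩, hvw⟩)

private theorem nxt_false (G : SimpleGraph (Fin n)) (d : G.Dart) :
    ∃ d' : G.Dart, (stdM G).nxt (d, false) = (d', true) ∧ (stdM G).nxt (d', true) = (d, false) := by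
  have hinj : Function.Injective fun d : G.Dart => ((stdM G).nxt (d, true)).1 := by
    intro d d' he
    have h1 : (stdM G).nxt (d, true) = (stdM G).nxt (d', true) :=
      Prod.ext he (((stdM_nxt G (d, true) rfl).1).trans ((stdM_nxt G (d', true) rfl).1).symm)
    have h2 := congrArg (stdM G).nxt h1
    rw [(stdM G).nxt_nxt, (stdM G).nxt_nxt] at h2
    exact congrArg Prod.fst h2
  obtain ⟨d', hd'⟩ := (Finite.injective_iff_surjective.1 hinj) d
  have h1 : (stdM G).nxt (d', true) = (d, false) := Prod.ext hd' (stdM_nxt G (d', true) rfl).1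
  refine ⟨d', ?_, h1⟩
  rw [← h1, (stdM G).nxt_nxt]

private theorem pd_eq {G : SimpleGraph (Fin n)} {A : Adl} (h : Lists G A) (d : G.Dart) :
    ((d.fst : ℕ), (pd A (d.fst : ℕ) (d.snd : ℕ), true)) = cod ((stdM G).nxt (d, false)) := by
  obtain ⟨d', h1, h2⟩ := nxt_false G d
  have h3 : d'.fst = d.fst := by
    have := (stdM G).nxt_fst (d, false)
    rw [h1] at this
    exact this
  have h4 : d.snd = scG G d'.fst d'.snd := by
    have := (stdM_nxt G (d', true) rfl).2
    rw [h2] at this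
    exact this
  have hm : ∀ w : ℕ, w ∈ ((nbl A (d.fst : ℕ)).filter fun w => decide (sc A (d.fst : ℕ) w = (d.snd : ℕ))) ↔
      w = (d'.snd : ℕ) := by
    intro w
    rw [List.mem_filter, mem_nbl h, decide_eq_true_iff]
    constructor
    · rintro ⟨⟨w', hw', rfl⟩, he⟩
      rw [sc_eq h _ _ hw', h4, ← h3] at he
      rw [← h3] at hw'
      rw [scG_inj G d'.fst w' d'.snd hw' d'.adj (Fin.ext he)]
    · rintro rfl
      have ha : G.Adj d.fst d'.snd := by
        rw [← h3]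
        exact d'.adj
      refine ⟨⟨d'.snd, ha, rfl⟩, ?_⟩
      rw [sc_eq h _ _ ha, h4, h3]
  have hp : pd A (d.fst : ℕ) (d.snd : ℕ) = (d'.snd : ℕ) := by
    unfold pd
    generalize ((nbl A (d.fst : ℕ)).filter fun w => decide (sc A (d.fst : ℕ) w = (d.snd : ℕ))) = L at hm
    cases L with
    | nil => exact absurd ((hm _).2 rfl) List.not_mem_nil
    | cons a t => exact (hm a).1 List.mem_cons_self
  rw [hp, h1]
  show _ = ((d'.fst : ℕ), ((d'.snd : ℕ), true))
  rw [h3]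

private theorem stp_eq {G : SimpleGraph (Fin n)} {A : Adl} (h : Lists G A) (u v : Fin n) (ha : G.Adj u v) (x : Pt × Pt) :
    x ∈ stp1 A (u : ℕ) (v : ℕ) ↔ ∃ p : Flag G, p.1.fst = u ∧ p.1.snd = v ∧ x = (cod p, cod ((stdM G).nxt p)) := by
  have hd : ∀ p : Flag G, p.1.fst = u → p.1.snd = v → p.1 = (⟨(u, v), ha⟩ : G.Dart) := fun p h1 h2 =>
    SimpleGraph.Dart.ext _ _ (Prod.ext h1 h2)
  have e1 : (((u : ℕ), ((v : ℕ), true)), ((u : ℕ), (sc A (u : ℕ) (v : ℕ), false))) =
      (cod ((⟨(u, v), ha⟩, true) : Flag G), cod ((stdM G).nxt ((⟨(u, v), ha⟩, true) : Flag G))) := by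
    obtain ⟨h1, h2⟩ := stdM_nxt G (⟨(u, v), ha⟩, true) rfl
    have h3 := (stdM G).nxt_fst (⟨(u, v), ha⟩, true)
    have h4 : cod ((stdM G).nxt ((⟨(u, v), ha⟩, true) : Flag G)) = ((u : ℕ), (sc A (u : ℕ) (v : ℕ), false)) := by
      unfold cod
      rw [h1, h2, h3, sc_eq h u v ha]
    rw [h4]
    rfl
  have e0 : (((u : ℕ), ((v : ℕ), false)), ((u : ℕ), (pd A (u : ℕ) (v : ℕ), true))) =
      (cod ((⟨(u, v), ha⟩, false) : Flag G), cod ((stdM G).nxt ((⟨(u, v), ha⟩, false) : Flag G))) := by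
    rw [← pd_eq h (⟨(u, v), ha⟩ : G.Dart)]
    rfl
  unfold stp1
  rw [e1, e0, List.mem_cons, List.mem_singleton]
  constructor
  · rintro (rfl | rfl)
    · exact ⟨_, rfl, rfl, rfl⟩
    · exact ⟨_, rfl, rfl, rfl⟩
  · rintro ⟨⟨d, b⟩, h1, h2, rfl⟩
    have h3 : d = (⟨(u, v), ha⟩ : G.Dart) := hd (d, b) h1 h2
    subst h3
    cases b with
    | true => exact Or.inl rfl
    | false => exact Or.inr rfl

theorem std_codes {G : SimpleGraph (Fin n)} {A : Adl} (h : Lists G A) : Codes (stdM G) (std A) := by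
  intro x
  unfold std
  rw [List.mem_flatMap]
  constructor
  · rintro ⟨e, he, hx⟩
    obtain ⟨u, v, ha, rfl⟩ := h.2 e he
    rcases List.mem_append.1 hx with hx | hx
    · obtain ⟨p, _, _, hp⟩ := (stp_eq h u v ha x).1 hx
      exact ⟨p, hp⟩
    · obtain ⟨p, _, _, hp⟩ := (stp_eq h v u ha.symm x).1 hx
      exact ⟨p, hp⟩
  · rintro ⟨p, rfl⟩
    have ha := p.1.adj
    rcases (h.1 _ _).1 ha with h1 | h1
    · exact ⟨_, h1, List.mem_append_left _ ((stp_eq h _ _ ha _).2 ⟨p, rfl, rfl, rfl⟩)⟩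
    · exact ⟨_, h1, List.mem_append_right _ ((stp_eq h _ _ ha _).2 ⟨p, rfl, rfl, rfl⟩)⟩

theorem twl_codes {G : SimpleGraph (Fin n)} {S : GMap G} {l : Inp} (h : Codes S l) (c : List Ec) :
    Codes (twist S (lamOf G c)) (twl l c) := by
  intro x
  unfold twl
  rw [List.mem_map]
  constructor
  · rintro ⟨y, hy, rfl⟩
    obtain ⟨p, rfl⟩ := (Pool.Agent.BEO.mem_fl h y).1 hy
    exact ⟨p, by rw [Pool.Agent.BEO.nxc_cod h]⟩
  · rintro ⟨p, rfl⟩
    exact ⟨cod p, (Pool.Agent.BEO.mem_fl h _).2 ⟨p, rfl⟩, by rw [Pool.Agent.BEO.nxc_cod h]⟩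

end Pool.Agent.SCG
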