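import Pool.Agent.SCG.FpP

/-!
# SCG-FpStd: the standard map in polynomial time
-/

set_option autoImplicit false

namespace Pool.Agent.SCG

open Turing Function N487b59b3 N68a2faeb Pool.Agent.Helper22 Pool.Agent.Helper6.WB Pool.Agent.Helper47.TR Computability
open Pool.Agent.BEO (look memb ddp comp stp bfs par tup cds Pt Ec Inp Stt sd ac ek fl fcl zl lb xo bvs nF isO nE nV nxc
  fp_eq fp_mapc fp_flat fp_filt fp_look fp_memb fp_par fp_ddp fp_comp fp_sd fp_ac fp_ek fp_fl fp_nxc fp_fcs fp_nF fp_half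
  fp_sub fp_max fp_fcl fp_lb fp_isO fp_bfs fp_tup fp_cds fp_xo)

section

variable {α β γ δ : Type} [N487b59b3 α] [N487b59b3 β] [N487b59b3 γ] [N487b59b3 δ]

private theorem fp_lt {f g : α → ℕ} (hf : FP f) (hg : FP g) : FP fun a => decide (f a < g a) := by
  have h := FP.not (FP.natLe hg hf)
  refine (congrArg FP (funext fun a => ?_)).mp h
  by_cases h1 : f a < g a
  · simp [h1]
  · simp [h1, Nat.le_of_not_lt h1]

private theorem sz_mnl (l : List ℕ) (a : ℕ) :
    sz (l.foldl (fun a x => if decide (x < a) then x else a) a) ≤ sz l + sz a := by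
  induction l generalizing a with
  | nil => simp
  | cons b l ih =>
    rw [List.foldl_cons, sz_cons]
    have h1 := ih (if decide (b < a) then b else a)
    by_cases h : decide (b < a) = true
    · rw [if_pos h] at h1 ⊢
      omega
    · rw [if_neg h] at h1 ⊢
      omega

private theorem fp_mnl {f : α → List ℕ} {d : α → ℕ} (hf : FP f) (hd : FP d) : FP fun a => mnl (f a) (d a) := by
  have h1 : FP fun p : ℕ × ℕ => if decide (p.2 < p.1) then p.2 else p.1 :=
    FP.ite (fp_lt FP.snd FP.fst) FP.snd FP.fst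
  have h3 : FP fun p : List ℕ × ℕ => p.1.foldl (fun a x => if decide (x < a) then x else a) p.2 :=
    FP.foldl (g := fun a x : ℕ => if decide (x < a) then x else a) h1 (B := fun n => n) (by fun_prop)
      (fun l a => sz_mnl l a)
  exact h3.comp (FP.pair hf hd)

private theorem fp_headD [Inhabited β] {f : α → List β} {d : α → β} (hf : FP f) (hd : FP d) :
    FP fun a => (f a).headD (d a) := by
  have h := FP.ite (FP.isEmpty hf) hd (FP.headD hf default)
  refine (congrArg FP (funext fun a => ?_)).mp h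
  cases f a with
  | nil => simp
  | cons x l => simp

private theorem fp_nbl {f : α → Adl} {u : α → ℕ} (hf : FP f) (hu : FP u) : FP fun a => nbl (f a) (u a) := by
  have h1 : FP fun q : α × (ℕ × ℕ) => decide (q.2.1 = u q.1) := fp_eq (FP.fst.comp FP.snd) (hu.comp FP.fst)
  have h2 : FP fun q : α × (ℕ × ℕ) => decide (q.2.2 = u q.1) := fp_eq (FP.snd.comp FP.snd) (hu.comp FP.fst)
  exact FP.append (FP.map FP.snd (fp_filt h1 hf)) (FP.map FP.fst (fp_filt h2 hf))

private theorem fp_up {f : α → Adl} {u v : α → ℕ} (hf : FP f) (hu : FP u) (hv : FP v) :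
    FP fun a => (nbl (f a) (u a)).filter fun w => decide (v a < w) := by
  have h1 : FP fun q : α × ℕ => decide (v q.1 < q.2) := fp_lt (hv.comp FP.fst) FP.snd
  exact fp_filt h1 (fp_nbl hf hu)

private theorem fp_sc {f : α → Adl} {u v : α → ℕ} (hf : FP f) (hu : FP u) (hv : FP v) :
    FP fun a => sc (f a) (u a) (v a) := by
  have h1 := fp_up hf hu hv
  exact FP.ite (FP.isEmpty h1) (fp_mnl (fp_nbl hf hu) hv) (fp_mnl h1 (fp_headD h1 hv))

private theorem fp_pd {f : α → Adl} {u v : α → ℕ} (hf : FP f) (hu : FP u) (hv : FP v) :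
    FP fun a => pd (f a) (u a) (v a) := by
  have h1 : FP fun q : α × ℕ => decide (sc (f q.1) (u q.1) q.2 = v q.1) :=
    fp_eq (fp_sc (hf.comp FP.fst) (hu.comp FP.fst) FP.snd) (hv.comp FP.fst)
  exact fp_headD (fp_filt h1 (fp_nbl hf hu)) hv

private theorem fp_stp1 {f : α → Adl} {u v : α → ℕ} (hf : FP f) (hu : FP u) (hv : FP v) :
    FP fun a => stp1 (f a) (u a) (v a) := by
  have h1 := FP.pair (FP.pair hu (FP.pair hv (FP.const true))) (FP.pair hu (FP.pair (fp_sc hf hu hv) (FP.const false)))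
  have h2 := FP.pair (FP.pair hu (FP.pair hv (FP.const false))) (FP.pair hu (FP.pair (fp_pd hf hu hv) (FP.const true)))
  exact FP.cons h1 (FP.cons h2 (FP.const []))

theorem fp_std {f : α → Adl} (hf : FP f) : FP fun a => std (f a) := by
  have h1 : FP fun q : α × (ℕ × ℕ) => stp1 (f q.1) q.2.1 q.2.2 ++ stp1 (f q.1) q.2.2 q.2.1 :=
    FP.append (fp_stp1 (hf.comp FP.fst) (FP.fst.comp FP.snd) (FP.snd.comp FP.snd))
      (fp_stp1 (hf.comp FP.fst) (FP.snd.comp FP.snd) (FP.fst.comp FP.snd))
  exact fp_flat h1 hf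

theorem fp_twl {f : α → Inp} {c : α → List Ec} (hf : FP f) (hc : FP c) : FP fun a => twl (f a) (c a) := by
  have h1 : FP fun q : α × Pt => (q.2, nxc (f q.1) (c q.1) q.2) :=
    FP.pair FP.snd (fp_nxc (hf.comp FP.fst) (hc.comp FP.fst) FP.snd)
  exact fp_mapc h1 (fp_fl hf)

end

end Pool.Agent.SCG
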