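import Pool.Agent.SCG.FpP

/-!
# SCG-FpTre: the spanning tree in polynomial time

PLAN. `FP.foldl` over `A` with the state `(A, B)` (the vertices come from the whole list `A`); `B` is a list of elements of
`A`, its size is bounded by the sizes of `A` and of the start value.
-/

set_option autoImplicit false

namespace Pool.Agent.SCG

open Turing Function N487b59b3 N68a2faeb Pool.Agent.Helper22 Pool.Agent.Helper6.WB Pool.Agent.Helper47.TR Computability
open Pool.Agent.BEO (look memb ddp comp stp bfs par tup cds Pt Ec Inp Stt sd ac ek fl fcl zl lb xo bvs nF isO nE nV nxc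
  fp_eq fp_mapc fp_flat fp_filt fp_look fp_memb fp_par fp_ddp fp_comp fp_sd fp_ac fp_ek fp_fl fp_nxc fp_fcs fp_nF fp_half
  fp_sub fp_max fp_fcl fp_lb fp_isO fp_bfs fp_tup fp_cds fp_xo)

section

variable {α β γ δ : Type} [N487b59b3 α] [N487b59b3 β] [N487b59b3 γ] [N487b59b3 δ]

private def tg (S : Adl × Adl) (e : ℕ × ℕ) : Adl × Adl :=
  (S.1, if decide (look (cmA S.1 S.2) e.1 e.1 = look (cmA S.1 S.2) e.2 e.2) then S.2 else S.2 ++ [e])

private theorem fp_tg : FP fun q : (Adl × Adl) × (ℕ × ℕ) => tg q.1 q.2 := by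
  have hA : FP fun q : (Adl × Adl) × (ℕ × ℕ) => q.1.1 := FP.fst.comp FP.fst
  have hB : FP fun q : (Adl × Adl) × (ℕ × ℕ) => q.1.2 := FP.snd.comp FP.fst
  have hc : FP fun q : (Adl × Adl) × (ℕ × ℕ) => cmA q.1.1 q.1.2 :=
    fp_comp (fp_ddp (FP.append (FP.map FP.fst hA) (FP.map FP.snd hA))) hB
  have h1 : FP fun q : (Adl × Adl) × (ℕ × ℕ) => q.2.1 := FP.fst.comp FP.snd
  have h2 : FP fun q : (Adl × Adl) × (ℕ × ℕ) => q.2.2 := FP.snd.comp FP.snd
  exact FP.pair hA (FP.ite (fp_eq (fp_look hc h1 h1) (fp_look hc h2 h2)) hB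
    (FP.append hB (FP.cons FP.snd (FP.const []))))

private theorem tg_fst (l : Adl) (A B : Adl) : l.foldl tg (A, B) = (A, l.foldl (fun B e =>
    if decide (look (cmA A B) e.1 e.1 = look (cmA A B) e.2 e.2) then B else B ++ [e]) B) := by
  induction l generalizing B with
  | nil => rfl
  | cons e l ih =>
    rw [List.foldl_cons, List.foldl_cons]
    exact ih _

theorem fp_tre {f : α → Adl} (hf : FP f) : FP fun a => tre (f a) := by
  have h1 : FP fun p : Adl × (Adl × Adl) => p.1.foldl tg p.2 := by
    refine FP.foldl (g := tg) fp_tg (B := fun n => n) (by fun_prop) ?_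
    intro l a
    induction l generalizing a with
    | nil => simp
    | cons b l ih =>
      rw [List.foldl_cons]
      refine (ih _).trans ?_
      rw [sz_cons]
      obtain ⟨A, B⟩ := a
      unfold tg
      simp only
      split_ifs
      · omega
      · simp only [sz_pair, sz_append, sz_cons, sz_nil]
        omega
  have h2 := (h1.comp (FP.pair hf (FP.pair hf (FP.const [])))).snd'
  refine (congrArg FP (funext fun a => ?_)).mp h2
  simp only
  rw [tg_fst]
  unfold tre
  simp

end

end Pool.Agent.SCG
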