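import Pool.Agent.SCG.FpEnt
import Pool.Agent.SCG.FpStd
import Pool.Agent.SCG.FpTre

/-!
# SCG-FpMain: the algorithm runs in polynomial time

Compositions, `FP.foldl`; the second component is a part of a list depending on the graph only.
-/

set_option autoImplicit false

namespace Pool.Agent.SCG

open Turing Function N487b59b3 N68a2faeb Pool.Agent.Helper22 Pool.Agent.Helper6.WB Pool.Agent.Helper47.TR Computability
open Pool.Agent.BEO (look memb ddp comp stp bfs par tup cds Pt Ec Inp Stt sd ac ek fl fcl zl lb xo bvs nF isO nE nV nxc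
  fp_eq fp_mapc fp_flat fp_filt fp_look fp_memb fp_par fp_ddp fp_comp fp_sd fp_ac fp_ek fp_fl fp_nxc fp_fcs fp_nF fp_half
  fp_sub fp_max fp_fcl fp_lb fp_isO fp_bfs fp_tup fp_cds fp_xo)

section

variable {α β γ δ : Type} [N487b59b3 α] [N487b59b3 β] [N487b59b3 γ] [N487b59b3 δ]

private theorem fp_stq (C m k T : ℕ) : FP fun p : (Adl × List Ec) × (ℕ × ℕ) => stq C m k T p.1 p.2 := by
  have h1 : FP fun p : (Adl × List Ec) × (ℕ × ℕ) => p.1.1 ++ [p.2] :=
    FP.append (FP.fst.comp FP.fst) (FP.cons FP.snd (FP.const []))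
  have h2 : FP fun p : (Adl × List Ec) × (ℕ × ℕ) => p.1.2 := FP.snd.comp FP.fst
  have h3 : FP fun p : (Adl × List Ec) × (ℕ × ℕ) => twl (std (p.1.1 ++ [p.2])) p.1.2 := fp_twl (fp_std h1) h2
  exact FP.pair h1 (fp_nrm h3 (FP.append h2 (fp_bst0 C m k T h3)))

private theorem edl_twl (l : Inp) (c : List Ec) : edl (twl l c) = ddp ((ddp (fl l)).map ek) := by
  unfold edl
  have h : (twl l c).map Prod.fst = fl l := by
    unfold twl
    rw [List.map_map]
    exact List.map_id _
  show ddp ((ddp ((twl l c).map Prod.fst)).map ek) = _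
  rw [h]

private theorem sz_filt {β : Type} [N487b59b3 β] (p : β → Bool) (l : List β) : sz (l.filter p) ≤ sz l := by
  induction l with
  | nil => simp
  | cons a l ih =>
    rw [List.filter_cons]
    split_ifs
    · rw [sz_cons, sz_cons]
      omega
    · rw [sz_cons]
      omega

private theorem emb_fold (C m k T : ℕ) {B : ℕ → ℕ}
    (hle : ∀ X : Adl, sz (ddp ((ddp (fl (std X))).map ek)) ≤ B (sz X)) : ∀ (A : Adl) (s : Adl × List Ec),
      (A.foldl (stq C m k T) s).1 = s.1 ++ A ∧ sz (A.foldl (stq C m k T) s).2 ≤ sz s.2 + B (sz s.1 + sz A) := by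
  intro A
  induction A using List.reverseRecOn with
  | nil =>
    intro s
    exact ⟨by simp, by simp⟩
  | append_singleton A e ih =>
    intro s
    obtain ⟨h1, _⟩ := ih s
    rw [List.foldl_append]
    show (stq C m k T (A.foldl (stq C m k T) s) e).1 = _ ∧ sz (stq C m k T (A.foldl (stq C m k T) s) e).2 ≤ _
    generalize A.foldl (stq C m k T) s = t at h1
    constructor
    · show t.1 ++ [e] = _
      rw [h1, List.append_assoc]
    · have h2 : (stq C m k T t e).2 = (edl (twl (std (t.1 ++ [e])) t.2)).filter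
          fun x => par (t.2 ++ bst0 C m k T (twl (std (t.1 ++ [e])) t.2)) x := rfl
      rw [h2]
      refine (sz_filt _ _).trans ?_
      rw [edl_twl, h1, List.append_assoc]
      have h3 := hle (s.1 ++ (A ++ [e]))
      rw [sz_append] at h3
      omega

private theorem fp_emb (C m k T : ℕ) {f : α → Adl} (hf : FP f) : FP fun a => emb C m k T (f a) := by
  have h0 : FP fun X : Adl => ddp ((ddp (fl (std X))).map ek) :=
    fp_ddp (FP.map (fp_ek FP.id) (fp_ddp (fp_fl (fp_std FP.id))))
  obtain ⟨B, hB, hm, hle⟩ := h0.bound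
  have h1 : FP fun p : Adl × (Adl × List Ec) => p.1.foldl (stq C m k T) p.2 := by
    refine FP.foldl (g := stq C m k T) (fp_stq C m k T) (B := fun n => 2 * n + 1 + (n + B n)) ?_ ?_
    · exact PB.add (PB.add (PB.mul (PB.const 2) PB.id) (PB.const 1)) (PB.add PB.id hB)
    · intro A s
      obtain ⟨h2, h3⟩ := emb_fold C m k T hle A s
      have h4 : sz (A.foldl (stq C m k T) s) = 2 * sz (A.foldl (stq C m k T) s).1 + 1 +
          sz (A.foldl (stq C m k T) s).2 := sz_pair _ _
      have h5 : sz s = 2 * sz s.1 + 1 + sz s.2 := sz_pair _ _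
      rw [h4, h2, sz_append]
      have h6 : B (sz s.1 + sz A) ≤ B (sz A + sz s) := hm (by omega)
      omega
  exact (h1.comp (FP.pair hf (FP.pair (fp_tre hf) (FP.const [])))).snd'

theorem fp_main (C m k T : ℕ) : IsPolyTime (main C m k T) := by
  rw [isPolyTime_iff]
  exact fp_genN C m k T (fp_twl (fp_std FP.id) (fp_emb C m k T FP.id))

end

end Pool.Agent.SCG
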