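import Pool.Agent.SCG.HEmb
import Pool.Agent.SCG.FpMain

/-!
# SCG: the main theorem
-/

set_option autoImplicit false

open Finset
open scoped Classical

namespace Pool.Agent.SCG

open Pool.Agent.Helper35.OG (Flag GMap across side orientableGenus)
open Pool.Agent.BEO (nb)
open N68a2faeb

theorem final (k : ℕ) : ∃ f : List (ℕ × ℕ) → ℕ, IsPolyTime f ∧ ∀ (n : ℕ) (G : SimpleGraph (Fin n)), G.Connected →
    2 ≤ n → (∀ v, (nb G v).card ≤ 3) → (∃ M : GMap G, M.eg ≤ k) → ∀ A : List (ℕ × ℕ), Lists G A →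
      f A = orientableGenus G := by
  obtain ⟨T, hT⟩ := main_spec k
  exact ⟨main (cc (k + 2)) (mm (cc (k + 2))) (k + 2) T, fp_main _ _ _ _, hT⟩

end Pool.Agent.SCG
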