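import Mathlib

/-!
# SCG-RForm: ranks of symmetric forms on sums of two orthogonal subspaces (Mathlib only)

PLAN. `rk_block`: pull the form back to `V1 × V2` along the surjection onto `V1 ⊔ V2`; ranks do not change under
pullback along a surjection (the range of the pulled back map is the image of the range under the injective dual map);
the pulled back form is `(x, y), (x', y') ↦ N x x' + N y y'` because the cross terms vanish, and its range is the product
of the ranges. `rk_sub`: composition with the inclusion and its dual; `finrank Z ≤ finrank V + c` and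
`finrank (range N) ≤ finrank (range (N restricted to V in both arguments)) + 2 c`: restricting one argument lowers the
rank by at most `c`. `rk_gram`: the rank of the form on the span of the vectors `v i` is the rank of its Gram matrix.
-/

set_option autoImplicit false

open scoped Classical

namespace Pool.Agent.SCG

variable {Z : Type} [AddCommGroup Z] [Module (ZMod 2) Z] [Module.Finite (ZMod 2) Z]

/-- the rank of a form on a subspace -/
noncomputable def rkOn (N : Z →ₗ[ZMod 2] Z →ₗ[ZMod 2] ZMod 2) (V : Submodule (ZMod 2) Z) : ℕ :=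
  Module.finrank (ZMod 2) (LinearMap.range ((V.subtype.dualMap ∘ₗ N) ∘ₗ V.subtype))

private theorem rform_map_inj {A B : Type*} [AddCommGroup A] [Module (ZMod 2) A] [AddCommGroup B] [Module (ZMod 2) B]
    (f : A →ₗ[ZMod 2] B) (hf : Function.Injective f) (W : Submodule (ZMod 2) A) :
    Module.finrank (ZMod 2) (W.map f) = Module.finrank (ZMod 2) W :=
  (LinearEquiv.finrank_eq (Submodule.equivMapOfInjective f hf W)).symm

private theorem rform_dom {A B : Type*} [AddCommGroup A] [Module (ZMod 2) A] [AddCommGroup B] [Module (ZMod 2) B]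
    [Module.Finite (ZMod 2) A] (f : A →ₗ[ZMod 2] B) (W : Submodule (ZMod 2) A) :
    Module.finrank (ZMod 2) W ≤ Module.finrank (ZMod 2) (W.map f) + Module.finrank (ZMod 2) (LinearMap.ker f) := by
  have h2 := LinearMap.finrank_range_add_finrank_ker (f ∘ₗ W.subtype)
  have h3 : LinearMap.range (f ∘ₗ W.subtype) = W.map f := by
    rw [LinearMap.range_comp, Submodule.range_subtype]
  have h4 : Module.finrank (ZMod 2) (LinearMap.ker (f ∘ₗ W.subtype)) ≤ Module.finrank (ZMod 2) (LinearMap.ker f) := by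
    have h5 : (LinearMap.ker (f ∘ₗ W.subtype)).map W.subtype ≤ LinearMap.ker f := by
      rintro _ ⟨x, hx, rfl⟩
      exact hx
    have h6 := Submodule.finrank_mono h5
    rwa [rform_map_inj _ (Submodule.subtype_injective W)] at h6
  rw [h3] at h2
  omega

theorem rk_sub (N : Z →ₗ[ZMod 2] Z →ₗ[ZMod 2] ZMod 2) (V : Submodule (ZMod 2) Z) :
    rkOn N V ≤ Module.finrank (ZMod 2) (LinearMap.range N) := by
  unfold rkOn
  have h1 : LinearMap.range ((V.subtype.dualMap ∘ₗ N) ∘ₗ V.subtype) ≤ (LinearMap.range N).map V.subtype.dualMap := by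
    rw [← LinearMap.range_comp]
    exact LinearMap.range_comp_le_range _ _
  exact (Submodule.finrank_mono h1).trans (Submodule.finrank_map_le _ _)

theorem rk_le_sub (N : Z →ₗ[ZMod 2] Z →ₗ[ZMod 2] ZMod 2) (V : Submodule (ZMod 2) Z) (c : ℕ)
    (hc : Module.finrank (ZMod 2) Z ≤ Module.finrank (ZMod 2) V + c) :
    Module.finrank (ZMod 2) (LinearMap.range N) ≤ rkOn N V + 2 * c := by
  -- first argument
  have s1 : Module.finrank (ZMod 2) (LinearMap.range N) ≤
      Module.finrank (ZMod 2) (LinearMap.range (N ∘ₗ V.subtype)) + c := by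
    obtain ⟨V', hV'⟩ := Submodule.exists_isCompl V
    have h1 : LinearMap.range N = V.map N ⊔ V'.map N := by
      rw [← Submodule.map_sup, hV'.sup_eq_top, Submodule.map_top]
    have h2 : LinearMap.range (N ∘ₗ V.subtype) = V.map N := by
      rw [LinearMap.range_comp, Submodule.range_subtype]
    have h3 : Module.finrank (ZMod 2) (V'.map N) ≤ c := by
      have h4 := Submodule.finrank_map_le N V'
      have h5 := Submodule.finrank_add_eq_of_isCompl hV'
      omega
    rw [h2, h1]
    have h6 := Submodule.finrank_add_le_finrank_add_finrank (V.map N) (V'.map N)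
    omega
  -- second argument
  have hsurj : Function.Surjective (V.subtype.dualMap) :=
    LinearMap.dualMap_surjective_of_injective (Submodule.subtype_injective V)
  have hker : Module.finrank (ZMod 2) (LinearMap.ker V.subtype.dualMap) ≤ c := by
    have h1 := LinearMap.finrank_range_add_finrank_ker V.subtype.dualMap
    rw [LinearMap.range_eq_top.2 hsurj, finrank_top, Subspace.dual_finrank_eq, Subspace.dual_finrank_eq] at h1
    omega
  have s2 : Module.finrank (ZMod 2) (LinearMap.range (N ∘ₗ V.subtype)) ≤ rkOn N V + c := by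
    obtain ⟨W, hW⟩ : ∃ W : Submodule (ZMod 2) (Z →ₗ[ZMod 2] ZMod 2), W = LinearMap.range (N ∘ₗ V.subtype) := ⟨_, rfl⟩
    have h1 : LinearMap.range ((V.subtype.dualMap ∘ₗ N) ∘ₗ V.subtype) = W.map V.subtype.dualMap := by
      rw [hW, ← LinearMap.range_comp, LinearMap.comp_assoc]
    have h2 : Module.finrank (ZMod 2) W ≤ Module.finrank (ZMod 2) (W.map V.subtype.dualMap) +
        Module.finrank (ZMod 2) (LinearMap.ker V.subtype.dualMap) := rform_dom V.subtype.dualMap W
    have h3 : rkOn N V = Module.finrank (ZMod 2) (W.map V.subtype.dualMap) := by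
      unfold rkOn
      rw [h1]
    rw [h3, ← hW]
    exact h2.trans (Nat.add_le_add_left hker _)
  omega

/-- Pulling back along a linear map. -/
private theorem rform_pull {U : Type} [AddCommGroup U] [Module (ZMod 2) U]
    (N : Z →ₗ[ZMod 2] Z →ₗ[ZMod 2] ZMod 2) (f : U →ₗ[ZMod 2] Z) :
    Module.finrank (ZMod 2) (LinearMap.range ((f.dualMap ∘ₗ N) ∘ₗ f)) = rkOn N (LinearMap.range f) := by
  have h1 : (f.dualMap ∘ₗ N) ∘ₗ f = (f.rangeRestrict.dualMap ∘ₗ
      (((LinearMap.range f).subtype.dualMap ∘ₗ N) ∘ₗ (LinearMap.range f).subtype)) ∘ₗ f.rangeRestrict := by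
    refine LinearMap.ext fun x => LinearMap.ext fun y => ?_
    rfl
  have h2 : Function.Injective (f.rangeRestrict.dualMap) :=
    LinearMap.dualMap_injective_of_surjective f.surjective_rangeRestrict
  unfold rkOn
  rw [h1, LinearMap.range_comp_of_range_eq_top _ (LinearMap.range_eq_top.2 f.surjective_rangeRestrict),
    LinearMap.range_comp, rform_map_inj _ h2]

theorem rk_block (N : Z →ₗ[ZMod 2] Z →ₗ[ZMod 2] ZMod 2) (V1 V2 : Submodule (ZMod 2) Z)
    (h12 : ∀ x ∈ V1, ∀ y ∈ V2, N x y = 0) (h21 : ∀ x ∈ V1, ∀ y ∈ V2, N y x = 0) :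
    rkOn N (V1 ⊔ V2) = rkOn N V1 + rkOn N V2 := by
  have hr : LinearMap.range (V1.subtype.coprod V2.subtype) = V1 ⊔ V2 := by
    rw [LinearMap.range_coprod, Submodule.range_subtype, Submodule.range_subtype]
  rw [← hr, ← rform_pull]
  obtain ⟨M1, hM1⟩ : ∃ M1 : V1 →ₗ[ZMod 2] V1 →ₗ[ZMod 2] ZMod 2, M1 = (V1.subtype.dualMap ∘ₗ N) ∘ₗ V1.subtype := ⟨_, rfl⟩
  obtain ⟨M2, hM2⟩ : ∃ M2 : V2 →ₗ[ZMod 2] V2 →ₗ[ZMod 2] ZMod 2, M2 = (V2.subtype.dualMap ∘ₗ N) ∘ₗ V2.subtype := ⟨_, rfl⟩
  have e1 : rkOn N V1 = Module.finrank (ZMod 2) (LinearMap.range M1) := by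
    unfold rkOn
    rw [hM1]
  have e2 : rkOn N V2 = Module.finrank (ZMod 2) (LinearMap.range M2) := by
    unfold rkOn
    rw [hM2]
  rw [e1, e2, ← Module.finrank_prod]
  -- the injective map from the product of the ranges
  let Ψ : (LinearMap.range M1 × LinearMap.range M2) →ₗ[ZMod 2] ((V1 × V2) →ₗ[ZMod 2] ZMod 2) :=
    { toFun := fun p => (p.1 : V1 →ₗ[ZMod 2] ZMod 2).coprod (p.2 : V2 →ₗ[ZMod 2] ZMod 2)
      map_add' := by
        intro p q
        refine LinearMap.ext fun z => ?_
        simp only [LinearMap.coprod_apply, Prod.fst_add, Prod.snd_add, Submodule.coe_add, LinearMap.add_apply]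
        abel
      map_smul' := by
        intro r p
        refine LinearMap.ext fun z => ?_
        simp only [LinearMap.coprod_apply, Prod.smul_fst, Prod.smul_snd, Submodule.coe_smul, LinearMap.smul_apply,
          RingHom.id_apply, smul_add] }
  have hΨ : Function.Injective Ψ := by
    rintro ⟨⟨a, ha⟩, ⟨b, hb⟩⟩ ⟨⟨a', ha'⟩, ⟨b', hb'⟩⟩ h
    have h1 : ∀ z : V1 × V2, a z.1 + b z.2 = a' z.1 + b' z.2 := fun z => LinearMap.congr_fun h z
    have h2 : a = a' := by
      refine LinearMap.ext fun x => ?_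
      have h3 := h1 (x, 0)
      simpa using h3
    have h4 : b = b' := by
      refine LinearMap.ext fun x => ?_
      have h3 := h1 (0, x)
      simpa using h3
    subst h2
    subst h4
    rfl
  have hS : Function.Surjective (M1.rangeRestrict.prodMap M2.rangeRestrict) := by
    rintro ⟨a, b⟩
    obtain ⟨x, hx⟩ := M1.surjective_rangeRestrict a
    obtain ⟨y, hy⟩ := M2.surjective_rangeRestrict b
    exact ⟨(x, y), Prod.ext hx hy⟩
  have hg : ((V1.subtype.coprod V2.subtype).dualMap ∘ₗ N) ∘ₗ (V1.subtype.coprod V2.subtype) =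
      Ψ ∘ₗ (M1.rangeRestrict.prodMap M2.rangeRestrict) := by
    refine LinearMap.ext fun p => LinearMap.ext fun q => ?_
    have a1 : N (p.1 : Z) (q.2 : Z) = 0 := h12 _ p.1.2 _ q.2.2
    have a2 : N (p.2 : Z) (q.1 : Z) = 0 := h21 _ q.1.2 _ p.2.2
    have l1 : (((V1.subtype.coprod V2.subtype).dualMap ∘ₗ N) ∘ₗ (V1.subtype.coprod V2.subtype)) p q =
        N ((p.1 : Z) + (p.2 : Z)) ((q.1 : Z) + (q.2 : Z)) := rfl
    have l2 : (Ψ ∘ₗ (M1.rangeRestrict.prodMap M2.rangeRestrict)) p q = M1 p.1 q.1 + M2 p.2 q.2 := rfl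
    have l3 : M1 p.1 q.1 = N (p.1 : Z) (q.1 : Z) := by
      rw [hM1]
      rfl
    have l4 : M2 p.2 q.2 = N (p.2 : Z) (q.2 : Z) := by
      rw [hM2]
      rfl
    rw [l1, l2, l3, l4, map_add, map_add, LinearMap.add_apply, LinearMap.add_apply, a1, a2]
    ring
  rw [hg, LinearMap.range_comp_of_range_eq_top _ (LinearMap.range_eq_top.2 hS), LinearMap.finrank_range_of_inj hΨ]

theorem rk_gram {I : Type} (N : Z →ₗ[ZMod 2] Z →ₗ[ZMod 2] ZMod 2) (v : I → Z) :
    rkOn N (Submodule.span (ZMod 2) (Set.range v)) =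
      Module.finrank (ZMod 2) (Submodule.span (ZMod 2) (Set.range fun (i j : I) => N (v i) (v j))) := by
  obtain ⟨V, hV⟩ : ∃ V, V = Submodule.span (ZMod 2) (Set.range v) := ⟨_, rfl⟩
  rw [← hV]
  have hmem : ∀ i, v i ∈ V := fun i => by
    rw [hV]
    exact Submodule.subset_span ⟨i, rfl⟩
  obtain ⟨u, hu⟩ : ∃ u : I → V, ∀ i, (u i : Z) = v i := ⟨fun i => ⟨v i, hmem i⟩, fun i => rfl⟩
  have htop : Submodule.span (ZMod 2) (Set.range u) = ⊤ := by
    have h1 : (Submodule.span (ZMod 2) (Set.range u)).map V.subtype = V := by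
      rw [Submodule.map_span, ← Set.range_comp]
      have h2 : (⇑V.subtype ∘ u) = v := funext fun i => hu i
      rw [h2]
      exact hV.symm
    refine (Submodule.map_injective_of_injective (Submodule.subtype_injective V)) ?_
    rw [h1, Submodule.map_top, Submodule.range_subtype]
  let Φ : (V →ₗ[ZMod 2] ZMod 2) →ₗ[ZMod 2] (I → ZMod 2) :=
    { toFun := fun φ j => φ (u j)
      map_add' := fun φ ψ => rfl
      map_smul' := fun r φ => rfl }
  have hΦ : Function.Injective Φ := by
    intro φ ψ h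
    have h1 : ∀ j, φ (u j) = ψ (u j) := fun j => congrFun h j
    refine LinearMap.ext_on_range (v := u) htop fun j => h1 j
  unfold rkOn
  rw [← rform_map_inj Φ hΦ, ← LinearMap.range_comp]
  have h3 : LinearMap.range (Φ ∘ₗ ((V.subtype.dualMap ∘ₗ N) ∘ₗ V.subtype)) =
      Submodule.span (ZMod 2) (Set.range fun (i j : I) => N (v i) (v j)) := by
    rw [← Submodule.map_top, ← htop, Submodule.map_span, ← Set.range_comp]
    congr 2
    funext i j
    show N (u i : Z) (u j : Z) = N (v i) (v j)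
    rw [hu, hu]
  rw [h3]

/-- a form which is a sum of `m` squares on a subspace has rank at most `m` there -/
theorem rk_sum {E : Type} (N : Z →ₗ[ZMod 2] Z →ₗ[ZMod 2] ZMod 2) (V : Submodule (ZMod 2) Z) (s : Finset E)
    (a : E → Z →ₗ[ZMod 2] ZMod 2) (h : ∀ x ∈ V, ∀ y ∈ V, N x y = ∑ e ∈ s, a e x * a e y) : rkOn N V ≤ s.card := by
  unfold rkOn
  have h1 : LinearMap.range ((V.subtype.dualMap ∘ₗ N) ∘ₗ V.subtype) ≤
      Submodule.span (ZMod 2) ((s.image fun e => (a e) ∘ₗ V.subtype : Finset (V →ₗ[ZMod 2] ZMod 2)) : Set (V →ₗ[ZMod 2] ZMod 2)) := by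
    rintro _ ⟨x, rfl⟩
    have h2 : ((V.subtype.dualMap ∘ₗ N) ∘ₗ V.subtype) x = ∑ e ∈ s, a e (x : Z) • ((a e) ∘ₗ V.subtype) := by
      refine LinearMap.ext fun y => ?_
      have h3 : (((V.subtype.dualMap ∘ₗ N) ∘ₗ V.subtype) x) y = N (x : Z) (y : Z) := rfl
      rw [h3, h _ x.2 _ y.2, LinearMap.sum_apply]
      rfl
    rw [h2]
    refine Submodule.sum_mem _ fun e he => Submodule.smul_mem _ _ (Submodule.subset_span ?_)
    exact Finset.mem_coe.2 (Finset.mem_image_of_mem _ he)
  have h4 := finrank_span_finset_le_card (R := ZMod 2) (s.image fun e => (a e) ∘ₗ V.subtype : Finset (V →ₗ[ZMod 2] ZMod 2))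
  exact (Submodule.finrank_mono h1).trans (h4.trans Finset.card_image_le)

/-- two forms which agree on a subspace have the same rank there -/
theorem rk_congr (N N' : Z →ₗ[ZMod 2] Z →ₗ[ZMod 2] ZMod 2) (V : Submodule (ZMod 2) Z)
    (h : ∀ x ∈ V, ∀ y ∈ V, N x y = N' x y) : rkOn N V = rkOn N' V := by
  unfold rkOn
  have h1 : (V.subtype.dualMap ∘ₗ N) ∘ₗ V.subtype = (V.subtype.dualMap ∘ₗ N') ∘ₗ V.subtype := by
    refine LinearMap.ext fun x => LinearMap.ext fun y => ?_
    exact h _ x.2 _ y.2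
  rw [h1]

end Pool.Agent.SCG
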