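import Pool.Agent.SCG.HStd
import Pool.Agent.SCG.RForm
import Pool.Agent.BEO.FrmRank
import Pool.Agent.BEO.CycDim

/-!
# SCG-HAdd: adding an edge to a graph

`G2` is `G1` with one more edge `a b`.
PLAN. `cycE`: the inclusion of the cycle space (extension by zero at the new edge; sum at a vertex: the darts of `G2` are
those of `G1` and the two new ones). `sc_add`: the successor in `G2` of a neighbour `v` (in `G1`) of `u` is the successor
in `G1`, or it is the new neighbour and its successor in `G2` is the successor in `G1` (`u` has a neighbour in `G1`).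
`pot_add`: let `L` be a potential of `cycE z` for `stdM G2` (`exists_L`); its restriction to the flags of `G1` is a
potential of `z` for `stdM G1`: for a flag `(d, true)` of `G1` use `sc_add` and `L (new dart, false) = L (new dart, true)`
(the new edge is not in the cycle); flags `(d, false)` by applying `nxt`. `frm_add`: `frm_eq` twice, the new edge
contributes 0. `rank_add`: `frm (twist ..) ` on cycles of `G1` agree (`twist_frm`), so with
`V := range cycE` (of dimension `finrank (cyc G2) - 1`, `finrank_cyc`) `rk_sub`, `rk_le_sub` with `c = 1` and the equality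
of `rkOn .. V` with the rank for `G1` (pull back along the injective `cycE`), `frm_rank`.
-/

set_option autoImplicit false

open Finset
open scoped Classical

namespace Pool.Agent.SCG

open Pool.Agent.Helper35.OG (Flag GMap across side)
open Pool.Agent.BEO (F2 ed rp cyc ev twist tph frm frm_rank twist_frm finrank_cyc IsL dL)

variable {n : ℕ}

/-- `G2` is `G1` with one more edge `a b` -/
def AddE (G1 G2 : SimpleGraph (Fin n)) (a b : Fin n) : Prop :=
  a ≠ b ∧ ¬ G1.Adj a b ∧ ∀ u v, G2.Adj u v ↔ G1.Adj u v ∨ (u = a ∧ v = b) ∨ (u = b ∧ v = a)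

theorem addE_le {G1 G2 : SimpleGraph (Fin n)} {a b : Fin n} (h : AddE G1 G2 a b) : G1 ≤ G2 := by
  intro u v huv
  exact (h.2.2 u v).2 (Or.inl huv)

/-- the inclusion of the edges -/
def eI {G1 G2 : SimpleGraph (Fin n)} (h : G1 ≤ G2) (e : G1.edgeSet) : G2.edgeSet :=
  ⟨e.1, SimpleGraph.edgeSet_mono h e.2⟩

/-- the inclusion of the flags -/
def fI {G1 G2 : SimpleGraph (Fin n)} (h : G1 ≤ G2) (p : Flag G1) : Flag G2 := (⟨p.1.toProd, h p.1.adj⟩, p.2)

private theorem scG_up {G : SimpleGraph (Fin n)} {u v w : Fin n} (h1 : G.Adj u w) (h2 : v < w)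
    (h3 : ∀ z, G.Adj u z → v < z → w ≤ z) : scG G u v = w := by
  have hmem : w ∈ upN G u v := mem_filter.2 ⟨mem_univ _, h1, h2⟩
  unfold scG
  rw [dif_pos ⟨w, hmem⟩]
  refine le_antisymm (min'_le _ _ hmem) ?_
  refine le_min' _ _ _ ?_
  intro z hz
  obtain ⟨-, z1, z2⟩ := mem_filter.1 hz
  exact h3 z z1 z2

private theorem scG_mn {G : SimpleGraph (Fin n)} {u v w : Fin n} (h0 : ∀ z, G.Adj u z → z ≤ v)
    (h1 : G.Adj u w) (h3 : ∀ z, G.Adj u z → w ≤ z) : scG G u v = w := by
  have hmem : w ∈ alN G u := mem_filter.2 ⟨mem_univ _, h1⟩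
  have hno : ¬ (upN G u v).Nonempty := by
    rintro ⟨z, hz⟩
    obtain ⟨-, z1, z2⟩ := mem_filter.1 hz
    exact absurd (h0 z z1) (not_le.2 z2)
  unfold scG
  rw [dif_neg hno, dif_pos ⟨w, hmem⟩]
  refine le_antisymm (min'_le _ _ hmem) ?_
  refine le_min' _ _ _ ?_
  intro z hz
  exact h3 z (mem_filter.1 hz).2

private theorem scG_cases {G : SimpleGraph (Fin n)} {u v : Fin n} (h : G.Adj u v) :
    (G.Adj u (scG G u v) ∧ v < scG G u v ∧ ∀ z, G.Adj u z → v < z → scG G u v ≤ z) ∨
    ((∀ z, G.Adj u z → z ≤ v) ∧ G.Adj u (scG G u v) ∧ ∀ z, G.Adj u z → scG G u v ≤ z) := by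
  by_cases hu : (upN G u v).Nonempty
  · left
    have e : scG G u v = (upN G u v).min' hu := by
      unfold scG
      rw [dif_pos hu]
    have hm := min'_mem (upN G u v) hu
    rw [← e] at hm
    obtain ⟨-, m1, m2⟩ := mem_filter.1 hm
    refine ⟨m1, m2, ?_⟩
    intro z z1 z2
    rw [e]
    exact min'_le _ _ (mem_filter.2 ⟨mem_univ _, z1, z2⟩)
  · right
    have ha : (alN G u).Nonempty := ⟨v, mem_filter.2 ⟨mem_univ _, h⟩⟩
    have e : scG G u v = (alN G u).min' ha := by
      unfold scG
      rw [dif_neg hu, dif_pos ha]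
    have hm := min'_mem (alN G u) ha
    rw [← e] at hm
    obtain ⟨-, m1⟩ := mem_filter.1 hm
    refine ⟨?_, m1, ?_⟩
    · intro z hz
      by_contra hcon
      exact hu ⟨z, mem_filter.2 ⟨mem_univ _, hz, not_le.1 hcon⟩⟩
    · intro z hz
      rw [e]
      exact min'_le _ _ (mem_filter.2 ⟨mem_univ _, hz⟩)

private theorem sc_ins {G1 G2 : SimpleGraph (Fin n)} {u v x : Fin n} (hx : ¬ G1.Adj u x)
    (h : ∀ z, G2.Adj u z ↔ G1.Adj u z ∨ z = x) (huv : G1.Adj u v) :
    scG G2 u v = scG G1 u v ∨ (¬ G1.Adj u (scG G2 u v) ∧ scG G2 u (scG G2 u v) = scG G1 u v) := by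
  obtain ⟨w, hw⟩ : ∃ w, w = scG G1 u v := ⟨_, rfl⟩
  have hc := scG_cases huv
  rw [← hw] at hc ⊢
  have hxv : x ≠ v := by
    rintro rfl
    exact hx huv
  rcases hc with ⟨c1, c2, c3⟩ | ⟨c0, c1, c3⟩
  · have hxw : x ≠ w := by
      rintro rfl
      exact hx c1
    by_cases hvx : v < x ∧ x < w
    · right
      have e1 : scG G2 u v = x := by
        refine scG_up ((h x).2 (Or.inr rfl)) hvx.1 ?_
        intro z hz hvz
        rcases (h z).1 hz with hz | hz
        · exact hvx.2.le.trans (c3 z hz hvz)
        · exact hz.ge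
      rw [e1]
      refine ⟨hx, scG_up ((h w).2 (Or.inl c1)) hvx.2 ?_⟩
      intro z hz hxz
      rcases (h z).1 hz with hz | hz
      · exact c3 z hz (hvx.1.trans hxz)
      · exact absurd hxz (by rw [hz]; exact lt_irrefl _)
    · left
      refine scG_up ((h w).2 (Or.inl c1)) c2 ?_
      intro z hz hvz
      rcases (h z).1 hz with hz | hz
      · exact c3 z hz hvz
      · rw [hz] at hvz ⊢
        by_contra hcon
        exact hvx ⟨hvz, not_le.1 hcon⟩
  · have hxw : x ≠ w := by
      rintro rfl
      exact hx c1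
    have hwv : w ≤ v := c3 v huv
    rcases lt_or_gt_of_ne hxv with hlt | hgt
    · rcases lt_or_gt_of_ne hxw with hlw | hgw
      · right
        have e1 : scG G2 u v = x := by
          refine scG_mn ?_ ((h x).2 (Or.inr rfl)) ?_
          · intro z hz
            rcases (h z).1 hz with hz | hz
            · exact c0 z hz
            · rw [hz]
              exact hlt.le
          · intro z hz
            rcases (h z).1 hz with hz | hz
            · exact hlw.le.trans (c3 z hz)
            · exact hz.ge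
        rw [e1]
        refine ⟨hx, scG_up ((h w).2 (Or.inl c1)) hlw ?_⟩
        intro z hz hxz
        rcases (h z).1 hz with hz | hz
        · exact c3 z hz
        · exact absurd hxz (by rw [hz]; exact lt_irrefl _)
      · left
        refine scG_mn ?_ ((h w).2 (Or.inl c1)) ?_
        · intro z hz
          rcases (h z).1 hz with hz | hz
          · exact c0 z hz
          · rw [hz]
            exact hlt.le
        · intro z hz
          rcases (h z).1 hz with hz | hz
          · exact c3 z hz
          · rw [hz]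
            exact hgw.le
    · right
      have e1 : scG G2 u v = x := by
        refine scG_up ((h x).2 (Or.inr rfl)) hgt ?_
        intro z hz hvz
        rcases (h z).1 hz with hz | hz
        · exact absurd (c0 z hz) (not_le.2 hvz)
        · exact hz.ge
      rw [e1]
      refine ⟨hx, scG_mn ?_ ((h w).2 (Or.inl c1)) ?_⟩
      · intro z hz
        rcases (h z).1 hz with hz | hz
        · exact (c0 z hz).trans hgt.le
        · exact hz.le
      · intro z hz
        rcases (h z).1 hz with hz | hz
        · exact c3 z hz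
        · rw [hz]
          exact hwv.trans hgt.le

theorem sc_add {G1 G2 : SimpleGraph (Fin n)} {a b : Fin n} (h : AddE G1 G2 a b) (u v : Fin n) (huv : G1.Adj u v) :
    scG G2 u v = scG G1 u v ∨ (¬ G1.Adj u (scG G2 u v) ∧ scG G2 u (scG G2 u v) = scG G1 u v) := by
  obtain ⟨hab, hn, hadj⟩ := h
  by_cases ha : u = a
  · subst ha
    refine sc_ins hn ?_ huv
    intro z
    rw [hadj]
    constructor
    · rintro (h1 | ⟨-, h1⟩ | ⟨h1, -⟩)
      · exact Or.inl h1
      · exact Or.inr h1
      · exact absurd h1 hab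
    · rintro (h1 | h1)
      · exact Or.inl h1
      · exact Or.inr (Or.inl ⟨rfl, h1⟩)
  · by_cases hb : u = b
    · subst hb
      refine sc_ins (x := a) (fun h1 => hn h1.symm) ?_ huv
      intro z
      rw [hadj]
      constructor
      · rintro (h1 | ⟨h1, -⟩ | ⟨-, h1⟩)
        · exact Or.inl h1
        · exact absurd h1 ha
        · exact Or.inr h1
      · rintro (h1 | h1)
        · exact Or.inl h1
        · exact Or.inr (Or.inr ⟨rfl, h1⟩)
    · left
      have hz : ∀ z, G2.Adj u z ↔ G1.Adj u z := by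
        intro z
        rw [hadj]
        constructor
        · rintro (h1 | ⟨h1, -⟩ | ⟨h1, -⟩)
          · exact h1
          · exact absurd h1 ha
          · exact absurd h1 hb
        · exact Or.inl
      rcases scG_cases huv with ⟨c1, c2, c3⟩ | ⟨c0, c1, c3⟩
      · exact scG_up ((hz _).2 c1) c2 fun z h1 h2 => c3 z ((hz z).1 h1) h2
      · exact scG_mn (fun z h1 => c0 z ((hz z).1 h1)) ((hz _).2 c1)
          fun z h1 => c3 z ((hz z).1 h1)

private theorem flag_ext {G : SimpleGraph (Fin n)} {p q : Flag G} (h1 : p.1.fst = q.1.fst)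
    (h2 : p.1.snd = q.1.snd) (h3 : p.2 = q.2) : p = q := by
  refine Prod.ext ?_ h3
  refine SimpleGraph.Dart.ext _ _ ?_
  exact Prod.ext h1 h2

/-- every flag with side `false` is the next one of a flag with side `true` -/
private theorem stdM_surj (G : SimpleGraph (Fin n)) (p : Flag G) (hp : p.2 = false) :
    ∃ q : Flag G, q.2 = true ∧ (stdM G).nxt q = p := by
  obtain ⟨f, hf⟩ : ∃ f : {q : Flag G // q.2 = true} → {q : Flag G // q.2 = true},
      ∀ q, (f q).1 = side ((stdM G).nxt q.1) := by
    refine ⟨fun q => ⟨side ((stdM G).nxt q.1), ?_⟩, fun q => rfl⟩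
    show (!((stdM G).nxt q.1).2) = true
    rw [(stdM_nxt G q.1 q.2).1]
    rfl
  have hinj : Function.Injective f := by
    intro q q' he
    have h1 : side ((stdM G).nxt q.1) = side ((stdM G).nxt q'.1) := by
      rw [← hf, ← hf, he]
    have h2 : (stdM G).nxt q.1 = (stdM G).nxt q'.1 := by
      rw [← Pool.Agent.Helper35.OG.side_side ((stdM G).nxt q.1), h1,
        Pool.Agent.Helper35.OG.side_side]
    have h3 : q.1 = q'.1 := by
      rw [← (stdM G).nxt_nxt q.1, h2, (stdM G).nxt_nxt]
    exact Subtype.ext h3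
  have hsurj := Finite.surjective_of_injective hinj
  obtain ⟨q, hq⟩ := hsurj ⟨side p, by
    show (!p.2) = true
    rw [hp]
    rfl⟩
  refine ⟨q.1, q.2, ?_⟩
  have h1 : side ((stdM G).nxt q.1) = side p := by
    rw [← hf, hq]
  rw [← Pool.Agent.Helper35.OG.side_side ((stdM G).nxt q.1), h1,
    Pool.Agent.Helper35.OG.side_side]

/-- the potential restricted to the smaller graph -/
theorem pot_add {G1 G2 : SimpleGraph (Fin n)} {a b : Fin n} (h : AddE G1 G2 a b)
    (z1 : G1.edgeSet → F2) (z2 : G2.edgeSet → F2) (hz : ∀ e, z2 (eI (addE_le h) e) = z1 e)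
    (h0 : ∀ e : G2.edgeSet, e.1 ∉ G1.edgeSet → z2 e = 0) (L : Flag G2 → F2) (hL : IsL (stdM G2) z2 L) :
    IsL (stdM G1) z1 fun p => L (fI (addE_le h) p) := by
  have hle := addE_le h
  have htrue : ∀ p : Flag G1, p.2 = true →
      L (fI hle ((stdM G1).nxt p)) = L (fI hle p) := by
    intro p hp
    obtain ⟨a1, a2⟩ := stdM_nxt G1 p hp
    have a3 := (stdM G1).nxt_fst p
    obtain ⟨b1, b2⟩ := stdM_nxt G2 (fI hle p) hp
    have b3 := (stdM G2).nxt_fst (fI hle p)
    have hfst : (fI hle p).1.fst = p.1.fst := rfl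
    have hsnd : (fI hle p).1.snd = p.1.snd := rfl
    rw [hfst] at b3
    rw [hfst, hsnd] at b2
    obtain ⟨r, hr⟩ : ∃ r, r = (stdM G2).nxt (fI hle p) := ⟨_, rfl⟩
    rw [← hr] at b1 b2 b3
    have hLr : L r = L (fI hle p) := by
      rw [hr]
      exact hL.1 _
    rcases sc_add h p.1.fst p.1.snd p.1.adj with hs | ⟨hs1, hs2⟩
    · have e : fI hle ((stdM G1).nxt p) = r := by
        refine flag_ext ?_ ?_ ?_
        · rw [b3]
          exact a3
        · rw [b2, hs]
          exact a2
        · rw [b1]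
          exact a1
      rw [e, hLr]
    · rw [← b2] at hs1 hs2
      have hside : L r + L (side r) = 0 := by
        rw [hL.2 r]
        refine h0 _ ?_
        intro hmem
        apply hs1
        have h1 : (ed r).1 = s(r.1.fst, r.1.snd) := rfl
        rw [h1, SimpleGraph.mem_edgeSet, b3] at hmem
        exact hmem
      have hside' : L (side r) = L r := by
        have h1 : L (side r) = -L r := by
          rw [eq_neg_iff_add_eq_zero, add_comm]
          exact hside
        rw [h1]
        exact ZMod.neg_eq_self_mod_two (L r)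
      obtain ⟨c1, c2⟩ := stdM_nxt G2 (side r) (by
        show (!r.2) = true
        rw [b1]
        rfl)
      have c3 := (stdM G2).nxt_fst (side r)
      have hsf : (side r).1.fst = p.1.fst := b3
      have hss : (side r).1.snd = r.1.snd := rfl
      rw [hsf] at c3
      rw [hsf, hss, hs2] at c2
      have e : fI hle ((stdM G1).nxt p) = (stdM G2).nxt (side r) := by
        refine flag_ext ?_ ?_ ?_
        · rw [c3]
          exact a3
        · rw [c2]
          exact a2
        · rw [c1]
          exact a1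
      rw [e, hL.1, hside', hLr]
  refine ⟨?_, ?_⟩
  · intro p
    show L (fI hle ((stdM G1).nxt p)) = L (fI hle p)
    rcases hb : p.2 with _ | _
    · obtain ⟨q, hq, hqp⟩ := stdM_surj G1 p hb
      have h1 := htrue q hq
      rw [← hqp, (stdM G1).nxt_nxt]
      exact h1.symm
    · exact htrue p hb
  · intro p
    have h1 := hL.2 (fI hle p)
    rw [← hz (ed p)]
    exact h1

/-- the inclusion of the cycle space -/
theorem cyc_add {G1 G2 : SimpleGraph (Fin n)} {a b : Fin n} (h : AddE G1 G2 a b) :
    ∃ J : cyc G1 →ₗ[F2] cyc G2, Function.Injective J ∧ (∀ z e, (J z).1 (eI (addE_le h) e) = z.1 e) ∧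
      ∀ z, ∀ e : G2.edgeSet, e.1 ∉ G1.edgeSet → (J z).1 e = 0 := by
  have hle := addE_le h
  obtain ⟨X, hX⟩ : ∃ X : (G1.edgeSet → F2) → (G2.edgeSet → F2), X = fun z e =>
      if he : e.1 ∈ G1.edgeSet then z ⟨e.1, he⟩ else 0 := ⟨_, rfl⟩
  have hX1 : ∀ z e, X z (eI hle e) = z e := by
    intro z e
    rw [hX]
    show (if he : e.1 ∈ G1.edgeSet then z ⟨e.1, he⟩ else 0) = z e
    rw [dif_pos e.2]
  have hX0 : ∀ z, ∀ e : G2.edgeSet, e.1 ∉ G1.edgeSet → X z e = 0 := by
    intro z e he
    rw [hX]
    show (if he : e.1 ∈ G1.edgeSet then z ⟨e.1, he⟩ else 0) = 0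
    rw [dif_neg he]
  have hcyc : ∀ z ∈ cyc G1, X z ∈ cyc G2 := by
    intro z hz v
    have hzv := hz v
    obtain ⟨ι, hι⟩ : ∃ ι : G1.Dart → G2.Dart, ι = fun d => ⟨d.toProd, hle d.adj⟩ := ⟨_, rfl⟩
    have hιp : ∀ d, (ι d).toProd = d.toProd := by
      intro d
      rw [hι]
    have hιinj : Function.Injective ι := by
      intro d d' he
      refine SimpleGraph.Dart.ext _ _ ?_
      rw [← hιp d, he, hιp]
    have h1 : ∑ d ∈ (univ.filter (fun d : G1.Dart => d.fst = v)).image ι,
        X z (ed (d, true)) = 0 := by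
      rw [sum_image fun d _ d' _ he => hιinj he]
      refine Eq.trans (sum_congr (by ext d; simp) fun d _ => ?_) hzv
      rw [← hX1 z (ed (d, true)), hι]
      rfl
    have h3 : ∑ d ∈ univ.filter (fun d : G2.Dart => d.fst = v), X z (ed (d, true)) = 0 := by
      refine Eq.trans (Eq.symm ?_) h1
      refine sum_subset ?_ ?_
      · intro d hd
        obtain ⟨d', hd', rfl⟩ := mem_image.1 hd
        refine mem_filter.2 ⟨mem_univ _, ?_⟩
        rw [hι]
        exact (mem_filter.1 hd').2
      · intro d hd hnot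
        refine hX0 z _ ?_
        intro hmem
        apply hnot
        have h2 : (ed (d, true) : G2.edgeSet).1 = s(d.fst, d.snd) := rfl
        rw [h2, SimpleGraph.mem_edgeSet] at hmem
        refine mem_image.2 ⟨⟨(d.fst, d.snd), hmem⟩, ?_, ?_⟩
        · exact mem_filter.2 ⟨mem_univ _, (mem_filter.1 hd).2⟩
        · exact SimpleGraph.Dart.ext _ _ (hιp _)
    refine Eq.trans (sum_congr (by ext d; simp) fun d _ => rfl) h3
  refine ⟨{ toFun := fun z => ⟨X z.1, hcyc z.1 z.2⟩, map_add' := ?_, map_smul' := ?_ }, ?_, ?_, ?_⟩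
  · intro z z'
    apply Subtype.ext
    funext e
    show X (z.1 + z'.1) e = X z.1 e + X z'.1 e
    rw [hX]
    by_cases he : e.1 ∈ G1.edgeSet
    · simp only [dif_pos he, Pi.add_apply]
    · simp only [dif_neg he, add_zero]
  · intro c z
    apply Subtype.ext
    funext e
    show X (c • z.1) e = c • X z.1 e
    rw [hX]
    by_cases he : e.1 ∈ G1.edgeSet
    · simp only [dif_pos he, Pi.smul_apply]
    · simp only [dif_neg he, smul_zero]
  · intro z z' he
    apply Subtype.ext
    funext e
    have h1 : X z.1 = X z'.1 := congrArg Subtype.val he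
    rw [← hX1 z.1 e, h1, hX1]
  · intro z e
    exact hX1 z.1 e
  · intro z e he
    exact hX0 z.1 e he

end Pool.Agent.SCG
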