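import Pool.Agent.BEO.Cub
import Pool.Agent.BEO.Twist
import Pool.Agent.BEO.FrmRank
import Pool.Agent.BEO.FrmOri
import Pool.Agent.BEO.FrmSym
import Pool.Agent.Helper35.OG.Parity

/-!
# SCG-Gen: for a subcubic graph every map is a twist, genus

The form of a map determines its Euler genus and its orientability; for an orientable twist a linear functional on the
cycle space is extended to all functions on the edges.
-/

set_option autoImplicit false

open Finset
open scoped Classical

namespace Pool.Agent.SCG

open Pool.Agent.Helper35.OG (Flag GMap across side orientableGenus even_eg)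
open Pool.Agent.BEO (F2 ed rp cyc ev twist nb frm frm_rank frm_alt twist_frm all_twist)

variable {V : Type} {G : SimpleGraph V} [Fintype V] [LinearOrder V] [Nontrivial V]

theorem exists_twist (hG : G.Connected) (hv : ∀ v, (nb G v).card ≤ 3) (S M : GMap G) :
    ∃ lam : Finset G.edgeSet, (twist S lam).eg = M.eg ∧ ((twist S lam).Orientable ↔ M.Orientable) := by
  obtain ⟨lam, hlam⟩ := all_twist hv S M
  have h : frm (twist S lam) = frm M := by
    apply LinearMap.ext
    intro x
    apply LinearMap.ext
    intro y
    rw [twist_frm, hlam]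
  refine ⟨lam, ?_, ?_⟩
  · rw [← frm_rank hG, ← frm_rank hG, h]
  · rw [frm_alt, frm_alt, h]

theorem gen_le' (hG : G.Connected) (M : GMap G) (hM : M.Orientable) :
    ∃ g : ℕ, M.eg = 2 * (g : ℤ) ∧ orientableGenus G ≤ g := by
  obtain ⟨g, hg⟩ := even_eg hG M hM
  have h0 := frm_rank hG M
  refine ⟨g.toNat, by omega, ?_⟩
  apply Nat.sInf_le
  exact ⟨M, hM, by omega⟩

theorem gen_eq' (hG : G.Connected) (hv : ∀ v, (nb G v).card ≤ 3) (S : GMap G) (lam : Finset G.edgeSet)
    (hO : (twist S lam).Orientable) (hmin : ∀ lam', (twist S lam').Orientable → (twist S lam).eg ≤ (twist S lam').eg) :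
    (twist S lam).eg = 2 * (orientableGenus G : ℤ) := by
  obtain ⟨g, hg1, hg2⟩ := gen_le' hG _ hO
  have hmem : orientableGenus G ∈ {g : ℕ | ∃ M : GMap G, M.Orientable ∧ M.eg = 2 * (g : ℤ)} :=
    Nat.sInf_mem ⟨g, twist S lam, hO, hg1⟩
  obtain ⟨M, hM, hMeg⟩ := hmem
  obtain ⟨lam', h1, h2⟩ := exists_twist hG hv S M
  have h3' := hmin lam' (h2.2 hM)
  omega

private theorem f2_sq (y : F2) : y * y = y := by
  revert y
  decide

private theorem f2_dbl (y : F2) : y + y = 0 := by
  revert y
  decide

/-- there is an orientable twist -/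
theorem exists_ori (hG : G.Connected) (S : GMap G) : ∃ lam, (twist S lam).Orientable := by
  let ψ : cyc G →ₗ[F2] F2 :=
    { toFun := fun x => frm S x x
      map_add' := fun x y => by
        rw [(frm S).map_add x y, LinearMap.add_apply, map_add, map_add, Pool.Agent.BEO.frm_symm S y x]
        have h := f2_dbl (frm S x y)
        linear_combination h
      map_smul' := fun c x => by
        rw [(frm S).map_smul c x, LinearMap.smul_apply, map_smul, smul_eq_mul, smul_eq_mul, ← mul_assoc, f2_sq]
        rfl }
  obtain ⟨g, hg⟩ := LinearMap.exists_extend ψ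
  refine ⟨univ.filter (fun e => g (fun j => if e = j then 1 else 0) = 1), ?_⟩
  rw [frm_alt]
  intro z
  rw [twist_frm]
  have h1 : frm S z z = g z.1 := by
    have := LinearMap.congr_fun hg z
    exact this.symm
  have h2 : ∑ e ∈ univ.filter (fun e => g (fun j => if e = j then 1 else 0) = 1), z.1 e * z.1 e = g z.1 := by
    rw [LinearMap.pi_apply_eq_sum_univ g z.1, sum_filter]
    refine sum_congr rfl fun e _ => ?_
    have hc : ∀ y : F2, y = 0 ∨ y = 1 := by decide
    rcases hc (g (fun j => if e = j then 1 else 0)) with h | h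
    · rw [h, if_neg (by decide), smul_zero]
    · rw [h, if_pos rfl, f2_sq, smul_eq_mul, mul_one]
  rw [h1, h2]
  exact f2_dbl _

end Pool.Agent.SCG
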