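import Pool.Agent.SCG.Alg
import Pool.Agent.BEO.LookS

/-!
# SCG-SpF: specification of the selection, of the keys and of one round
-/

set_option autoImplicit false

namespace Pool.Agent.SCG

open Pool.Agent.BEO (look memb ddp comp stp bfs par tup cds Pt Ec Inp Stt sd ac ek fl fcl zl lb xo bvs nF isO nE nV nxc)

open Pool.Agent.BEO (mem_cds look_eq look_mem)

private theorem bst_aux {β : Type} (val : β → ℕ) (l : List β) : ∀ acc : List β,
    (∀ y ∈ l.foldl (fun acc x => if acc.any (fun y => decide (val x ≤ val y)) then acc else [x]) acc, y ∈ acc ∨ y ∈ l) ∧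
    (∀ x, x ∈ acc ∨ x ∈ l → ∃ y ∈ l.foldl (fun acc x => if acc.any (fun y => decide (val x ≤ val y)) then acc else [x])
      acc, val x ≤ val y) ∧
    (acc.length ≤ 1 →
      (l.foldl (fun acc x => if acc.any (fun y => decide (val x ≤ val y)) then acc else [x]) acc).length ≤ 1) := by
  induction l with
  | nil =>
    intro acc
    refine ⟨fun y hy => Or.inl hy, ?_, fun h => h⟩
    rintro x (hx | hx)
    · exact ⟨x, hx, le_refl _⟩
    · exact absurd hx List.not_mem_nil
  | cons x t ih =>
    intro acc
    rw [List.foldl_cons]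
    by_cases hA : acc.any (fun y => decide (val x ≤ val y)) = true
    · rw [if_pos hA]
      obtain ⟨h1, h2, h3⟩ := ih acc
      refine ⟨?_, ?_, h3⟩
      · intro y hy
        rcases h1 y hy with h | h
        · exact Or.inl h
        · exact Or.inr (List.mem_cons_of_mem _ h)
      · rintro z (hz | hz)
        · exact h2 z (Or.inl hz)
        · rcases List.mem_cons.1 hz with hz | hz
          · obtain ⟨y0, hy0, hle⟩ := List.any_eq_true.1 hA
            obtain ⟨y, hy, hle'⟩ := h2 y0 (Or.inl hy0)
            refine ⟨y, hy, ?_⟩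
            rw [hz]
            exact (of_decide_eq_true hle).trans hle'
          · exact h2 z (Or.inr hz)
    · rw [if_neg hA]
      obtain ⟨h1, h2, h3⟩ := ih [x]
      refine ⟨?_, ?_, fun _ => h3 (by simp)⟩
      · intro y hy
        rcases h1 y hy with h | h
        · exact Or.inr (by rw [List.mem_singleton.1 h]; exact List.mem_cons_self)
        · exact Or.inr (List.mem_cons_of_mem _ h)
      · obtain ⟨y, hy, hle⟩ := h2 x (Or.inl (List.mem_singleton.2 rfl))
        rintro z (hz | hz)
        · refine ⟨y, hy, ?_⟩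
          have hlt : ¬ val x ≤ val z := fun hcon =>
            hA (List.any_eq_true.2 ⟨z, hz, decide_eq_true hcon⟩)
          omega
        · rcases List.mem_cons.1 hz with hz | hz
          · exact ⟨y, hy, by rw [hz]; exact hle⟩
          · exact h2 z (Or.inr hz)

theorem bst_mem {β : Type} (val : β → ℕ) (l : List β) (y : β) (hy : y ∈ bst val l) : y ∈ l := by
  rcases (bst_aux val l []).1 y hy with h | h
  · exact absurd h List.not_mem_nil
  · exact h

theorem bst_spec {β : Type} (val : β → ℕ) (l : List β) (x : β) (hx : x ∈ l) :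
    ∃ y ∈ bst val l, val x ≤ val y :=
  (bst_aux val l []).2.1 x (Or.inr hx)

theorem bst_head {β : Type} (val : β → ℕ) (l : List β) (x d : β) (hx : x ∈ l) :
    (bst val l).headD d ∈ l ∧ val x ≤ val ((bst val l).headD d) := by
  obtain ⟨y, hy, hle⟩ := bst_spec val l x hx
  have hlen : (bst val l).length ≤ 1 := (bst_aux val l []).2.2 (by simp)
  have hm := bst_mem val l y hy
  cases hb : bst val l with
  | nil =>
    rw [hb] at hy
    exact absurd hy List.not_mem_nil
  | cons z t =>
    rw [hb] at hy hlen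
    have ht : t = [] := by
      rw [List.length_cons] at hlen
      exact List.length_eq_zero_iff.1 (by omega)
    subst ht
    have hyz : y = z := List.mem_singleton.1 hy
    subst hyz
    exact ⟨hm, hle⟩

private theorem sing_flatten {X : Type} (s : List X) : (s.map fun b => [b]).flatten = s := by
  induction s with
  | nil => rfl
  | cons a t ih =>
    rw [List.map_cons, List.flatten_cons, ih]
    rfl

private theorem flatten_len {X : Type} (ws : List (List X)) (h : ∀ w ∈ ws, w.length = 1) :
    ws.flatten.length = ws.length := by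
  induction ws with
  | nil => rfl
  | cons a t ih =>
    rw [List.flatten_cons, List.length_append, List.length_cons, h a List.mem_cons_self,
      ih fun w hw => h w (List.mem_cons_of_mem _ hw)]
    omega

theorem mem_bls (m : ℕ) (σ : List Bool) : σ ∈ bls m ↔ σ.length ≤ m := by
  unfold bls
  rw [mem_cds]
  constructor
  · rintro ⟨ws, h1, h2, rfl⟩
    rw [flatten_len]
    · exact h1
    · intro w hw
      have := h2 w hw
      simp only [List.mem_cons, List.not_mem_nil, or_false] at this
      rcases this with h | h <;> rw [h] <;> rfl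
  · intro h
    refine ⟨σ.map fun b => [b], by rw [List.length_map]; exact h, ?_, (sing_flatten σ).symm⟩
    intro w hw
    obtain ⟨b, _, rfl⟩ := List.mem_map.1 hw
    cases b <;> simp

theorem sel_mem (m : ℕ) (l : Inp) (K : List Ec) (u : ℕ) (cs : List (List Ec)) (c : List Ec)
    (hc : c ∈ sel m l K u cs) : c ∈ cs := by
  unfold sel at hc
  obtain ⟨σ, _, h⟩ := List.mem_flatMap.1 hc
  exact (List.mem_filter.1 (bst_mem _ _ _ h)).1

theorem sel_spec (m : ℕ) (l : Inp) (K : List Ec) (u : ℕ) (cs : List (List Ec)) (c : List Ec) (hc : c ∈ cs)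
    (hm : (sgn l K u c).length ≤ m) : ∃ c' ∈ sel m l K u cs, sgn l K u c' = sgn l K u c ∧ clo l K u c ≤ clo l K u c' := by
  obtain ⟨c', h1, h2⟩ := bst_spec (clo l K u) (cs.filter fun c' => decide (sgn l K u c' = sgn l K u c)) c
    (List.mem_filter.2 ⟨hc, decide_eq_true rfl⟩)
  refine ⟨c', List.mem_flatMap.2 ⟨sgn l K u c, (mem_bls m _).2 hm, h1⟩, ?_, h2⟩
  exact of_decide_eq_true (List.mem_filter.1 (bst_mem _ _ _ h1)).2

theorem mem_keys (C : ℕ) (l : Inp) (K : List Ec) (u : ℕ) :
    (K, u) ∈ keys C l ↔ K.length ≤ C ∧ (∀ x ∈ K, x ∈ edl l) ∧ u ∈ vl l := by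
  unfold keys
  rw [List.mem_flatMap]
  constructor
  · rintro ⟨K', hK', h⟩
    obtain ⟨u', hu', he⟩ := List.mem_map.1 h
    rw [Prod.mk.injEq] at he
    obtain ⟨rfl, rfl⟩ := he
    obtain ⟨ws, h1, h2, rfl⟩ := (mem_cds _ _ _).1 hK'
    refine ⟨?_, ?_, hu'⟩
    · rw [flatten_len]
      · exact h1
      · intro w hw
        obtain ⟨e, _, rfl⟩ := List.mem_map.1 (h2 w hw)
        rfl
    · intro x hx
      obtain ⟨w, hw, hxw⟩ := List.mem_flatten.1 hx
      obtain ⟨e, he, rfl⟩ := List.mem_map.1 (h2 w hw)
      rw [List.mem_singleton.1 hxw]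
      exact he
  · rintro ⟨h1, h2, h3⟩
    refine ⟨K, (mem_cds _ _ _).2 ⟨K.map fun e => [e], by rw [List.length_map]; exact h1, ?_, (sing_flatten K).symm⟩,
      List.mem_map.2 ⟨u, h3, rfl⟩⟩
    intro w hw
    obtain ⟨e, he, rfl⟩ := List.mem_map.1 hw
    exact List.mem_map.2 ⟨e, h2 e he, rfl⟩

theorem rnd_look (C m k T : ℕ) (l : Inp) (tab : Tab) (K : List Ec) (u : ℕ) (h : (K, u) ∈ keys C l) :
    look (rnd C m k T l tab) (K, u) [] = sel m l K u ((leaf k T l (fli l K u) ++ cmb l tab K u).map (nrm l)) := by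
  apply look_eq
  · unfold rnd
    exact List.mem_map.2 ⟨(K, u), h, rfl⟩
  · intro y' hy'
    unfold rnd at hy'
    obtain ⟨q, _, he⟩ := List.mem_map.1 hy'
    rw [Prod.mk.injEq] at he
    obtain ⟨h1, h2⟩ := he
    subst h1
    exact h2.symm

end Pool.Agent.SCG
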