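import Pool.Agent.SCG.FpKey
import Pool.Agent.SCG.SpF

/-!
# SCG-FpSz: the size of the tables is polynomially bounded

PLAN. All stored lists are elements of `cs.map (nrm l)` (`sel_mem`), so they are `nrm l c`, a filtered `edl l`, of size at
most `sz (edl l)`; every entry has at most `(bls m).length` of them (`bst` returns at most one element for every
signature); the number and the sizes of the keys are bounded by `sz (keys C l)`, which is polynomially bounded in `sz l`
because `keys C` is in `FP` (there is a lemma bounding the size of the output of an `FP` function, or bound it directly).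
The bound does not depend on `tab`.
-/

set_option autoImplicit false

namespace Pool.Agent.SCG

open Turing Function N487b59b3 N68a2faeb Pool.Agent.Helper22 Pool.Agent.Helper6.WB Pool.Agent.Helper47.TR Computability
open Pool.Agent.BEO (look memb ddp comp stp bfs par tup cds Pt Ec Inp Stt sd ac ek fl fcl zl lb xo bvs nF isO nE nV nxc
  fp_eq fp_mapc fp_flat fp_filt fp_look fp_memb fp_par fp_ddp fp_comp fp_sd fp_ac fp_ek fp_fl fp_nxc fp_fcs fp_nF fp_half
  fp_sub fp_max fp_fcl fp_lb fp_isO fp_bfs fp_tup fp_cds fp_xo)

section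

variable {α β γ δ : Type} [N487b59b3 α] [N487b59b3 β] [N487b59b3 γ] [N487b59b3 δ]

private theorem sz_filter_le (p : α → Bool) (l : List α) : sz (l.filter p) ≤ sz l := by
  induction l with
  | nil => exact le_rfl
  | cons a l ih =>
    rw [List.filter_cons]
    split
    · rw [sz_cons, sz_cons]
      omega
    · rw [sz_cons]
      omega

private theorem sz_nrm_le (l : Inp) (c : List Ec) : sz (nrm l c) ≤ sz (edl l) := sz_filter_le _ _

omit [N487b59b3 β] in
private theorem bst_len (val : β → ℕ) (l : List β) : (bst val l).length ≤ 1 := by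
  have key : ∀ (l acc : List β), acc.length ≤ 1 →
      (l.foldl (fun acc x => if acc.any (fun y => decide (val x ≤ val y)) then acc else [x]) acc).length ≤ 1 := by
    intro l
    induction l with
    | nil => exact fun acc h => h
    | cons a l ih =>
      intro acc h
      rw [List.foldl_cons]
      refine ih _ ?_
      split
      · exact h
      · exact le_rfl
  exact key l [] (Nat.zero_le 1)

private theorem sz_sel_le (m : ℕ) (l : Inp) (K : List Ec) (u : ℕ) (cs : List (List Ec)) :
    sz (sel m l K u (cs.map (nrm l))) ≤ (bls m).length * (2 * sz (edl l) + 1) := by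
  unfold sel
  refine Pool.Agent.Helper47.TR.sz_flatMap_le _ _ _ fun σ _ => ?_
  have h1 := sz_map_le (fun b : List Ec => b)
    (bst (clo l K u) ((cs.map (nrm l)).filter fun c => decide (sgn l K u c = σ))) (sz (edl l)) (by
      intro b hb
      have h2 := List.mem_of_mem_filter (bst_mem _ _ _ hb)
      obtain ⟨c, _, rfl⟩ := List.mem_map.1 h2
      exact sz_nrm_le l c)
  rw [List.map_id'] at h1
  refine h1.trans ?_
  have h3 := bst_len (clo l K u) ((cs.map (nrm l)).filter fun c => decide (sgn l K u c = σ))
  calc _ ≤ 1 * (2 * sz (edl l) + 1) := Nat.mul_le_mul_right _ h3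
    _ = _ := one_mul _

theorem rnd_sz (C m k T : ℕ) : ∃ B : ℕ → ℕ, PB B ∧ Monotone B ∧
    ∀ (l : Inp) (tab : Tab), sz (rnd C m k T l tab) ≤ B (sz l) := by
  obtain ⟨Bk, hBk, hBkm, hBkle⟩ := (fp_keys C (f := fun l : Inp => l) FP.id).bound
  obtain ⟨Be, hBe, hBem, hBele⟩ := (fp_edl (f := fun l : Inp => l) FP.id).bound
  refine ⟨fun n => Bk n * (2 * (2 * Bk n + 1 + (bls m).length * (2 * Be n + 1)) + 1), ?_, ?_, ?_⟩
  · exact hBk.mul (((PB.const 2).mul ((((PB.const 2).mul hBk).add (PB.const 1)).add
      ((PB.const _).mul (((PB.const 2).mul hBe).add (PB.const 1))))).add (PB.const 1))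
  · intro a b hab
    have h1 := hBkm hab
    have h2 := hBem hab
    have h3 : (bls m).length * (2 * Be a + 1) ≤ (bls m).length * (2 * Be b + 1) :=
      Nat.mul_le_mul_left _ (by omega)
    exact Nat.mul_le_mul h1 (by omega)
  · intro l tab
    have h1 := hBkle l
    have h2 := hBele l
    have h3 : (bls m).length * (2 * sz (edl l) + 1) ≤ (bls m).length * (2 * Be (sz l) + 1) :=
      Nat.mul_le_mul_left _ (by omega)
    unfold rnd
    have h4 := sz_map_le (fun q : List Ec × ℕ =>
      (q, sel m l q.1 q.2 ((leaf k T l (fli l q.1 q.2) ++ cmb l tab q.1 q.2).map (nrm l)))) (keys C l)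
      (2 * Bk (sz l) + 1 + (bls m).length * (2 * Be (sz l) + 1)) (by
        intro q hq
        have h5 := sz_mem_le hq
        have h6 := sz_sel_le m l q.1 q.2 (leaf k T l (fli l q.1 q.2) ++ cmb l tab q.1 q.2)
        show sz (q, sel m l q.1 q.2 ((leaf k T l (fli l q.1 q.2) ++ cmb l tab q.1 q.2).map (nrm l))) ≤ _
        rw [sz_pair]
        omega)
    refine h4.trans (Nat.mul_le_mul_right _ ?_)
    exact (length_le_sz _).trans h1

end

end Pool.Agent.SCG
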