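import Pool.Agent.SCG.FpP
import Pool.Agent.BEO.FpA

/-!
# SCG-FpBst: the best element in polynomial time

PLAN. `FP.foldl` with the context carried along in the state: the accumulator is `[]` or `[x]` with `x` in the list, so its
size is bounded by the size of the list (invariant: every member of the accumulator is in the list or was in the start
value). The value function may depend on a context `a`: fold over the list of pairs, or keep `a` in the state.
-/

set_option autoImplicit false

namespace Pool.Agent.SCG

open Turing Function N487b59b3 N68a2faeb Pool.Agent.Helper22 Pool.Agent.Helper6.WB Pool.Agent.Helper47.TR Computability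
open Pool.Agent.BEO (look memb ddp comp stp bfs par tup cds Pt Ec Inp Stt sd ac ek fl fcl zl lb xo bvs nF isO nE nV nxc
  fp_eq fp_mapc fp_flat fp_filt fp_look fp_memb fp_par fp_ddp fp_comp fp_sd fp_ac fp_ek fp_fl fp_nxc fp_fcs fp_nF fp_half
  fp_sub fp_max fp_fcl fp_lb fp_isO fp_bfs fp_tup fp_cds fp_xo)

section

variable {α β γ δ : Type} [N487b59b3 α] [N487b59b3 β] [N487b59b3 γ] [N487b59b3 δ]

/-- one step with the context in the state -/
private def bsg (val : α × β → ℕ) (s : α × List β) (x : β) : α × List β :=
  (s.1, if s.2.any (fun y => decide (val (s.1, x) ≤ val (s.1, y))) then s.2 else [x])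

private theorem bsg_foldl (val : α × β → ℕ) (l : List β) (a : α) (acc : List β) :
    l.foldl (bsg val) (a, acc) = (a, l.foldl (fun acc x =>
      if acc.any (fun y => decide (val (a, x) ≤ val (a, y))) then acc else [x]) acc) := by
  induction l generalizing acc with
  | nil => rfl
  | cons b l ih =>
    rw [List.foldl_cons, List.foldl_cons]
    exact ih _

private theorem bsg_sz (val : α × β → ℕ) (l : List β) (a : α) (acc : List β) :
    sz (l.foldl (bsg val) (a, acc)) ≤ sz (a, acc) + sz l := by
  induction l generalizing acc with
  | nil => simp
  | cons b l ih =>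
    rw [List.foldl_cons]
    have h1 : bsg val (a, acc) b = (a, if acc.any (fun y => decide (val (a, b) ≤ val (a, y))) then acc else [b]) := rfl
    rw [h1]
    refine (ih _).trans ?_
    have h2 : sz (if acc.any (fun y => decide (val (a, b) ≤ val (a, y))) then acc else [b]) + sz l ≤
        sz acc + sz (b :: l) := by
      split_ifs
      · simp only [sz_cons]
        omega
      · simp only [sz_cons]
        have : sz ([] : List β) ≤ sz acc := by
          simp
        omega
    simp only [sz_pair]
    omega

theorem fp_bst [Inhabited β] {val : α × β → ℕ} (hv : FP val) {l : α → List β} (hl : FP l) :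
    FP fun a => bst (fun x => val (a, x)) (l a) := by
  have h0 : FP fun q : (α × β) × β => decide (val (q.1.1, q.1.2) ≤ val (q.1.1, q.2)) :=
    FP.natLe (hv.comp (by fun_prop)) (hv.comp (by fun_prop))
  have h1 : FP fun p : (α × List β) × β => p.1.2.any (fun y => decide (val (p.1.1, p.2) ≤ val (p.1.1, y))) :=
    (FP.any_ctx h0).comp (FP.pair (f := fun p : (α × List β) × β => (p.1.1, p.2))
      (g := fun p : (α × List β) × β => p.1.2) (by fun_prop) (by fun_prop))
  have h2 : FP fun p : (α × List β) × β => bsg val p.1 p.2 :=
    FP.pair (by fun_prop) (FP.ite h1 (by fun_prop) (FP.cons FP.snd (FP.const [])))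
  have h3 : FP fun p : List β × (α × List β) => p.1.foldl (bsg val) p.2 := by
    refine FP.foldl (g := bsg val) h2 (B := fun n => n) (by fun_prop) ?_
    rintro l ⟨a, acc⟩
    have h4 := bsg_sz val l a acc
    omega
  have h4 := h3.comp (hl.pair (FP.id.pair (FP.const [])))
  refine (congrArg FP (funext fun a => ?_)).mp h4.snd'
  simp only
  rw [bsg_foldl]
  rfl

end

end Pool.Agent.SCG
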