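import Pool.Agent.SCG.FpR
import Pool.Agent.SCG.FpBst

/-!
# SCG-FpSel: the selection in polynomial time

Compositions.
-/

set_option autoImplicit false

namespace Pool.Agent.SCG

open Turing Function N487b59b3 N68a2faeb Pool.Agent.Helper22 Pool.Agent.Helper6.WB Pool.Agent.Helper47.TR Computability
open Pool.Agent.BEO (look memb ddp comp stp bfs par tup cds Pt Ec Inp Stt sd ac ek fl fcl zl lb xo bvs nF isO nE nV nxc
  fp_eq fp_mapc fp_flat fp_filt fp_look fp_memb fp_par fp_ddp fp_comp fp_sd fp_ac fp_ek fp_fl fp_nxc fp_fcs fp_nF fp_half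
  fp_sub fp_max fp_fcl fp_lb fp_isO fp_bfs fp_tup fp_cds fp_xo)

section

variable {α β γ δ : Type} [N487b59b3 α] [N487b59b3 β] [N487b59b3 γ] [N487b59b3 δ]

theorem fp_sel (m : ℕ) {f : α → Inp} {K : α → List Ec} {u : α → ℕ} {cs : α → List (List Ec)} (hf : FP f) (hK : FP K)
    (hu : FP u) (hc : FP cs) : FP fun a => sel m (f a) (K a) (u a) (cs a) := by
  have hv : FP fun w : (α × List Bool) × List Ec => clo (f w.1.1) (K w.1.1) (u w.1.1) w.2 :=
    fp_clo (hf.comp (FP.fst.comp FP.fst)) (hK.comp (FP.fst.comp FP.fst)) (hu.comp (FP.fst.comp FP.fst)) FP.snd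
  have hs : FP fun w : (α × List Bool) × List Ec => decide (sgn (f w.1.1) (K w.1.1) (u w.1.1) w.2 = w.1.2) :=
    fp_eq (fp_sgn (hf.comp (FP.fst.comp FP.fst)) (hK.comp (FP.fst.comp FP.fst)) (hu.comp (FP.fst.comp FP.fst)) FP.snd)
      (FP.snd.comp FP.fst)
  have hl : FP fun q : α × List Bool => (cs q.1).filter fun c => decide (sgn (f q.1) (K q.1) (u q.1) c = q.2) :=
    fp_filt hs (hc.comp FP.fst)
  have h1 : FP fun q : α × List Bool => bst (clo (f q.1) (K q.1) (u q.1))
      ((cs q.1).filter fun c => decide (sgn (f q.1) (K q.1) (u q.1) c = q.2)) := fp_bst hv hl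
  exact fp_flat h1 (FP.const (bls m))

end

end Pool.Agent.SCG
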