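import Pool.Agent.SCG.SpDef
import Pool.Agent.BEO.CompS
import Pool.Agent.BEO.FacS

/-!
# SCG-SpA: the components are computed correctly

PLAN. `mem_vl`: every vertex has a flag (`exists_flag`, `2 ≤ n`), `mem_fl`, `mem_ddp`. `inU_iff`: `comp_look` for
`vcl l K` (all pairs are vertices); the relation is `(p.1.fst, p.1.snd)` for the flags with `ec (ed p) ∉ K` (`ek_cod`,
`memb_iff`); `EqvGen` of it between the codes of vertices is reachability in `gD (DK G K)` (the relation is already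
symmetric because of `across`; `Reachable` = `EqvGen`/`ReflTransGen` of adjacency: `SimpleGraph.reachable_iff..` or
induction on walks). `mem_flU` etc.: `List.mem_filter`, `mem_fl`.
-/

set_option autoImplicit false

open Finset
open scoped Classical

namespace Pool.Agent.SCG

open Pool.Agent.Helper35.OG (Flag GMap across side)
open Pool.Agent.BEO (F2 ed rp cyc ev twist tph cod Codes ec lamOf look memb ddp comp stp bfs par tup cds Pt Ec Inp Stt
  sd ac ek fl fcl zl lb xo bvs nF isO nE nV nxc)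

variable {n : ℕ} {G : SimpleGraph (Fin n)} {S : GMap G} {l : Inp}

theorem mem_vl (h : Codes S l) (hG : G.Connected) (hn : 2 ≤ n) (x : ℕ) : x ∈ vl l ↔ x < n := by
  have hnt : Nontrivial (Fin n) := Fin.nontrivial_iff_two_le.2 hn
  unfold vl
  rw [Pool.Agent.BEO.mem_ddp, List.mem_map]
  constructor
  · rintro ⟨y, hy, rfl⟩
    obtain ⟨p, rfl⟩ := (Pool.Agent.BEO.mem_fl h y).1 hy
    exact p.1.fst.2
  · intro hx
    obtain ⟨p, hp⟩ := Pool.Agent.Helper35.OG.exists_flag hG (⟨x, hx⟩ : Fin n)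
    refine ⟨cod p, (Pool.Agent.BEO.mem_fl h _).2 ⟨p, rfl⟩, ?_⟩
    show (p.1.fst : ℕ) = x
    rw [hp]

theorem mem_edl (h : Codes S l) (x : Ec) : x ∈ edl l ↔ ∃ e : G.edgeSet, x = ec e := by
  unfold edl
  rw [Pool.Agent.BEO.mem_ddp, List.mem_map]
  constructor
  · rintro ⟨y, hy, rfl⟩
    obtain ⟨p, rfl⟩ := (Pool.Agent.BEO.mem_fl h y).1 hy
    exact ⟨ed p, Pool.Agent.BEO.ek_cod p⟩
  · rintro ⟨e, rfl⟩
    refine ⟨cod (rp e), (Pool.Agent.BEO.mem_fl h _).2 ⟨rp e, rfl⟩, ?_⟩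
    rw [Pool.Agent.BEO.ek_cod, Pool.Agent.BEO.ed_rp]

private theorem mem_DK (K : List Ec) (e : G.edgeSet) : e ∈ DK G K ↔ ec e ∉ K := by
  unfold DK
  rw [mem_filter]
  exact ⟨fun h => h.2, fun h => ⟨mem_univ _, h⟩⟩

private theorem mem_rel (h : Codes S l) (K : List Ec) (a b : ℕ) :
    (a, b) ∈ (((fl l).filter fun p => !memb K (ek p)).map fun p => (p.1, p.2.1)) ↔
      ∃ p : Flag G, a = (p.1.fst : ℕ) ∧ b = (p.1.snd : ℕ) ∧ ed p ∈ DK G K := by
  rw [List.mem_map]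
  constructor
  · rintro ⟨x, hx, hab⟩
    rw [List.mem_filter] at hx
    obtain ⟨hx, hk⟩ := hx
    obtain ⟨p, rfl⟩ := (Pool.Agent.BEO.mem_fl h x).1 hx
    rw [Pool.Agent.BEO.ek_cod, Bool.not_eq_true', ← Bool.not_eq_true, Pool.Agent.BEO.memb_iff] at hk
    have h1 : (p.1.fst : ℕ) = a := congrArg Prod.fst hab
    have h2 : (p.1.snd : ℕ) = b := congrArg Prod.snd hab
    exact ⟨p, h1.symm, h2.symm, (mem_DK K _).2 hk⟩
  · rintro ⟨p, rfl, rfl, hk⟩
    refine ⟨cod p, ?_, rfl⟩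
    rw [List.mem_filter]
    refine ⟨(Pool.Agent.BEO.mem_fl h _).2 ⟨p, rfl⟩, ?_⟩
    rw [Pool.Agent.BEO.ek_cod, Bool.not_eq_true', ← Bool.not_eq_true, Pool.Agent.BEO.memb_iff]
    exact (mem_DK K _).1 hk

private theorem adj_of (D : Finset G.edgeSet) (p : Flag G) (hp : ed p ∈ D) : (gD D).Adj p.1.fst p.1.snd :=
  ⟨p, rfl, rfl, hp⟩

theorem inU_iff (h : Codes S l) (hG : G.Connected) (hn : 2 ≤ n) (K : List Ec) (u v : Fin n) :
    inU l K (u : ℕ) (v : ℕ) = true ↔ (gD (DK G K)).Reachable u v := by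
  unfold inU vcl
  rw [decide_eq_true_iff, Pool.Agent.BEO.comp_look (vl l) _ ?_ (v : ℕ) (u : ℕ) ((mem_vl h hG hn _).2 v.2)
    ((mem_vl h hG hn _).2 u.2)]
  · constructor
    · intro huv
      have h2 := Pool.Agent.Helper35.OG.eqvGen_eq
        (fun x : ℕ => {w : Fin n | ∃ hx : x < n, (gD (DK G K)).Reachable ⟨x, hx⟩ w}) (by
          intro x y hxy
          obtain ⟨p, rfl, rfl, hp⟩ := (mem_rel h K _ _).1 hxy
          have h3 := (adj_of _ p hp).reachable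
          ext w
          constructor
          · rintro ⟨_, hw⟩
            exact ⟨p.1.snd.2, h3.symm.trans hw⟩
          · rintro ⟨_, hw⟩
            exact ⟨p.1.fst.2, h3.trans hw⟩) huv
      have h4 : v ∈ {w : Fin n | ∃ hx : (v : ℕ) < n, (gD (DK G K)).Reachable ⟨v, hx⟩ w} :=
        ⟨v.2, SimpleGraph.Reachable.refl _⟩
      have h5 : v ∈ {w : Fin n | ∃ hx : (u : ℕ) < n, (gD (DK G K)).Reachable ⟨u, hx⟩ w} := by
        have h6 : {w : Fin n | ∃ hx : (v : ℕ) < n, (gD (DK G K)).Reachable ⟨v, hx⟩ w} =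
          {w : Fin n | ∃ hx : (u : ℕ) < n, (gD (DK G K)).Reachable ⟨u, hx⟩ w} := h2
        rw [← h6]
        exact h4
      obtain ⟨_, h7⟩ := h5
      exact h7
    · rintro ⟨w⟩
      refine Relation.EqvGen.symm _ _ ?_
      induction w with
      | nil => exact Relation.EqvGen.refl _
      | cons hadj _ ih =>
        obtain ⟨p, rfl, rfl, hp⟩ := hadj
        exact Relation.EqvGen.trans _ _ _
          (Relation.EqvGen.rel _ _ ((mem_rel h K _ _).2 ⟨p, rfl, rfl, hp⟩)) ih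
  · rintro ⟨a, b⟩ hr
    obtain ⟨p, rfl, rfl, -⟩ := (mem_rel h K _ _).1 hr
    exact ⟨(mem_vl h hG hn _).2 p.1.fst.2, (mem_vl h hG hn _).2 p.1.snd.2⟩

theorem mem_flU (h : Codes S l) (hG : G.Connected) (hn : 2 ≤ n) (K : List Ec) (u : Fin n) (x : Pt) :
    x ∈ flU l K (u : ℕ) ↔ ∃ p : Flag G, x = cod p ∧ p.1.fst ∈ UD (DK G K) u := by
  unfold flU
  rw [List.mem_filter]
  constructor
  · rintro ⟨hx, hk⟩
    obtain ⟨p, rfl⟩ := (Pool.Agent.BEO.mem_fl h x).1 hx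
    exact ⟨p, rfl, (inU_iff h hG hn K u p.1.fst).1 hk⟩
  · rintro ⟨p, rfl, hk⟩
    exact ⟨(Pool.Agent.BEO.mem_fl h _).2 ⟨p, rfl⟩, (inU_iff h hG hn K u p.1.fst).2 hk⟩

private theorem mem_InD (D : Finset G.edgeSet) (u : Fin n) (e : G.edgeSet) :
    e ∈ InD D u ↔ e ∈ D ∧ ∃ p : Flag G, ed p = e ∧ (gD D).Reachable u p.1.fst :=
  @Finset.mem_filter G.edgeSet (fun e => ∃ p : Flag G, ed p = e ∧ (gD D).Reachable u p.1.fst)
    (fun a => Classical.propDecidable _) D e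

private theorem inD_fst0 (D : Finset G.edgeSet) (u : Fin n) (p : Flag G) (h : ed p ∈ InD D u) :
    p.1.fst ∈ UD D u := by
  obtain ⟨hD, q, hq, hr⟩ := (mem_InD D u (ed p)).1 h
  have h2 : q.1.edge = p.1.edge := congrArg Subtype.val hq
  rw [SimpleGraph.dart_edge_eq_iff] at h2
  rcases h2 with h2 | h2
  · rw [h2] at hr
    exact hr
  · have h3 : q.1.fst = p.1.snd := by rw [h2]; rfl
    rw [h3] at hr
    exact hr.trans (adj_of D p hD).reachable.symm

private theorem inD_iff0 (D : Finset G.edgeSet) (u : Fin n) (p : Flag G) (h : p.1.fst ∈ UD D u) :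
    ed p ∈ InD D u ↔ ed p ∈ D := by
  refine Iff.trans (mem_InD D u (ed p)) ?_
  exact ⟨fun h => h.1, fun hD => ⟨hD, p, rfl, h⟩⟩

theorem mem_fli (h : Codes S l) (hG : G.Connected) (hn : 2 ≤ n) (K : List Ec) (u : Fin n) (x : Pt) :
    x ∈ fli l K (u : ℕ) ↔ ∃ p : Flag G, x = cod p ∧ ed p ∈ InD (DK G K) u := by
  unfold fli
  rw [List.mem_filter, mem_flU h hG hn]
  constructor
  · rintro ⟨⟨p, rfl, hp⟩, hk⟩
    rw [Pool.Agent.BEO.ek_cod, Bool.not_eq_true', ← Bool.not_eq_true, Pool.Agent.BEO.memb_iff] at hk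
    exact ⟨p, rfl, (inD_iff0 _ u p hp).2 ((mem_DK K _).2 hk)⟩
  · rintro ⟨p, rfl, hp⟩
    have h1 := inD_fst0 _ u p hp
    refine ⟨⟨p, rfl, h1⟩, ?_⟩
    rw [Pool.Agent.BEO.ek_cod, Bool.not_eq_true', ← Bool.not_eq_true, Pool.Agent.BEO.memb_iff]
    exact (mem_DK K _).1 ((inD_iff0 _ u p h1).1 hp)

theorem mem_flb (h : Codes S l) (hG : G.Connected) (hn : 2 ≤ n) (K : List Ec) (u : Fin n) (x : Pt) :
    x ∈ flb l K (u : ℕ) ↔ ∃ p : Flag G, x = cod p ∧ p.1.fst ∈ UD (DK G K) u ∧ ec (ed p) ∈ K := by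
  unfold flb
  rw [List.mem_filter, mem_flU h hG hn]
  constructor
  · rintro ⟨⟨p, rfl, hp⟩, hk⟩
    rw [Pool.Agent.BEO.ek_cod, Pool.Agent.BEO.memb_iff] at hk
    exact ⟨p, rfl, hp, hk⟩
  · rintro ⟨p, rfl, hp, hk⟩
    refine ⟨⟨p, rfl, hp⟩, ?_⟩
    rw [Pool.Agent.BEO.ek_cod, Pool.Agent.BEO.memb_iff]
    exact hk

/-- inner edges have both ends in the piece -/
theorem inD_fst (D : Finset G.edgeSet) (u : Fin n) (p : Flag G) (h : ed p ∈ InD D u) : p.1.fst ∈ UD D u := by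
  exact inD_fst0 D u p h

/-- an edge with an end in the piece is inner if and only if it is in `D` -/
theorem inD_iff (D : Finset G.edgeSet) (u : Fin n) (p : Flag G) (h : p.1.fst ∈ UD D u) :
    ed p ∈ InD D u ↔ ed p ∈ D := by
  exact inD_iff0 D u p h

end Pool.Agent.SCG
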