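import Pool.Agent.SCG.Pc

/-!
# SCG-BfC: few faces have edges inside and outside a component

Every such face has a corner between an edge inside and an edge of `KD D u`.
-/

set_option autoImplicit false

open Finset
open scoped Classical

namespace Pool.Agent.SCG

open Pool.Agent.Helper35.OG (Flag GMap across side across_across side_side across_ne side_ne side_fst across_fst vertex_const
  all_const exists_flag face_nxt face_across face_surj nxt_inj sum_inv eqvGen_eq IsBand)
open Pool.Agent.BEO (F2 DW Ev oddE ed rp cyc ev bdF frm twist)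

private theorem corner_of {V : Type} {G : SimpleGraph V} (S : GMap G) (In : Finset G.edgeSet) {p q : Flag G}
    (h : S.face p = S.face q) (hp : ed p ∈ In) (hq : ed q ∉ In) :
    ∃ x : Flag G, S.face x = S.face p ∧ ed x ∈ In ∧ ed (S.nxt x) ∉ In := by
  by_contra hcon
  push Not at hcon
  have h1 : ∀ x : Flag G, (S.face x = S.face p ∧ ed x ∈ In) →
      (S.face (S.nxt x) = S.face p ∧ ed (S.nxt x) ∈ In) := by
    rintro x ⟨hx1, hx2⟩
    exact ⟨(face_nxt S x).trans hx1, hcon x hx1 hx2⟩
  have h2 := Quot.eqvGen_exact h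
  have h3 := eqvGen_eq (fun x : Flag G => (S.face x = S.face p ∧ ed x ∈ In)) (by
    rintro x y (hxy | hxy)
    · subst hxy
      refine propext ⟨h1 x, fun hx => ?_⟩
      have := h1 _ hx
      rwa [S.nxt_nxt] at this
    · subst hxy
      rw [face_across, Pool.Agent.BEO.ed_across]) h2
  have h4 : (S.face q = S.face p ∧ ed q ∈ In) := by
    rw [← h3]
    exact ⟨rfl, hp⟩
  exact hq h4.2

private theorem face_of_ed {V : Type} {G : SimpleGraph V} (S : GMap G) (x : Flag G) (e : G.edgeSet) (h : ed x = e) :
    S.face x = S.face (rp e) ∨ S.face x = S.face (side (rp e)) := by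
  have h1 : x.1.edge = (rp e).1.edge := congrArg Subtype.val (h.trans (Pool.Agent.BEO.ed_rp e).symm)
  rcases (SimpleGraph.dart_edge_eq_iff _ _).1 h1 with h2 | h2
  · rcases Bool.eq_or_eq_not x.2 (rp e).2 with h3 | h3
    · left
      rw [show x = rp e from Prod.ext h2 h3]
    · right
      rw [show x = side (rp e) from Prod.ext h2 h3]
  · rcases Bool.eq_or_eq_not x.2 (rp e).2 with h3 | h3
    · right
      rw [show x = across (side (rp e)) from Prod.ext h2 (h3.trans (Bool.not_not _).symm), face_across]
    · left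
      rw [show x = across (rp e) from Prod.ext h2 h3, face_across]

private theorem mem_InD' {V : Type} {G : SimpleGraph V} {D : Finset G.edgeSet} {u : V} {e : G.edgeSet} :
    e ∈ InD D u ↔ e ∈ D ∧ ∃ p : Flag G, ed p = e ∧ (gD D).Reachable u p.1.fst := by
  unfold InD
  exact Finset.mem_filter

theorem bf_card {V : Type} [Fintype V] {G : SimpleGraph V} (S : GMap G) (D : Finset G.edgeSet) (u : V) :
    (Bf S (InD D u)).card ≤ 2 * (KD D u).card := by
  have h1 : Bf S (InD D u) ⊆ (KD D u).image (fun e => S.face (rp e)) ∪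
      (KD D u).image (fun e => S.face (side (rp e))) := by
    intro F hF
    obtain ⟨-, ⟨p, hpF, hp⟩, q, hqF, hq⟩ := Finset.mem_filter.1 hF
    obtain ⟨x, hx1, hx2, hx3⟩ := corner_of S (InD D u) (hpF.trans hqF.symm) hp hq
    obtain ⟨hxD, p0, hp0, hr⟩ := mem_InD'.1 hx2
    have hr2 : (gD D).Reachable u x.1.fst := by
      have h2 : p0.1.edge = x.1.edge := congrArg Subtype.val hp0
      rcases (SimpleGraph.dart_edge_eq_iff _ _).1 h2 with h3 | h3
      · rw [← h3]
        exact hr
      · rw [h3] at hr
        have h4 : (gD D).Adj x.1.fst x.1.snd := ⟨x, rfl, rfl, hxD⟩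
        exact hr.trans h4.symm.reachable
    have h5 : ed (S.nxt x) ∈ KD D u := by
      refine Finset.mem_filter.2 ⟨Finset.mem_univ _, fun hD => hx3 ?_, S.nxt x, rfl, ?_⟩
      · refine mem_InD'.2 ⟨hD, S.nxt x, rfl, ?_⟩
        rw [S.nxt_fst]
        exact hr2
      · rw [S.nxt_fst]
        exact hr2
    have h6 : S.face (S.nxt x) = F := (face_nxt S x).trans (hx1.trans hpF)
    rcases face_of_ed S (S.nxt x) (ed (S.nxt x)) rfl with h7 | h7
    · exact Finset.mem_union_left _ (Finset.mem_image.2 ⟨_, h5, h7.symm.trans h6⟩)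
    · exact Finset.mem_union_right _ (Finset.mem_image.2 ⟨_, h5, h7.symm.trans h6⟩)
  refine (Finset.card_le_card h1).trans ((Finset.card_union_le _ _).trans ?_)
  have h2 := Finset.card_image_le (s := KD D u) (f := fun e => S.face (rp e))
  have h3 := Finset.card_image_le (s := KD D u) (f := fun e => S.face (side (rp e)))
  omega

end Pool.Agent.SCG
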