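import Pool.Agent.SCG.Pc

/-!
# SCG-CplRm: complete families of a piece from those of the parts left after deleting an edge
-/

set_option autoImplicit false

open Finset
open scoped Classical

namespace Pool.Agent.SCG

open Pool.Agent.Helper35.OG (Flag GMap across side)
open Pool.Agent.BEO (F2 ed rp cyc ev twist tph)

variable {V : Type} {G : SimpleGraph V} [LinearOrder V]

theorem cpl_mono (S : GMap G) (In : Finset G.edgeSet) (o : Bool) (T T' : Set (Finset G.edgeSet)) (hT : Cpl S In o T)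
    (h : ∀ lam ∈ T, lam ⊆ In → lam ∈ T') : Cpl S In o T' := by
  intro lo lam h1 h2 h3
  obtain ⟨lam', ha, hb, hc⟩ := hT lo lam h1 h2 h3
  exact ⟨lam', h lam' ha hb, hb, hc⟩

theorem cpl_two (S : GMap G) (In In1 In2 : Finset G.edgeSet) (e : G.edgeSet) (o : Bool)
    (T1 T2 T : Set (Finset G.edgeSet)) (hIn : ∀ x, x ∈ In ↔ x ∈ In1 ∨ x ∈ In2 ∨ x = e) (h12 : Disjoint In1 In2)
    (he1 : e ∉ In1) (he2 : e ∉ In2) (h1 : Cpl S In1 o T1) (h2 : Cpl S In2 o T2)
    (hT : ∀ mu1 ∈ T1, ∀ mu2 ∈ T2, mu1 ∪ mu2 ∈ T ∧ insert e (mu1 ∪ mu2) ∈ T) : Cpl S In o T := by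
  intro lo lam hlo hlam ho
  have hd : ∀ x, x ∈ In1 → x ∈ In2 → False := fun x a b => Finset.disjoint_left.1 h12 a b
  have e1 : (lo ∪ (lam \ In1)) ∪ (lam ∩ In1) = lo ∪ lam := by
    ext x
    simp only [Finset.mem_union, Finset.mem_sdiff, Finset.mem_inter]
    tauto
  obtain ⟨mu1, hm1, hs1, ho1, hg1⟩ := h1 (lo ∪ (lam \ In1)) (lam ∩ In1)
    (by
      intro x hx
      rcases Finset.mem_union.1 hx with hx | hx
      · intro hx1
        exact hlo x hx ((hIn x).2 (Or.inl hx1))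
      · exact (Finset.mem_sdiff.1 hx).2)
    Finset.inter_subset_right (by rw [e1]; exact ho)
  rw [e1] at hg1
  have e2 : (lo ∪ mu1 ∪ (lam ∩ {e})) ∪ (lam ∩ In2) = (lo ∪ (lam \ In1)) ∪ mu1 := by
    ext x
    simp only [Finset.mem_union, Finset.mem_sdiff, Finset.mem_inter, Finset.mem_singleton]
    constructor
    · rintro (((hx | hx) | ⟨hx, hxe⟩) | ⟨hx, hx2⟩)
      · exact Or.inl (Or.inl hx)
      · exact Or.inr hx
      · exact Or.inl (Or.inr ⟨hx, by rw [hxe]; exact he1⟩)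
      · exact Or.inl (Or.inr ⟨hx, fun h => hd x h hx2⟩)
    · rintro ((hx | ⟨hx, hx1⟩) | hx)
      · exact Or.inl (Or.inl (Or.inl hx))
      · rcases (hIn x).1 (hlam hx) with h | h | h
        · exact absurd h hx1
        · exact Or.inr ⟨hx, h⟩
        · exact Or.inl (Or.inr ⟨hx, h⟩)
      · exact Or.inl (Or.inl (Or.inr hx))
  obtain ⟨mu2, hm2, hs2, ho2, hg2⟩ := h2 (lo ∪ mu1 ∪ (lam ∩ {e})) (lam ∩ In2)
    (by
      intro x hx hx2
      simp only [Finset.mem_union, Finset.mem_inter, Finset.mem_singleton] at hx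
      rcases hx with (hx | hx) | hx
      · exact hlo x hx ((hIn x).2 (Or.inr (Or.inl hx2)))
      · exact hd x (hs1 hx) hx2
      · rw [hx.2] at hx2
        exact he2 hx2)
    Finset.inter_subset_right (by rw [e2]; exact ho1)
  rw [e2] at hg2
  have e3 : (lo ∪ mu1 ∪ (lam ∩ {e})) ∪ mu2 = lo ∪ ((mu1 ∪ mu2) ∪ (lam ∩ {e})) := by
    ext x
    simp only [Finset.mem_union, Finset.mem_inter, Finset.mem_singleton]
    tauto
  rw [e3] at ho2 hg2
  refine ⟨(mu1 ∪ mu2) ∪ (lam ∩ {e}), ?_, ?_, ho2, hg2.trans hg1⟩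
  · by_cases hel : e ∈ lam
    · have : (mu1 ∪ mu2) ∪ (lam ∩ {e}) = insert e (mu1 ∪ mu2) := by
        ext x
        simp only [Finset.mem_union, Finset.mem_inter, Finset.mem_singleton, Finset.mem_insert]
        constructor
        · rintro ((h | h) | ⟨_, h⟩)
          · exact Or.inr (Or.inl h)
          · exact Or.inr (Or.inr h)
          · exact Or.inl h
        · rintro (h | h | h)
          · exact Or.inr ⟨by rw [h]; exact hel, h⟩
          · exact Or.inl (Or.inl h)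
          · exact Or.inl (Or.inr h)
      rw [this]
      exact (hT mu1 hm1 mu2 hm2).2
    · have : (mu1 ∪ mu2) ∪ (lam ∩ {e}) = mu1 ∪ mu2 := by
        rw [Finset.inter_singleton_of_notMem hel, Finset.union_empty]
      rw [this]
      exact (hT mu1 hm1 mu2 hm2).1
  · intro x hx
    simp only [Finset.mem_union, Finset.mem_inter, Finset.mem_singleton] at hx
    rw [hIn]
    rcases hx with (hx | hx) | hx
    · exact Or.inl (hs1 hx)
    · exact Or.inr (Or.inl (hs2 hx))
    · exact Or.inr (Or.inr hx.2)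

theorem cpl_one (S : GMap G) (In In1 : Finset G.edgeSet) (e : G.edgeSet) (o : Bool)
    (T1 T : Set (Finset G.edgeSet)) (hIn : ∀ x, x ∈ In ↔ x ∈ In1 ∨ x = e) (he1 : e ∉ In1) (h1 : Cpl S In1 o T1)
    (hT : ∀ mu1 ∈ T1, mu1 ∈ T ∧ insert e mu1 ∈ T) : Cpl S In o T := by
  refine cpl_two S In In1 ∅ e o T1 {∅} T ?_ (Finset.disjoint_empty_right _) he1 (Finset.notMem_empty _) h1 ?_ ?_
  · intro x
    rw [hIn]
    simp
  · intro lo lam _ hlam ho
    have : lam = ∅ := Finset.subset_empty.1 hlam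
    subst this
    exact ⟨∅, rfl, Finset.Subset.refl _, ho, le_refl _⟩
  · intro mu1 hm1 mu2 hm2
    rw [Set.mem_singleton_iff] at hm2
    subst hm2
    rw [Finset.union_empty]
    exact hT mu1 hm1

end Pool.Agent.SCG
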