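import Pool.Agent.SCG.DcDef
import Pool.Agent.BEO.Base

/-!
# SCG-DcBd: the boundaries of the pieces of a region are bounded
-/

set_option autoImplicit false

open Finset
open scoped Classical

namespace Pool.Agent.SCG

open Pool.Agent.Helper35.OG (Flag GMap across side)
open Pool.Agent.BEO (F2 DW Ev oddE ed rp cyc ev nb)

variable {V : Type} {G : SimpleGraph V} [Fintype V]

omit [Fintype V] in
private theorem dcbd_dart (p : Flag G) : (rp (ed p)).1 = p.1 ∨ (rp (ed p)).1 = p.1.symm := by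
  have h : (rp (ed p)).1.edge = p.1.edge := congrArg Subtype.val (Pool.Agent.BEO.ed_rp (ed p))
  exact (SimpleGraph.dart_edge_eq_iff _ _).1 h

private theorem dcbd_ends {K0 : Finset G.edgeSet} {R : Finset V} {p : Flag G}
    (h : ed p ∈ inE K0 R) : p.1.fst ∈ R ∧ p.1.snd ∈ R ∧ ed p ∉ K0 := by
  obtain ⟨h1, h2, h3⟩ := (mem_filter.1 h).2
  rcases dcbd_dart p with h4 | h4
  · rw [h4] at h2 h3
    exact ⟨h2, h3, h1⟩
  · rw [h4] at h2 h3
    exact ⟨h3, h2, h1⟩

private theorem dcbd_mem {K0 : Finset G.edgeSet} {R : Finset V} {p : Flag G}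
    (h1 : p.1.fst ∈ R) (h2 : p.1.snd ∈ R) (h3 : ed p ∉ K0) : ed p ∈ inE K0 R := by
  refine mem_filter.2 ⟨mem_univ _, h3, ?_⟩
  rcases dcbd_dart p with h4 | h4
  · rw [h4]
    exact ⟨h1, h2⟩
  · rw [h4]
    exact ⟨h2, h1⟩

private theorem dcbd_dl {K0 : Finset G.edgeSet} {A : Finset V} {p : Flag G}
    (h1 : p.1.fst ∉ A) (h2 : p.1.snd ∈ A) (h3 : ed p ∉ K0) : ed p ∈ dl G A \ K0 := by
  refine mem_sdiff.2 ⟨mem_filter.2 ⟨mem_univ _, ?_⟩, h3⟩
  rcases dcbd_dart p with h4 | h4
  · rw [h4]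
    exact fun h => h1 (h.2 h2)
  · rw [h4]
    exact fun h => h1 (h.1 h2)

private theorem dcbd_X {k : ℕ} {K0 : Finset G.edgeSet} (hK : K0.card ≤ 6 * k) {W : Finset V}
    {X : Finset (Finset V)} (h : Reg K0 W X) : X.card ≤ 12 * k := by
  have h1 : ∀ A ∈ X, ∃ v ∈ A, v ∈ K0.biUnion (fun e => {(rp e).1.fst, (rp e).1.snd}) := by
    intro A hA
    obtain ⟨v, hv, e, he, hve⟩ := h.tm A hA
    refine ⟨v, hv, mem_biUnion.2 ⟨e, he, ?_⟩⟩
    have h2 : (rp e).1.edge = e.1 := congrArg Subtype.val (Pool.Agent.BEO.ed_rp e)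
    rw [← h2] at hve
    have h3 : v ∈ s((rp e).1.fst, (rp e).1.snd) := hve
    rw [mem_insert, mem_singleton]
    exact Sym2.mem_iff.1 h3
  choose f hf1 hf2 using h1
  have h2 : X.attach.card ≤ (K0.biUnion (fun e => {(rp e).1.fst, (rp e).1.snd})).card := by
    refine card_le_card_of_injOn (fun A => f A.1 A.2) (fun A _ => hf2 A.1 A.2) ?_
    intro A _ B _ hAB
    by_contra hne
    have h3 := h.dj A.1 A.2 B.1 B.2 (fun h' => hne (Subtype.ext h'))
    have h4 := hf1 A.1 A.2
    have h5 := hf1 B.1 B.2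
    have hAB' : f A.1 A.2 = f B.1 B.2 := hAB
    rw [← hAB'] at h5
    exact (disjoint_left.1 h3) h4 h5
  rw [card_attach] at h2
  have h3 : (K0.biUnion (fun e => ({(rp e).1.fst, (rp e).1.snd} : Finset V))).card ≤ K0.card * 2 :=
    card_biUnion_le_card_mul _ _ _ fun e _ => card_le_two
  omega

theorem bd_reg (h3 : ∀ v, (nb G v).card ≤ 3) (k : ℕ) (K0 : Finset G.edgeSet) (hK : K0.card ≤ 6 * k) (W : Finset V)
    (X : Finset (Finset V)) (h : Reg K0 W X) (D : Finset G.edgeSet) (hD : D ⊆ inE K0 (rv W X))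
    (hc : (inE K0 (rv W X) \ D).card ≤ 6) (u : V) : (KD D u).card ≤ cc k := by
  have hRW : rv W X ⊆ W := sdiff_subset
  by_cases hu : u ∈ rv W X
  · have hreach : ∀ v, (gD D).Reachable u v → v ∈ rv W X := by
      rintro v ⟨w⟩
      induction w with
      | nil => exact hu
      | cons hadj w ih =>
        obtain ⟨p, _, hp2, hp3⟩ := hadj
        apply ih
        rw [← hp2]
        exact (dcbd_ends (hD hp3)).2.1
    have hsub : KD D u ⊆ (K0 ∪ (inE K0 (rv W X) \ D)) ∪ X.biUnion (fun A => dl G A \ K0) := by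
      intro e he
      obtain ⟨heD, p, hp, hr⟩ := (mem_filter.1 he).2
      subst hp
      have hpR := hreach _ hr
      by_cases heK : ed p ∈ K0
      · exact mem_union_left _ (mem_union_left _ heK)
      · have hadj : (gD (univ \ K0 : Finset G.edgeSet)).Adj p.1.fst p.1.snd :=
          ⟨p, rfl, rfl, mem_sdiff.2 ⟨mem_univ _, heK⟩⟩
        have hW := (h.comp p.1.fst (hRW hpR) p.1.snd).1 hadj.reachable
        by_cases hR2 : p.1.snd ∈ rv W X
        · exact mem_union_left _ (mem_union_right _ (mem_sdiff.2 ⟨dcbd_mem hpR hR2 heK, heD⟩))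
        · have hX : p.1.snd ∈ X.biUnion id := by
            by_contra hX
            exact hR2 (mem_sdiff.2 ⟨hW, hX⟩)
          obtain ⟨A, hA, hpA⟩ := mem_biUnion.1 hX
          refine mem_union_right _ (mem_biUnion.2 ⟨A, hA, dcbd_dl ?_ hpA heK⟩)
          intro hcon
          exact (mem_sdiff.1 hpR).2 (mem_biUnion.2 ⟨A, hA, hcon⟩)
    have h1 : (X.biUnion (fun A => dl G A \ K0)).card ≤ X.card * 6 :=
      card_biUnion_le_card_mul _ _ _ h.bd
    have h2 := dcbd_X hK h
    have h3 := card_le_card hsub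
    have h4 := card_union_le (K0 ∪ (inE K0 (rv W X) \ D)) (X.biUnion (fun A => dl G A \ K0))
    have h5 := card_union_le K0 (inE K0 (rv W X) \ D)
    unfold cc
    omega
  · have hreach : ∀ v, (gD D).Reachable u v → v = u := by
      rintro v ⟨w⟩
      cases w with
      | nil => rfl
      | cons hadj w =>
        obtain ⟨p, hp1, _, hp3⟩ := hadj
        exact absurd (by rw [← hp1]; exact (dcbd_ends (hD hp3)).1) hu
    have hle : (KD D u).card ≤ ((nb G u).image (fun v => s(u, v))).card := by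
      refine card_le_card_of_injOn Subtype.val ?_ Subtype.val_injective.injOn
      intro e he
      obtain ⟨_, p, hp, hr⟩ := (mem_filter.1 (mem_coe.1 he)).2
      have hpu := hreach _ hr
      subst hp
      refine mem_coe.2 (mem_image.2 ⟨p.1.snd, mem_filter.2 ⟨mem_univ _, ?_⟩, ?_⟩)
      · have h1 := p.1.adj
        rwa [hpu] at h1
      · rw [← hpu]
        rfl
    have h1 : ((nb G u).image (fun v => s(u, v))).card ≤ (nb G u).card := card_image_le
    have h2 := h3 u
    unfold cc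
    omega

/-- the edges outside `K0` -/
theorem bd_K0 (k : ℕ) (K0 : Finset G.edgeSet) (hK : K0.card ≤ 6 * k) (D : Finset G.edgeSet)
    (hD : univ \ K0 ⊆ D) (u : V) : (KD D u).card ≤ cc k := by
  have hsub : KD D u ⊆ K0 := by
    intro e he
    have h1 := (mem_filter.1 he).2.1
    by_contra h2
    exact h1 (hD (mem_sdiff.2 ⟨mem_univ _, h2⟩))
  have h1 := card_le_card hsub
  unfold cc
  omega

end Pool.Agent.SCG
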