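import Pool.Agent.SCG.DcDef
import Pool.Agent.BEO.CutEx

/-!
# SCG-DcCut: short closed walks outside `K0` are cuts of the graph without `K0`

PLAN. `cut_sum`: the sum of `z e` over a cut is 0 for a cycle `z` (`dL_orth` of `Pool/Agent/BEO/DLf.lean` with the
indicator of `A`: `dL (fun p => [p.1.fst ∈ A]) e = [rp.fst ∈ A] + [rp.snd ∈ A]`). `walk_cut`: by `Spans` there is
`ν ⊆ K0` with `∑ e, ([e odd in l] + [e ∈ ν]) * z e = 0` for all cycles; `cut_exists` gives `cv : V → F2`,
`A := {v | cv v = 1}`. For `e ∉ K0`: `e` is odd in `l` iff `cv` differs at its ends.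
-/

set_option autoImplicit false

open Finset
open scoped Classical

namespace Pool.Agent.SCG

open Pool.Agent.Helper35.OG (Flag GMap across side)
open Pool.Agent.BEO (F2 DW Ev oddE ed rp cyc ev)

variable {V : Type} {G : SimpleGraph V} [Fintype V]

private theorem dc_xor (x y : F2) : x + y = 1 ↔ ¬ (x = 1 ↔ y = 1) := by
  revert x y
  decide

private theorem dc_ind (P Q : Prop) [Decidable P] [Decidable Q] [Decidable (¬ (P ↔ Q))] : (if P then (1 : F2) else 0) + (if Q then 1 else 0) =
    if ¬ (P ↔ Q) then 1 else 0 := by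
  by_cases hP : P
  · by_cases hQ : Q
    · rw [if_pos hP, if_pos hQ, if_neg (fun h => h ⟨fun _ => hQ, fun _ => hP⟩)]
      decide
    · rw [if_pos hP, if_neg hQ, if_pos (fun h => hQ (h.1 hP)), add_zero]
  · by_cases hQ : Q
    · rw [if_neg hP, if_pos hQ, if_pos (fun h => hP (h.2 hQ)), zero_add]
    · rw [if_neg hP, if_neg hQ, if_neg (fun h => h ⟨fun h => absurd h hP, fun h => absurd h hQ⟩), add_zero]

theorem cut_sum (A : Finset V) : ∑ e ∈ dl G A, ev (G := G) e = 0 := by
  apply LinearMap.ext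
  intro z
  have h1 := Pool.Agent.BEO.dL_orth (G := G) (fun v => if v ∈ A then (1 : F2) else 0) z.1 z.2
  rw [LinearMap.sum_apply, LinearMap.zero_apply]
  unfold dl
  rw [Finset.sum_filter]
  refine Eq.trans (Finset.sum_congr rfl fun e _ => ?_) h1
  have h2 : Pool.Agent.BEO.dL (fun p : Flag G => if p.1.fst ∈ A then (1 : F2) else 0) e =
      (if (rp e).1.fst ∈ A then (1 : F2) else 0) + (if (rp e).1.snd ∈ A then 1 else 0) := rfl
  rw [h2, dc_ind]
  by_cases h : ¬ ((rp e).1.fst ∈ A ↔ (rp e).1.snd ∈ A)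
  · rw [if_pos h, if_pos h, one_mul]
    rfl
  · rw [if_neg h, if_neg h, zero_mul]

private theorem dc_mem {E : Type} [Fintype E] {l : List E} {e : E} (h : e ∈ oddE l) : e ∈ l := by
  unfold oddE at h
  by_contra h5
  have h6 := (Finset.mem_filter.1 h).2
  rw [List.count_eq_zero.2 h5] at h6
  exact absurd h6 (by decide)

private theorem dc_odd {E Z : Type} [Fintype E] [AddCommGroup Z] [Module F2 Z] (a : E → Z) (l : List E) :
    (l.map a).sum = ∑ e ∈ oddE l, a e := by
  have hsm : ∀ (n : ℕ) (φ : Z), n • φ = if n % 2 = 1 then φ else 0 := by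
    intro n φ
    have h2 : (2 : ℕ) • φ = 0 := by
      rw [two_nsmul]
      have h3 : (2 : F2) = 0 := by decide
      rw [← two_smul F2 φ, h3, zero_smul]
    rcases Nat.mod_two_eq_zero_or_one n with h | h
    · rw [if_neg (by omega)]
      conv_lhs => rw [← Nat.div_add_mod n 2, h, add_zero, mul_comm, mul_nsmul', h2, nsmul_zero]
    · rw [if_pos h]
      conv_lhs => rw [← Nat.div_add_mod n 2, h, add_nsmul, mul_comm, mul_nsmul', h2, nsmul_zero, zero_add,
        one_nsmul]
  rw [sum_list_map_count]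
  unfold oddE
  rw [sum_filter]
  rw [sum_subset (subset_univ l.toFinset) (fun e _ he => by
    rw [List.count_eq_zero.2 (fun h => he (List.mem_toFinset.2 h)), zero_nsmul])]
  exact sum_congr rfl fun e _ => hsm _ _

theorem walk_cut (S : GMap G) (K0 : Finset G.edgeSet) (hK : Spans S K0) (F : S.Face) (l : List G.edgeSet)
    (hl : DW (fun e => S.face (rp e)) (fun e => S.face (side (rp e))) F F l) (h6 : l.length ≤ 6)
    (hd : ∀ e ∈ l, e ∉ K0) : ∃ A : Finset V, dl G A \ K0 = oddE l := by
  obtain ⟨ν, hν, hs⟩ := hK F l hl h6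
  rw [dc_odd] at hs
  obtain ⟨cv, hcv⟩ := Pool.Agent.BEO.cut_exists
    (fun e : G.edgeSet => (if e ∈ oddE l then (1 : F2) else 0) + (if e ∈ ν then 1 else 0)) (by
      intro z hz
      have h1 := congrArg (fun f : cyc G →ₗ[F2] F2 => f ⟨z, hz⟩) hs
      have h2 : ∀ s : Finset G.edgeSet, (∑ e ∈ s, ev (G := G) e) ⟨z, hz⟩ =
          ∑ e, (if e ∈ s then (1 : F2) else 0) * z e := by
        intro s
        rw [LinearMap.sum_apply, ← Finset.sum_filter_add_sum_filter_not univ (fun e => e ∈ s)]
        have h3 : ∑ e ∈ univ.filter (fun e : G.edgeSet => ¬ e ∈ s), (if e ∈ s then (1 : F2) else 0) * z e = 0 := by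
          refine Finset.sum_eq_zero fun e he => ?_
          rw [if_neg (Finset.mem_filter.1 he).2, zero_mul]
        rw [h3, add_zero, Finset.filter_mem_eq_inter, Finset.univ_inter]
        refine Finset.sum_congr rfl fun e he => ?_
        rw [if_pos he, one_mul]
        rfl
      simp only [h2] at h1
      have h3 : ∑ e, ((if e ∈ oddE l then (1 : F2) else 0) + (if e ∈ ν then 1 else 0)) * z e =
          ∑ e, (if e ∈ oddE l then (1 : F2) else 0) * z e + ∑ e, (if e ∈ ν then (1 : F2) else 0) * z e := by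
        rw [← Finset.sum_add_distrib]
        exact Finset.sum_congr rfl fun e _ => add_mul _ _ _
      have h4 : ∀ x : F2, x + x = 0 := by decide
      show ∑ e, ((if e ∈ oddE l then (1 : F2) else 0) + (if e ∈ ν then 1 else 0)) * z e = 0
      rw [h3, h1]
      exact h4 _)
  refine ⟨univ.filter fun v => cv v = 1, ?_⟩
  ext e
  rw [Finset.mem_sdiff]
  unfold dl
  rw [Finset.mem_filter, Finset.mem_filter, Finset.mem_filter]
  have h1 := hcv (rp e)
  rw [Pool.Agent.BEO.ed_rp] at h1
  constructor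
  · rintro ⟨⟨_, h2⟩, h3⟩
    have h4 : ¬ (cv (rp e).1.fst = 1 ↔ cv (rp e).1.snd = 1) := by
      intro h5
      apply h2
      constructor
      · rintro ⟨a, b⟩
        exact ⟨Finset.mem_univ _, h5.1 b⟩
      · rintro ⟨a, b⟩
        exact ⟨Finset.mem_univ _, h5.2 b⟩
    rw [← dc_xor, ← h1] at h4
    by_contra h6
    simp only [if_neg h6, if_neg (fun h => h3 (hν h)), add_zero] at h4
    exact absurd h4 (by decide)
  · intro h2
    have h3 : e ∉ K0 := by
      intro h4
      exact hd e (dc_mem h2) h4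
    simp only [if_pos h2, if_neg (fun h => h3 (hν h)), add_zero] at h1
    have h4 := (dc_xor _ _).1 h1.symm
    refine ⟨⟨Finset.mem_univ _, ?_⟩, h3⟩
    intro h5
    apply h4
    constructor
    · intro a
      exact (h5.1 ⟨Finset.mem_univ _, a⟩).2
    · intro a
      exact (h5.2 ⟨Finset.mem_univ _, a⟩).2

end Pool.Agent.SCG
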