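import Pool.Agent.SCG.DcDef
import Pool.Agent.SCG.DcCut

/-!
# SCG-DcBond: a bond of a component in a cut

PLAN. Among all `A : Finset V` with `dl G A \ K0 ⊆ C0` and `∑ e ∈ dl G A \ K0, ev e ≠ 0` take one with
`(dl G A \ K0).card` minimal (`h0` gives one). (1) For `v ∈ A` let `A_v` be the class of `v` under reachability by
`inE K0 A`. The sets `dl G A_v \ K0`, one for each class, are disjoint with union `dl G A \ K0` (an edge outside `K0`
leaving a class leaves `A`), so one class `A1` has nonzero sum, and by minimality `dl G A1 \ K0 = dl G A \ K0`; `A1` is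
connected. (2) Let `W` be the component of `A1` in `gD (univ \ K0)`, `Y := W \ A1`: `dl G Y \ K0 = dl G A1 \ K0`, not
empty. Decompose `Y` in the same way; one class `A2` has nonzero sum and the whole `dl`; another class would have an empty
`dl`, impossible in the component `W` (`A1` is not empty). So `Y = A2` is connected.
-/

set_option autoImplicit false

open Finset
open scoped Classical

namespace Pool.Agent.SCG

open Pool.Agent.Helper35.OG (Flag GMap across side)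
open Pool.Agent.BEO (F2 DW Ev oddE ed rp cyc ev)

variable {V : Type} {G : SimpleGraph V} [Fintype V]

private theorem split_aux (K0 : Finset G.edgeSet) (A B : Finset V) (hB : B ⊆ A)
    (hn : ∀ e : G.edgeSet, e ∉ K0 → (rp e).1.fst ∈ A → (rp e).1.snd ∈ A → ((rp e).1.fst ∈ B ↔ (rp e).1.snd ∈ B)) :
    dl G A \ K0 = (dl G B \ K0) ∪ (dl G (A \ B) \ K0) ∧ Disjoint (dl G B \ K0) (dl G (A \ B) \ K0) := by
  constructor
  · ext e
    simp only [mem_sdiff, mem_union, dl, mem_filter, mem_univ, true_and]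
    have h1 := @hB (rp e).1.fst
    have h2 := @hB (rp e).1.snd
    have h3 := hn e
    tauto
  · rw [Finset.disjoint_left]
    intro e
    simp only [mem_sdiff, dl, mem_filter, mem_univ, true_and]
    have h1 := @hB (rp e).1.fst
    have h2 := @hB (rp e).1.snd
    have h3 := hn e
    tauto

private theorem adj_rp {D : Finset G.edgeSet} {e : G.edgeSet} (h : e ∈ D) :
    (gD D).Adj (rp e).1.fst (rp e).1.snd := ⟨rp e, rfl, rfl, by rw [Pool.Agent.BEO.ed_rp]; exact h⟩

/-- a set which is not connected splits off a part without edges to the rest -/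
private theorem split_conn (K0 : Finset G.edgeSet) (A : Finset V) (hc : ¬ ConnIn K0 A) :
    ∃ B ⊆ A, B.Nonempty ∧ (A \ B).Nonempty ∧
      dl G A \ K0 = (dl G B \ K0) ∪ (dl G (A \ B) \ K0) ∧ Disjoint (dl G B \ K0) (dl G (A \ B) \ K0) := by
  unfold ConnIn at hc
  push Not at hc
  obtain ⟨u, hu, v, hv, huv⟩ := hc
  refine ⟨A.filter fun w => (gD (inE K0 A)).Reachable u w, filter_subset _ _, ⟨u, ?_⟩, ⟨v, ?_⟩, ?_⟩
  · rw [mem_filter]
    exact ⟨hu, SimpleGraph.Reachable.refl _⟩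
  · rw [mem_sdiff, mem_filter]
    exact ⟨hv, fun h => huv h.2⟩
  · apply split_aux _ _ _ (filter_subset _ _)
    intro e he h1 h2
    have h3 : e ∈ inE K0 A := by
      rw [inE, mem_filter]
      exact ⟨mem_univ _, he, h1, h2⟩
    have h4 := (adj_rp h3).reachable
    rw [mem_filter, mem_filter]
    exact ⟨fun h => ⟨h2, h.2.trans h4⟩, fun h => ⟨h1, h.2.trans h4.symm⟩⟩

private theorem dl_compl (K0 : Finset G.edgeSet) (W A : Finset V) (hA : A ⊆ W)
    (hn : ∀ e : G.edgeSet, e ∉ K0 → ((rp e).1.fst ∈ W ↔ (rp e).1.snd ∈ W)) :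
    dl G A \ K0 = dl G (W \ A) \ K0 := by
  ext e
  simp only [mem_sdiff, dl, mem_filter, mem_univ, true_and]
  have h1 := @hA (rp e).1.fst
  have h2 := @hA (rp e).1.snd
  have h3 := hn e
  tauto

private theorem gD_mono {D D' : Finset G.edgeSet} (h : D ⊆ D') : gD D ≤ gD D' := by
  rintro u v ⟨p, h1, h2, h3⟩
  exact ⟨p, h1, h2, h h3⟩

theorem exists_bond (K0 C0 : Finset G.edgeSet) (A0 : Finset V) (hA : dl G A0 \ K0 = C0)
    (h0 : ∑ e ∈ C0, ev (G := G) e ≠ 0) :
    ∃ W A1 A2 : Finset V, A1.Nonempty ∧ A2.Nonempty ∧ Disjoint A1 A2 ∧ A1 ∪ A2 = W ∧ ConnIn K0 A1 ∧ ConnIn K0 A2 ∧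
      (∀ u ∈ W, ∀ v, (gD (univ \ K0)).Reachable u v ↔ v ∈ W) ∧
      dl G A1 \ K0 = dl G A2 \ K0 ∧ dl G A1 \ K0 ⊆ C0 ∧ ∑ e ∈ dl G A1 \ K0, ev (G := G) e ≠ 0 := by
  classical
  let P : Finset V → Prop := fun A => dl G A \ K0 ⊆ C0 ∧ ∑ e ∈ dl G A \ K0, ev (G := G) e ≠ 0
  have hP : ∃ n, ∃ A, P A ∧ (dl G A \ K0).card = n := ⟨_, A0, ⟨hA.subset, by rw [hA]; exact h0⟩, rfl⟩
  -- the least size of a cut
  obtain ⟨A', hA', hm⟩ := Nat.find_spec hP
  set m := Nat.find hP with hmdef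
  have hmin : ∀ A, P A → m ≤ (dl G A \ K0).card := fun A h => Nat.find_min' hP ⟨A, h, rfl⟩
  have hQ : ∃ n, ∃ A, P A ∧ (dl G A \ K0).card = m ∧ A.card = n := ⟨_, A', hA', hm, rfl⟩
  obtain ⟨A1, hA1, hm1, hc1⟩ := Nat.find_spec hQ
  have hmin2 : ∀ A, P A → (dl G A \ K0).card = m → A1.card ≤ A.card := fun A h h2 => by
    rw [hc1]
    exact Nat.find_min' hQ ⟨A, h, h2, rfl⟩
  clear_value m
  have hsub : ∀ A B : Finset V, P A → (dl G A \ K0).card = m → B ⊆ A →
      dl G A \ K0 = (dl G B \ K0) ∪ (dl G (A \ B) \ K0) → Disjoint (dl G B \ K0) (dl G (A \ B) \ K0) →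
      (P B ∧ (dl G B \ K0).card = m ∧ dl G (A \ B) \ K0 = ∅) ∨
      (P (A \ B) ∧ (dl G (A \ B) \ K0).card = m ∧ dl G B \ K0 = ∅) := by
    intro A B hPA hAm hBA h1 h2
    have h3 := card_union_of_disjoint h2
    rw [← h1, hAm] at h3
    have h4 : dl G B \ K0 ⊆ C0 := fun e he => hPA.1 (by rw [h1]; exact mem_union_left _ he)
    have h5 : dl G (A \ B) \ K0 ⊆ C0 := fun e he => hPA.1 (by rw [h1]; exact mem_union_right _ he)
    have h6 := sum_union h2 (f := fun e => ev (G := G) e)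
    rw [← h1] at h6
    by_cases h7 : ∑ e ∈ dl G B \ K0, ev (G := G) e = 0
    · right
      have h8 : P (A \ B) := ⟨h5, fun h => hPA.2 (by rw [h6, h7, h, add_zero])⟩
      have h9 := hmin _ h8
      exact ⟨h8, by omega, card_eq_zero.1 (by omega)⟩
    · left
      have h9 := hmin _ ⟨h4, h7⟩
      exact ⟨⟨h4, h7⟩, by omega, card_eq_zero.1 (by omega)⟩
  have hcA1 : ConnIn K0 A1 := by
    by_contra hc
    obtain ⟨B, hBA, hB1, hB2, h1, h2⟩ := split_conn K0 A1 hc
    have h3 : B.card + (A1 \ B).card = A1.card := by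
      rw [add_comm]
      exact card_sdiff_add_card_eq_card hBA
    have h4 := card_pos.2 hB1
    have h5 := card_pos.2 hB2
    rcases hsub A1 B hA1 hm1 hBA h1 h2 with ⟨h6, h7, _⟩ | ⟨h6, h7, _⟩
    · have := hmin2 _ h6 h7
      omega
    · have := hmin2 _ h6 h7
      omega
  have hne : ∀ A, P A → A.Nonempty := by
    intro A h
    rw [nonempty_iff_ne_empty]
    rintro rfl
    apply h.2
    apply sum_eq_zero
    intro e he
    simp [dl] at he
  obtain ⟨a, ha⟩ := hne _ hA1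
  obtain ⟨W, hW⟩ : ∃ W : Finset V, ∀ v, v ∈ W ↔ (gD (univ \ K0)).Reachable a v :=
    ⟨univ.filter fun v => (gD (univ \ K0)).Reachable a v, fun v => by
      rw [mem_filter]
      exact ⟨fun h => h.2, fun h => ⟨mem_univ _, h⟩⟩⟩
  have hWc : ∀ u ∈ W, ∀ v, (gD (univ \ K0)).Reachable u v ↔ v ∈ W := by
    intro u hu v
    rw [hW] at hu ⊢
    exact ⟨fun h => hu.trans h, fun h => hu.symm.trans h⟩
  have hA1W : A1 ⊆ W := by
    intro v hv
    rw [hW]
    refine (hcA1 a ha v hv).mono (gD_mono ?_)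
    intro e he
    rw [inE, mem_filter] at he
    rw [mem_sdiff]
    exact ⟨mem_univ _, he.2.1⟩
  have hedge : ∀ e : G.edgeSet, e ∉ K0 → ((rp e).1.fst ∈ W ↔ (rp e).1.snd ∈ W) := by
    intro e he
    have h1 := (adj_rp (mem_sdiff.2 ⟨mem_univ e, he⟩ : e ∈ univ \ K0)).reachable
    rw [hW, hW]
    exact ⟨fun h => h.trans h1, fun h => h.trans h1.symm⟩
  have hdl : dl G A1 \ K0 = dl G (W \ A1) \ K0 := dl_compl K0 W A1 hA1W hedge
  have hP2 : P (W \ A1) := by
    show dl G (W \ A1) \ K0 ⊆ C0 ∧ ∑ e ∈ dl G (W \ A1) \ K0, ev (G := G) e ≠ 0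
    rw [← hdl]
    exact hA1
  -- a set inside the component with empty boundary is everything
  have hcomp : ∀ B : Finset V, B ⊆ W \ A1 → B.Nonempty → dl G B \ K0 = ∅ → False := by
    intro B hB ⟨b, hb⟩ h1
    have h2 : ∀ u v, (gD (univ \ K0)).Adj u v → u ∈ B → v ∈ B := by
      rintro u v ⟨p, rfl, rfl, hp⟩ hu
      by_contra hv
      have h3 : ed p ∉ K0 := (mem_sdiff.1 hp).2
      have h4 : ed p ∈ dl G B \ K0 := by
        rw [mem_sdiff, dl, mem_filter]
        refine ⟨⟨mem_univ _, ?_⟩, h3⟩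
        have h5 : (rp (ed p)).1.edge = p.1.edge := congrArg Subtype.val (Pool.Agent.BEO.ed_rp (ed p))
        rcases (SimpleGraph.dart_edge_eq_iff _ _).1 h5 with h6 | h6
        · rw [h6]
          exact fun h => hv (h.1 hu)
        · rw [h6]
          exact fun h => hv (h.2 hu)
      rw [h1] at h4
      exact notMem_empty _ h4
    have h3 : ∀ u v, (gD (univ \ K0)).Reachable u v → u ∈ B → v ∈ B := by
      rintro u v ⟨w⟩
      induction w with
      | nil => exact id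
      | cons h _ ih => exact fun hu => ih (h2 _ _ h hu)
    have h4 := hB hb
    rw [mem_sdiff, hW] at h4
    have h5 := h3 _ _ h4.1.symm hb
    exact (mem_sdiff.1 (hB h5)).2 ha
  have hm2 : (dl G (W \ A1) \ K0).card = m := by rw [← hdl]; exact hm1
  have hcA2 : ConnIn K0 (W \ A1) := by
    by_contra hc
    obtain ⟨B, hBA, hB1, hB2, h1, h2⟩ := split_conn K0 (W \ A1) hc
    rcases hsub (W \ A1) B hP2 hm2 hBA h1 h2 with ⟨_, _, h7⟩ | ⟨_, _, h7⟩
    · exact hcomp _ sdiff_subset hB2 h7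
    · exact hcomp _ hBA hB1 h7
  exact ⟨W, A1, W \ A1, ⟨a, ha⟩, hne _ hP2, disjoint_sdiff, union_sdiff_of_subset hA1W, hcA1, hcA2, hWc, hdl, hA1.1,
    hA1.2⟩

end Pool.Agent.SCG
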