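import Pool.Agent.SCG.Pc

/-!
# SCG: regions

`K0` is a bounded set of edges (the union of short closed walks of the dual graph which span the classes of all short
closed walks). A region is a component `W` of the graph without `K0` minus some disjoint connected sets, each of which
sends at most 6 edges outside and contains an end of an edge of `K0`.
-/

set_option autoImplicit false

open Finset
open scoped Classical

namespace Pool.Agent.SCG

open Pool.Agent.Helper35.OG (Flag GMap across side)
open Pool.Agent.BEO (F2 DW Ev oddE ed rp cyc ev)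

variable {V : Type} {G : SimpleGraph V} [Fintype V]

/-- the edges with exactly one end in `A` -/
noncomputable def dl (G : SimpleGraph V) (A : Finset V) : Finset G.edgeSet :=
  univ.filter fun e => ¬ ((rp e).1.fst ∈ A ↔ (rp e).1.snd ∈ A)

/-- the edges outside `K0` with both ends in `A` -/
noncomputable def inE (K0 : Finset G.edgeSet) (A : Finset V) : Finset G.edgeSet :=
  univ.filter fun e => e ∉ K0 ∧ (rp e).1.fst ∈ A ∧ (rp e).1.snd ∈ A

/-- `A` is connected by edges outside `K0` -/
def ConnIn (K0 : Finset G.edgeSet) (A : Finset V) : Prop := ∀ u ∈ A, ∀ v ∈ A, (gD (inE K0 A)).Reachable u v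

/-- `K0` meets the class of every short closed walk -/
def Spans (S : GMap G) (K0 : Finset G.edgeSet) : Prop := ∀ (F : S.Face) (l : List G.edgeSet),
  DW (fun e => S.face (rp e)) (fun e => S.face (side (rp e))) F F l → l.length ≤ 6 →
    ∃ ν ⊆ K0, (l.map (ev (G := G))).sum = ∑ e ∈ ν, ev e

/-- a region: the component `W` without the sets in `X` -/
structure Reg (K0 : Finset G.edgeSet) (W : Finset V) (X : Finset (Finset V)) : Prop where
  comp : ∀ u ∈ W, ∀ v, (gD (univ \ K0)).Reachable u v ↔ v ∈ W
  sub : ∀ A ∈ X, A ⊆ W
  dj : ∀ A ∈ X, ∀ B ∈ X, A ≠ B → Disjoint A B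
  cn : ∀ A ∈ X, ConnIn K0 A
  bd : ∀ A ∈ X, (dl G A \ K0).card ≤ 6
  tm : ∀ A ∈ X, ∃ v ∈ A, ∃ e ∈ K0, v ∈ e.1

/-- the vertices of a region -/
noncomputable def rv (W : Finset V) (X : Finset (Finset V)) : Finset V := W \ X.biUnion id

/-- the bound for the number of edges at the boundary of a piece -/
def cc (k : ℕ) : ℕ := 78 * k + 9

end Pool.Agent.SCG
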