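import Pool.Agent.SCG.DcBond

/-!
# SCG-DcStep: splitting a bad region
-/

set_option autoImplicit false

open Finset
open scoped Classical

namespace Pool.Agent.SCG

open Pool.Agent.Helper35.OG (Flag GMap across side)
open Pool.Agent.BEO (F2 DW Ev oddE ed rp cyc ev)

variable {V : Type} {G : SimpleGraph V} [Fintype V]

private theorem ds_f2 : ∀ a : F2, a + a = 0 := by decide

private theorem ds_gen {E Z : Type} [Fintype E] [AddCommGroup Z] (f : E → Z) (h2 : ∀ e, f e + f e = 0)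
    (l : List E) : (l.map f).sum = ∑ e ∈ oddE l, f e := by
  have hsm : ∀ (n : ℕ) (e : E), n • f e = if n % 2 = 1 then f e else 0 := by
    intro n e
    have h3 : (2 : ℕ) • f e = 0 := by
      rw [two_nsmul]
      exact h2 e
    rcases Nat.mod_two_eq_zero_or_one n with h | h
    · rw [if_neg (by omega)]
      conv_lhs => rw [← Nat.div_add_mod n 2, h, add_zero, mul_comm, mul_nsmul', h3, nsmul_zero]
    · rw [if_pos h]
      conv_lhs => rw [← Nat.div_add_mod n 2, h, add_nsmul, mul_comm, mul_nsmul', h3, nsmul_zero, zero_add,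
        one_nsmul]
  rw [sum_list_map_count]
  unfold oddE
  rw [sum_filter]
  rw [sum_subset (subset_univ l.toFinset) (fun e _ he => by
    rw [List.count_eq_zero.2 (fun h => he (List.mem_toFinset.2 h)), zero_nsmul])]
  exact sum_congr rfl fun e _ => hsm _ _

private theorem ds_cls (l : List G.edgeSet) : (l.map (ev (G := G))).sum = ∑ e ∈ oddE l, ev (G := G) e := by
  refine ds_gen _ (fun e => LinearMap.ext fun y => ?_) l
  exact ds_f2 _

private theorem ds_ends (p : Flag G) (A : Finset V) :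
    ((rp (ed p)).1.fst ∈ A ∧ (rp (ed p)).1.snd ∈ A ↔ p.1.fst ∈ A ∧ p.1.snd ∈ A) ∧
      (((rp (ed p)).1.fst ∈ A ↔ (rp (ed p)).1.snd ∈ A) ↔ (p.1.fst ∈ A ↔ p.1.snd ∈ A)) := by
  have h1 : (rp (ed p)).1.edge = p.1.edge := congrArg Subtype.val (Pool.Agent.BEO.ed_rp (ed p))
  rcases (SimpleGraph.dart_edge_eq_iff _ _).1 h1 with h2 | h2
  · rw [h2]
    exact ⟨Iff.rfl, Iff.rfl⟩
  · rw [h2]
    constructor
    · exact and_comm
    · exact iff_comm

private theorem ds_reach {H : SimpleGraph V} {P : V → Prop} (hP : ∀ u v, H.Adj u v → (P u ↔ P v)) {u v : V}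
    (h : H.Reachable u v) : P u ↔ P v := by
  obtain ⟨w⟩ := h
  induction w with
  | nil => exact Iff.rfl
  | cons hadj _ ih => exact (hP _ _ hadj).trans ih

private theorem ds_odd {E : Type} [Fintype E] {l : List E} {e : E} (he : e ∈ oddE l) : e ∈ l := by
  unfold oddE at he
  rw [mem_filter] at he
  by_contra hc
  rw [List.count_eq_zero.2 hc] at he
  omega

private theorem ds_odd_card {E : Type} [Fintype E] (l : List E) : (oddE l).card ≤ l.length := by
  have h1 : oddE l ⊆ l.toFinset := fun e he => List.mem_toFinset.2 (ds_odd he)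
  exact (card_le_card h1).trans (List.toFinset_card_le l)

/-- a set of vertices whose cut without `K0` has nonzero sum has a vertex at `K0` -/
private theorem ds_tm (K0 : Finset G.edgeSet) (A : Finset V)
    (h0 : ∑ e ∈ dl G A \ K0, ev (G := G) e ≠ 0) : ∃ v ∈ A, ∃ e ∈ K0, v ∈ e.1 := by
  by_contra hcon
  push Not at hcon
  apply h0
  have h1 : dl G A \ K0 = dl G A := by
    rw [Finset.sdiff_eq_self_iff_disjoint, Finset.disjoint_left]
    intro e he hK
    unfold dl at he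
    rw [mem_filter] at he
    have hf : (rp e).1.fst ∈ e.1 := by
      have h2 : e.1 = (rp e).1.edge := (congrArg Subtype.val (Pool.Agent.BEO.ed_rp e)).symm
      rw [h2]
      exact Sym2.mem_mk_left (rp e).1.fst (rp e).1.snd
    have hs : (rp e).1.snd ∈ e.1 := by
      have h2 : e.1 = (rp e).1.edge := (congrArg Subtype.val (Pool.Agent.BEO.ed_rp e)).symm
      rw [h2]
      exact Sym2.mem_mk_right (rp e).1.fst (rp e).1.snd
    by_cases ha : (rp e).1.fst ∈ A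
    · exact hcon _ ha e hK hf
    · by_cases hb : (rp e).1.snd ∈ A
      · exact hcon _ hb e hK hs
      · exact he.2 ⟨fun h => absurd h ha, fun h => absurd h hb⟩
  rw [h1]
  exact cut_sum A

/-- one of the two new regions -/
private theorem ds_reg (K0 : Finset G.edgeSet) (W : Finset V) (X : Finset (Finset V)) (h : Reg K0 W X)
    {A1 A2 : Finset V} (hdj : Disjoint A1 A2) (hun : A1 ∪ A2 = W) (hc2 : ConnIn K0 A2)
    (hb2 : (dl G A2 \ K0).card ≤ 6) (ht2 : ∃ v ∈ A2, ∃ e ∈ K0, v ∈ e.1)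
    (hX : ∀ A ∈ X, A ⊆ A1 ∨ A ⊆ A2) :
    Reg K0 W (insert A2 (X.filter fun A => A ⊆ A1)) ∧
      ∀ v, v ∈ rv W (insert A2 (X.filter fun A => A ⊆ A1)) ↔ v ∈ rv W X ∧ v ∈ A1 := by
  have hm : ∀ A, A ∈ insert A2 (X.filter fun A => A ⊆ A1) ↔ A = A2 ∨ (A ∈ X ∧ A ⊆ A1) := by
    intro A
    rw [mem_insert, mem_filter]
  have hd2 : ∀ A, A ⊆ A1 → Disjoint A2 A := fun A hA => (hdj.mono_left hA).symm
  constructor
  · refine ⟨h.comp, ?_, ?_, ?_, ?_, ?_⟩
    · intro A hA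
      rcases (hm A).1 hA with rfl | ⟨h1, _⟩
      · rw [← hun]
        exact subset_union_right
      · exact h.sub A h1
    · intro A hA B hB hAB
      rcases (hm A).1 hA with rfl | ⟨h1, h1'⟩
      · rcases (hm B).1 hB with rfl | ⟨h2, h2'⟩
        · exact absurd rfl hAB
        · exact hd2 B h2'
      · rcases (hm B).1 hB with rfl | ⟨h2, h2'⟩
        · exact (hd2 A h1').symm
        · exact h.dj A h1 B h2 hAB
    · intro A hA
      rcases (hm A).1 hA with rfl | ⟨h1, _⟩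
      · exact hc2
      · exact h.cn A h1
    · intro A hA
      rcases (hm A).1 hA with rfl | ⟨h1, _⟩
      · exact hb2
      · exact h.bd A h1
    · intro A hA
      rcases (hm A).1 hA with rfl | ⟨h1, _⟩
      · exact ht2
      · exact h.tm A h1
  · intro v
    unfold rv
    rw [mem_sdiff, mem_sdiff, mem_biUnion, mem_biUnion]
    constructor
    · rintro ⟨h1, h2⟩
      have hv2 : v ∉ A2 := fun hv => h2 ⟨A2, (hm A2).2 (Or.inl rfl), hv⟩
      have hv1 : v ∈ A1 := by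
        rw [← hun, mem_union] at h1
        exact h1.resolve_right hv2
      refine ⟨⟨h1, ?_⟩, hv1⟩
      rintro ⟨A, hA, hvA⟩
      have hvA' : v ∈ A := hvA
      rcases hX A hA with h3 | h3
      · exact h2 ⟨A, (hm A).2 (Or.inr ⟨hA, h3⟩), hvA⟩
      · exact hv2 (h3 hvA')
    · rintro ⟨⟨h1, h2⟩, hv1⟩
      refine ⟨h1, ?_⟩
      rintro ⟨A, hA, hvA⟩
      have hvA' : v ∈ A := hvA
      rcases (hm A).1 hA with rfl | ⟨h3, _⟩
      · exact Finset.disjoint_left.1 hdj hv1 hvA'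
      · exact h2 ⟨A, h3, hvA⟩

theorem reg_split (S : GMap G) (K0 : Finset G.edgeSet) (hK : Spans S K0) (W : Finset V) (X : Finset (Finset V))
    (h : Reg K0 W X) (hb : ¬ GoodIn S (inE K0 (rv W X))) :
    ∃ X1 X2, Reg K0 W X1 ∧ Reg K0 W X2 ∧ Disjoint (rv W X1) (rv W X2) ∧
      inE K0 (rv W X1) ∪ inE K0 (rv W X2) ⊆ inE K0 (rv W X) ∧
      (inE K0 (rv W X) \ (inE K0 (rv W X1) ∪ inE K0 (rv W X2))).card ≤ 6 ∧
      (inE K0 (rv W X1)).card < (inE K0 (rv W X)).card ∧ (inE K0 (rv W X2)).card < (inE K0 (rv W X)).card := by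
  unfold GoodIn at hb
  push Not at hb
  obtain ⟨F, l, hl, hin, h6, hne⟩ := hb
  rw [ds_cls] at hne
  have hmem : ∀ (A : Finset V) (e : G.edgeSet), e ∈ inE K0 A ↔ e ∉ K0 ∧ (rp e).1.fst ∈ A ∧ (rp e).1.snd ∈ A := by
    intro A e
    unfold inE
    rw [mem_filter]
    exact ⟨fun h => h.2, fun h => ⟨mem_univ _, h⟩⟩
  have hdl : ∀ (A : Finset V) (e : G.edgeSet), e ∈ dl G A ↔ ¬ ((rp e).1.fst ∈ A ↔ (rp e).1.snd ∈ A) := by
    intro A e
    unfold dl
    rw [mem_filter]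
    exact ⟨fun h => h.2, fun h => ⟨mem_univ _, h⟩⟩
  obtain ⟨A0, hA0⟩ := walk_cut S K0 hK F l hl h6 (fun e he => ((hmem _ e).1 (hin e he)).1)
  obtain ⟨W', A1, A2, -, -, hdj, hun, hc1, hc2, hcomp, hCC, hCs, hC0⟩ := exists_bond K0 (oddE l) A0 hA0 hne
  obtain ⟨C, hC⟩ : ∃ C : Finset G.edgeSet, C = dl G A1 \ K0 := ⟨_, rfl⟩
  have hC2 : C = dl G A2 \ K0 := by
    rw [hC]
    exact hCC
  have hC0' : ∑ e ∈ C, ev (G := G) e ≠ 0 := by
    rw [hC]
    exact hC0
  have hCsub : C ⊆ oddE l := by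
    rw [hC]
    exact hCs
  have hCin : C ⊆ inE K0 (rv W X) := fun e he => hin e (ds_odd (hCsub he))
  have hC6 : C.card ≤ 6 := (card_le_card hCsub).trans ((ds_odd_card l).trans h6)
  have hCne : C.Nonempty := by
    rw [Finset.nonempty_iff_ne_empty]
    intro h0
    apply hC0'
    rw [h0, sum_empty]
  -- the component
  have hRW : ∀ v ∈ rv W X, v ∈ W := by
    intro v hv
    unfold rv at hv
    exact (mem_sdiff.1 hv).1
  have hWW : W' = W := by
    obtain ⟨e, he⟩ := hCne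
    have h1 := (hmem _ e).1 (hCin he)
    have h2 : e ∈ dl G A1 := by
      rw [hC] at he
      exact (mem_sdiff.1 he).1
    rw [hdl] at h2
    have hx : ∃ x, x ∈ W ∧ x ∈ W' := by
      by_cases h3 : (rp e).1.fst ∈ A1
      · refine ⟨_, hRW _ h1.2.1, ?_⟩
        rw [← hun]
        exact mem_union_left _ h3
      · have h4 : (rp e).1.snd ∈ A1 := by
          by_contra h4
          exact h2 ⟨fun h => absurd h h3, fun h => absurd h h4⟩
        refine ⟨_, hRW _ h1.2.2, ?_⟩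
        rw [← hun]
        exact mem_union_left _ h4
    obtain ⟨x, hxW, hxW'⟩ := hx
    ext v
    rw [← h.comp x hxW v, hcomp x hxW' v]
  rw [hWW] at hun
  have hX : ∀ A ∈ X, A ⊆ A1 ∨ A ⊆ A2 := by
    intro A hA
    have hstep : ∀ u v, (gD (inE K0 A)).Adj u v → (u ∈ A1 ↔ v ∈ A1) := by
      rintro u v ⟨p, rfl, rfl, hp⟩
      obtain ⟨h1, h2⟩ := (hmem _ _).1 hp
      by_contra hcon
      have h3 : ed p ∈ C := by
        rw [hC, mem_sdiff, hdl]
        exact ⟨fun h4 => hcon ((ds_ends p A1).2.1 h4), h1⟩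
      have h4 := ((hmem _ _).1 (hCin h3)).2.1
      unfold rv at h4
      exact (mem_sdiff.1 h4).2 (mem_biUnion.2 ⟨A, hA, h2.1⟩)
    by_cases hex : ∃ u ∈ A, u ∈ A1
    · obtain ⟨u, huA, hu1⟩ := hex
      left
      intro v hv
      exact (ds_reach (P := fun x => x ∈ A1) hstep (h.cn A hA u huA v hv)).1 hu1
    · right
      intro v hv
      have h1 : v ∈ W := h.sub A hA hv
      rw [← hun, mem_union] at h1
      exact h1.resolve_left (fun h2 => hex ⟨v, hv, h2⟩)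
  have hb1 : (dl G A1 \ K0).card ≤ 6 := by
    rw [← hC]
    exact hC6
  have hb2 : (dl G A2 \ K0).card ≤ 6 := by
    rw [← hC2]
    exact hC6
  have ht1 : ∃ v ∈ A1, ∃ e ∈ K0, v ∈ e.1 := ds_tm K0 A1 (by
    rw [← hC]
    exact hC0')
  have ht2 : ∃ v ∈ A2, ∃ e ∈ K0, v ∈ e.1 := ds_tm K0 A2 (by
    rw [← hC2]
    exact hC0')
  obtain ⟨hr1, hv1⟩ := ds_reg K0 W X h hdj hun hc2 hb2 ht2 hX
  obtain ⟨hr2, hv2⟩ := ds_reg K0 W X h hdj.symm ((union_comm _ _).trans hun) hc1 hb1 ht1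
    (fun A hA => (hX A hA).symm)
  obtain ⟨X1, hX1⟩ : ∃ X1 : Finset (Finset V), X1 = insert A2 (X.filter fun A => A ⊆ A1) := ⟨_, rfl⟩
  obtain ⟨X2, hX2⟩ : ∃ X2 : Finset (Finset V), X2 = insert A1 (X.filter fun A => A ⊆ A2) := ⟨_, rfl⟩
  rw [← hX1] at hr1 hv1
  rw [← hX2] at hr2 hv2
  have hs1 : inE K0 (rv W X1) ⊆ inE K0 (rv W X) := by
    intro e he
    obtain ⟨a, b, c⟩ := (hmem _ e).1 he
    exact (hmem _ e).2 ⟨a, ((hv1 _).1 b).1, ((hv1 _).1 c).1⟩
  have hs2 : inE K0 (rv W X2) ⊆ inE K0 (rv W X) := by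
    intro e he
    obtain ⟨a, b, c⟩ := (hmem _ e).1 he
    exact (hmem _ e).2 ⟨a, ((hv2 _).1 b).1, ((hv2 _).1 c).1⟩
  have hn1 : ∀ e ∈ C, e ∉ inE K0 (rv W X1) := by
    intro e he hc
    obtain ⟨a, b, c⟩ := (hmem _ e).1 hc
    have h2 : e ∈ dl G A1 := by
      rw [hC] at he
      exact (mem_sdiff.1 he).1
    rw [hdl] at h2
    exact h2 ⟨fun _ => ((hv1 _).1 c).2, fun _ => ((hv1 _).1 b).2⟩
  have hn2 : ∀ e ∈ C, e ∉ inE K0 (rv W X2) := by
    intro e he hc
    obtain ⟨a, b, c⟩ := (hmem _ e).1 hc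
    have h2 : e ∈ dl G A2 := by
      rw [hC2] at he
      exact (mem_sdiff.1 he).1
    rw [hdl] at h2
    exact h2 ⟨fun _ => ((hv2 _).1 c).2, fun _ => ((hv2 _).1 b).2⟩
  obtain ⟨e0, he0⟩ := hCne
  refine ⟨X1, X2, hr1, hr2, ?_, union_subset hs1 hs2, ?_, ?_, ?_⟩
  · rw [Finset.disjoint_left]
    intro v h1 h2
    exact Finset.disjoint_left.1 hdj ((hv1 v).1 h1).2 ((hv2 v).1 h2).2
  · refine (card_le_card ?_).trans hC6
    intro e he
    obtain ⟨h1, h2⟩ := mem_sdiff.1 he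
    obtain ⟨a, b, c⟩ := (hmem _ e).1 h1
    rw [hC, mem_sdiff, hdl]
    refine ⟨fun hiff => h2 (mem_union.2 ?_), a⟩
    by_cases h3 : (rp e).1.fst ∈ A1
    · left
      exact (hmem _ e).2 ⟨a, (hv1 _).2 ⟨b, h3⟩, (hv1 _).2 ⟨c, hiff.1 h3⟩⟩
    · right
      have h4 : (rp e).1.snd ∉ A1 := fun h5 => h3 (hiff.2 h5)
      have h5 : ∀ v, v ∈ rv W X → v ∉ A1 → v ∈ A2 := by
        intro v hv hv'
        have h6 := hRW v hv
        rw [← hun, mem_union] at h6
        exact h6.resolve_left hv'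
      exact (hmem _ e).2 ⟨a, (hv2 _).2 ⟨b, h5 _ b h3⟩, (hv2 _).2 ⟨c, h5 _ c h4⟩⟩
  · refine card_lt_card ((Finset.ssubset_iff_of_subset hs1).2 ⟨e0, hCin he0, hn1 e0 he0⟩)
  · refine card_lt_card ((Finset.ssubset_iff_of_subset hs2).2 ⟨e0, hCin he0, hn2 e0 he0⟩)

end Pool.Agent.SCG
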