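import Pool.Agent.SCG.DcK
import Pool.Agent.SCG.DcBd
import Pool.Agent.SCG.DcStep

/-!
# SCG-DcInd: the induction principle for pieces

Regions (`reg_split`), then unions of components of the graph without `K0`, then the edges of `K0`.
-/

set_option autoImplicit false

open Finset
open scoped Classical

namespace Pool.Agent.SCG

open Pool.Agent.Helper35.OG (Flag GMap across side)
open Pool.Agent.BEO (F2 DW Ev oddE ed rp cyc ev nb)

variable {V : Type} {G : SimpleGraph V} [Fintype V]

/-- adding edges one by one -/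
private theorem di_add {k : ℕ} {Q : Finset G.edgeSet → Prop}
    (h2 : ∀ D e, e ∈ D → (∀ u, (KD D u).card ≤ cc k) → (∀ u, (KD (D.erase e) u).card ≤ cc k) →
      Q (D.erase e) → Q D) (A B : Finset G.edgeSet)
    (hb : ∀ D, A ⊆ D → D ⊆ B → ∀ u, (KD D u).card ≤ cc k) (hA : Q A) :
    ∀ D, A ⊆ D → D ⊆ B → Q D := by
  have key : ∀ m : ℕ, ∀ D, (D \ A).card = m → A ⊆ D → D ⊆ B → Q D := by
    intro m
    induction m with
    | zero =>
      intro D hm h1 _
      have h4 : D = A :=
        Finset.Subset.antisymm (Finset.sdiff_eq_empty_iff_subset.1 (Finset.card_eq_zero.1 hm)) h1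
      rw [h4]
      exact hA
    | succ m ih =>
      intro D hm h1 h3
      obtain ⟨e, he⟩ : (D \ A).Nonempty := Finset.card_pos.1 (by omega)
      obtain ⟨heD, heA⟩ := Finset.mem_sdiff.1 he
      have hsub : A ⊆ D.erase e := fun x hx =>
        Finset.mem_erase.2 ⟨fun h => heA (h ▸ hx), h1 hx⟩
      have hle : D.erase e ⊆ B := (Finset.erase_subset _ _).trans h3
      refine h2 D e heD (hb D h1 h3) (hb _ hsub hle) (ih _ ?_ hsub hle)
      rw [Finset.erase_sdiff_comm, Finset.card_erase_of_mem he, hm]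
      rfl
  exact fun D => key _ D rfl

omit [Fintype V] in
private theorem di_mem {e : G.edgeSet} {v : V} :
    v ∈ e.1 ↔ v = (rp e).1.fst ∨ v = (rp e).1.snd := by
  have h1 : e.1 = s((rp e).1.fst, (rp e).1.snd) :=
    (congrArg Subtype.val (Pool.Agent.BEO.ed_rp e)).symm
  rw [h1, Sym2.mem_iff]

private theorem di_end {K0 : Finset G.edgeSet} {A : Finset V} {e : G.edgeSet}
    (he : e ∈ inE K0 A) {v : V} (hv : v ∈ e.1) : v ∈ A := by
  unfold inE at he
  rw [Finset.mem_filter] at he
  rcases di_mem.1 hv with h | h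
  · rw [h]
    exact he.2.2.1
  · rw [h]
    exact he.2.2.2

private theorem di_disj {K0 : Finset G.edgeSet} {A B : Finset V} (h : Disjoint A B) :
    ∀ e1 ∈ inE K0 A, ∀ e2 ∈ inE K0 B, ∀ v, ¬ (v ∈ e1.1 ∧ v ∈ e2.1) := by
  rintro e1 h1 e2 h2 v ⟨h3, h4⟩
  exact Finset.disjoint_left.1 h (di_end h1 h3) (di_end h2 h4)

omit [Fintype V] in
private theorem di_rv (W : Finset V) : rv W ∅ = W := by
  unfold rv
  rw [Finset.biUnion_empty, Finset.sdiff_empty]

theorem dec_ind [Nontrivial V] (hG : G.Connected) (hv : ∀ v, (nb G v).card ≤ 3) (S : GMap G) (k : ℕ) (hk : S.eg ≤ k)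
    (Q : Finset G.edgeSet → Prop) (h1 : ∀ D, GoodIn S D → (∀ u, (KD D u).card ≤ cc k) → Q D)
    (h2 : ∀ D e, e ∈ D → (∀ u, (KD D u).card ≤ cc k) → (∀ u, (KD (D.erase e) u).card ≤ cc k) → Q (D.erase e) → Q D)
    (h3 : ∀ D1 D2 : Finset G.edgeSet, (∀ e1 ∈ D1, ∀ e2 ∈ D2, ∀ v, ¬ (v ∈ e1.1 ∧ v ∈ e2.1)) → Q D1 → Q D2 →
      Q (D1 ∪ D2)) : Q univ := by
  obtain ⟨K0, hK, hKs⟩ := exists_K0 hG S k hk
  -- regions
  have hreg : ∀ m : ℕ, ∀ (W : Finset V) (X : Finset (Finset V)), Reg K0 W X →
      (inE K0 (rv W X)).card = m → Q (inE K0 (rv W X)) := by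
    intro m
    induction m using Nat.strong_induction_on with
    | _ m ih =>
      intro W X hR hm
      by_cases hg : GoodIn S (inE K0 (rv W X))
      · refine h1 _ hg fun u => ?_
        refine bd_reg hv k K0 hK W X hR _ (Finset.Subset.refl _) ?_ u
        rw [Finset.sdiff_self, Finset.card_empty]
        exact Nat.zero_le _
      · obtain ⟨X1, X2, r1, r2, dj, s1, s2, c1, c2⟩ := reg_split S K0 hKs W X hR hg
        have q1 := ih _ (by rw [← hm]; exact c1) W X1 r1 rfl
        have q2 := ih _ (by rw [← hm]; exact c2) W X2 r2 rfl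
        have q3 := h3 _ _ (di_disj dj) q1 q2
        refine di_add h2 _ (inE K0 (rv W X)) ?_ q3 _ s1 (Finset.Subset.refl _)
        intro D hD1 hD2 u
        refine bd_reg hv k K0 hK W X hR D hD2 ?_ u
        exact (Finset.card_le_card (Finset.sdiff_subset_sdiff (Finset.Subset.refl _) hD1)).trans s2
  -- components
  obtain ⟨cp, hcp⟩ : ∃ cp : V → Finset V,
      cp = fun u => univ.filter fun v => (gD (univ \ K0)).Reachable u v := ⟨_, rfl⟩
  have hmem : ∀ u v, v ∈ cp u ↔ (gD (univ \ K0)).Reachable u v := by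
    intro u v
    rw [hcp]
    show v ∈ univ.filter (fun v => (gD (univ \ K0)).Reachable u v) ↔ _
    rw [Finset.mem_filter]
    exact ⟨fun h => h.2, fun h => ⟨Finset.mem_univ _, h⟩⟩
  have hcR : ∀ u, Reg K0 (cp u) ∅ := by
    intro u
    refine ⟨?_, ?_, ?_, ?_, ?_, ?_⟩
    · intro u' hu' v
      rw [hmem] at hu' ⊢
      exact ⟨fun h => hu'.trans h, fun h => hu'.symm.trans h⟩
    · exact fun A hA => absurd hA (Finset.notMem_empty A)
    · exact fun A hA => absurd hA (Finset.notMem_empty A)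
    · exact fun A hA => absurd hA (Finset.notMem_empty A)
    · exact fun A hA => absurd hA (Finset.notMem_empty A)
    · exact fun A hA => absurd hA (Finset.notMem_empty A)
  have hcQ : ∀ u, Q (inE K0 (cp u)) := by
    intro u
    have h := hreg _ (cp u) ∅ (hcR u) rfl
    rwa [di_rv] at h
  have hcd : ∀ u v, cp u ≠ cp v → Disjoint (cp u) (cp v) := by
    intro u v hne
    rw [Finset.disjoint_left]
    intro r h4 h5
    rw [hmem] at h4 h5
    apply hne
    ext t
    rw [hmem, hmem]
    exact ⟨fun h => h5.trans (h4.symm.trans h), fun h => h4.trans (h5.symm.trans h)⟩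
  have hun : ∀ U : Finset (Finset V), (∀ W ∈ U, ∃ u, W = cp u) → U.Nonempty →
      Q (U.biUnion (inE K0)) := by
    intro U
    induction U using Finset.induction_on with
    | empty => exact fun _ h => absurd h Finset.not_nonempty_empty
    | insert W U hW ih =>
      intro hU _
      obtain ⟨u, rfl⟩ := hU W (Finset.mem_insert_self W U)
      rw [Finset.biUnion_insert]
      rcases U.eq_empty_or_nonempty with he | hne
      · rw [he, Finset.biUnion_empty, Finset.union_empty]
        exact hcQ u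
      · refine h3 _ _ ?_ (hcQ u) (ih (fun W' hW' => hU W' (Finset.mem_insert_of_mem hW')) hne)
        rintro e1 he1 e2 he2 v ⟨h4, h5⟩
        obtain ⟨W', hW', he2'⟩ := Finset.mem_biUnion.1 he2
        obtain ⟨u', rfl⟩ := hU W' (Finset.mem_insert_of_mem hW')
        have hne' : cp u ≠ cp u' := fun h => hW (by rw [h]; exact hW')
        exact di_disj (hcd u u' hne') e1 he1 e2 he2' v ⟨h4, h5⟩
  have hall : (univ.image cp).biUnion (inE K0) = univ \ K0 := by
    ext e
    rw [Finset.mem_biUnion, Finset.mem_sdiff]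
    constructor
    · rintro ⟨W, _, hW⟩
      unfold inE at hW
      rw [Finset.mem_filter] at hW
      exact ⟨Finset.mem_univ _, hW.2.1⟩
    · rintro ⟨_, he⟩
      refine ⟨cp (rp e).1.fst, Finset.mem_image_of_mem _ (Finset.mem_univ _), ?_⟩
      unfold inE
      rw [Finset.mem_filter, hmem, hmem]
      refine ⟨Finset.mem_univ _, he, SimpleGraph.Reachable.refl _, ?_⟩
      refine SimpleGraph.Adj.reachable ⟨rp e, rfl, rfl, ?_⟩
      rw [Pool.Agent.BEO.ed_rp]
      exact Finset.mem_sdiff.2 ⟨Finset.mem_univ _, he⟩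
  have hQ0 : Q (univ \ K0) := by
    have h := hun (univ.image cp) (fun W hW => by
      obtain ⟨u, _, rfl⟩ := Finset.mem_image.1 hW
      exact ⟨u, rfl⟩) (Finset.univ_nonempty.image cp)
    rwa [hall] at h
  exact di_add h2 (univ \ K0) univ (fun D hD _ u => bd_K0 k K0 hK D hD u) hQ0 univ
    (Finset.subset_univ _) (Finset.Subset.refl _)

end Pool.Agent.SCG
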