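import Pool.Agent.SCG.DcDef
import Pool.Agent.BEO.FrmRank
import Pool.Agent.BEO.DWB

/-!
# SCG-DcK: a bounded set of edges spanning the classes of the short closed walks

The classes of closed walks vanish on the boundaries of the faces, so they span a space of dimension at most the Euler
genus; `K0` is the set of the edges of short closed walks whose classes are a basis of this span.
-/

set_option autoImplicit false

open Finset
open scoped Classical

namespace Pool.Agent.SCG

open Pool.Agent.Helper35.OG (Flag GMap across side)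
open Pool.Agent.BEO (F2 DW Ev oddE ed rp cyc ev bdF frm bdF_eq frm_rad frm_rank)

variable {V : Type} {G : SimpleGraph V} [Fintype V]

/-- the class of a walk -/
private noncomputable def cls (l : List G.edgeSet) : Module.Dual F2 (cyc G) := (l.map (ev (G := G))).sum

private theorem cls_apply (l : List G.edgeSet) (z : cyc G) : cls l z = (l.map fun e => z.1 e).sum := by
  induction l with
  | nil => simp [cls]
  | cons e l ih =>
    have h : cls (e :: l) = ev e + cls l := by
      unfold cls
      rw [List.map_cons, List.sum_cons]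
    rw [h, LinearMap.add_apply, ih, List.map_cons, List.sum_cons]
    rfl

private theorem cls_bd (S : GMap G) {F : S.Face} {l : List G.edgeSet}
    (h : DW (fun e => S.face (rp e)) (fun e => S.face (side (rp e))) F F l) (X : S.Face) :
    cls l (bdF S X) = 0 := by
  rw [cls_apply]
  have h1 : (l.map fun e => (bdF S X).1 e) =
      l.map fun e => ((if S.face (rp e) = X then (1 : F2) else 0) + (if S.face (side (rp e)) = X then 1 else 0)) := by
    refine List.map_congr_left fun e _ => ?_
    rw [← bdF_eq S X (rp e), Pool.Agent.BEO.ed_rp]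
  rw [h1]
  refine (h.bd X).trans ?_
  exact CharTwo.add_self_eq_zero _

private theorem exists_nu (K : Finset G.edgeSet) {φ : Module.Dual F2 (cyc G)}
    (h : φ ∈ Submodule.span F2 ((fun e => (ev e : Module.Dual F2 (cyc G))) '' (K : Set G.edgeSet))) :
    ∃ ν ⊆ K, φ = ∑ e ∈ ν, ev e := by
  rw [Submodule.mem_span_image_finset_iff_exists_fun] at h
  obtain ⟨c', hc'⟩ := h
  obtain ⟨c, hc⟩ : ∃ c : G.edgeSet → F2, ∑ e ∈ K, c e • (ev e : Module.Dual F2 (cyc G)) = φ := by
    refine ⟨fun e => if h : e ∈ K then c' ⟨e, h⟩ else 0, ?_⟩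
    rw [← hc', ← Finset.sum_coe_sort K]
    refine Finset.sum_congr rfl fun e _ => ?_
    beta_reduce
    rw [dif_pos e.2]
  refine ⟨K.filter fun e => c e = 1, Finset.filter_subset _ _, ?_⟩
  rw [← hc, Finset.sum_filter]
  refine Finset.sum_congr rfl fun e _ => ?_
  have h2 : ∀ x : F2, x = 0 ∨ x = 1 := by decide
  rcases h2 (c e) with h3 | h3
  · rw [h3, zero_smul, if_neg (by decide)]
  · rw [h3, one_smul, if_pos rfl]

theorem exists_K0 [Nontrivial V] (hG : G.Connected) (S : GMap G) (k : ℕ) (hk : S.eg ≤ k) :
    ∃ K0 : Finset G.edgeSet, K0.card ≤ 6 * k ∧ Spans S K0 := by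
  set A : Set (Module.Dual F2 (cyc G)) := {φ | ∃ (F : S.Face) (l : List G.edgeSet),
    DW (fun e => S.face (rp e)) (fun e => S.face (side (rp e))) F F l ∧ l.length ≤ 6 ∧ φ = cls l} with hA
  -- the dimension of the span
  have hR := Subspace.finrank_add_finrank_dualAnnihilator_eq (Submodule.span F2 (Set.range (bdF S)))
  have hker : LinearMap.ker (frm S) = Submodule.span F2 (Set.range (bdF S)) := by
    ext z
    rw [LinearMap.mem_ker, ← frm_rad S z]
    constructor
    · intro h z'
      rw [h, LinearMap.zero_apply]
    · intro h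
      exact LinearMap.ext h
  have h1 := LinearMap.finrank_range_add_finrank_ker (frm S)
  rw [hker] at h1
  have h2 := frm_rank hG S
  have hAle : Submodule.span F2 A ≤ (Submodule.span F2 (Set.range (bdF S))).dualAnnihilator := by
    rw [Submodule.span_le]
    rintro _ ⟨F, l, hl, _, rfl⟩
    rw [SetLike.mem_coe, Submodule.mem_dualAnnihilator]
    intro z hz
    have h3 : Submodule.span F2 (Set.range (bdF S)) ≤ LinearMap.ker (cls l) := by
      rw [Submodule.span_le]
      rintro _ ⟨X, rfl⟩
      exact cls_bd S hl X
    exact h3 hz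
  have hdim : Module.finrank F2 (Submodule.span F2 A) ≤ k := by
    have h3 := Submodule.finrank_mono hAle
    omega
  obtain ⟨b, hbA, hbs, hbi⟩ := exists_linearIndependent F2 A
  have hbfin : b.Finite := hbi.setFinite
  have hch : ∀ φ : Module.Dual F2 (cyc G), ∃ l : List G.edgeSet, φ ∈ b → (l.length ≤ 6 ∧ φ = cls l) := by
    intro φ
    by_cases hφ : φ ∈ b
    · obtain ⟨F, l, _, h3, h4⟩ := hbA hφ
      exact ⟨l, fun _ => ⟨h3, h4⟩⟩
    · exact ⟨[], fun h => absurd h hφ⟩
  choose L hL using hch
  have hbcard : hbfin.toFinset.card ≤ k := by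
    have : Fintype b := hbfin.fintype
    have h3 := finrank_span_eq_card hbi
    have h4 : Set.range ((↑) : b → Module.Dual F2 (cyc G)) = b := Subtype.range_coe
    rw [h4, hbs] at h3
    have h5 : hbfin.toFinset.card = Fintype.card b := by
      rw [← Set.toFinset_card]
      congr 1
      ext x
      simp
    rw [h5, ← h3]
    exact hdim
  refine ⟨hbfin.toFinset.biUnion fun φ => (L φ).toFinset, ?_, ?_⟩
  · refine Finset.card_biUnion_le.trans ?_
    have h3 : ∀ φ ∈ hbfin.toFinset, (L φ).toFinset.card ≤ 6 := by
      intro φ hφ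
      exact (List.toFinset_card_le _).trans (hL φ (by simpa using hφ)).1
    calc ∑ φ ∈ hbfin.toFinset, (L φ).toFinset.card ≤ ∑ _φ ∈ hbfin.toFinset, 6 := Finset.sum_le_sum h3
      _ = hbfin.toFinset.card * 6 := by rw [Finset.sum_const, smul_eq_mul]
      _ ≤ 6 * k := by omega
  · intro F l hl hlen
    have hmem : cls l ∈ Submodule.span F2 A := Submodule.subset_span ⟨F, l, hl, hlen, rfl⟩
    rw [← hbs] at hmem
    refine exists_nu _ ?_
    refine (Submodule.span_le.2 ?_ : Submodule.span F2 b ≤ _) hmem
    intro φ hφ
    obtain ⟨h3, h4⟩ := hL φ hφ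
    rw [SetLike.mem_coe, h4]
    have h5 : ∀ m : List G.edgeSet, (∀ e ∈ m, e ∈ L φ) → cls m ∈ Submodule.span F2
        ((fun e => (ev e : Module.Dual F2 (cyc G))) '' ((hbfin.toFinset.biUnion fun φ => (L φ).toFinset : Finset G.edgeSet) :
          Set G.edgeSet)) := by
      intro m hm
      induction m with
      | nil => exact Submodule.zero_mem _
      | cons e m ih =>
        have h : cls (e :: m) = ev e + cls m := by
          unfold cls
          rw [List.map_cons, List.sum_cons]
        rw [h]
        refine Submodule.add_mem _ (Submodule.subset_span ⟨e, ?_, rfl⟩) (ih fun e' he' => hm e' (by simp [he']))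
        rw [Finset.mem_coe, Finset.mem_biUnion]
        exact ⟨φ, by simpa using hφ, by simpa using hm e (by simp)⟩
    exact h5 (L φ) fun e he => he

end Pool.Agent.SCG
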