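import Mathlib

/-!
# SCG-Glue: classes of a relation glued from two parts (Mathlib only)

`X` is the inner part, `I ⊆ X` the interface; `Ro` relates points outside `X` or in `I`, `R` and `R'` relate points
of `X`.
-/

set_option autoImplicit false

open scoped Classical

namespace Pool.Agent.SCG

variable {P : Type}

/-- the union of two relations -/
def ru (R S : P → P → Prop) (x y : P) : Prop := R x y ∨ S x y

/-- the number of classes of `R` inside `X \ I` -/
noncomputable def clR (X I : P → Prop) (R : P → P → Prop) : ℕ :=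
  Nat.card {c : Quot R // ∀ x, Quot.mk R x = c → X x ∧ ¬ I x}

/-- `w` is an outer point which is `z` or an interface point in the `R`-class of `z` -/
private def Jp (X I : P → Prop) (R : P → P → Prop) (z w : P) : Prop :=
  (w = z ∧ (X w → I w)) ∨ (X z ∧ I w ∧ Relation.EqvGen R z w)

private theorem eg_mono {R S : P → P → Prop} (h : ∀ x y, R x y → S x y) {x y : P} (hxy : Relation.EqvGen R x y) :
    Relation.EqvGen S x y := by
  induction hxy with
  | rel x y h1 => exact Relation.EqvGen.rel _ _ (h x y h1)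
  | refl x => exact Relation.EqvGen.refl x
  | symm x y _ ih => exact Relation.EqvGen.symm _ _ ih
  | trans x y z _ _ ih1 ih2 => exact Relation.EqvGen.trans _ _ _ ih1 ih2

private theorem eg_r (Ro : P → P → Prop) {R : P → P → Prop} {x y : P} (h : Relation.EqvGen R x y) :
    Relation.EqvGen (ru Ro R) x y := eg_mono (fun _ _ h1 => Or.inr h1) h

private theorem jp_jp {X I : P → Prop} {Ro R R' : P → P → Prop}
    (h : ∀ x y, I x → I y → (Relation.EqvGen R x y ↔ Relation.EqvGen R' x y)) {z a b : P}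
    (ha : Jp X I R z a) (hb : Jp X I R z b) : Relation.EqvGen (ru Ro R') a b := by
  rcases ha with ⟨rfl, h1⟩ | ⟨h1, h2, h3⟩
  · rcases hb with ⟨rfl, _⟩ | ⟨h4, h5, h6⟩
    · exact Relation.EqvGen.refl _
    · exact eg_r Ro ((h _ _ (h1 h4) h5).1 h6)
  · rcases hb with ⟨rfl, h4⟩ | ⟨h4, h5, h6⟩
    · exact Relation.EqvGen.symm _ _ (eg_r Ro ((h _ _ (h4 h1) h2).1 h3))
    · exact eg_r Ro ((h _ _ h2 h5).1 (Relation.EqvGen.trans _ _ _ (Relation.EqvGen.symm _ _ h3) h6))

/-- an element of `J x` for `x` in the inner part -/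
private theorem jp_X {X I : P → Prop} {R : P → P → Prop} {x a : P} (hx : X x) (ha : Jp X I R x a) :
    I a ∧ Relation.EqvGen R x a := by
  rcases ha with ⟨rfl, h1⟩ | ⟨_, h2, h3⟩
  · exact ⟨h1 hx, Relation.EqvGen.refl _⟩
  · exact ⟨h2, h3⟩

private theorem glue_one (X I : P → Prop) (Ro R R' : P → P → Prop)
    (ho : ∀ x y, Ro x y → (X x → I x) ∧ (X y → I y)) (hR : ∀ x y, R x y → X x ∧ X y)
    (h : ∀ x y, I x → I y → (Relation.EqvGen R x y ↔ Relation.EqvGen R' x y)) {x y : P}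
    (hxy : Relation.EqvGen (ru Ro R) x y) :
    ((∃ a, Jp X I R x a) ↔ ∃ b, Jp X I R y b) ∧
      ∀ a b, Jp X I R x a → Jp X I R y b → Relation.EqvGen (ru Ro R') a b := by
  induction hxy with
  | rel x y h1 =>
    rcases h1 with h1 | h1
    · obtain ⟨h2, h3⟩ := ho x y h1
      have jx : Jp X I R x x := Or.inl ⟨rfl, h2⟩
      have jy : Jp X I R y y := Or.inl ⟨rfl, h3⟩
      refine ⟨⟨fun _ => ⟨y, jy⟩, fun _ => ⟨x, jx⟩⟩, fun a b ha hb => ?_⟩
      exact Relation.EqvGen.trans _ _ _ (jp_jp h ha jx) (Relation.EqvGen.trans _ _ _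
        (Relation.EqvGen.rel _ _ (Or.inl h1)) (jp_jp h jy hb))
    · obtain ⟨h2, h3⟩ := hR x y h1
      have h4 : Relation.EqvGen R x y := Relation.EqvGen.rel _ _ h1
      refine ⟨⟨?_, ?_⟩, fun a b ha hb => ?_⟩
      · rintro ⟨a, ha⟩
        obtain ⟨h5, h6⟩ := jp_X h2 ha
        exact ⟨a, Or.inr ⟨h3, h5, Relation.EqvGen.trans _ _ _ (Relation.EqvGen.symm _ _ h4) h6⟩⟩
      · rintro ⟨b, hb⟩
        obtain ⟨h5, h6⟩ := jp_X h3 hb
        exact ⟨b, Or.inr ⟨h2, h5, Relation.EqvGen.trans _ _ _ h4 h6⟩⟩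
      · obtain ⟨h5, h6⟩ := jp_X h2 ha
        obtain ⟨h7, h8⟩ := jp_X h3 hb
        exact eg_r Ro ((h _ _ h5 h7).1 (Relation.EqvGen.trans _ _ _ (Relation.EqvGen.symm _ _ h6)
          (Relation.EqvGen.trans _ _ _ h4 h8)))
  | refl x => exact ⟨Iff.rfl, fun a b ha hb => jp_jp h ha hb⟩
  | symm x y _ ih => exact ⟨ih.1.symm, fun a b ha hb => Relation.EqvGen.symm _ _ (ih.2 b a hb ha)⟩
  | trans x y z _ _ ih1 ih2 =>
    refine ⟨ih1.1.trans ih2.1, fun a c ha hc => ?_⟩
    obtain ⟨b, hb⟩ := ih1.1.1 ⟨a, ha⟩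
    exact Relation.EqvGen.trans _ _ _ (ih1.2 a b ha hb) (ih2.2 b c hb hc)

private theorem mk_iff (S : P → P → Prop) (x y : P) : Quot.mk S x = Quot.mk S y ↔ Relation.EqvGen S x y :=
  ⟨fun h => Quot.eqvGen_exact h, fun h => Quot.eqvGen_sound h⟩

private theorem card_range {A B C : Type} (f : A → B) (g : A → C) (h : ∀ x y, f x = f y ↔ g x = g y) :
    Nat.card (Set.range f) = Nat.card (Set.range g) := by
  have h1 : Setoid.ker f = Setoid.ker g := by
    ext x y
    rw [Setoid.ker_def, Setoid.ker_def]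
    exact h x y
  rw [Nat.card_congr (Setoid.quotientKerEquivRange f).symm, Nat.card_congr (Setoid.quotientKerEquivRange g).symm, h1]

/-- a class of `R` inside `X \ I` is a class of the union -/
private theorem cls_in (X I : P → Prop) (Ro R : P → P → Prop) (ho : ∀ x y, Ro x y → (X x → I x) ∧ (X y → I y)) {x : P}
    (hx : ∀ z, Relation.EqvGen R x z → X z ∧ ¬ I z) {y : P} (h : Relation.EqvGen (ru Ro R) x y) :
    Relation.EqvGen R x y := by
  have key : ∀ u v, Relation.EqvGen (ru Ro R) u v → (Relation.EqvGen R x u ↔ Relation.EqvGen R x v) := by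
    intro u v huv
    induction huv with
    | rel u v h1 =>
      rcases h1 with h1 | h1
      · obtain ⟨h2, h3⟩ := ho u v h1
        constructor
        · intro h4
          exact absurd (h2 (hx u h4).1) (hx u h4).2
        · intro h4
          exact absurd (h3 (hx v h4).1) (hx v h4).2
      · have h2 : Relation.EqvGen R u v := Relation.EqvGen.rel _ _ h1
        exact ⟨fun h3 => Relation.EqvGen.trans _ _ _ h3 h2,
          fun h3 => Relation.EqvGen.trans _ _ _ h3 (Relation.EqvGen.symm _ _ h2)⟩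
    | refl u => exact Iff.rfl
    | symm u v _ ih => exact ih.symm
    | trans u v w _ _ ih1 ih2 => exact ih1.trans ih2
  exact (key x y h).1 (Relation.EqvGen.refl x)

private theorem card_in [Finite P] (X I : P → Prop) (Ro R : P → P → Prop)
    (ho : ∀ x y, Ro x y → (X x → I x) ∧ (X y → I y)) (f : {x // X x → I x} → Quot (ru Ro R))
    (hf : ∀ x, f x = Quot.mk _ x.1) :
    Nat.card (Quot (ru Ro R)) = Nat.card (Set.range f) + clR X I R := by
  have h1 : Nat.card (Quot (ru Ro R)) = Nat.card (Set.range f) + Nat.card ((Set.range f)ᶜ : Set (Quot (ru Ro R))) := by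
    rw [← Nat.card_sum]
    exact Nat.card_congr (Equiv.Set.sumCompl (Set.range f)).symm
  rw [h1]
  congr 1
  unfold clR
  symm
  have hmk : ∀ x y, Quot.mk R x = Quot.mk R y → Quot.mk (ru Ro R) x = Quot.mk (ru Ro R) y := by
    intro x y h2
    rw [mk_iff] at h2 ⊢
    exact eg_r Ro h2
  obtain ⟨g, hg⟩ : ∃ g : Quot R → Quot (ru Ro R), ∀ x, g (Quot.mk R x) = Quot.mk _ x :=
    ⟨Quot.map id (fun _ _ h2 => Or.inr h2), fun x => rfl⟩
  have hgood : ∀ x, (∀ z, Quot.mk R z = Quot.mk R x → X z ∧ ¬ I z) → ∀ z, Relation.EqvGen R x z → X z ∧ ¬ I z := by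
    intro x h2 z h3
    exact h2 z ((mk_iff R z x).2 (Relation.EqvGen.symm _ _ h3))
  have hno : ∀ c : {c : Quot R // ∀ x, Quot.mk R x = c → X x ∧ ¬ I x}, g c.1 ∉ Set.range f := by
    rintro ⟨c, hc⟩
    obtain ⟨x, rfl⟩ := Quot.exists_rep c
    rintro ⟨y, hy⟩
    rw [hf, hg, mk_iff] at hy
    have h3 := cls_in X I Ro R ho (hgood x hc) (Relation.EqvGen.symm _ _ hy)
    have h4 := hgood x hc y.1 h3
    exact h4.2 (y.2 h4.1)
  refine Nat.card_congr (Equiv.ofBijective (fun c => (⟨g c.1, hno c⟩ : ((Set.range f)ᶜ : Set (Quot (ru Ro R))))) ⟨?_, ?_⟩)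
  · rintro ⟨c, hc⟩ ⟨d, hd⟩ hcd
    obtain ⟨x, rfl⟩ := Quot.exists_rep c
    obtain ⟨y, rfl⟩ := Quot.exists_rep d
    have h2 : g (Quot.mk R x) = g (Quot.mk R y) := congrArg Subtype.val hcd
    rw [hg, hg, mk_iff] at h2
    exact Subtype.ext ((mk_iff R x y).2 (cls_in X I Ro R ho (hgood x hc) h2))
  · rintro ⟨c, hc⟩
    obtain ⟨x, rfl⟩ := Quot.exists_rep c
    have h2 : ∀ z, Quot.mk (ru Ro R) z = Quot.mk (ru Ro R) x → X z ∧ ¬ I z := by
      intro z hz
      by_contra hn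
      have h3 : X z → I z := by
        intro h4
        by_contra h5
        exact hn ⟨h4, h5⟩
      exact hc ⟨⟨z, h3⟩, by rw [hf]; exact hz⟩
    exact ⟨⟨Quot.mk R x, fun z hz => h2 z (hmk z x hz)⟩, Subtype.ext (hg x)⟩

theorem glue_iff (X I : P → Prop) (hI : ∀ x, I x → X x) (Ro R R' : P → P → Prop)
    (ho : ∀ x y, Ro x y → (X x → I x) ∧ (X y → I y)) (hR : ∀ x y, R x y → X x ∧ X y) (hR' : ∀ x y, R' x y → X x ∧ X y)
    (h : ∀ x y, I x → I y → (Relation.EqvGen R x y ↔ Relation.EqvGen R' x y)) (x y : P) (hx : X x → I x)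
    (hy : X y → I y) : Relation.EqvGen (ru Ro R) x y ↔ Relation.EqvGen (ru Ro R') x y := by
  have jx : Jp X I R x x := Or.inl ⟨rfl, hx⟩
  have jy : Jp X I R y y := Or.inl ⟨rfl, hy⟩
  have jx' : Jp X I R' x x := Or.inl ⟨rfl, hx⟩
  have jy' : Jp X I R' y y := Or.inl ⟨rfl, hy⟩
  exact ⟨fun h1 => (glue_one X I Ro R R' ho hR h h1).2 x y jx jy,
    fun h1 => (glue_one X I Ro R' R ho hR' (fun a b ha hb => (h a b ha hb).symm) h1).2 x y jx' jy'⟩

theorem glue_card [Finite P] (X I : P → Prop) (hI : ∀ x, I x → X x) (Ro R R' : P → P → Prop)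
    (ho : ∀ x y, Ro x y → (X x → I x) ∧ (X y → I y)) (hR : ∀ x y, R x y → X x ∧ X y) (hR' : ∀ x y, R' x y → X x ∧ X y)
    (h : ∀ x y, I x → I y → (Relation.EqvGen R x y ↔ Relation.EqvGen R' x y)) :
    Nat.card (Quot (ru Ro R)) + clR X I R' = Nat.card (Quot (ru Ro R')) + clR X I R := by
  rw [card_in X I Ro R ho (fun x => Quot.mk _ x.1) (fun _ => rfl),
    card_in X I Ro R' ho (fun x => Quot.mk _ x.1) (fun _ => rfl)]
  have h1 : Nat.card (Set.range fun x : {x // X x → I x} => Quot.mk (ru Ro R) x.1) =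
      Nat.card (Set.range fun x : {x // X x → I x} => Quot.mk (ru Ro R') x.1) := by
    refine card_range _ _ fun x y => ?_
    show Quot.mk (ru Ro R) x.1 = Quot.mk (ru Ro R) y.1 ↔ Quot.mk (ru Ro R') x.1 = Quot.mk (ru Ro R') y.1
    rw [mk_iff, mk_iff]
    exact glue_iff X I hI Ro R R' ho hR hR' h x.1 y.1 x.2 y.2
  rw [h1]
  ring

end Pool.Agent.SCG
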