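import Pool.Agent.SCG.Pc
import Pool.Agent.SCG.Glue

/-!
# SCG: the relations of a twisted map, and of a piece

The twist is put into the step across an edge.
-/

set_option autoImplicit false

open Finset
open scoped Classical

namespace Pool.Agent.SCG

open Pool.Agent.Helper35.OG (Flag GMap across side)
open Pool.Agent.BEO (F2 ed rp cyc ev twist tph)

variable {V : Type} {G : SimpleGraph V}

/-- the step across an edge in the twisted map -/
noncomputable def acl (lam : Finset G.edgeSet) (p : Flag G) : Flag G :=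
  if ed p ∈ lam then side (across p) else across p

/-- the steps along a face of the twisted map -/
def RF (S : GMap G) (lam : Finset G.edgeSet) (p q : Flag G) : Prop := q = S.nxt p ∨ q = acl lam p

/-- the steps between coloured flags -/
def RC (S : GMap G) (lam : Finset G.edgeSet) (x y : Flag G × Bool) : Prop :=
  y = (S.nxt x.1, !x.2) ∨ y = (side x.1, !x.2) ∨ y = (acl lam x.1, !x.2)

/-- the steps inside the piece with vertex set `U` and inner edges `In` -/
def RFi (S : GMap G) (In : Finset G.edgeSet) (U : Set V) (lam : Finset G.edgeSet) (p q : Flag G) : Prop :=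
  p.1.fst ∈ U ∧ (q = S.nxt p ∨ (ed p ∈ In ∧ q = acl lam p))

/-- the steps outside -/
def RFo (S : GMap G) (In : Finset G.edgeSet) (U : Set V) (lam : Finset G.edgeSet) (p q : Flag G) : Prop :=
  (p.1.fst ∉ U ∧ q = S.nxt p) ∨ (ed p ∉ In ∧ q = acl lam p)

/-- the steps between coloured flags inside -/
def RCi (S : GMap G) (In : Finset G.edgeSet) (U : Set V) (lam : Finset G.edgeSet) (x y : Flag G × Bool) : Prop :=
  x.1.1.fst ∈ U ∧ (y = (S.nxt x.1, !x.2) ∨ y = (side x.1, !x.2) ∨ (ed x.1 ∈ In ∧ y = (acl lam x.1, !x.2)))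

/-- the steps between coloured flags outside -/
def RCo (S : GMap G) (In : Finset G.edgeSet) (U : Set V) (lam : Finset G.edgeSet) (x y : Flag G × Bool) : Prop :=
  (x.1.1.fst ∉ U ∧ (y = (S.nxt x.1, !x.2) ∨ y = (side x.1, !x.2))) ∨ (ed x.1 ∉ In ∧ y = (acl lam x.1, !x.2))

/-- the number of faces closed inside the piece -/
noncomputable def clF (S : GMap G) (In : Finset G.edgeSet) (U : Set V) (lam : Finset G.edgeSet) : ℕ :=
  clR (fun p : Flag G => p.1.fst ∈ U) (fun p => p.1.fst ∈ U ∧ ed p ∉ In) (RFi S In U lam)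

/-- the two sets look the same from outside -/
structure Same (S : GMap G) (In : Finset G.edgeSet) (U : Set V) (lam lam' : Finset G.edgeSet) : Prop where
  f : ∀ p q : Flag G, p.1.fst ∈ U → ed p ∉ In → q.1.fst ∈ U → ed q ∉ In →
    (Relation.EqvGen (RFi S In U lam) p q ↔ Relation.EqvGen (RFi S In U lam') p q)
  c : ∀ (p q : Flag G) (b b' : Bool), p.1.fst ∈ U → ed p ∉ In → q.1.fst ∈ U → ed q ∉ In →
    (Relation.EqvGen (RCi S In U lam) (p, b) (q, b') ↔ Relation.EqvGen (RCi S In U lam') (p, b) (q, b'))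
  o : (∃ p : Flag G, p.1.fst ∈ U ∧ Relation.EqvGen (RCi S In U lam) (p, false) (p, true)) ↔
    (∃ p : Flag G, p.1.fst ∈ U ∧ Relation.EqvGen (RCi S In U lam') (p, false) (p, true))

end Pool.Agent.SCG
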