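import Pool.Agent.SCG.ExDef

/-!
# SCG-ExF: faces and orientability of a twisted map by the relations `RF`, `RC`
-/

set_option autoImplicit false

open Finset
open scoped Classical

namespace Pool.Agent.SCG

open Pool.Agent.Helper35.OG (Flag GMap across side across_across side_side across_ne side_ne side_fst across_fst vertex_const
  all_const exists_flag face_nxt face_across face_surj nxt_inj sum_inv eqvGen_eq IsBand)
open Pool.Agent.BEO (F2 ed rp cyc ev twist tph twist_nxt ed_across)

variable {V : Type} {G : SimpleGraph V}

private theorem z2_ne {a b : ZMod 2} (h : a ≠ b) : a = b + 1 := by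
  revert a b; decide

private theorem bad {T : GMap G} (hG : G.Connected) (hO : ¬ T.Orientable) (A : Flag G → Bool → Prop) (p0 : Flag G)
    (h0 : A p0 false) (h1 : ∀ p b, A p b → A (T.nxt p) (!b)) (h2 : ∀ p b, A p b → A (side p) (!b))
    (h3 : ∀ p b, A p b → A (across p) (!b)) : A p0 true := by
  by_contra hc
  apply hO
  have hex : ∀ p, ∃ b, A p b := by
    intro p
    have := all_const T hG (fun p => ∃ b, A p b) ?_ ?_ ?_ p p0
    · rw [this]
      exact ⟨false, h0⟩
    · intro p
      apply propext
      constructor
      · rintro ⟨b, hb⟩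
        have := h1 _ _ hb
        rw [T.nxt_nxt] at this
        exact ⟨_, this⟩
      · rintro ⟨b, hb⟩
        exact ⟨_, h1 _ _ hb⟩
    · intro p
      apply propext
      constructor
      · rintro ⟨b, hb⟩
        have := h2 _ _ hb
        rw [side_side] at this
        exact ⟨_, this⟩
      · rintro ⟨b, hb⟩
        exact ⟨_, h2 _ _ hb⟩
    · intro p
      apply propext
      constructor
      · rintro ⟨b, hb⟩
        have := h3 _ _ hb
        rw [across_across] at this
        exact ⟨_, this⟩
      · rintro ⟨b, hb⟩
        exact ⟨_, h3 _ _ hb⟩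
  have hnb : ∀ p, ¬ (A p false ∧ A p true) := by
    intro p hp
    have := all_const T hG (fun p => A p false ∧ A p true) ?_ ?_ ?_ p p0
    · rw [this] at hp
      exact hc hp.2
    · intro p
      apply propext
      constructor
      · rintro ⟨hb, hb'⟩
        have e1 := h1 _ _ hb
        have e2 := h1 _ _ hb'
        rw [T.nxt_nxt] at e1 e2
        exact ⟨e2, e1⟩
      · rintro ⟨hb, hb'⟩
        exact ⟨h1 _ _ hb', h1 _ _ hb⟩
    · intro p
      apply propext
      constructor
      · rintro ⟨hb, hb'⟩
        have e1 := h2 _ _ hb
        have e2 := h2 _ _ hb'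
        rw [side_side] at e1 e2
        exact ⟨e2, e1⟩
      · rintro ⟨hb, hb'⟩
        exact ⟨h2 _ _ hb', h2 _ _ hb⟩
    · intro p
      apply propext
      constructor
      · rintro ⟨hb, hb'⟩
        have e1 := h3 _ _ hb
        have e2 := h3 _ _ hb'
        rw [across_across] at e1 e2
        exact ⟨e2, e1⟩
      · rintro ⟨hb, hb'⟩
        exact ⟨h3 _ _ hb', h3 _ _ hb⟩
  have key : ∀ p q, (∀ b, A p b → A q (!b)) →
      (if A q false then (0 : ZMod 2) else 1) ≠ if A p false then (0 : ZMod 2) else 1 := by
    intro p q hpq
    by_cases hp : A p false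
    · have hq : A q true := hpq _ hp
      have hq' : ¬ A q false := fun h => hnb q ⟨h, hq⟩
      rw [if_pos hp, if_neg hq']
      decide
    · have hp' : A p true := by
        obtain ⟨b, hb⟩ := hex p
        cases b
        · exact absurd hb hp
        · exact hb
      have hq : A q false := hpq _ hp'
      rw [if_neg hp, if_pos hq]
      decide
  refine ⟨fun p => if A p false then 0 else 1, ?_, ?_⟩
  · intro p
    exact ⟨key _ _ (fun b => h3 p b), key _ _ (fun b => h2 p b)⟩
  · intro p
    exact key _ _ (fun b => h1 p b)


variable [LinearOrder V]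

private theorem tph_pos (lam : Finset G.edgeSet) {p : Flag G}
    (h : ed p ∈ lam ∧ p.1.fst < p.1.snd) : tph lam p = side p := by
  unfold tph
  rw [if_pos h]

private theorem tph_neg (lam : Finset G.edgeSet) {p : Flag G}
    (h : ¬ (ed p ∈ lam ∧ p.1.fst < p.1.snd)) : tph lam p = p := by
  unfold tph
  rw [if_neg h]

private theorem tph_side (lam : Finset G.edgeSet) (p : Flag G) :
    tph lam (side p) = side (tph lam p) := by
  by_cases h : ed p ∈ lam ∧ p.1.fst < p.1.snd
  · have h' : ed (side p) ∈ lam ∧ (side p).1.fst < (side p).1.snd := h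
    rw [tph_pos lam h, tph_pos lam h']
  · have h' : ¬ (ed (side p) ∈ lam ∧ (side p).1.fst < (side p).1.snd) := h
    rw [tph_neg lam h, tph_neg lam h']

private theorem tph_tph (lam : Finset G.edgeSet) (p : Flag G) :
    tph lam (tph lam p) = p := by
  by_cases h : ed p ∈ lam ∧ p.1.fst < p.1.snd
  · rw [tph_pos lam h, tph_side, tph_pos lam h, side_side]
  · rw [tph_neg lam h, tph_neg lam h]

private theorem tph_across (lam : Finset G.edgeSet) (p : Flag G) :
    tph lam (across (tph lam p)) = acl lam p := by
  by_cases he : ed p ∈ lam
  · unfold acl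
    rw [if_pos he]
    by_cases hlt : p.1.fst < p.1.snd
    · rw [tph_pos lam ⟨he, hlt⟩]
      have h1 : across (side p) = side (across p) := rfl
      rw [h1]
      refine tph_neg lam ?_
      rintro ⟨-, h2⟩
      have h3 : p.1.snd < p.1.fst := h2
      exact lt_asymm hlt h3
    · have hgt : p.1.snd < p.1.fst := by
        rcases lt_trichotomy p.1.fst p.1.snd with h | h | h
        · exact absurd h hlt
        · exact absurd h p.1.adj.ne
        · exact h
      rw [tph_neg lam (fun h => hlt h.2)]
      refine tph_pos lam ⟨?_, hgt⟩
      rw [ed_across]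
      exact he
  · unfold acl
    rw [if_neg he, tph_neg lam (fun h => he h.1)]
    refine tph_neg lam ?_
    rintro ⟨h, -⟩
    rw [ed_across] at h
    exact he h

theorem face_card (S : GMap G) (lam : Finset G.edgeSet) :
    Nat.card (twist S lam).Face = Nat.card (Quot (RF S lam)) := by
  refine Nat.card_congr (Quot.congr (Function.Involutive.toPerm (tph lam) (tph_tph lam)) ?_)
  intro p q
  show (q = (twist S lam).nxt p ∨ q = across p) ↔ RF S lam (tph lam p) (tph lam q)
  unfold RF
  rw [twist_nxt, ← tph_across, tph_tph]
  constructor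
  · rintro (h | h)
    · left
      rw [h, tph_tph]
    · right
      rw [h]
  · rintro (h | h)
    · left
      rw [← h, tph_tph]
    · right
      have := congrArg (tph lam) h
      rwa [tph_tph, tph_tph] at this

theorem ori_iff (hG : G.Connected) (S : GMap G) (lam : Finset G.edgeSet) (p0 : Flag G) :
    (twist S lam).Orientable ↔ ¬ Relation.EqvGen (RC S lam) (p0, false) (p0, true) := by
  constructor
  · rintro ⟨κ, hκ, hκT⟩ hR
    have hstep : ∀ (p q : Flag G) (b : Bool), κ (tph lam q) ≠ κ (tph lam p) →
        κ (tph lam p) + (if b then (1 : ZMod 2) else 0) = κ (tph lam q) + if (!b) then (1 : ZMod 2) else 0 := by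
      intro p q b hpq
      rw [z2_ne hpq]
      have h2 : (1 : ZMod 2) + 1 = 0 := by decide
      cases b
      · simp [add_assoc, h2]
      · simp
    have := eqvGen_eq (fun x : Flag G × Bool => κ (tph lam x.1) + if x.2 then (1 : ZMod 2) else 0)
      (r := RC S lam) ?_ hR
    · simp at this
    · rintro ⟨p, b⟩ ⟨q, b'⟩ hxy
      unfold RC at hxy
      simp only [Prod.mk.injEq] at hxy
      rcases hxy with ⟨h1, h2⟩ | ⟨h1, h2⟩ | ⟨h1, h2⟩
      · show κ (tph lam p) + _ = κ (tph lam q) + if b' then (1 : ZMod 2) else 0
        rw [h2]
        refine hstep p q b ?_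
        have h3 := hκT (tph lam p)
        rw [twist_nxt, tph_tph] at h3
        rw [h1]
        exact h3
      · show κ (tph lam p) + _ = κ (tph lam q) + if b' then (1 : ZMod 2) else 0
        rw [h2]
        refine hstep p q b ?_
        rw [h1, tph_side]
        exact (hκ (tph lam p)).2
      · show κ (tph lam p) + _ = κ (tph lam q) + if b' then (1 : ZMod 2) else 0
        rw [h2]
        refine hstep p q b ?_
        rw [h1, ← tph_across, tph_tph]
        exact (hκ (tph lam p)).1
  · intro hne
    by_contra hO
    apply hne
    have key := bad hG hO (fun p b => Relation.EqvGen (RC S lam) (p0, false) (tph lam p, b)) (tph lam p0)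
      (by
        show Relation.EqvGen (RC S lam) (p0, false) (tph lam (tph lam p0), false)
        rw [tph_tph]
        exact Relation.EqvGen.refl _)
      (fun p b hb => hb.trans _ _ _ (Relation.EqvGen.rel _ _ (by
        left
        show (tph lam ((twist S lam).nxt p), !b) = (S.nxt (tph lam p), !b)
        rw [twist_nxt, tph_tph])))
      (fun p b hb => hb.trans _ _ _ (Relation.EqvGen.rel _ _ (by
        right; left
        show (tph lam (side p), !b) = (side (tph lam p), !b)
        rw [tph_side])))
      (fun p b hb => hb.trans _ _ _ (Relation.EqvGen.rel _ _ (by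
        right; right
        show (tph lam (across p), !b) = (acl lam (tph lam p), !b)
        rw [← tph_across, tph_tph])))
    have key' : Relation.EqvGen (RC S lam) (p0, false) (tph lam (tph lam p0), true) := key
    rwa [tph_tph] at key'

end Pool.Agent.SCG
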