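import Pool.Agent.SCG.ExF

/-!
# SCG-ExS: sets which look the same from outside can be exchanged

`hIn`: the inner edges have their ends in `U`.
PLAN. For `lam ⊆ In`, `lo` disjoint from `In`: `RF S (lo ∪ lam) = ru (RFo .. lo) (RFi .. lam)` and
`RC S (lo ∪ lam) = ru (RCo .. lo) (RCi .. lam)` (`acl` depends only on the membership of `ed p`; a flag over an inner edge
has its vertex in `U`). The hypotheses of `glue_iff`, `glue_card` with `X p := p.1.fst ∈ U`,
`I p := p.1.fst ∈ U ∧ ed p ∉ In`: a step of `RFo` from `p` to `q`: if `q = S.nxt p` with `p.1.fst ∉ U` also `q.1.fst ∉ U`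
(`nxt_fst`); if `q = acl lo p`, `ed q = ed p ∉ In`. `same_face`: `glue_card`, `face_card`. `same_ori`: if there is a flag
`p0` outside `U` or with `ed p0 ∉ In`, use `ori_iff` with `p0` and `glue_iff` for the coloured relations. Otherwise all
flags are inside, `RCo` is empty and `RC S (lo ∪ lam)` and `RCi .. lam` have the same `EqvGen`; by `ori_iff` (for the flag
in question) orientability is the negation of `h.o`'s side (`exists_flag` gives a flag).
-/

set_option autoImplicit false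

open Finset
open scoped Classical

namespace Pool.Agent.SCG

open Pool.Agent.Helper35.OG (Flag GMap across side across_across side_side across_ne side_ne side_fst across_fst vertex_const
  all_const exists_flag face_nxt face_across face_surj nxt_inj sum_inv eqvGen_eq IsBand)
open Pool.Agent.BEO (F2 ed rp cyc ev twist tph twist_nxt)

variable {V : Type} {G : SimpleGraph V} [LinearOrder V] [Fintype V] [Nontrivial V]

private theorem ed_acl (lam : Finset G.edgeSet) (p : Flag G) : ed (acl lam p) = ed p := by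
  unfold acl
  split_ifs
  · rw [Pool.Agent.BEO.ed_side, Pool.Agent.BEO.ed_across]
  · exact Pool.Agent.BEO.ed_across p

private theorem acl_out (In : Finset G.edgeSet) (lo lam : Finset G.edgeSet) (hlam : lam ⊆ In) (p : Flag G)
    (hp : ed p ∉ In) : acl (lo ∪ lam) p = acl lo p := by
  unfold acl
  have h : ed p ∈ lo ∪ lam ↔ ed p ∈ lo := by
    rw [Finset.mem_union]
    exact ⟨fun h => h.resolve_right fun h' => hp (hlam h'), Or.inl⟩
  by_cases h1 : ed p ∈ lo
  · rw [if_pos (h.2 h1), if_pos h1]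
  · rw [if_neg (fun h2 => h1 (h.1 h2)), if_neg h1]

private theorem acl_in (In : Finset G.edgeSet) (lo lam : Finset G.edgeSet) (hlo : ∀ e ∈ lo, e ∉ In) (p : Flag G)
    (hp : ed p ∈ In) : acl (lo ∪ lam) p = acl lam p := by
  unfold acl
  have h : ed p ∈ lo ∪ lam ↔ ed p ∈ lam := by
    rw [Finset.mem_union]
    exact ⟨fun h => h.resolve_left fun h' => hlo _ h' hp, Or.inr⟩
  by_cases h1 : ed p ∈ lam
  · rw [if_pos (h.2 h1), if_pos h1]
  · rw [if_neg (fun h2 => h1 (h.1 h2)), if_neg h1]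

private theorem RF_eq (S : GMap G) (In : Finset G.edgeSet) (U : Set V) (hIn : ∀ p : Flag G, ed p ∈ In → p.1.fst ∈ U)
    (lo lam : Finset G.edgeSet) (hlo : ∀ e ∈ lo, e ∉ In) (hlam : lam ⊆ In) :
    RF S (lo ∪ lam) = ru (RFo S In U lo) (RFi S In U lam) := by
  funext p q
  apply propext
  constructor
  · rintro (h | h)
    · by_cases hp : p.1.fst ∈ U
      · exact Or.inr ⟨hp, Or.inl h⟩
      · exact Or.inl (Or.inl ⟨hp, h⟩)
    · by_cases hp : ed p ∈ In
      · rw [acl_in In lo lam hlo p hp] at h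
        exact Or.inr ⟨hIn p hp, Or.inr ⟨hp, h⟩⟩
      · rw [acl_out In lo lam hlam p hp] at h
        exact Or.inl (Or.inr ⟨hp, h⟩)
  · rintro ((⟨_, h⟩ | ⟨hp, h⟩) | ⟨_, (h | ⟨hp, h⟩)⟩)
    · exact Or.inl h
    · rw [← acl_out In lo lam hlam p hp] at h
      exact Or.inr h
    · exact Or.inl h
    · rw [← acl_in In lo lam hlo p hp] at h
      exact Or.inr h

private theorem RC_eq (S : GMap G) (In : Finset G.edgeSet) (U : Set V) (hIn : ∀ p : Flag G, ed p ∈ In → p.1.fst ∈ U)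
    (lo lam : Finset G.edgeSet) (hlo : ∀ e ∈ lo, e ∉ In) (hlam : lam ⊆ In) :
    RC S (lo ∪ lam) = ru (RCo S In U lo) (RCi S In U lam) := by
  funext x y
  apply propext
  constructor
  · rintro (h | h | h)
    · by_cases hp : x.1.1.fst ∈ U
      · exact Or.inr ⟨hp, Or.inl h⟩
      · exact Or.inl (Or.inl ⟨hp, Or.inl h⟩)
    · by_cases hp : x.1.1.fst ∈ U
      · exact Or.inr ⟨hp, Or.inr (Or.inl h)⟩
      · exact Or.inl (Or.inl ⟨hp, Or.inr h⟩)
    · by_cases hp : ed x.1 ∈ In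
      · rw [acl_in In lo lam hlo x.1 hp] at h
        exact Or.inr ⟨hIn x.1 hp, Or.inr (Or.inr ⟨hp, h⟩)⟩
      · rw [acl_out In lo lam hlam x.1 hp] at h
        exact Or.inl (Or.inr ⟨hp, h⟩)
  · rintro ((⟨_, (h | h)⟩ | ⟨hp, h⟩) | ⟨_, (h | h | ⟨hp, h⟩)⟩)
    · exact Or.inl h
    · exact Or.inr (Or.inl h)
    · rw [← acl_out In lo lam hlam x.1 hp] at h
      exact Or.inr (Or.inr h)
    · exact Or.inl h
    · exact Or.inr (Or.inl h)
    · rw [← acl_in In lo lam hlo x.1 hp] at h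
      exact Or.inr (Or.inr h)

private theorem RFo_out (S : GMap G) (In : Finset G.edgeSet) (U : Set V) (lo : Finset G.edgeSet) (x y : Flag G)
    (h : RFo S In U lo x y) : (x.1.fst ∈ U → (x.1.fst ∈ U ∧ ed x ∉ In)) ∧ (y.1.fst ∈ U → (y.1.fst ∈ U ∧ ed y ∉ In)) := by
  rcases h with ⟨h1, h2⟩ | ⟨h1, h2⟩
  · subst h2
    refine ⟨fun h => absurd h h1, fun h => ?_⟩
    rw [S.nxt_fst] at h
    exact absurd h h1
  · subst h2
    refine ⟨fun h => ⟨h, h1⟩, fun h => ⟨h, ?_⟩⟩
    rw [ed_acl]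
    exact h1

private theorem RFi_in (S : GMap G) (In : Finset G.edgeSet) (U : Set V) (hIn : ∀ p : Flag G, ed p ∈ In → p.1.fst ∈ U)
    (lam : Finset G.edgeSet) (x y : Flag G) (h : RFi S In U lam x y) : x.1.fst ∈ U ∧ y.1.fst ∈ U := by
  obtain ⟨h0, h | ⟨h1, h2⟩⟩ := h
  · subst h
    refine ⟨h0, ?_⟩
    rw [S.nxt_fst]
    exact h0
  · subst h2
    refine ⟨h0, hIn _ ?_⟩
    rw [ed_acl]
    exact h1

private theorem RCo_out (S : GMap G) (In : Finset G.edgeSet) (U : Set V) (lo : Finset G.edgeSet) (x y : Flag G × Bool)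
    (h : RCo S In U lo x y) : (x.1.1.fst ∈ U → (x.1.1.fst ∈ U ∧ ed x.1 ∉ In)) ∧
      (y.1.1.fst ∈ U → (y.1.1.fst ∈ U ∧ ed y.1 ∉ In)) := by
  rcases h with ⟨h1, h2 | h2⟩ | ⟨h1, h2⟩
  · subst h2
    refine ⟨fun h => absurd h h1, fun h => ?_⟩
    have h' : (S.nxt x.1).1.fst ∈ U := h
    rw [S.nxt_fst] at h'
    exact absurd h' h1
  · subst h2
    refine ⟨fun h => absurd h h1, fun h => ?_⟩
    have h' : (side x.1).1.fst ∈ U := h
    rw [side_fst] at h'
    exact absurd h' h1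
  · subst h2
    refine ⟨fun h => ⟨h, h1⟩, fun h => ⟨h, ?_⟩⟩
    show ed (acl lo x.1) ∉ In
    rw [ed_acl]
    exact h1

private theorem RCi_in (S : GMap G) (In : Finset G.edgeSet) (U : Set V) (hIn : ∀ p : Flag G, ed p ∈ In → p.1.fst ∈ U)
    (lam : Finset G.edgeSet) (x y : Flag G × Bool) (h : RCi S In U lam x y) : x.1.1.fst ∈ U ∧ y.1.1.fst ∈ U := by
  obtain ⟨h0, h | h | ⟨h1, h2⟩⟩ := h
  · subst h
    refine ⟨h0, ?_⟩
    show (S.nxt x.1).1.fst ∈ U
    rw [S.nxt_fst]
    exact h0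
  · subst h
    exact ⟨h0, h0⟩
  · subst h2
    refine ⟨h0, hIn _ ?_⟩
    show ed (acl lam x.1) ∈ In
    rw [ed_acl]
    exact h1

theorem same_face (S : GMap G) (In : Finset G.edgeSet) (U : Set V) (hIn : ∀ p : Flag G, ed p ∈ In → p.1.fst ∈ U)
    (lo lam lam' : Finset G.edgeSet) (hlo : ∀ e ∈ lo, e ∉ In) (hlam : lam ⊆ In) (hlam' : lam' ⊆ In)
    (h : Same S In U lam lam') :
    Nat.card (twist S (lo ∪ lam)).Face + clF S In U lam' = Nat.card (twist S (lo ∪ lam')).Face + clF S In U lam := by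
  rw [face_card, face_card, RF_eq S In U hIn lo lam hlo hlam, RF_eq S In U hIn lo lam' hlo hlam']
  exact glue_card (fun p : Flag G => p.1.fst ∈ U) (fun p => p.1.fst ∈ U ∧ ed p ∉ In) (fun x hx => hx.1)
    (RFo S In U lo) (RFi S In U lam) (RFi S In U lam') (RFo_out S In U lo) (RFi_in S In U hIn lam)
    (RFi_in S In U hIn lam') (fun x y hx hy => h.f x y hx.1 hx.2 hy.1 hy.2)

theorem same_ori (hG : G.Connected) (S : GMap G) (In : Finset G.edgeSet) (U : Set V)
    (hIn : ∀ p : Flag G, ed p ∈ In → p.1.fst ∈ U) (lo lam lam' : Finset G.edgeSet) (hlo : ∀ e ∈ lo, e ∉ In)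
    (hlam : lam ⊆ In) (hlam' : lam' ⊆ In) (h : Same S In U lam lam') :
    (twist S (lo ∪ lam)).Orientable ↔ (twist S (lo ∪ lam')).Orientable := by
  by_cases hp : ∃ p0 : Flag G, p0.1.fst ∉ U ∨ ed p0 ∉ In
  · obtain ⟨p0, hp0⟩ := hp
    rw [ori_iff hG S (lo ∪ lam) p0, ori_iff hG S (lo ∪ lam') p0, RC_eq S In U hIn lo lam hlo hlam,
      RC_eq S In U hIn lo lam' hlo hlam']
    have hx : p0.1.fst ∈ U → (p0.1.fst ∈ U ∧ ed p0 ∉ In) := fun hU => ⟨hU, hp0.resolve_left fun h' => h' hU⟩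
    exact not_congr (glue_iff (fun x : Flag G × Bool => x.1.1.fst ∈ U) (fun x => x.1.1.fst ∈ U ∧ ed x.1 ∉ In)
      (fun x hx => hx.1) (RCo S In U lo) (RCi S In U lam) (RCi S In U lam') (RCo_out S In U lo)
      (RCi_in S In U hIn lam) (RCi_in S In U hIn lam')
      (fun x y hx hy => h.c x.1 y.1 x.2 y.2 hx.1 hx.2 hy.1 hy.2) (p0, false) (p0, true) hx hx)
  · push Not at hp
    have key : ∀ mu : Finset G.edgeSet, mu ⊆ In → RC S (lo ∪ mu) = RCi S In U mu := by
      intro mu hmu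
      rw [RC_eq S In U hIn lo mu hlo hmu]
      funext x y
      apply propext
      constructor
      · rintro ((⟨h1, _⟩ | ⟨h1, _⟩) | h1)
        · exact absurd (hp x.1).1 h1
        · exact absurd (hp x.1).2 h1
        · exact h1
      · exact Or.inr
    obtain ⟨v, _⟩ := exists_pair_ne V
    obtain ⟨p0, _⟩ := exists_flag hG v
    have key2 : ∀ mu : Finset G.edgeSet, mu ⊆ In → ((twist S (lo ∪ mu)).Orientable ↔
        ¬ ∃ p : Flag G, p.1.fst ∈ U ∧ Relation.EqvGen (RCi S In U mu) (p, false) (p, true)) := by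
      intro mu hmu
      constructor
      · rintro h1 ⟨p, _, h2⟩
        rw [ori_iff hG S (lo ∪ mu) p, key mu hmu] at h1
        exact h1 h2
      · intro h1
        rw [ori_iff hG S (lo ∪ mu) p0, key mu hmu]
        exact fun h2 => h1 ⟨p0, (hp p0).1, h2⟩
    rw [key2 lam hlam, key2 lam' hlam', h.o]

/-- A complete family stays complete if every member is replaced by one which looks the same and has at least as many
closed faces. -/
theorem cpl_sel (hG : G.Connected) (S : GMap G) (In : Finset G.edgeSet) (U : Set V)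
    (hIn : ∀ p : Flag G, ed p ∈ In → p.1.fst ∈ U) (o : Bool) (T T' : Set (Finset G.edgeSet)) (hT : Cpl S In o T)
    (h : ∀ lam ∈ T, lam ⊆ In → ∃ lam' ∈ T', lam' ⊆ In ∧ Same S In U lam lam' ∧ clF S In U lam ≤ clF S In U lam') :
    Cpl S In o T' := by
  intro lo lam hlo hlam ho
  obtain ⟨l1, h1, h2, h3, h4⟩ := hT lo lam hlo hlam ho
  obtain ⟨l2, h5, h6, h7, h8⟩ := h l1 h1 h2
  refine ⟨l2, h5, h6, fun ho' => (same_ori hG S In U hIn lo l1 l2 hlo h2 h6 h7).1 (h3 ho'), le_trans ?_ h4⟩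
  have h9 := same_face S In U hIn lo l1 l2 hlo h2 h6 h7
  unfold GMap.eg
  omega

end Pool.Agent.SCG
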