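import Pool.Agent.SCG.FpTab

/-!
# SCG-FpEnt: the best entries in polynomial time

PLAN. `fp_look`, `fp_bst`, `fp_nF`, `fp_isO`, `fp_max`, `fp_half`, `fp_sub` (compare `Pool/Agent/BEO/FpA.lean`).
-/

set_option autoImplicit false

namespace Pool.Agent.SCG

open Turing Function N487b59b3 N68a2faeb Pool.Agent.Helper22 Pool.Agent.Helper6.WB Pool.Agent.Helper47.TR Computability
open Pool.Agent.BEO (look memb ddp comp stp bfs par tup cds Pt Ec Inp Stt sd ac ek fl fcl zl lb xo bvs nF isO nE nV nxc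
  fp_eq fp_mapc fp_flat fp_filt fp_look fp_memb fp_par fp_ddp fp_comp fp_sd fp_ac fp_ek fp_fl fp_nxc fp_fcs fp_nF fp_half
  fp_sub fp_max fp_fcl fp_lb fp_isO fp_bfs fp_tup fp_cds fp_xo)

section

variable {α β γ δ : Type} [N487b59b3 α] [N487b59b3 β] [N487b59b3 γ] [N487b59b3 δ]

private theorem fe_nE : FP fun l : Inp => nE l := by
  have h1 : FP fun p : Inp × Pt => decide (p.2.1 ≤ p.2.2.1) && p.2.2.2 :=
    FP.and (FP.natLe (by fun_prop) (by fun_prop)) (by fun_prop)
  exact FP.length (fp_filt h1 (fp_fl FP.id))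

private theorem fe_nV : FP fun l : Inp => nV l :=
  FP.length (fp_ddp (FP.map FP.fst (fp_fl FP.id)))

private theorem fe_ent (C m k T : ℕ) {f : α → Inp} (hf : FP f) : FP fun a => ent C m k T (f a) := by
  have h : FP fun a => (vl (f a)).headD 0 := FP.headD (fp_vl hf) 0
  exact fp_look (fp_tab C m k T hf) (FP.pair (FP.const []) h) (FP.const [])

theorem fp_bst0 (C m k T : ℕ) {f : α → Inp} (hf : FP f) : FP fun a => bst0 C m k T (f a) := by
  have h : FP fun q : α × List Ec => nF (f q.1) q.2 := fp_nF (hf.comp FP.fst) FP.snd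
  exact FP.headD (fp_bst h (fe_ent C m k T hf)) []

theorem fp_genN (C m k T : ℕ) {f : α → Inp} (hf : FP f) : FP fun a => genN C m k T (f a) := by
  have h1 : FP fun q : α × List Ec => if isO (f q.1) q.2 then nF (f q.1) q.2 else 0 :=
    FP.ite (fp_isO (hf.comp FP.fst) FP.snd) (fp_nF (hf.comp FP.fst) FP.snd) (FP.const 0)
  have h2 : FP fun a => bst1 C m k T (f a) := fp_max (fp_mapc h1 (fe_ent C m k T hf))
  exact fp_half (fp_sub (FP.natAdd (FP.const 2) (fe_nE.comp hf)) (FP.natAdd (fe_nV.comp hf) h2))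

end

end Pool.Agent.SCG
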