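import Pool.Agent.SCG.FpP

/-!
# SCG-FpKey: keys and combinations in polynomial time
-/

set_option autoImplicit false

namespace Pool.Agent.SCG

open Turing Function N487b59b3 N68a2faeb Pool.Agent.Helper22 Pool.Agent.Helper6.WB Pool.Agent.Helper47.TR Computability
open Pool.Agent.BEO (look memb ddp comp stp bfs par tup cds Pt Ec Inp Stt sd ac ek fl fcl zl lb xo bvs nF isO nE nV nxc
  fp_eq fp_mapc fp_flat fp_filt fp_look fp_memb fp_par fp_ddp fp_comp fp_sd fp_ac fp_ek fp_fl fp_nxc fp_fcs fp_nF fp_half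
  fp_sub fp_max fp_fcl fp_lb fp_isO fp_bfs fp_tup fp_cds fp_xo)

section

variable {α β γ δ : Type} [N487b59b3 α] [N487b59b3 β] [N487b59b3 γ] [N487b59b3 δ]

theorem fp_keys (C : ℕ) {f : α → Inp} (hf : FP f) : FP fun a => keys C (f a) := by
  have h1 : FP fun a => cds ((edl (f a)).map fun e => [e]) C :=
    fp_cds C (fp_mapc (h := fun w : α × Ec => [w.2]) (FP.cons FP.snd (FP.const [])) (fp_edl hf))
  have h2 : FP fun q : α × List Ec => (vl (f q.1)).map fun u => (q.2, u) :=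
    fp_mapc (h := fun w : (α × List Ec) × ℕ => (w.1.2, w.2)) (FP.pair (FP.snd.comp FP.fst) FP.snd)
      (fp_vl (hf.comp FP.fst))
  exact fp_flat h2 h1

theorem fp_prn {f : α → Inp} {K : α → List Ec} {u : α → ℕ} (hf : FP f) (hK : FP K) (hu : FP u) :
    FP fun a => prn (f a) (K a) (u a) := by
  have e1 : FP fun w : α × Ec => w.2.1 := FP.snd.fst'
  have e2 : FP fun w : α × Ec => w.2.2 := FP.snd.snd'
  have h1 : FP fun w : α × Ec => inU (f w.1) (K w.1) (u w.1) w.2.1 || inU (f w.1) (K w.1) (u w.1) w.2.2 :=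
    FP.or (fp_inU (hf.comp FP.fst) (hK.comp FP.fst) (hu.comp FP.fst) e1)
      (fp_inU (hf.comp FP.fst) (hK.comp FP.fst) (hu.comp FP.fst) e2)
  exact fp_filt h1 (fp_ddp hK)

private theorem fpk_sub {f : α → Inp} {t : α → Tab} {K : α → List Ec} {u : α → ℕ} (hf : FP f) (ht : FP t)
    (hK : FP K) (hu : FP u) : FP fun a => sub (f a) (t a) (K a) (u a) :=
  fp_look ht (FP.pair (fp_prn hf hK hu) hu) (FP.const [])

theorem fp_cmb {f : α → Inp} {t : α → Tab} {K : α → List Ec} {u : α → ℕ} (hf : FP f) (ht : FP t) (hK : FP K)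
    (hu : FP u) : FP fun a => cmb (f a) (t a) (K a) (u a) := by
  have h3 : FP fun w : ((α × Pt) × List Ec) × List Ec => [w.1.2 ++ w.2, ek w.1.1.2 :: (w.1.2 ++ w.2)] := by
    have e1 : FP fun w : ((α × Pt) × List Ec) × List Ec => w.1.2 := FP.fst.snd'
    have e2 : FP fun w : ((α × Pt) × List Ec) × List Ec => w.1.1.2 := FP.fst.fst'.snd'
    have e3 : FP fun w : ((α × Pt) × List Ec) × List Ec => w.1.2 ++ w.2 := FP.append e1 FP.snd
    exact FP.cons e3 (FP.cons (FP.cons (fp_ek e2) e3) (FP.const []))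
  have h2 : FP fun w : (α × Pt) × List Ec =>
      ([] :: sub (f w.1.1) (t w.1.1) (ek w.1.2 :: K w.1.1) (ek w.1.2).2).flatMap fun b =>
        [w.2 ++ b, ek w.1.2 :: (w.2 ++ b)] := by
    have e1 : FP fun w : (α × Pt) × List Ec => w.1.1 := FP.fst.fst'
    have e2 : FP fun w : (α × Pt) × List Ec => ek w.1.2 := fp_ek FP.fst.snd'
    have e3 : FP fun w : (α × Pt) × List Ec => sub (f w.1.1) (t w.1.1) (ek w.1.2 :: K w.1.1) (ek w.1.2).2 :=
      fpk_sub (hf.comp e1) (ht.comp e1) (FP.cons e2 (hK.comp e1)) e2.snd'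
    exact fp_flat h3 (FP.cons (FP.const []) e3)
  have h1 : FP fun w : α × Pt => (sub (f w.1) (t w.1) (ek w.2 :: K w.1) (ek w.2).1).flatMap fun a =>
      ([] :: sub (f w.1) (t w.1) (ek w.2 :: K w.1) (ek w.2).2).flatMap fun b =>
        [a ++ b, ek w.2 :: (a ++ b)] := by
    have e2 : FP fun w : α × Pt => ek w.2 := fp_ek FP.snd
    have e3 : FP fun w : α × Pt => sub (f w.1) (t w.1) (ek w.2 :: K w.1) (ek w.2).1 :=
      fpk_sub (hf.comp FP.fst) (ht.comp FP.fst) (FP.cons e2 (hK.comp FP.fst)) e2.fst'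
    exact fp_flat h2 e3
  exact fp_flat h1 (fp_fli hf hK hu)

end

end Pool.Agent.SCG
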