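import Pool.Agent.SCG.Alg
import Pool.Agent.BEO.FpA

/-!
# SCG-FpP: pieces in polynomial time

PLAN. Compositions of `fp_look`, `fp_memb`, `fp_comp`, `fp_filt`, `fp_mapc`, `fp_par` (compare the proofs in
`Pool/Agent/BEO/FpG.lean`, `FpL.lean`).
-/

set_option autoImplicit false

namespace Pool.Agent.SCG

open Turing Function N487b59b3 N68a2faeb Pool.Agent.Helper22 Pool.Agent.Helper6.WB Pool.Agent.Helper47.TR Computability
open Pool.Agent.BEO (look memb ddp comp stp bfs par tup cds Pt Ec Inp Stt sd ac ek fl fcl zl lb xo bvs nF isO nE nV nxc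
  fp_eq fp_mapc fp_flat fp_filt fp_look fp_memb fp_par fp_ddp fp_comp fp_sd fp_ac fp_ek fp_fl fp_nxc fp_fcs fp_nF fp_half
  fp_sub fp_max fp_fcl fp_lb fp_isO fp_bfs fp_tup fp_cds fp_xo)

section

variable {α β γ δ : Type} [N487b59b3 α] [N487b59b3 β] [N487b59b3 γ] [N487b59b3 δ]

theorem fp_edl {f : α → Inp} (hf : FP f) : FP fun a => edl (f a) := by
  unfold edl
  exact fp_ddp (FP.map (fp_ek FP.id) (fp_fl hf))

theorem fp_vl {f : α → Inp} (hf : FP f) : FP fun a => vl (f a) := by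
  unfold vl
  exact fp_ddp (FP.map FP.fst (fp_fl hf))

theorem fp_nrm {f : α → Inp} {c : α → List Ec} (hf : FP f) (hc : FP c) : FP fun a => nrm (f a) (c a) := by
  have h : FP fun q : α × Ec => par (c q.1) q.2 := fp_par (hc.comp FP.fst) FP.snd
  exact fp_filt h (fp_edl hf)

theorem fp_nx {f : α → Inp} {p : α → Pt} (hf : FP f) (hp : FP p) : FP fun a => nx (f a) (p a) := by
  exact fp_look hf hp hp

theorem fp_acx {c : α → List Ec} {p : α → Pt} (hc : FP c) (hp : FP p) : FP fun a => acx (c a) (p a) := by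
  exact FP.ite (fp_par hc (fp_ek hp)) (fp_sd (fp_ac hp)) (fp_ac hp)

private theorem fp_vcl {f : α → Inp} {K : α → List Ec} (hf : FP f) (hK : FP K) :
    FP fun a => vcl (f a) (K a) := by
  have h : FP fun q : α × Pt => !memb (K q.1) (ek q.2) :=
    FP.not (fp_memb (hK.comp FP.fst) (fp_ek FP.snd))
  have h' : FP fun p : Pt => (p.1, p.2.1) := FP.pair FP.fst (FP.fst.comp FP.snd)
  exact fp_comp (fp_vl hf) (FP.map h' (fp_filt h (fp_fl hf)))

theorem fp_inU {f : α → Inp} {K : α → List Ec} {u v : α → ℕ} (hf : FP f) (hK : FP K) (hu : FP u) (hv : FP v) :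
    FP fun a => inU (f a) (K a) (u a) (v a) := by
  have h := fp_vcl hf hK
  exact fp_eq (fp_look h hv hv) (fp_look h hu hu)

theorem fp_flU {f : α → Inp} {K : α → List Ec} {u : α → ℕ} (hf : FP f) (hK : FP K) (hu : FP u) :
    FP fun a => flU (f a) (K a) (u a) := by
  have h : FP fun q : α × Pt => inU (f q.1) (K q.1) (u q.1) q.2.1 :=
    fp_inU (hf.comp FP.fst) (hK.comp FP.fst) (hu.comp FP.fst) (FP.fst.comp FP.snd)
  exact fp_filt h (fp_fl hf)

theorem fp_fli {f : α → Inp} {K : α → List Ec} {u : α → ℕ} (hf : FP f) (hK : FP K) (hu : FP u) :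
    FP fun a => fli (f a) (K a) (u a) := by
  have h : FP fun q : α × Pt => !memb (K q.1) (ek q.2) :=
    FP.not (fp_memb (hK.comp FP.fst) (fp_ek FP.snd))
  exact fp_filt h (fp_flU hf hK hu)

theorem fp_flb {f : α → Inp} {K : α → List Ec} {u : α → ℕ} (hf : FP f) (hK : FP K) (hu : FP u) :
    FP fun a => flb (f a) (K a) (u a) := by
  have h : FP fun q : α × Pt => memb (K q.1) (ek q.2) :=
    fp_memb (hK.comp FP.fst) (fp_ek FP.snd)
  exact fp_filt h (fp_flU hf hK hu)

end

end Pool.Agent.SCG
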