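import Pool.Agent.SCG.FpP

/-!
# SCG-FpQ: closed faces in polynomial time

PLAN. `fp_comp`, `fp_ddp`, `FP.any_ctx` for the inner test, `FP.length`.
-/

set_option autoImplicit false

namespace Pool.Agent.SCG

open Turing Function N487b59b3 N68a2faeb Pool.Agent.Helper22 Pool.Agent.Helper6.WB Pool.Agent.Helper47.TR Computability
open Pool.Agent.BEO (look memb ddp comp stp bfs par tup cds Pt Ec Inp Stt sd ac ek fl fcl zl lb xo bvs nF isO nE nV nxc
  fp_eq fp_mapc fp_flat fp_filt fp_look fp_memb fp_par fp_ddp fp_comp fp_sd fp_ac fp_ek fp_fl fp_nxc fp_fcs fp_nF fp_half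
  fp_sub fp_max fp_fcl fp_lb fp_isO fp_bfs fp_tup fp_cds fp_xo)

section

variable {α β γ δ : Type} [N487b59b3 α] [N487b59b3 β] [N487b59b3 γ] [N487b59b3 δ]

theorem fp_labU {f : α → Inp} {K : α → List Ec} {u : α → ℕ} {c : α → List Ec} (hf : FP f) (hK : FP K) (hu : FP u)
    (hc : FP c) : FP fun a => labU (f a) (K a) (u a) (c a) := by
  have hU := fp_flU hf hK hu
  have hI := fp_fli hf hK hu
  have h1 : FP fun q : α × Pt => (q.2, nx (f q.1) q.2) := FP.pair FP.snd (fp_nx (hf.comp FP.fst) FP.snd)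
  have h2 : FP fun q : α × Pt => (q.2, acx (c q.1) q.2) := FP.pair FP.snd (fp_acx (hc.comp FP.fst) FP.snd)
  exact fp_comp hU (FP.append (fp_mapc h1 hU) (fp_mapc h2 hI))

theorem fp_clo {f : α → Inp} {K : α → List Ec} {u : α → ℕ} {c : α → List Ec} (hf : FP f) (hK : FP K) (hu : FP u)
    (hc : FP c) : FP fun a => clo (f a) (K a) (u a) (c a) := by
  have hl := fp_labU hf hK hu hc
  have h3 : FP fun q : (α × Pt) × Pt =>
      decide (look (labU (f q.1.1) (K q.1.1) (u q.1.1) (c q.1.1)) q.2 q.2 = q.1.2) :=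
    fp_eq (fp_look (hl.comp (FP.fst.comp FP.fst)) FP.snd FP.snd) (FP.snd.comp FP.fst)
  have h4 : FP fun q : α × Pt => !((flb (f q.1) (K q.1) (u q.1)).any fun p =>
      decide (look (labU (f q.1) (K q.1) (u q.1) (c q.1)) p p = q.2)) :=
    FP.not ((FP.any_ctx h3).comp (FP.pair FP.id ((fp_flb hf hK hu).comp FP.fst)))
  exact FP.length (fp_filt h4 (fp_ddp (FP.map FP.snd hl)))

end

end Pool.Agent.SCG
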