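import Pool.Agent.SCG.FpQ

/-!
# SCG-FpR: signatures in polynomial time
-/

set_option autoImplicit false

namespace Pool.Agent.SCG

open Turing Function N487b59b3 N68a2faeb Pool.Agent.Helper22 Pool.Agent.Helper6.WB Pool.Agent.Helper47.TR Computability
open Pool.Agent.BEO (look memb ddp comp stp bfs par tup cds Pt Ec Inp Stt sd ac ek fl fcl zl lb xo bvs nF isO nE nV nxc
  fp_eq fp_mapc fp_flat fp_filt fp_look fp_memb fp_par fp_ddp fp_comp fp_sd fp_ac fp_ek fp_fl fp_nxc fp_fcs fp_nF fp_half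
  fp_sub fp_max fp_fcl fp_lb fp_isO fp_bfs fp_tup fp_cds fp_xo)

section

variable {α β γ δ : Type} [N487b59b3 α] [N487b59b3 β] [N487b59b3 γ] [N487b59b3 δ]

private theorem fpr_ptC {f : α → Inp} {K : α → List Ec} {u : α → ℕ} (hf : FP f) (hK : FP K) (hu : FP u) :
    FP fun a => ptC (f a) (K a) (u a) := by
  have h : FP fun q : α × Pt => [(q.2, false), (q.2, true)] :=
    FP.cons (FP.pair FP.snd (FP.const false)) (FP.cons (FP.pair FP.snd (FP.const true)) (FP.const []))
  exact fp_flat h (fp_flU hf hK hu)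

private theorem fpr_relC {f : α → Inp} {K : α → List Ec} {u : α → ℕ} {c : α → List Ec} (hf : FP f) (hK : FP K)
    (hu : FP u) (hc : FP c) : FP fun a => relC (f a) (K a) (u a) (c a) := by
  have h2 : FP fun q : α × (Pt × Bool) => q.2 := FP.snd
  have h1 : FP fun q : α × (Pt × Bool) => q.2.1 := h2.fst'
  have h0 : FP fun q : α × (Pt × Bool) => !q.2.2 := h2.snd'.not
  have hp := fpr_ptC hf hK hu
  have a1 : FP fun a => (ptC (f a) (K a) (u a)).map fun q => (q, (nx (f a) q.1, !q.2)) :=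
    fp_mapc (h := fun q : α × (Pt × Bool) => (q.2, (nx (f q.1) q.2.1, !q.2.2)))
      (FP.pair h2 (FP.pair (fp_nx (hf.comp FP.fst) h1) h0)) hp
  have a2 : FP fun a => (ptC (f a) (K a) (u a)).map fun q => (q, (sd q.1, !q.2)) :=
    fp_mapc (h := fun q : α × (Pt × Bool) => (q.2, (sd q.2.1, !q.2.2)))
      (FP.pair h2 (FP.pair (fp_sd h1) h0)) hp
  have a3 : FP fun a => (ptC (f a) (K a) (u a)).filter fun q => !memb (K a) (ek q.1) :=
    fp_filt (h := fun q : α × (Pt × Bool) => !memb (K q.1) (ek q.2.1))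
      (FP.not (fp_memb (hK.comp FP.fst) (fp_ek h1))) hp
  have a4 : FP fun a => ((ptC (f a) (K a) (u a)).filter fun q => !memb (K a) (ek q.1)).map
      fun q => (q, (acx (c a) q.1, !q.2)) :=
    fp_mapc (h := fun q : α × (Pt × Bool) => (q.2, (acx (c q.1) q.2.1, !q.2.2)))
      (FP.pair h2 (FP.pair (fp_acx (hc.comp FP.fst) h1) h0)) a3
  exact FP.append a1 (FP.append a2 a4)

theorem fp_labC {f : α → Inp} {K : α → List Ec} {u : α → ℕ} {c : α → List Ec} (hf : FP f) (hK : FP K) (hu : FP u)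
    (hc : FP c) : FP fun a => labC (f a) (K a) (u a) (c a) :=
  fp_comp (fpr_ptC hf hK hu) (fpr_relC hf hK hu hc)

private theorem fpr_bF {l : α → List (Pt × Pt)} {p q : α → Pt} (hl : FP l) (hp : FP p) (hq : FP q) :
    FP fun a => bF (l a) (p a) (q a) :=
  fp_eq (fp_look hl hp hp) (fp_look hl hq hq)

private theorem fpr_bC {l : α → List ((Pt × Bool) × (Pt × Bool))} {p q : α → Pt} {b : α → Bool} (hl : FP l)
    (hp : FP p) (hq : FP q) (hb : FP b) : FP fun a => bC (l a) (p a) (q a) (b a) :=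
  fp_eq (fp_look hl (FP.pair hp (FP.const false)) (FP.pair hp (FP.const false)))
    (fp_look hl (FP.pair hq hb) (FP.pair hq hb))

private theorem fpr_prs {f : α → Inp} {K : α → List Ec} {u : α → ℕ} (hf : FP f) (hK : FP K) (hu : FP u) :
    FP fun a => prs (f a) (K a) (u a) := by
  have h1 : FP fun q : α × Pt => (flb (f q.1) (K q.1) (u q.1)).map fun r => (q.2, r) :=
    fp_mapc (h := fun w : (α × Pt) × Pt => (w.1.2, w.2)) (FP.pair (FP.snd.comp FP.fst) FP.snd)
      (fp_flb (hf.comp FP.fst) (hK.comp FP.fst) (hu.comp FP.fst))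
  exact fp_flat h1 (fp_flb hf hK hu)

theorem fp_sgn {f : α → Inp} {K : α → List Ec} {u : α → ℕ} {c : α → List Ec} (hf : FP f) (hK : FP K) (hu : FP u)
    (hc : FP c) : FP fun a => sgn (f a) (K a) (u a) (c a) := by
  have hC := fp_labC hf hK hu hc
  have hU := fp_labU hf hK hu hc
  have h1 : FP fun a => (flU (f a) (K a) (u a)).any fun p =>
      bC (labC (f a) (K a) (u a) (c a)) p p true := by
    have h2 : FP fun w : α × Pt => bC (labC (f w.1) (K w.1) (u w.1) (c w.1)) w.2 w.2 true :=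
      fpr_bC (hC.comp FP.fst) FP.snd FP.snd (FP.const true)
    exact (FP.any_ctx h2).comp (FP.pair FP.id (fp_flU hf hK hu))
  have h3 : FP fun w : α × (Pt × Pt) => [bF (labU (f w.1) (K w.1) (u w.1) (c w.1)) w.2.1 w.2.2,
      bC (labC (f w.1) (K w.1) (u w.1) (c w.1)) w.2.1 w.2.2 false,
      bC (labC (f w.1) (K w.1) (u w.1) (c w.1)) w.2.1 w.2.2 true] := by
    have e1 : FP fun w : α × (Pt × Pt) => w.2.1 := FP.snd.fst'
    have e2 : FP fun w : α × (Pt × Pt) => w.2.2 := FP.snd.snd'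
    exact FP.cons (fpr_bF (hU.comp FP.fst) e1 e2)
      (FP.cons (fpr_bC (hC.comp FP.fst) e1 e2 (FP.const false))
        (FP.cons (fpr_bC (hC.comp FP.fst) e1 e2 (FP.const true)) (FP.const [])))
  exact FP.cons h1 (fp_flat h3 (fpr_prs hf hK hu))

end

end Pool.Agent.SCG
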