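import Pool.Agent.SCG.FpP

/-!
# SCG-FpWl: the canonical walks in polynomial time
-/

set_option autoImplicit false

namespace Pool.Agent.SCG

open Turing Function N487b59b3 N68a2faeb Pool.Agent.Helper22 Pool.Agent.Helper6.WB Pool.Agent.Helper47.TR Computability
open Pool.Agent.BEO (look memb ddp comp stp bfs par tup cds Pt Ec Inp Stt sd ac ek fl fcl zl lb xo bvs nF isO nE nV nxc
  fp_eq fp_mapc fp_flat fp_filt fp_look fp_memb fp_par fp_ddp fp_comp fp_sd fp_ac fp_ek fp_fl fp_nxc fp_fcs fp_nF fp_half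
  fp_sub fp_max fp_fcl fp_lb fp_isO fp_bfs fp_tup fp_cds fp_xo)

section

variable {α β γ δ : Type} [N487b59b3 α] [N487b59b3 β] [N487b59b3 γ] [N487b59b3 δ]

private theorem fp_arU (k : ℕ) {f : α → Inp} {e : α → List Ec} {fs : α → List Pt} (hf : FP f) (he : FP e)
    (hs : FP fs) : FP fun a => arU k (f a) (e a) (fs a) := by
  have hf' : FP fun q : (α × Pt) × List Bool => f q.1.1 := hf.comp (by fun_prop)
  have he' : FP fun q : (α × Pt) × List Bool => e q.1.1 := he.comp (by fun_prop)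
  have hp' : FP fun q : (α × Pt) × List Bool => q.1.2 := by fun_prop
  have hv' : FP fun q : (α × Pt) × List Bool => q.2 := by fun_prop
  have h0 : ∀ b : Bool, FP fun q : (α × Pt) × List Bool =>
      (((fcl (f q.1.1) q.1.2, (q.2, b)),
        (fcl (f q.1.1) (sd q.1.2), (xo q.2 (lb (f q.1.1) (e q.1.1) (ek q.1.2)), !b))), ek q.1.2) := by
    intro b
    exact FP.pair (FP.pair (FP.pair (fp_fcl hf' hp') (FP.pair hv' (FP.const b)))
      (FP.pair (fp_fcl hf' (fp_sd hp')) (FP.pair (fp_xo hv' (fp_lb hf' he' (fp_ek hp'))) (FP.const (!b)))))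
      (fp_ek hp')
  have h1 : FP fun q : (α × Pt) × List Bool => [false, true].map fun b =>
      (((fcl (f q.1.1) q.1.2, (q.2, b)),
        (fcl (f q.1.1) (sd q.1.2), (xo q.2 (lb (f q.1.1) (e q.1.1) (ek q.1.2)), !b))), ek q.1.2) :=
    FP.cons (h0 false) (FP.cons (h0 true) (FP.const []))
  have h2 := fp_flat h1 (l := fun _ : α × Pt => bvs k) (FP.const (bvs k))
  exact fp_flat h2 hs

private theorem fp_inu {f : α → Inp} {e : α → List Ec} {fs : α → List Pt} {p : α → Pt} (hf : FP f) (he : FP e)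
    (hs : FP fs) (hp : FP p) : FP fun a => inu (f a) (e a) (fs a) (p a) := by
  have hf' : FP fun q : α × Pt => f q.1 := hf.comp (by fun_prop)
  have he' : FP fun q : α × Pt => e q.1 := he.comp (by fun_prop)
  have hp' : FP fun q : α × Pt => p q.1 := hp.comp (by fun_prop)
  have hq' : FP fun q : α × Pt => q.2 := by fun_prop
  have h1 : FP fun q : α × Pt => decide (fcl (f q.1) q.2 = fcl (f q.1) (p q.1)) :=
    fp_eq (fp_fcl hf' hq') (fp_fcl hf' hp')
  have h2 : FP fun q : α × Pt => ((fcl (f q.1) (sd q.2), (lb (f q.1) (e q.1) (ek q.2), true)), [ek q.2]) :=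
    FP.pair (FP.pair (fp_fcl hf' (fp_sd hq')) (FP.pair (fp_lb hf' he' (fp_ek hq')) (FP.const true)))
      (FP.cons (fp_ek hq') (FP.const []))
  exact fp_mapc h2 (fp_filt h1 hs)

theorem fp_wlu (k : ℕ) {f : α → Inp} {e : α → List Ec} {fs : α → List Pt} (hf : FP f) (he : FP e) (hs : FP fs) :
    FP fun a => wlu k (f a) (e a) (fs a) := by
  have hf' : FP fun q : α × Pt => f q.1 := hf.comp (by fun_prop)
  have he' : FP fun q : α × Pt => e q.1 := he.comp (by fun_prop)
  have hs' : FP fun q : α × Pt => fs q.1 := hs.comp (by fun_prop)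
  have hq' : FP fun q : α × Pt => q.2 := by fun_prop
  have h1 : FP fun q : α × Pt => (bfs (arU k (f q.1) (e q.1) (fs q.1)) (inu (f q.1) (e q.1) (fs q.1) q.2)).map
      Prod.snd :=
    FP.map FP.snd (fp_bfs (fp_arU k hf' he' hs') (fp_inu hf' he' hs' hq'))
  exact fp_flat h1 hs

theorem fp_leaf (k T : ℕ) {f : α → Inp} {fs : α → List Pt} (hf : FP f) (hs : FP fs) :
    FP fun a => leaf k T (f a) (fs a) := by
  have h0 : FP fun a => (fs a).map fun p => [ek p] :=
    FP.map (f := fun p : Pt => [ek p]) (FP.cons (fp_ek (by fun_prop)) (FP.const [])) hs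
  have hf' : FP fun q : α × List Ec => f q.1 := hf.comp (by fun_prop)
  have hs' : FP fun q : α × List Ec => fs q.1 := hs.comp (by fun_prop)
  have he' : FP fun q : α × List Ec => q.2 := by fun_prop
  have h1 : FP fun q : α × List Ec => cds (wlu k (f q.1) q.2 (fs q.1)) T :=
    fp_cds T (fp_wlu k hf' he' hs')
  exact FP.append (fp_cds T h0) (fp_flat h1 (fp_tup k (fp_edl hf)))

end

end Pool.Agent.SCG
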