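import Pool.Agent.SCG.FpSel
import Pool.Agent.SCG.FpWl
import Pool.Agent.SCG.FpSz

/-!
# SCG-FpTab: the tables in polynomial time

Compositions, `FP.iterate` with the bound of `rnd_sz`.
-/

set_option autoImplicit false

namespace Pool.Agent.SCG

open Turing Function N487b59b3 N68a2faeb Pool.Agent.Helper22 Pool.Agent.Helper6.WB Pool.Agent.Helper47.TR Computability
open Pool.Agent.BEO (look memb ddp comp stp bfs par tup cds Pt Ec Inp Stt sd ac ek fl fcl zl lb xo bvs nF isO nE nV nxc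
  fp_eq fp_mapc fp_flat fp_filt fp_look fp_memb fp_par fp_ddp fp_comp fp_sd fp_ac fp_ek fp_fl fp_nxc fp_fcs fp_nF fp_half
  fp_sub fp_max fp_fcl fp_lb fp_isO fp_bfs fp_tup fp_cds fp_xo)

section

variable {α β γ δ : Type} [N487b59b3 α] [N487b59b3 β] [N487b59b3 γ] [N487b59b3 δ]

theorem fp_rnd (C m k T : ℕ) {f : α → Inp} {t : α → Tab} (hf : FP f) (ht : FP t) :
    FP fun a => rnd C m k T (f a) (t a) := by
  have hf' : FP fun q : α × (List Ec × ℕ) => f q.1 := hf.comp FP.fst
  have ht' : FP fun q : α × (List Ec × ℕ) => t q.1 := ht.comp FP.fst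
  have hK : FP fun q : α × (List Ec × ℕ) => q.2.1 := FP.snd.fst'
  have hu : FP fun q : α × (List Ec × ℕ) => q.2.2 := FP.snd.snd'
  have h1 : FP fun q : α × (List Ec × ℕ) => leaf k T (f q.1) (fli (f q.1) q.2.1 q.2.2) ++
      cmb (f q.1) (t q.1) q.2.1 q.2.2 := FP.append (fp_leaf k T hf' (fp_fli hf' hK hu)) (fp_cmb hf' ht' hK hu)
  have h2 : FP fun w : (α × (List Ec × ℕ)) × List Ec => nrm (f w.1.1) w.2 :=
    fp_nrm (hf.comp (FP.fst.comp FP.fst)) FP.snd
  have h3 : FP fun q : α × (List Ec × ℕ) => (leaf k T (f q.1) (fli (f q.1) q.2.1 q.2.2) ++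
      cmb (f q.1) (t q.1) q.2.1 q.2.2).map (nrm (f q.1)) := fp_mapc h2 h1
  have h4 : FP fun q : α × (List Ec × ℕ) => (q.2, sel m (f q.1) q.2.1 q.2.2
      ((leaf k T (f q.1) (fli (f q.1) q.2.1 q.2.2) ++ cmb (f q.1) (t q.1) q.2.1 q.2.2).map (nrm (f q.1)))) :=
    FP.pair FP.snd (fp_sel m hf' hK hu h3)
  exact fp_mapc h4 (fp_keys C hf)

private theorem tab_state (C m k T : ℕ) (l : Inp) (t : Tab) (i : ℕ) :
    (fun s : Inp × Tab => (s.1, rnd C m k T s.1 s.2))^[i] (l, t) = (l, (rnd C m k T l)^[i] t) := by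
  induction i with
  | zero => rfl
  | succ i ih => rw [Function.iterate_succ_apply', Function.iterate_succ_apply', ih]

theorem fp_tab (C m k T : ℕ) {f : α → Inp} (hf : FP f) : FP fun a => tabN C m k T (f a) := by
  obtain ⟨B, hB, hm, hle⟩ := rnd_sz C m k T
  have hst : FP fun s : Inp × Tab => (s.1, rnd C m k T s.1 s.2) := FP.pair FP.fst (fp_rnd C m k T FP.fst FP.snd)
  have hB' : PB fun n => n + (2 * n + 1 + B n) :=
    PB.add PB.id (PB.add (PB.add (PB.mul (PB.const 2) PB.id) (PB.const 1)) hB)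
  have h := FP.iterate (β := Pt) hst (B := fun n => n + (2 * n + 1 + B n)) hB' (by
    rintro l ⟨A, t⟩ i hi
    have h1 : sz (A, t) = 2 * sz A + 1 + sz t := sz_pair A t
    have h3 : sz A ≤ sz l + sz (A, t) := by omega
    cases i with
    | zero =>
      show sz (A, t) ≤ _
      omega
    | succ i =>
      rw [tab_state, Function.iterate_succ_apply', sz_pair]
      have h2 := hle A ((rnd C m k T A)^[i] t)
      have h4 := hm h3
      omega)
  have hp : FP fun a => (((0, (0, false)) : Pt) :: fl (f a)) := FP.cons (FP.const _) (fp_fl hf)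
  have h2 := (h.comp (FP.pair hp (FP.pair hf (FP.const [])))).snd'
  refine (congrArg FP (funext fun a => ?_)).mp h2
  simp only [tab_state]
  rfl

end

end Pool.Agent.SCG
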