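import Pool.Agent.SCG.GdNb
import Pool.Agent.BEO.Par

/-!
# SCG-GdCls: even sets of edges of the extended graph

`oldE χ` are the old edges of `χ`.
-/

set_option autoImplicit false

open Finset
open scoped Classical

namespace Pool.Agent.SCG

open Pool.Agent.BEO (F2 nb es vs dg row)

namespace PCfg

variable {k : ℕ} {V Q : Type} [Fintype V] [AddCommGroup Q] [Module F2 Q] (c : PCfg k V Q)

/-- the old edges -/
noncomputable def oldE (χ : Finset (Sym2 (GV c.B))) : Finset (Sym2 V) :=
  univ.filter fun e => e.map Sum.inl ∈ χ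

/-! ### the vertices and edges of a path -/

private theorem dg_card {X : Type} (χ : Finset (Sym2 X)) (x : X) (s : Finset (Sym2 X))
    (h : ∀ e, e ∈ s ↔ e ∈ χ ∧ x ∈ e) : dg χ x = s.card := by
  unfold dg
  congr 1
  ext e
  rw [Finset.mem_filter]
  exact (h e).symm

private theorem dg_coef' {X : Type} (U χ : Finset (Sym2 X)) (hU : ∀ e, e ∈ U) (x : X) (f g : Sym2 X → F2)
    (hχ : ∀ e, e ∈ χ ↔ f e = 1) (h1 : ∀ e, x ∈ e → g e = 1) (h0 : ∀ e, x ∉ e → g e = 0) :
    ((dg χ x : ℕ) : F2) = ∑ e ∈ U, f e * g e := by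
  rw [dg_card χ x (U.filter fun e => f e = 1 ∧ x ∈ e) fun e => by rw [Finset.mem_filter, hχ]; exact ⟨fun h => h.2, fun h => ⟨hU e, h⟩⟩]
  rw [Finset.card_filter, Nat.cast_sum]
  refine Finset.sum_congr rfl fun e _ => ?_
  rcases Pool.Agent.BEO.f2_cases (f e) with h | h
  · rw [h, zero_mul, if_neg (fun h' => by exact absurd h'.1 (by decide)), Nat.cast_zero]
  · by_cases hv : x ∈ e
    · rw [h, if_pos ⟨rfl, hv⟩, h1 e hv, one_mul, Nat.cast_one]
    · rw [h, if_neg (fun h' => hv h'.2), h0 e hv, mul_zero, Nat.cast_zero]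

private theorem mid_ne_inl (b : {v : V // v ∈ c.B}) (i : Fin 2) (j : Fin 6) (v : V) : c.mid b i j ≠ Sum.inl v := by
  intro h
  unfold mid at h
  exact absurd h (by simp)

private theorem mid_ne_top (b : {v : V // v ∈ c.B}) (i : Fin 2) (j : Fin 6) : c.mid b i j ≠ c.top := by
  intro h
  unfold mid top at h
  exact absurd (Sum.inr_injective h) (by simp)

private theorem inl_ne_top (v : V) : (Sum.inl v : GV c.B) ≠ c.top := by
  intro h
  unfold top at h
  exact absurd h (by simp)

private theorem mid_inj {b b' : {v : V // v ∈ c.B}} {i i' : Fin 2} {j j' : Fin 6}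
    (h : c.mid b i j = c.mid b' i' j') : b = b' ∧ i = i' ∧ j = j' := by
  unfold mid at h
  have h1 := Sum.inl_injective (Sum.inr_injective h)
  simp only [Prod.mk.injEq] at h1
  exact ⟨h1.1, h1.2.1, h1.2.2⟩

private noncomputable def pv (b : {v : V // v ∈ c.B}) (i : Fin 2) (j : ℕ) : GV c.B :=
  if j = 0 then Sum.inl b.1 else if h : j - 1 < 6 then c.mid b i ⟨j - 1, h⟩ else c.top

private theorem pv_zero (b : {v : V // v ∈ c.B}) (i : Fin 2) : c.pv b i 0 = Sum.inl b.1 := if_pos rfl

private theorem pv_mid (b : {v : V // v ∈ c.B}) (i : Fin 2) (j : Fin 6) : c.pv b i (j + 1) = c.mid b i j := by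
  unfold pv
  rw [if_neg (Nat.succ_ne_zero _), dif_pos (show (j : ℕ) + 1 - 1 < 6 from j.2)]
  rfl

private theorem pv_top (b : {v : V // v ∈ c.B}) (i : Fin 2) : c.pv b i 7 = c.top := by
  unfold pv
  rw [if_neg (by norm_num), dif_neg (by norm_num)]

private theorem le7 {j : ℕ} (hj : j ≤ 7) : j = 0 ∨ (∃ j' : Fin 6, j = (j' : ℕ) + 1) ∨ j = 7 := by
  by_cases h0 : j = 0
  · exact Or.inl h0
  · by_cases h7 : j = 7
    · exact Or.inr (Or.inr h7)
    · exact Or.inr (Or.inl ⟨⟨j - 1, by omega⟩, by simp only; omega⟩)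

private theorem pv_inj (b : {v : V // v ∈ c.B}) (i : Fin 2) {j k : ℕ} (hj : j ≤ 7) (hk : k ≤ 7)
    (h : c.pv b i j = c.pv b i k) : j = k := by
  rcases le7 hj with rfl | ⟨j', rfl⟩ | rfl
  · rcases le7 hk with rfl | ⟨k', rfl⟩ | rfl
    · rfl
    · rw [pv_zero, pv_mid] at h
      exact absurd h.symm (c.mid_ne_inl _ _ _ _)
    · rw [pv_zero, pv_top] at h
      exact absurd h (c.inl_ne_top _)
  · rcases le7 hk with rfl | ⟨k', rfl⟩ | rfl
    · rw [pv_zero, pv_mid] at h
      exact absurd h (c.mid_ne_inl _ _ _ _)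
    · rw [pv_mid, pv_mid] at h
      rw [(c.mid_inj h).2.2]
    · rw [pv_mid, pv_top] at h
      exact absurd h (c.mid_ne_top _ _ _)
  · rcases le7 hk with rfl | ⟨k', rfl⟩ | rfl
    · rw [pv_zero, pv_top] at h
      exact absurd h.symm (c.inl_ne_top _)
    · rw [pv_mid, pv_top] at h
      exact absurd h.symm (c.mid_ne_top _ _ _)
    · rfl

/-- the neighbours of an inner vertex -/
private theorem mid_adj (L : SimpleGraph V) (b : {v : V // v ∈ c.B}) (i : Fin 2) (j : Fin 6) (h : c.act b i)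
    (x : GV c.B) : (c.extG L).Adj (c.mid b i j) x ↔ x = c.pv b i j ∨ x = c.pv b i (j + 2) := by
  rcases c.gv_cases x with ⟨v, rfl⟩ | ⟨b', i', j', rfl⟩ | rfl
  · rw [SimpleGraph.adj_comm, c.ext_inl_mid L]
    constructor
    · rintro ⟨rfl, rfl, _⟩
      left
      exact (c.pv_zero b i).symm
    · rintro (h1 | h1)
      · rcases le7 (show (j : ℕ) ≤ 7 by omega) with h0 | ⟨k, hk⟩ | h7
        · rw [h0, pv_zero] at h1
          exact ⟨Sum.inl_injective h1, Fin.ext h0, h⟩
        · rw [hk, pv_mid] at h1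
          exact absurd h1.symm (c.mid_ne_inl _ _ _ _)
        · omega
      · rcases le7 (show (j : ℕ) + 2 ≤ 7 by omega) with h0 | ⟨k, hk⟩ | h7
        · omega
        · rw [hk, pv_mid] at h1
          exact absurd h1.symm (c.mid_ne_inl _ _ _ _)
        · rw [h7, pv_top] at h1
          exact absurd h1 (c.inl_ne_top _)
  · rw [c.ext_mid_mid L]
    constructor
    · rintro ⟨rfl, rfl, _, h1 | h1⟩
      · right
        rw [show (j : ℕ) + 2 = (j' : ℕ) + 1 by omega, pv_mid]
      · left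
        rw [h1, pv_mid]
    · rintro (h1 | h1)
      · rcases le7 (show (j : ℕ) ≤ 7 by omega) with h0 | ⟨k, hk⟩ | h7
        · rw [h0, pv_zero] at h1
          exact absurd h1 (c.mid_ne_inl _ _ _ _)
        · rw [hk, pv_mid] at h1
          obtain ⟨h2, h3, h4⟩ := c.mid_inj h1
          exact ⟨h2.symm, h3.symm, h, Or.inr (by rw [hk, h4])⟩
        · omega
      · rcases le7 (show (j : ℕ) + 2 ≤ 7 by omega) with h0 | ⟨k, hk⟩ | h7
        · omega
        · rw [hk, pv_mid] at h1
          obtain ⟨h2, h3, h4⟩ := c.mid_inj h1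
          refine ⟨h2.symm, h3.symm, h, Or.inl ?_⟩
          rw [h4]
          omega
        · rw [h7, pv_top] at h1
          exact absurd h1 (c.mid_ne_top _ _ _)
  · rw [c.ext_mid_top L]
    constructor
    · rintro ⟨rfl, _⟩
      right
      exact (c.pv_top b i).symm
    · rintro (h1 | h1)
      · rcases le7 (show (j : ℕ) ≤ 7 by omega) with h0 | ⟨k, hk⟩ | h7
        · rw [h0, pv_zero] at h1
          exact absurd h1.symm (c.inl_ne_top _)
        · rw [hk, pv_mid] at h1
          exact absurd h1.symm (c.mid_ne_top _ _ _)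
        · omega
      · rcases le7 (show (j : ℕ) + 2 ≤ 7 by omega) with h0 | ⟨k, hk⟩ | h7
        · omega
        · rw [hk, pv_mid] at h1
          exact absurd h1.symm (c.mid_ne_top _ _ _)
        · refine ⟨Fin.ext ?_, h⟩
          show (j : ℕ) = 5
          omega

/-- the edges of the path -/
private noncomputable def pe (b : {v : V // v ∈ c.B}) (i : Fin 2) (j : ℕ) : Sym2 (GV c.B) :=
  s(c.pv b i j, c.pv b i (j + 1))

private theorem pe_inj (b : {v : V // v ∈ c.B}) (i : Fin 2) {j k : ℕ} (hj : j < 7) (hk : k < 7)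
    (h : c.pe b i j = c.pe b i k) : j = k := by
  unfold pe at h
  rw [Sym2.eq_iff] at h
  rcases h with ⟨h1, _⟩ | ⟨h1, h2⟩
  · exact c.pv_inj b i (by omega) (by omega) h1
  · have h3 := c.pv_inj b i (by omega) (by omega) h1
    have h4 := c.pv_inj b i (by omega) (by omega) h2
    omega

private theorem pe_mid (b : {v : V // v ∈ c.B}) (i : Fin 2) {j : ℕ} (hj : j < 7) :
    ∃ k : Fin 6, c.mid b i k ∈ c.pe b i j := by
  by_cases h0 : j = 0
  · refine ⟨0, ?_⟩
    rw [← c.pv_mid b i 0, h0]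
    exact Sym2.mem_mk_right _ _
  · obtain ⟨k, hk⟩ : ∃ k : Fin 6, j = (k : ℕ) + 1 := ⟨⟨j - 1, by omega⟩, by simp only; omega⟩
    refine ⟨k, ?_⟩
    rw [← c.pv_mid b i k, ← hk]
    exact Sym2.mem_mk_left _ _

private theorem pe_adj (L : SimpleGraph V) (b : {v : V // v ∈ c.B}) (i : Fin 2) (h : c.act b i) {j : ℕ} (hj : j < 7) :
    c.pe b i j ∈ (c.extG L).edgeSet := by
  unfold pe
  rw [SimpleGraph.mem_edgeSet]
  by_cases h0 : j = 0
  · have h1 : c.pv b i (j + 1) = c.mid b i 0 := by
      rw [h0]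
      exact c.pv_mid b i 0
    rw [h1, SimpleGraph.adj_comm, c.mid_adj L b i 0 h, h0]
    left
    rfl
  · obtain ⟨k, hk⟩ : ∃ k : Fin 6, j = (k : ℕ) + 1 := ⟨⟨j - 1, by omega⟩, by simp only; omega⟩
    rw [hk, c.pv_mid b i k, c.mid_adj L b i k h]
    right
    rfl

/-- an edge at an inner vertex is one of two edges of the path -/
private theorem edge_mid {L : SimpleGraph V} {b : {v : V // v ∈ c.B}} {i : Fin 2} {j : Fin 6} {e : Sym2 (GV c.B)}
    (he : e ∈ (c.extG L).edgeSet) (hm : c.mid b i j ∈ e) :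
    c.act b i ∧ (e = c.pe b i j ∨ e = c.pe b i (j + 1)) := by
  obtain ⟨x, rfl⟩ := Sym2.mem_iff_exists.1 hm
  rw [SimpleGraph.mem_edgeSet] at he
  have h : c.act b i := by
    by_contra hn
    exact c.mid_none L b i j hn x he
  refine ⟨h, ?_⟩
  rw [c.mid_adj L b i j h] at he
  unfold pe
  rcases he with he | he
  · left
    rw [he, c.pv_mid b i j, Sym2.eq_swap]
  · right
    rw [he, c.pv_mid b i j]

/-- an edge of the extended graph is old or contains an inner vertex -/
private theorem edge_cases {L : SimpleGraph V} {e : Sym2 (GV c.B)} (he : e ∈ (c.extG L).edgeSet) :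
    (∃ e0 ∈ L.edgeSet, e = Sym2.map Sum.inl e0) ∨ ∃ b i j, c.mid b i j ∈ e := by
  induction e using Sym2.ind with
  | _ x y =>
    rw [SimpleGraph.mem_edgeSet] at he
    rcases c.gv_cases x with ⟨v, rfl⟩ | ⟨b', i', j', rfl⟩ | rfl
    · rcases c.gv_cases y with ⟨w, rfl⟩ | ⟨b', i', j', rfl⟩ | rfl
      · left
        rw [c.ext_inl_inl L] at he
        exact ⟨s(v, w), he, rfl⟩
      · exact Or.inr ⟨b', i', j', Sym2.mem_mk_right _ _⟩
      · exact absurd he (c.ext_inl_top L v)
    · exact Or.inr ⟨b', i', j', Sym2.mem_mk_left _ _⟩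
    · rcases c.gv_cases y with ⟨w, rfl⟩ | ⟨b', i', j', rfl⟩ | rfl
      · exact absurd he.symm (c.ext_inl_top L w)
      · exact Or.inr ⟨b', i', j', Sym2.mem_mk_right _ _⟩
      · exact absurd rfl he.ne

private theorem map_edge {L : SimpleGraph V} {e0 : Sym2 V} (he : Sym2.map Sum.inl e0 ∈ (c.extG L).edgeSet) :
    e0 ∈ L.edgeSet := by
  induction e0 using Sym2.ind with
  | _ u v =>
    rw [Sym2.map_mk, SimpleGraph.mem_edgeSet] at he
    exact (c.ext_inl_inl L u v).mp he

private theorem map_edge' {L : SimpleGraph V} {e0 : Sym2 V} (he : e0 ∈ L.edgeSet) :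
    Sym2.map Sum.inl e0 ∈ (c.extG L).edgeSet := by
  induction e0 using Sym2.ind with
  | _ u v =>
    rw [Sym2.map_mk, SimpleGraph.mem_edgeSet]
    exact (c.ext_inl_inl L u v).mpr he

private theorem map_inj : Function.Injective (Sym2.map (Sum.inl : V → GV c.B)) :=
  Sym2.map.injective Sum.inl_injective

private theorem mem_map_inl {e0 : Sym2 V} {v : V} : (Sum.inl v : GV c.B) ∈ Sym2.map Sum.inl e0 ↔ v ∈ e0 := by
  rw [Sym2.mem_map]
  constructor
  · rintro ⟨a, ha, h⟩
    rw [← Sum.inl_injective h]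
    exact ha
  · intro h
    exact ⟨v, h, rfl⟩

private theorem notMem_map {e0 : Sym2 V} {b : {v : V // v ∈ c.B}} {i : Fin 2} {j : Fin 6} :
    c.mid b i j ∉ Sym2.map Sum.inl e0 := by
  rw [Sym2.mem_map]
  rintro ⟨a, _, h⟩
  exact c.mid_ne_inl b i j a h.symm

private theorem step {χ : Finset (Sym2 (GV c.B))} (h1 : ∀ e ∈ χ, e ∈ (c.extG c.L).edgeSet)
    (h2 : ∀ v, Even (dg χ v)) (b : {v : V // v ∈ c.B}) (i : Fin 2) (j : Fin 6) :
    c.pe b i j ∈ χ ↔ c.pe b i (j + 1) ∈ χ := by
  have hne : c.pe b i j ≠ c.pe b i (j + 1) := by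
    intro h
    have := c.pe_inj b i (show (j : ℕ) < 7 by omega) (show (j : ℕ) + 1 < 7 by omega) h
    omega
  have hin : c.mid b i j ∈ c.pe b i j := by
    rw [← c.pv_mid b i j]
    exact Sym2.mem_mk_right _ _
  have hin' : c.mid b i j ∈ c.pe b i (j + 1) := by
    rw [← c.pv_mid b i j]
    exact Sym2.mem_mk_left _ _
  have hsub : ∀ e, e ∈ χ ∧ c.mid b i j ∈ e → e = c.pe b i j ∨ e = c.pe b i (j + 1) := by
    intro e he
    exact (c.edge_mid (h1 e he.1) he.2).2
  have hd := h2 (c.mid b i j)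
  constructor
  · intro ha
    by_contra hb
    rw [dg_card χ (c.mid b i j) {c.pe b i j}, Finset.card_singleton] at hd
    · exact absurd hd (by decide)
    · intro e
      rw [Finset.mem_singleton]
      constructor
      · rintro rfl
        exact ⟨ha, hin⟩
      · intro he
        rcases hsub e he with h | h
        · exact h
        · exact absurd (h ▸ he.1) hb
  · intro ha
    by_contra hb
    rw [dg_card χ (c.mid b i j) {c.pe b i (j + 1)}, Finset.card_singleton] at hd
    · exact absurd hd (by decide)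
    · intro e
      rw [Finset.mem_singleton]
      constructor
      · rintro rfl
        exact ⟨ha, hin'⟩
      · intro he
        rcases hsub e he with h | h
        · exact absurd (h ▸ he.1) hb
        · exact h

private theorem path_all {χ : Finset (Sym2 (GV c.B))} (h1 : ∀ e ∈ χ, e ∈ (c.extG c.L).edgeSet)
    (h2 : ∀ v, Even (dg χ v)) (b : {v : V // v ∈ c.B}) (i : Fin 2) (j : ℕ) (hj : j < 7) :
    c.pe b i j ∈ χ ↔ c.pe b i 0 ∈ χ := by
  induction j with
  | zero => exact Iff.rfl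
  | succ j ih =>
    rw [← ih (by omega)]
    exact (c.step h1 h2 b i ⟨j, by omega⟩).symm

/-- the sum of the first components -/
private theorem sum_fst {χ : Finset (Sym2 (GV c.B))} (h1 : ∀ e ∈ χ, e ∈ (c.extG c.L).edgeSet) :
    ∑ e ∈ χ, (c.aX e).1 = ∑ e0 ∈ c.oldE χ, c.a e0 := by
  have hsub : (c.oldE χ).image (Sym2.map Sum.inl) ⊆ χ := by
    intro e he
    obtain ⟨e0, he0, rfl⟩ := Finset.mem_image.mp he
    exact (Finset.mem_filter.mp he0).2
  rw [← Finset.sum_subset hsub, Finset.sum_image (fun x _ y _ h => c.map_inj h)]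
  · refine Finset.sum_congr rfl fun e0 _ => ?_
    rw [c.aX_old]
  · intro e he hn
    rcases c.edge_cases (h1 e he) with ⟨e0, _, rfl⟩ | ⟨b, i, j, hm⟩
    · exact absurd (Finset.mem_image.mpr ⟨e0, Finset.mem_filter.mpr ⟨Finset.mem_univ _, he⟩, rfl⟩) hn
    · obtain ⟨x, rfl⟩ := Sym2.mem_iff_exists.1 hm
      rw [c.aX_mid c.L b i j x ((SimpleGraph.mem_edgeSet _).mp (h1 _ he))]

/-- the degrees of the old edges -/
private theorem dg_old {χ : Finset (Sym2 (GV c.B))} (v : V)
    (h : ∀ e ∈ χ, Sum.inl v ∈ e → ∃ e0, e = Sym2.map Sum.inl e0) : dg (c.oldE χ) v = dg χ (Sum.inl v) := by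
  rw [dg_card (c.oldE χ) v ((c.oldE χ).filter fun e => v ∈ e) fun e => Finset.mem_filter,
    ← Finset.card_image_of_injective _ c.map_inj]
  refine (dg_card χ (Sum.inl v) _ fun e => ?_).symm
  rw [Finset.mem_image]
  constructor
  · rintro ⟨e0, he0, rfl⟩
    rw [Finset.mem_filter] at he0
    exact ⟨(Finset.mem_filter.mp he0.1).2, (c.mem_map_inl).mpr he0.2⟩
  · rintro ⟨he, hv⟩
    obtain ⟨e0, rfl⟩ := h e he hv
    exact ⟨e0, Finset.mem_filter.mpr ⟨Finset.mem_filter.mpr ⟨Finset.mem_univ _, he⟩, (c.mem_map_inl).mp hv⟩, rfl⟩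

theorem ext_cls (χ : Finset (Sym2 (GV c.B))) (h1 : ∀ e ∈ χ, e ∈ (c.extG c.L).edgeSet)
    (h2 : ∀ v, Even (dg χ v)) : ∑ e ∈ χ, c.aX e ∈ c.HX := by
  have hfst : (∑ e ∈ χ, c.aX e).1 = ∑ e0 ∈ c.oldE χ, c.a e0 := by
    rw [Prod.fst_sum]
    exact c.sum_fst h1
  refine Submodule.mem_prod.mpr ⟨?_, Submodule.mem_top⟩
  rw [hfst]
  refine c.cls _ (fun e he => ?_) (fun v hv => ?_)
  · exact c.map_edge (h1 _ (Finset.mem_filter.mp he).2)
  · rw [c.dg_old v]
    · exact h2 _
    · intro e he hve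
      rcases c.edge_cases (h1 e he) with ⟨e0, _, rfl⟩ | ⟨b, i, j, hm⟩
      · exact ⟨e0, rfl⟩
      · exfalso
        obtain ⟨x, rfl⟩ := Sym2.mem_iff_exists.1 hm
        have hadj := (SimpleGraph.mem_edgeSet _).mp (h1 _ he)
        rcases Sym2.mem_iff.mp hve with h | h
        · exact c.mid_ne_inl b i j v h.symm
        · rw [← h, SimpleGraph.adj_comm, c.ext_inl_mid] at hadj
          exact hv (hadj.1 ▸ b.2)

theorem ext_mn (χ : Finset (Sym2 (GV c.B))) (h1 : ∀ e ∈ χ, e ∈ (c.extG c.L).edgeSet)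
    (h2 : ∀ v, Even (dg χ v)) (h3 : ∑ e ∈ χ, c.aX e = 0) :
    (χ.filter fun e => e ∈ (c.extG c.M).edgeSet).card ≤ (χ.filter fun e => e ∉ (c.extG c.M).edgeSet).card := by
  have hfst : ∑ e0 ∈ c.oldE χ, c.a e0 = 0 := by
    rw [← c.sum_fst h1, ← Prod.fst_sum, h3]
    rfl
  have hno : ∀ (b : {v : V // v ∈ c.B}) (i : Fin 2) (j : Fin 6), ∀ e ∈ χ, c.mid b i j ∉ e := by
    intro b i j e he hm
    have h0 : c.pe b i 0 ∈ χ := by
      rcases (c.edge_mid (h1 e he) hm).2 with h | h
      · rw [← c.path_all h1 h2 b i j (by omega), ← h]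
        exact he
      · rw [← c.path_all h1 h2 b i (j + 1) (by omega), ← h]
        exact he
    have hT : χ.filter (fun e => ∃ j, c.mid b i j ∈ e) = (range 7).image (c.pe b i) := by
      ext e'
      rw [Finset.mem_filter, Finset.mem_image]
      constructor
      · rintro ⟨he', k, hk⟩
        rcases (c.edge_mid (h1 e' he') hk).2 with h | h
        · exact ⟨k, Finset.mem_range.mpr (by omega), h.symm⟩
        · exact ⟨k + 1, Finset.mem_range.mpr (by omega), h.symm⟩
      · rintro ⟨k, hk, rfl⟩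
        have hk' := Finset.mem_range.mp hk
        exact ⟨(c.path_all h1 h2 b i k hk').mpr h0, c.pe_mid b i hk'⟩
    have hc : (χ.filter (fun e => ∃ j, c.mid b i j ∈ e)).card = 7 := by
      rw [hT, Finset.card_image_of_injOn, Finset.card_range]
      intro x hx y hy hxy
      exact c.pe_inj b i (Finset.mem_range.mp (Finset.mem_coe.mp hx)) (Finset.mem_range.mp (Finset.mem_coe.mp hy)) hxy
    have h4 : (∑ e ∈ χ, c.aX e).2 (b, i) = ((χ.filter (fun e => ∃ j, c.mid b i j ∈ e)).card : F2) := by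
      rw [Prod.snd_sum, Finset.sum_apply, Finset.card_filter, Nat.cast_sum]
      refine Finset.sum_congr rfl fun e' _ => ?_
      unfold aX
      show (if ∃ j, c.mid b i j ∈ e' then (1 : F2) else 0) = _
      by_cases hh : ∃ j, c.mid b i j ∈ e'
      · rw [if_pos hh, if_pos hh, Nat.cast_one]
      · rw [if_neg hh, if_neg hh, Nat.cast_zero]
    rw [h3, hc] at h4
    have h5 : (0 : F2) = ((7 : ℕ) : F2) := h4
    exact absurd h5 (by decide)
  have hold : ∀ e ∈ χ, ∃ e0, e = Sym2.map Sum.inl e0 := by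
    intro e he
    rcases c.edge_cases (h1 e he) with ⟨e0, _, rfl⟩ | ⟨b, i, j, hm⟩
    · exact ⟨e0, rfl⟩
    · exact absurd hm (hno b i j e he)
  have hmn := c.mn (c.oldE χ) (fun e he => c.map_edge (h1 _ (Finset.mem_filter.mp he).2))
    (fun v => by rw [c.dg_old v fun e he _ => hold e he]; exact h2 _) hfst
  have e1 : (χ.filter fun e => e ∈ (c.extG c.M).edgeSet).card = ((c.oldE χ).filter fun e => e ∈ c.M.edgeSet).card := by
    rw [← Finset.card_image_of_injective _ c.map_inj]
    congr 1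
    ext e
    rw [Finset.mem_filter, Finset.mem_image]
    constructor
    · rintro ⟨he, hM⟩
      obtain ⟨e0, rfl⟩ := hold e he
      exact ⟨e0, Finset.mem_filter.mpr ⟨Finset.mem_filter.mpr ⟨Finset.mem_univ _, he⟩, c.map_edge hM⟩, rfl⟩
    · rintro ⟨e0, he0, rfl⟩
      rw [Finset.mem_filter] at he0
      exact ⟨(Finset.mem_filter.mp he0.1).2, c.map_edge' he0.2⟩
  have e2 : (χ.filter fun e => e ∉ (c.extG c.M).edgeSet).card = ((c.oldE χ).filter fun e => e ∉ c.M.edgeSet).card := by
    rw [← Finset.card_image_of_injective _ c.map_inj]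
    congr 1
    ext e
    rw [Finset.mem_filter, Finset.mem_image]
    constructor
    · rintro ⟨he, hM⟩
      obtain ⟨e0, rfl⟩ := hold e he
      exact ⟨e0, Finset.mem_filter.mpr ⟨Finset.mem_filter.mpr ⟨Finset.mem_univ _, he⟩,
        fun h => hM (c.map_edge' h)⟩, rfl⟩
    · rintro ⟨e0, he0, rfl⟩
      rw [Finset.mem_filter] at he0
      exact ⟨(Finset.mem_filter.mp he0.1).2, fun h => he0.2 (c.map_edge h)⟩
  rw [e1, e2]
  exact hmn

theorem ext_up (ν : Finset (Sym2 V)) (h1 : ∀ e ∈ ν, e ∈ c.L.edgeSet) (h2 : ∀ v, v ∉ c.B → Even (dg ν v)) :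
    ∃ χ : Finset (Sym2 (GV c.B)), (∀ e ∈ χ, e ∈ (c.extG c.L).edgeSet) ∧ (∀ v, Even (dg χ v)) ∧ c.oldE χ = ν := by
  obtain ⟨OD, hOD⟩ : ∃ OD : Finset {v : V // v ∈ c.B}, OD = univ.filter (fun b => ¬ Even (dg ν b.1)) := ⟨_, rfl⟩
  obtain ⟨f, hf⟩ : ∃ f : Sym2 (GV c.B) → F2, f = fun e => (∑ e0 ∈ ν, if Sym2.map Sum.inl e0 = e then (1 : F2) else 0) +
      ∑ b ∈ OD, ∑ j ∈ range 7, if c.pe b 0 j = e then (1 : F2) else 0 := ⟨_, rfl⟩
  obtain ⟨χ, hχ⟩ : ∃ χ : Finset (Sym2 (GV c.B)), χ = univ.filter (fun e => f e = 1) := ⟨_, rfl⟩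
  have hp : ∀ (b : {v : V // v ∈ c.B}) (e0 : Sym2 V), ∀ j ∈ range 7, c.pe b 0 j ≠ Sym2.map Sum.inl e0 := by
    intro b e0 j hj h
    obtain ⟨k, hk⟩ := c.pe_mid b 0 (Finset.mem_range.mp hj)
    rw [h] at hk
    exact c.notMem_map hk
  refine ⟨χ, ?_, ?_, ?_⟩
  · intro e he
    rw [hχ, Finset.mem_filter] at he
    have h3 := he.2
    by_contra hn
    rw [hf] at h3
    have h4 : (∑ e0 ∈ ν, if Sym2.map Sum.inl e0 = e then (1 : F2) else 0) = 0 := by
      refine Finset.sum_eq_zero fun e0 he0 => ?_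
      rw [if_neg]
      rintro rfl
      exact hn (c.map_edge' (h1 e0 he0))
    have h5 : (∑ b ∈ OD, ∑ j ∈ range 7, if c.pe b 0 j = e then (1 : F2) else 0) = 0 := by
      refine Finset.sum_eq_zero fun b _ => Finset.sum_eq_zero fun j hj => ?_
      rw [if_neg]
      rintro rfl
      exact hn (c.pe_adj c.L b 0 (Or.inl rfl) (Finset.mem_range.mp hj))
    have h6 : (0 : F2) = 1 := by
      rw [← h3]
      show (0 : F2) = (∑ e0 ∈ ν, if Sym2.map Sum.inl e0 = e then (1 : F2) else 0) +
        ∑ b ∈ OD, ∑ j ∈ range 7, if c.pe b 0 j = e then (1 : F2) else 0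
      rw [h4, h5, add_zero]
    exact absurd h6 (by decide)
  · intro x
    rw [Pool.Agent.BEO.even_cast, dg_coef' univ χ (fun e => Finset.mem_univ e) x f
      (fun e => if x ∈ e then (1 : F2) else 0) (fun e => by rw [hχ, Finset.mem_filter]; exact ⟨fun h => h.2,
        fun h => ⟨Finset.mem_univ _, h⟩⟩) (fun e h => if_pos h) (fun e h => if_neg h)]
    have hsw : ∑ e, f e * (if x ∈ e then (1 : F2) else 0) = (∑ e0 ∈ ν, if x ∈ Sym2.map Sum.inl e0 then (1 : F2) else 0) +
        ∑ b ∈ OD, ∑ j ∈ range 7, if x ∈ c.pe b 0 j then (1 : F2) else 0 := by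
      rw [hf]
      simp only [add_mul, Finset.sum_mul]
      rw [Finset.sum_add_distrib]
      congr 1
      · rw [Finset.sum_comm]
        refine Finset.sum_congr rfl fun e0 _ => ?_
        rw [Finset.sum_eq_single (Sym2.map Sum.inl e0)]
        · rw [if_pos rfl, one_mul]
        · intro e _ hne
          rw [if_neg (Ne.symm hne), zero_mul]
        · intro h
          exact absurd (Finset.mem_univ _) h
      · rw [Finset.sum_comm]
        refine Finset.sum_congr rfl fun b _ => ?_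
        rw [Finset.sum_comm]
        refine Finset.sum_congr rfl fun j _ => ?_
        rw [Finset.sum_eq_single (c.pe b 0 j)]
        · rw [if_pos rfl, one_mul]
        · intro e _ hne
          rw [if_neg (Ne.symm hne), zero_mul]
        · intro h
          exact absurd (Finset.mem_univ _) h
    have hpath : ∀ b : {v : V // v ∈ c.B}, (∑ j ∈ range 7, if x ∈ c.pe b 0 j then (1 : F2) else 0) =
        (if x = Sum.inl b.1 then 1 else 0) + (if x = c.top then 1 else 0) := by
      intro b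
      have h3 : ∀ j ∈ range 7, (if x ∈ c.pe b 0 j then (1 : F2) else 0) =
          (if x = c.pv b 0 j then 1 else 0) + (if x = c.pv b 0 (j + 1) then 1 else 0) := by
        intro j hj
        have hj' := Finset.mem_range.mp hj
        have hne : c.pv b 0 j ≠ c.pv b 0 (j + 1) := fun h => by
          have := c.pv_inj b 0 (show j ≤ 7 by omega) (show j + 1 ≤ 7 by omega) h
          omega
        unfold pe
        by_cases ha : x = c.pv b 0 j
        · have hb : x ≠ c.pv b 0 (j + 1) := fun h => hne (ha.symm.trans h)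
          rw [if_pos (Sym2.mem_iff.mpr (Or.inl ha)), if_pos ha, if_neg hb, add_zero]
        · by_cases hb : x = c.pv b 0 (j + 1)
          · rw [if_pos (Sym2.mem_iff.mpr (Or.inr hb)), if_neg ha, if_pos hb, zero_add]
          · rw [if_neg (fun h => by rcases Sym2.mem_iff.mp h with h | h; exacts [ha h, hb h]), if_neg ha, if_neg hb,
              add_zero]
      rw [Finset.sum_congr rfl h3, ← c.pv_zero b 0, ← c.pv_top b 0]
      have h4 : ∀ y : F2, y + y = 0 := by decide
      simp only [Finset.sum_range_succ, Finset.sum_range_zero, Nat.zero_add, Nat.reduceAdd]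
      generalize (if x = c.pv b 0 0 then (1 : F2) else 0) = y0
      generalize (if x = c.pv b 0 1 then (1 : F2) else 0) = y1
      generalize (if x = c.pv b 0 2 then (1 : F2) else 0) = y2
      generalize (if x = c.pv b 0 3 then (1 : F2) else 0) = y3
      generalize (if x = c.pv b 0 4 then (1 : F2) else 0) = y4
      generalize (if x = c.pv b 0 5 then (1 : F2) else 0) = y5
      generalize (if x = c.pv b 0 6 then (1 : F2) else 0) = y6
      generalize (if x = c.pv b 0 7 then (1 : F2) else 0) = y7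
      linear_combination h4 y1 + h4 y2 + h4 y3 + h4 y4 + h4 y5 + h4 y6
    rw [hsw, Finset.sum_congr rfl fun b _ => hpath b]
    have hdeg : ∀ v : V, (∑ e0 ∈ ν, if v ∈ e0 then (1 : F2) else 0) = ((dg ν v : ℕ) : F2) := by
      intro v
      unfold dg
      rw [Finset.card_filter, Nat.cast_sum]
      refine Finset.sum_congr rfl fun e0 _ => ?_
      by_cases h : v ∈ e0
      · rw [if_pos h, if_pos h, Nat.cast_one]
      · rw [if_neg h, if_neg h, Nat.cast_zero]
    have hF2 : ∀ m : ℕ, ¬ Even m → ((m : ℕ) : F2) = 1 := by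
      intro m hm
      rcases Pool.Agent.BEO.f2_cases ((m : ℕ) : F2) with h | h
      · exact absurd ((Pool.Agent.BEO.even_cast m).mpr h) hm
      · exact h
    rcases c.gv_cases x with ⟨v, rfl⟩ | ⟨b', i', j', rfl⟩ | rfl
    · have h3 : (∑ e0 ∈ ν, if (Sum.inl v : GV c.B) ∈ Sym2.map Sum.inl e0 then (1 : F2) else 0) = ((dg ν v : ℕ) : F2) := by
        rw [← hdeg v]
        refine Finset.sum_congr rfl fun e0 _ => ?_
        by_cases h : v ∈ e0
        · rw [if_pos ((c.mem_map_inl).mpr h), if_pos h]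
        · rw [if_neg (fun h' => h ((c.mem_map_inl).mp h')), if_neg h]
      rw [h3]
      have h4 : ∀ b ∈ OD, ((if (Sum.inl v : GV c.B) = Sum.inl b.1 then (1 : F2) else 0) +
          (if (Sum.inl v : GV c.B) = c.top then 1 else 0)) = if v = b.1 then 1 else 0 := by
        intro b _
        rw [if_neg (c.inl_ne_top v), add_zero]
        by_cases h : v = b.1
        · rw [if_pos h, if_pos (congrArg Sum.inl h)]
        · rw [if_neg h, if_neg (fun h' => h (Sum.inl_injective h'))]
      rw [Finset.sum_congr rfl h4]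
      by_cases hv : v ∈ c.B ∧ ¬ Even (dg ν v)
      · have hmem : (⟨v, hv.1⟩ : {v : V // v ∈ c.B}) ∈ OD := by
          rw [hOD]
          exact Finset.mem_filter.mpr ⟨Finset.mem_univ _, hv.2⟩
        rw [Finset.sum_eq_single ⟨v, hv.1⟩, if_pos rfl, hF2 _ hv.2]
        · decide
        · intro b _ hb
          rw [if_neg]
          rintro rfl
          exact hb rfl
        · intro h
          exact absurd hmem h
      · have hev : Even (dg ν v) := by
          by_cases hB : v ∈ c.B
          · by_contra h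
            exact hv ⟨hB, h⟩
          · exact h2 v hB
        rw [(Pool.Agent.BEO.even_cast _).mp hev, zero_add]
        refine Finset.sum_eq_zero fun b hb => ?_
        rw [if_neg]
        rintro rfl
        rw [hOD, Finset.mem_filter] at hb
        exact hb.2 hev
    · have h3 : (∑ e0 ∈ ν, if c.mid b' i' j' ∈ Sym2.map Sum.inl e0 then (1 : F2) else 0) = 0 :=
        Finset.sum_eq_zero fun e0 _ => if_neg c.notMem_map
      rw [h3, zero_add]
      refine Finset.sum_eq_zero fun b _ => ?_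
      rw [if_neg (c.mid_ne_inl b' i' j' b.1), if_neg (c.mid_ne_top b' i' j'), add_zero]
    · have h3 : (∑ e0 ∈ ν, if c.top ∈ Sym2.map Sum.inl e0 then (1 : F2) else 0) = 0 := by
        refine Finset.sum_eq_zero fun e0 _ => if_neg ?_
        rw [Sym2.mem_map]
        rintro ⟨a, _, h⟩
        exact c.inl_ne_top a h
      rw [h3, zero_add]
      have h4 : ∀ b ∈ OD, ((if c.top = Sum.inl b.1 then (1 : F2) else 0) +
          (if c.top = c.top then (1 : F2) else 0)) = ((dg ν b.1 : ℕ) : F2) := by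
        intro b hb
        rw [hOD, Finset.mem_filter] at hb
        rw [if_neg (fun h => c.inl_ne_top b.1 h.symm), if_pos rfl, zero_add, hF2 _ hb.2]
      rw [Finset.sum_congr rfl h4]
      have h5 : ∑ b ∈ OD, ((dg ν b.1 : ℕ) : F2) = ∑ v, ((dg ν v : ℕ) : F2) := by
        have h6 : ∑ b ∈ OD, ((dg ν b.1 : ℕ) : F2) = ∑ v ∈ OD.image Subtype.val, ((dg ν v : ℕ) : F2) := by
          rw [Finset.sum_image]
          intro x _ y _ h
          exact Subtype.ext h
        rw [h6]
        refine Finset.sum_subset (Finset.subset_univ _) fun v _ hv => ?_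
        rw [← Pool.Agent.BEO.even_cast]
        by_cases hB : v ∈ c.B
        · by_contra h
          refine hv (Finset.mem_image.mpr ⟨⟨v, hB⟩, ?_, rfl⟩)
          rw [hOD]
          exact Finset.mem_filter.mpr ⟨Finset.mem_univ _, h⟩
        · exact h2 v hB
      rw [h5, ← Nat.cast_sum, Pool.Agent.BEO.sum_dg ν fun e he => c.L.not_isDiag_of_mem_edgeSet (h1 e he)]
      exact (Pool.Agent.BEO.even_cast _).mp (even_two_mul _)
  · ext e0
    unfold oldE
    rw [Finset.mem_filter, hχ, Finset.mem_filter]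
    have h3 : f (Sym2.map Sum.inl e0) = if e0 ∈ ν then 1 else 0 := by
      rw [hf]
      show (∑ e1 ∈ ν, if Sym2.map Sum.inl e1 = Sym2.map Sum.inl e0 then (1 : F2) else 0) +
        (∑ b ∈ OD, ∑ j ∈ range 7, if c.pe b 0 j = Sym2.map Sum.inl e0 then (1 : F2) else 0) = _
      have h4 : (∑ b ∈ OD, ∑ j ∈ range 7, if c.pe b 0 j = Sym2.map Sum.inl e0 then (1 : F2) else 0) = 0 :=
        Finset.sum_eq_zero fun b _ => Finset.sum_eq_zero fun j hj => if_neg (hp b e0 j hj)
      rw [h4, add_zero]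
      have h5 : ∀ e1 ∈ ν, (if Sym2.map Sum.inl e1 = (Sym2.map Sum.inl e0 : Sym2 (GV c.B)) then (1 : F2) else 0) =
          if e1 = e0 then 1 else 0 := by
        intro e1 _
        by_cases h : e1 = e0
        · rw [if_pos h, if_pos (congrArg _ h)]
        · rw [if_neg h, if_neg (fun h' => h (c.map_inj h'))]
      rw [Finset.sum_congr rfl h5, Finset.sum_ite_eq']
    rw [h3]
    constructor
    · rintro ⟨_, _, h4⟩
      by_contra hn
      rw [if_neg hn] at h4
      exact absurd h4 (by decide)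
    · intro h
      exact ⟨Finset.mem_univ _, Finset.mem_univ _, if_pos h⟩

end PCfg

end Pool.Agent.SCG
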