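import Pool.Agent.SCG.PCfg

/-!
# SCG: the gadget

Every exceptional vertex `b` of odd degree in `L` is joined to a new vertex by one path, every exceptional vertex of
even degree by two paths, with 7 edges each, all edges of a path having the same new label.
-/

set_option autoImplicit false

open Finset
open scoped Classical

namespace Pool.Agent.SCG

open Pool.Agent.BEO (F2 nb es vs dg row)

/-- the vertices of the extended graph: the old vertices, the inner vertices of the paths, the new vertex -/
abbrev GV {V : Type} (B : Finset V) : Type := V ⊕ (({v : V // v ∈ B} × Fin 2 × Fin 6) ⊕ Unit)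

/-- the space of the new labels -/
abbrev GT {V : Type} (B : Finset V) : Type := {v : V // v ∈ B} × Fin 2 → F2

namespace PCfg

variable {k : ℕ} {V Q : Type} [Fintype V] [AddCommGroup Q] [Module F2 Q] (c : PCfg k V Q)

/-- the path `i` at the exceptional vertex `b` is used -/
def act (b : {v : V // v ∈ c.B}) (i : Fin 2) : Prop := i = 0 ∨ Even (nb c.L b.1).card

/-- an inner vertex of a path -/
def mid (b : {v : V // v ∈ c.B}) (i : Fin 2) (j : Fin 6) : GV c.B := Sum.inr (Sum.inl (b, i, j))

/-- the new vertex -/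
def top : GV c.B := Sum.inr (Sum.inr ())

/-- the pairs which are joined (in one order) -/
def gRel (L : SimpleGraph V) (x y : GV c.B) : Prop :=
  (∃ u v, x = Sum.inl u ∧ y = Sum.inl v ∧ L.Adj u v) ∨
  (∃ b i, c.act b i ∧ x = Sum.inl b.1 ∧ y = c.mid b i 0) ∨
  (∃ b i j j', c.act b i ∧ x = c.mid b i j ∧ y = c.mid b i j' ∧ (j' : ℕ) = (j : ℕ) + 1) ∨
  (∃ b i, c.act b i ∧ x = c.mid b i 5 ∧ y = c.top)

/-- the extended graph -/
def extG (L : SimpleGraph V) : SimpleGraph (GV c.B) := SimpleGraph.fromRel (c.gRel L)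

/-- the labels -/
noncomputable def aX (e : Sym2 (GV c.B)) : Q × GT c.B :=
  (∑ e0 ∈ univ.filter (fun e0 : Sym2 V => e0.map Sum.inl = e), c.a e0,
    fun bi => if ∃ j, c.mid bi.1 bi.2 j ∈ e then 1 else 0)

/-- the vectors added to `W` -/
noncomputable def wB (b : {v : V // v ∈ c.B}) : Q × GT c.B :=
  (∑ u ∈ nb c.L b.1, c.a s(b.1, u), fun bi => if bi.1 = b ∧ c.act b bi.2 then 1 else 0)

/-- the new space `W` -/
noncomputable def WX : Submodule F2 (Q × GT c.B) :=
  Submodule.map (LinearMap.inl F2 Q (GT c.B)) c.W ⊔ Submodule.span F2 (Set.range c.wB)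

/-- the new space `H` -/
def HX : Submodule F2 (Q × GT c.B) := c.H.prod ⊤

end PCfg

end Pool.Agent.SCG
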