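import Pool.Agent.SCG.GdNb

/-!
# SCG-GdNull: short closed walks in the extended graph

PLAN. Height: 0 at old vertices, `j + 1` at `mid b i j`, 7 at the new vertex; along an edge it changes by at most 1. So a
closed walk of length at most 6 does not visit both an old vertex and the new vertex (`takeUntil`/`dropUntil`: going
there and back needs 14 steps; or: for all `x` in the support, |height x - height v| ≤ 3).
(A) a walk `w` from `x` to `y` avoiding the new vertex: with `base (inl v) = v`, `base (mid b i j) = b`,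
`φ (inl v) = 0`, `φ (mid b i j) = (0, (j + 1) • single (b, i))` there is a walk `w'` of `L` from `base x` to `base y` of
length at most that of `w` with `(w.edges.map aX).sum = ((w'.edges.map a).sum, 0) + φ x + φ y` (induction on `w`,
`aX_old`, `aX_mid`). For a closed walk use `c.null`.
(B) a walk avoiding the old vertices: with `ψ (mid b i j) = (0, (6 - j) • single (b, i))`, `ψ top = 0` the sum of its
labels is `ψ x + ψ y` (induction); it is 0 for a closed walk.
-/

set_option autoImplicit false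

open Finset
open scoped Classical

namespace Pool.Agent.SCG

open Pool.Agent.BEO (F2 nb es vs dg row)

private theorem xx {M : Type} [AddCommGroup M] [Module F2 M] (x : M) : x + x = 0 := by
  rw [← two_smul F2 x]
  have h : (2 : F2) = 0 := rfl
  rw [h, zero_smul]

private theorem nsE {M : Type} [AddCommGroup M] [Module F2 M] (x : M) {n : ℕ} (h : Even n) : n • x = 0 := by
  obtain ⟨m, rfl⟩ := h
  rw [add_smul, xx]

private theorem nsO {M : Type} [AddCommGroup M] [Module F2 M] (x : M) {n : ℕ} (h : Odd n) : n • x = x := by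
  obtain ⟨m, rfl⟩ := h
  rw [add_smul, mul_comm, mul_smul, one_smul, two_nsmul, smul_add, xx, zero_add]

namespace PCfg

variable {k : ℕ} {V Q : Type} [Fintype V] [AddCommGroup Q] [Module F2 Q] (c : PCfg k V Q)

/-- the height of a vertex -/
private def ht (x : GV c.B) : ℕ :=
  match x with
  | Sum.inl _ => 0
  | Sum.inr (Sum.inl p) => (p.2.2 : ℕ) + 1
  | Sum.inr (Sum.inr _) => 7

private noncomputable def ph (x : GV c.B) : Q × GT c.B :=
  match x with
  | Sum.inl _ => 0
  | Sum.inr (Sum.inl p) => (0, ((p.2.2 : ℕ) + 1) • Pi.single (p.1, p.2.1) 1)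
  | Sum.inr (Sum.inr _) => 0

private noncomputable def ps (x : GV c.B) : Q × GT c.B :=
  match x with
  | Sum.inl _ => 0
  | Sum.inr (Sum.inl p) => (0, (6 - (p.2.2 : ℕ)) • Pi.single (p.1, p.2.1) 1)
  | Sum.inr (Sum.inr _) => 0

private theorem ht_mid (b : {v : V // v ∈ c.B}) (i : Fin 2) (j : Fin 6) : c.ht (c.mid b i j) = (j : ℕ) + 1 := rfl

private theorem ht_top : c.ht c.top = 7 := rfl

private theorem ph_mid (b : {v : V // v ∈ c.B}) (i : Fin 2) (j : Fin 6) :
    c.ph (c.mid b i j) = (0, ((j : ℕ) + 1) • Pi.single (b, i) 1) := rfl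

private theorem ps_mid (b : {v : V // v ∈ c.B}) (i : Fin 2) (j : Fin 6) :
    c.ps (c.mid b i j) = (0, (6 - (j : ℕ)) • Pi.single (b, i) 1) := rfl

private theorem ps_top : c.ps c.top = 0 := rfl

private theorem ht_adj {x y : GV c.B} (h : (c.extG c.L).Adj x y) : c.ht x ≤ c.ht y + 1 ∧ c.ht y ≤ c.ht x + 1 := by
  rcases c.gv_cases x with ⟨u, rfl⟩ | ⟨b, i, j, rfl⟩ | rfl
  · rcases c.gv_cases y with ⟨v, rfl⟩ | ⟨b', i', j', rfl⟩ | rfl
    · exact ⟨Nat.zero_le _, Nat.zero_le _⟩
    · obtain ⟨-, hj, -⟩ := (c.ext_inl_mid c.L u b' i' j').1 h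
      subst hj
      rw [ht_mid]
      exact ⟨Nat.zero_le _, le_rfl⟩
    · exact absurd h (c.ext_inl_top c.L u)
  · rcases c.gv_cases y with ⟨v, rfl⟩ | ⟨b', i', j', rfl⟩ | rfl
    · obtain ⟨-, hj, -⟩ := (c.ext_inl_mid c.L v b i j).1 h.symm
      subst hj
      rw [ht_mid]
      exact ⟨le_rfl, Nat.zero_le _⟩
    · obtain ⟨-, -, -, hj⟩ := (c.ext_mid_mid c.L b b' i i' j j').1 h
      rw [ht_mid, ht_mid]
      omega
    · obtain ⟨hj, -⟩ := (c.ext_mid_top c.L b i j).1 h
      subst hj
      rw [ht_mid, ht_top]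
      exact ⟨by decide, by decide⟩
  · rcases c.gv_cases y with ⟨v, rfl⟩ | ⟨b', i', j', rfl⟩ | rfl
    · exact absurd h.symm (c.ext_inl_top c.L v)
    · obtain ⟨hj, -⟩ := (c.ext_mid_top c.L b' i' j').1 h.symm
      subst hj
      rw [ht_mid, ht_top]
      exact ⟨by decide, by decide⟩
    · exact absurd h (SimpleGraph.irrefl _)

private theorem ht_start {x y : GV c.B} (w : (c.extG c.L).Walk x y) :
    ∀ u ∈ w.support, c.ht u ≤ c.ht x + w.length ∧ c.ht x ≤ c.ht u + w.length := by
  induction w with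
  | nil =>
    intro u hu
    rw [SimpleGraph.Walk.support_nil, List.mem_singleton] at hu
    subst hu
    exact ⟨Nat.le_add_right _ _, Nat.le_add_right _ _⟩
  | cons h w ih =>
    intro u hu
    rw [SimpleGraph.Walk.support_cons, List.mem_cons] at hu
    rw [SimpleGraph.Walk.length_cons]
    have h1 := c.ht_adj h
    rcases hu with rfl | hu
    · exact ⟨Nat.le_add_right _ _, Nat.le_add_right _ _⟩
    · have h2 := ih u hu
      omega

private theorem ht_pair {x y : GV c.B} (w : (c.extG c.L).Walk x y) :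
    ∀ u ∈ w.support, ∀ v ∈ w.support, c.ht u ≤ c.ht v + w.length := by
  induction w with
  | nil =>
    intro u hu v hv
    rw [SimpleGraph.Walk.support_nil, List.mem_singleton] at hu hv
    rw [hu, hv]
    exact Nat.le_add_right _ _
  | cons h w ih =>
    intro u hu v hv
    rw [SimpleGraph.Walk.support_cons, List.mem_cons] at hu hv
    rw [SimpleGraph.Walk.length_cons]
    have h1 := c.ht_adj h
    rcases hu with rfl | hu
    · rcases hv with rfl | hv
      · exact Nat.le_add_right _ _
      · have h2 := c.ht_start w v hv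
        omega
    · rcases hv with rfl | hv
      · have h2 := c.ht_start w u hu
        omega
      · have h2 := ih u hu v hv
        omega

private def IsB (x : GV c.B) (u : V) : Prop := x = Sum.inl u ∨ ∃ b i j, x = c.mid b i j ∧ u = b.1

private theorem isB_un {x : GV c.B} {u v : V} (hu : c.IsB x u) (hv : c.IsB x v) : u = v := by
  rcases hu with hu | ⟨b, i, j, hu, rfl⟩
  · rcases hv with hv | ⟨b', i', j', hv, rfl⟩
    · rw [hu] at hv
      exact Sum.inl_injective hv
    · rw [hu] at hv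
      exact absurd hv Sum.inl_ne_inr
  · rcases hv with hv | ⟨b', i', j', hv, rfl⟩
    · rw [hv] at hu
      exact absurd hu Sum.inl_ne_inr
    · rw [hu] at hv
      have h1 := Sum.inl_injective (Sum.inr_injective hv)
      have h2 : b = b' := congrArg Prod.fst h1
      rw [h2]

private theorem isB_ex {x : GV c.B} (hx : x ≠ c.top) : ∃ u, c.IsB x u := by
  rcases c.gv_cases x with ⟨u, rfl⟩ | ⟨b, i, j, rfl⟩ | rfl
  · exact ⟨u, Or.inl rfl⟩
  · exact ⟨b.1, Or.inr ⟨b, i, j, rfl, rfl⟩⟩
  · exact absurd rfl hx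

private theorem par1 {j j' : ℕ} (h : j' = j + 1 ∨ j = j' + 1) {M : Type} [AddCommGroup M] [Module F2 M] (x : M) :
    (j + 1) • x + (j' + 1) • x = x := by
  rw [← add_smul]
  apply nsO
  rcases h with h | h
  · exact ⟨j + 1, by omega⟩
  · exact ⟨j' + 1, by omega⟩

private theorem par2 {j j' : ℕ} (hj : j < 6) (hj' : j' < 6) (h : j' = j + 1 ∨ j = j' + 1) {M : Type} [AddCommGroup M] [Module F2 M]
    (x : M) : (6 - j) • x + (6 - j') • x = x := by
  rw [← add_smul]
  apply nsO
  rcases h with h | h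
  · exact ⟨6 - j', by omega⟩
  · exact ⟨6 - j, by omega⟩

private theorem stA {x y : GV c.B} (h : (c.extG c.L).Adj x y) {u v : V} (hu : c.IsB x u) (hv : c.IsB y v) :
    (u = v ∧ c.aX s(x, y) = c.ph x + c.ph y) ∨
      (c.L.Adj u v ∧ c.aX s(x, y) = (c.a s(u, v), 0) + (c.ph x + c.ph y)) := by
  rcases hu with rfl | ⟨b, i, j, rfl, rfl⟩
  · rcases hv with rfl | ⟨b', i', j', rfl, rfl⟩
    · right
      refine ⟨(c.ext_inl_inl c.L u v).1 h, ?_⟩
      have h1 := c.aX_old s(u, v)
      rw [Sym2.map_mk] at h1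
      have h2 : c.ph (Sum.inl u) = 0 := rfl
      have h3 : c.ph (Sum.inl v) = 0 := rfl
      rw [h2, h3, add_zero, add_zero]
      exact h1
    · left
      obtain ⟨hv, hj, -⟩ := (c.ext_inl_mid c.L u b' i' j').1 h
      refine ⟨hv, ?_⟩
      subst hj
      rw [Sym2.eq_swap, c.aX_mid c.L b' i' 0 _ h.symm, ph_mid]
      have h2 : c.ph (Sum.inl u) = 0 := rfl
      rw [h2, zero_add]
      simp
  · rcases hv with rfl | ⟨b', i', j', rfl, rfl⟩
    · left
      obtain ⟨hv, hj, -⟩ := (c.ext_inl_mid c.L v b i j).1 h.symm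
      refine ⟨hv.symm, ?_⟩
      subst hj
      rw [c.aX_mid c.L b i 0 _ h, ph_mid]
      have h2 : c.ph (Sum.inl v) = 0 := rfl
      rw [h2, add_zero]
      simp
    · left
      obtain ⟨hb, hi, -, hj⟩ := (c.ext_mid_mid c.L b b' i i' j j').1 h
      subst hb hi
      refine ⟨rfl, ?_⟩
      rw [c.aX_mid c.L b i j _ h, ph_mid, ph_mid, Prod.mk_add_mk, add_zero, par1 hj]

private theorem wkA {x y : GV c.B} (w : (c.extG c.L).Walk x y) : c.top ∉ w.support →
    ∀ u v : V, c.IsB x u → c.IsB y v → ∃ w' : c.L.Walk u v, w'.length ≤ w.length ∧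
      (w.edges.map c.aX).sum = ((w'.edges.map c.a).sum, 0) + (c.ph x + c.ph y) := by
  induction w with
  | nil =>
    intro _ u v hu hv
    have huv := c.isB_un hu hv
    subst huv
    refine ⟨SimpleGraph.Walk.nil, le_rfl, ?_⟩
    rw [xx]
    simp
    rfl
  | @cons x y z h w ih =>
    intro ht u v hu hv
    rw [SimpleGraph.Walk.support_cons, List.mem_cons, not_or] at ht
    have hy : y ≠ c.top := by
      rintro rfl
      exact ht.2 w.start_mem_support
    obtain ⟨u', hu'⟩ := c.isB_ex hy
    obtain ⟨w', hw1, hw2⟩ := ih ht.2 u' v hu' hv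
    have hyy : c.ph y + c.ph y = 0 := xx _
    rcases c.stA h hu hu' with ⟨h1, h2⟩ | ⟨h1, h2⟩
    · subst h1
      refine ⟨w', hw1.trans (by rw [SimpleGraph.Walk.length_cons]; omega), ?_⟩
      rw [SimpleGraph.Walk.edges_cons, List.map_cons, List.sum_cons, hw2, h2]
      calc c.ph x + c.ph y + (((w'.edges.map c.a).sum, 0) + (c.ph y + c.ph z))
          = ((w'.edges.map c.a).sum, 0) + (c.ph x + c.ph z) + (c.ph y + c.ph y) := by abel
        _ = _ := by rw [hyy, add_zero]
    · refine ⟨SimpleGraph.Walk.cons h1 w', ?_, ?_⟩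
      · rw [SimpleGraph.Walk.length_cons, SimpleGraph.Walk.length_cons]
        omega
      · rw [SimpleGraph.Walk.edges_cons, List.map_cons, List.sum_cons, hw2, h2, SimpleGraph.Walk.edges_cons,
          List.map_cons, List.sum_cons]
        have e : (c.a s(u, u') + (w'.edges.map c.a).sum, (0 : GT c.B)) =
            (c.a s(u, u'), 0) + ((w'.edges.map c.a).sum, 0) := by
          rw [Prod.mk_add_mk, add_zero]
        rw [e]
        calc (c.a s(u, u'), (0 : GT c.B)) + (c.ph x + c.ph y) + (((w'.edges.map c.a).sum, 0) + (c.ph y + c.ph z))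
            = (c.a s(u, u'), 0) + ((w'.edges.map c.a).sum, 0) + (c.ph x + c.ph z) + (c.ph y + c.ph y) := by abel
          _ = _ := by rw [hyy, add_zero]

private theorem stB {x y : GV c.B} (h : (c.extG c.L).Adj x y) (hx : ∀ u, x ≠ Sum.inl u) (hy : ∀ u, y ≠ Sum.inl u) :
    c.aX s(x, y) = c.ps x + c.ps y := by
  rcases c.gv_cases x with ⟨u, rfl⟩ | ⟨b, i, j, rfl⟩ | rfl
  · exact absurd rfl (hx u)
  · rcases c.gv_cases y with ⟨v, rfl⟩ | ⟨b', i', j', rfl⟩ | rfl
    · exact absurd rfl (hy v)
    · obtain ⟨hb, hi, -, hj⟩ := (c.ext_mid_mid c.L b b' i i' j j').1 h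
      subst hb hi
      rw [c.aX_mid c.L b i j _ h, ps_mid, ps_mid, Prod.mk_add_mk, add_zero, par2 j.2 j'.2 hj]
    · obtain ⟨hj, -⟩ := (c.ext_mid_top c.L b i j).1 h
      rw [c.aX_mid c.L b i j _ h, ps_mid, ps_top, add_zero]
      subst hj
      have e : 6 - ((5 : Fin 6) : ℕ) = 1 := rfl
      rw [e, one_smul]
  · rcases c.gv_cases y with ⟨v, rfl⟩ | ⟨b', i', j', rfl⟩ | rfl
    · exact absurd rfl (hy v)
    · obtain ⟨hj, -⟩ := (c.ext_mid_top c.L b' i' j').1 h.symm
      rw [Sym2.eq_swap, c.aX_mid c.L b' i' j' _ h.symm, ps_mid, ps_top, zero_add]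
      subst hj
      have e : 6 - ((5 : Fin 6) : ℕ) = 1 := rfl
      rw [e, one_smul]
    · exact absurd h (SimpleGraph.irrefl _)

private theorem wkB {x y : GV c.B} (w : (c.extG c.L).Walk x y) : (∀ u, Sum.inl u ∉ w.support) →
    (w.edges.map c.aX).sum = c.ps x + c.ps y := by
  induction w with
  | nil =>
    intro _
    rw [xx]
    simp
  | @cons x y z h w ih =>
    intro ht
    have h1 : ∀ u, Sum.inl u ∉ w.support := fun u hu => ht u (by
      rw [SimpleGraph.Walk.support_cons]
      exact List.mem_cons_of_mem _ hu)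
    have hx : ∀ u, x ≠ Sum.inl u := by
      intro u hu
      refine ht u ?_
      rw [SimpleGraph.Walk.support_cons, hu]
      exact List.mem_cons_self
    have hy : ∀ u, y ≠ Sum.inl u := by
      intro u hu
      refine h1 u ?_
      rw [← hu]
      exact w.start_mem_support
    have hyy : c.ps y + c.ps y = 0 := xx _
    rw [SimpleGraph.Walk.edges_cons, List.map_cons, List.sum_cons, ih h1, c.stB h hx hy]
    calc c.ps x + c.ps y + (c.ps y + c.ps z) = c.ps x + c.ps z + (c.ps y + c.ps y) := by abel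
      _ = _ := by rw [hyy, add_zero]

theorem ext_null (x : GV c.B) (w : (c.extG c.L).Walk x x) (h : w.length ≤ 6) : (w.edges.map c.aX).sum = 0 := by
  by_cases ht : c.top ∈ w.support
  · rw [c.wkB w, xx]
    intro u hu
    have h1 := c.ht_pair w _ ht _ hu
    have h2 : c.ht c.top = 7 := rfl
    have h3 : c.ht (Sum.inl u) = 0 := rfl
    omega
  · have hx : x ≠ c.top := by
      rintro rfl
      exact ht w.start_mem_support
    obtain ⟨u, hu⟩ := c.isB_ex hx
    obtain ⟨w', h1, h2⟩ := c.wkA w ht u u hu hu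
    rw [h2, xx, add_zero, c.null u w' (h1.trans h)]
    rfl

end PCfg

end Pool.Agent.SCG
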