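import Pool.Agent.SCG.GdNb
import Pool.Agent.BEO.Par

/-!
# SCG-GdRho: the sums of the labels at the vertices of the extended graph are in `WX`

PLAN. Old vertex `v` outside `B`: the sum is `(∑ a s(v, u), 0)`, in the image of `W` by `rho`. Exceptional vertex `b`:
the neighbours are the `inl u` and the `mid b i 0` with `act b i`, the sum is `wB b` (`aX_old`, `aX_mid`). Inner vertex:
its two edges have the same label, the sum is 0. New vertex: the sum is `(0, τ)`, `τ bi = 1` if `act bi.1 bi.2`, which is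
`∑ b, wB b - (∑ b ∈ B, ∑ u ∈ nb L b, a s(b, u), 0)`; as every edge is counted twice,
`∑ v, ∑ u ∈ nb L v, a s(v, u) = 0` (pair `(v, u)` with `(u, v)`: `Finset.sum_involution` or a sum over darts, and
`x + x = 0`), so `∑ b ∈ B, .. = ∑ v ∉ B, ..` is in `W` by `rho`.
-/

set_option autoImplicit false

open Finset
open scoped Classical

namespace Pool.Agent.SCG

open Pool.Agent.BEO (F2 nb es vs dg row)

namespace PCfg

variable {k : ℕ} {V Q : Type} [Fintype V] [AddCommGroup Q] [Module F2 Q] (c : PCfg k V Q)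

private theorem gr_sum (x : GV c.B) (f : GV c.B → Q × GT c.B) :
    ∑ u ∈ nb (c.extG c.L) x, f u =
      (∑ v : V, if (c.extG c.L).Adj x (Sum.inl v) then f (Sum.inl v) else 0) +
      ((∑ bi : {v : V // v ∈ c.B} × Fin 2, ∑ j : Fin 6,
        if (c.extG c.L).Adj x (c.mid bi.1 bi.2 j) then f (c.mid bi.1 bi.2 j) else 0) +
      if (c.extG c.L).Adj x c.top then f c.top else 0) := by
  unfold nb
  rw [Finset.sum_filter, Fintype.sum_sum_type, Fintype.sum_sum_type, Fintype.sum_prod_type]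
  congr 1
  congr 1
  · rw [Fintype.sum_prod_type]
    refine Finset.sum_congr rfl fun b _ => ?_
    rw [Fintype.sum_prod_type]
    rfl
  · rw [Fintype.sum_unique]
    rfl

private theorem gr_ind (P : {v : V // v ∈ c.B} × Fin 2 → Prop) :
    ∑ bi, (if P bi then ((0 : Q), (Pi.single bi 1 : GT c.B)) else 0) =
      ((0 : Q), fun bi => if P bi then (1 : F2) else 0) := by
  refine Prod.ext ?_ ?_
  · rw [Prod.fst_sum]
    refine Finset.sum_eq_zero fun bi _ => ?_
    by_cases h : P bi
    · rw [if_pos h]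
    · rw [if_neg h]
      rfl
  · rw [Prod.snd_sum]
    funext bi'
    rw [Finset.sum_apply, Finset.sum_eq_single bi']
    · show _ = if P bi' then (1 : F2) else 0
      by_cases h : P bi'
      · rw [if_pos h, if_pos h]
        exact Pi.single_eq_same _ _
      · rw [if_neg h, if_neg h]
        rfl
    · intro bi _ hne
      by_cases h : P bi
      · rw [if_pos h]
        exact Pi.single_eq_of_ne hne.symm _
      · rw [if_neg h]
        rfl
    · intro h
      exact absurd (Finset.mem_univ _) h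

private theorem gr_pick {x : GV c.B} {b : {v : V // v ∈ c.B}} {i : Fin 2} (j0 : Fin 6) {P : Prop}
    (h : ∀ j, (c.extG c.L).Adj x (c.mid b i j) ↔ j = j0 ∧ P) :
    (∑ j : Fin 6, if (c.extG c.L).Adj x (c.mid b i j) then c.aX s(x, c.mid b i j) else 0) =
      if P then ((0 : Q), (Pi.single (b, i) 1 : GT c.B)) else 0 := by
  by_cases hP : P
  · rw [if_pos hP, Finset.sum_eq_single j0]
    · have h1 : (c.extG c.L).Adj x (c.mid b i j0) := (h j0).2 ⟨rfl, hP⟩
      rw [if_pos h1, Sym2.eq_swap]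
      exact c.aX_mid c.L b i j0 x h1.symm
    · intro j _ hj
      rw [if_neg]
      intro h1
      exact hj ((h j).1 h1).1
    · intro h1
      exact absurd (Finset.mem_univ _) h1
  · rw [if_neg hP]
    refine Finset.sum_eq_zero fun j _ => ?_
    rw [if_neg]
    intro h1
    exact hP ((h j).1 h1).2

private theorem gr_W {q : Q} (h : q ∈ c.W) : ((q, 0) : Q × GT c.B) ∈ c.WX :=
  Submodule.mem_sup_left ⟨q, h, rfl⟩

private theorem gr_wB (b : {v : V // v ∈ c.B}) : c.wB b ∈ c.WX :=
  Submodule.mem_sup_right (Submodule.subset_span ⟨b, rfl⟩)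

private theorem gr_all : ∑ v : V, ∑ u ∈ nb c.L v, c.a s(v, u) = 0 := by
  have h1 : ∑ v : V, ∑ u ∈ nb c.L v, c.a s(v, u) =
      ∑ p : V × V, if c.L.Adj p.1 p.2 then c.a s(p.1, p.2) else 0 := by
    rw [Fintype.sum_prod_type]
    refine Finset.sum_congr rfl fun v _ => ?_
    unfold nb
    rw [Finset.sum_filter]
  rw [h1]
  refine Finset.sum_involution (fun p _ => (p.2, p.1)) ?_ ?_ (fun _ _ => Finset.mem_univ _)
    (fun _ _ => rfl)
  · rintro ⟨u, v⟩ _
    show (if c.L.Adj u v then c.a s(u, v) else 0) + (if c.L.Adj v u then c.a s(v, u) else 0) = 0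
    by_cases h : c.L.Adj u v
    · rw [if_pos h, if_pos h.symm, Sym2.eq_swap]
      exact Pool.Agent.BEO.q_add_self _
    · rw [if_neg h, if_neg (fun h' => h h'.symm), add_zero]
  · rintro ⟨u, v⟩ _ h1 h2
    apply h1
    have h3 : v = u := (Prod.ext_iff.1 h2).1
    subst h3
    exact if_neg (c.L.loopless.irrefl v)

private theorem gr_B : ∑ b : {v : V // v ∈ c.B}, ∑ u ∈ nb c.L b.1, c.a s(b.1, u) ∈ c.W := by
  have h1 : ∑ b : {v : V // v ∈ c.B}, ∑ u ∈ nb c.L b.1, c.a s(b.1, u) =
      ∑ v ∈ c.B, ∑ u ∈ nb c.L v, c.a s(v, u) :=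
    Finset.sum_coe_sort c.B (fun v => ∑ u ∈ nb c.L v, c.a s(v, u))
  have h2 := Finset.sum_add_sum_compl c.B (fun v => ∑ u ∈ nb c.L v, c.a s(v, u))
  rw [c.gr_all] at h2
  rw [h1, eq_neg_of_add_eq_zero_left h2]
  refine c.W.neg_mem (c.W.sum_mem fun v hv => c.rho v ?_)
  exact Finset.mem_compl.1 hv

private theorem gr_old (v : V) :
    (∑ u : V, if (c.extG c.L).Adj (Sum.inl v) (Sum.inl u) then
      c.aX s(Sum.inl v, Sum.inl u) else 0) = (∑ u ∈ nb c.L v, c.a s(v, u), (0 : GT c.B)) := by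
  have h1 : ∀ u : V, (if (c.extG c.L).Adj (Sum.inl v) (Sum.inl u) then
      c.aX s(Sum.inl v, Sum.inl u) else 0) =
      ((if c.L.Adj v u then c.a s(v, u) else 0, (0 : GT c.B)) : Q × GT c.B) := by
    intro u
    by_cases h : c.L.Adj v u
    · rw [if_pos h, if_pos ((c.ext_inl_inl c.L v u).2 h)]
      exact c.aX_old s(v, u)
    · rw [if_neg h, if_neg (fun h' => h ((c.ext_inl_inl c.L v u).1 h'))]
      rfl
  rw [Finset.sum_congr rfl fun u _ => h1 u]
  refine Prod.ext ?_ ?_
  · rw [Prod.fst_sum]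
    unfold nb
    rw [Finset.sum_filter]
  · rw [Prod.snd_sum]
    exact Finset.sum_const_zero

theorem ext_rho (x : GV c.B) : ∑ u ∈ nb (c.extG c.L) x, c.aX s(x, u) ∈ c.WX := by
  rcases c.gv_cases x with ⟨v, rfl⟩ | ⟨b, i, j, rfl⟩ | rfl
  · obtain ⟨P, hP⟩ : ∃ P : {v : V // v ∈ c.B} × Fin 2 → Prop,
        ∀ bi, P bi ↔ v = bi.1.1 ∧ c.act bi.1 bi.2 := ⟨_, fun _ => Iff.rfl⟩
    have h1 : ∀ bi : {v : V // v ∈ c.B} × Fin 2, (∑ j : Fin 6,
        if (c.extG c.L).Adj (Sum.inl v) (c.mid bi.1 bi.2 j) then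
          c.aX s(Sum.inl v, c.mid bi.1 bi.2 j) else 0) =
        if P bi then ((0 : Q), (Pi.single bi 1 : GT c.B)) else 0 := by
      intro bi
      refine c.gr_pick 0 fun j => ?_
      rw [c.ext_inl_mid c.L v bi.1 bi.2 j, hP bi]
      tauto
    rw [c.gr_sum, c.gr_old, Finset.sum_congr rfl fun bi _ => h1 bi, c.gr_ind,
      if_neg (c.ext_inl_top c.L v), add_zero]
    by_cases hv : v ∈ c.B
    · have h2 : ((∑ u ∈ nb c.L v, c.a s(v, u), (0 : GT c.B)) : Q × GT c.B) +
          ((0 : Q), fun bi => if P bi then (1 : F2) else 0) =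
          c.wB ⟨v, hv⟩ := by
        unfold wB
        rw [Prod.mk_add_mk, add_zero, zero_add]
        refine Prod.ext rfl ?_
        funext bi
        show (if P bi then (1 : F2) else 0) =
          if bi.1 = ⟨v, hv⟩ ∧ c.act ⟨v, hv⟩ bi.2 then 1 else 0
        by_cases h3 : bi.1 = ⟨v, hv⟩
        · have h4 : v = bi.1.1 := by rw [h3]
          by_cases h5 : c.act ⟨v, hv⟩ bi.2
          · rw [if_pos ((hP bi).2 ⟨h4, by rw [h3]; exact h5⟩), if_pos ⟨h3, h5⟩]
          · rw [if_neg (fun h => h5 (by rw [← h3]; exact ((hP bi).1 h).2)), if_neg (fun h => h5 h.2)]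
        · rw [if_neg (fun h => h3 (Subtype.ext ((hP bi).1 h).1.symm)), if_neg (fun h => h3 h.1)]
      rw [h2]
      exact c.gr_wB _
    · have h2 : ((∑ u ∈ nb c.L v, c.a s(v, u), (0 : GT c.B)) : Q × GT c.B) +
          ((0 : Q), fun bi => if P bi then (1 : F2) else 0) =
          (∑ u ∈ nb c.L v, c.a s(v, u), (0 : GT c.B)) := by
        rw [Prod.mk_add_mk, add_zero, zero_add]
        refine Prod.ext rfl ?_
        funext bi
        exact if_neg (fun h => hv (by rw [((hP bi).1 h).1]; exact bi.1.2))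
      rw [h2]
      exact c.gr_W (c.rho v hv)
  · by_cases h : c.act b i
    · obtain ⟨p, q, hpq, h1, _⟩ := c.mid_nb c.L b i j h
      have h2 : nb (c.extG c.L) (c.mid b i j) = {p, q} := by
        ext x
        unfold nb
        rw [Finset.mem_filter, Finset.mem_insert, Finset.mem_singleton, h1 x]
        exact ⟨fun h => h.2, fun h => ⟨Finset.mem_univ _, h⟩⟩
      rw [h2, Finset.sum_pair hpq, c.aX_mid c.L b i j p ((h1 p).2 (Or.inl rfl)),
        c.aX_mid c.L b i j q ((h1 q).2 (Or.inr rfl)), Pool.Agent.BEO.q_add_self]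
      exact c.WX.zero_mem
    · have h2 : nb (c.extG c.L) (c.mid b i j) = ∅ := by
        ext x
        unfold nb
        rw [Finset.mem_filter]
        exact ⟨fun h' => absurd h'.2 (c.mid_none c.L b i j h x), fun h' => absurd h' (Finset.notMem_empty x)⟩
      rw [h2, Finset.sum_empty]
      exact c.WX.zero_mem
  · have h1 : ∀ bi : {v : V // v ∈ c.B} × Fin 2, (∑ j : Fin 6,
        if (c.extG c.L).Adj c.top (c.mid bi.1 bi.2 j) then
          c.aX s(c.top, c.mid bi.1 bi.2 j) else 0) =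
        if c.act bi.1 bi.2 then ((0 : Q), (Pi.single bi 1 : GT c.B)) else 0 := by
      intro bi
      refine c.gr_pick 5 fun j => ?_
      rw [SimpleGraph.adj_comm, c.ext_mid_top c.L bi.1 bi.2 j]
    have h2 : (∑ v : V, if (c.extG c.L).Adj c.top (Sum.inl v) then
        c.aX s(c.top, Sum.inl v) else 0) = 0 := by
      refine Finset.sum_eq_zero fun v _ => if_neg ?_
      rw [SimpleGraph.adj_comm]
      exact c.ext_inl_top c.L v
    rw [c.gr_sum, h2, Finset.sum_congr rfl fun bi _ => h1 bi, c.gr_ind,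
      if_neg ((c.extG c.L).loopless.irrefl c.top), add_zero, zero_add]
    have h3 : ((0 : Q), fun bi : {v : V // v ∈ c.B} × Fin 2 =>
        if c.act bi.1 bi.2 then (1 : F2) else 0) =
        ∑ b, c.wB b + (∑ b : {v : V // v ∈ c.B}, ∑ u ∈ nb c.L b.1, c.a s(b.1, u), (0 : GT c.B)) := by
      refine Prod.ext ?_ ?_
      · rw [Prod.fst_add, Prod.fst_sum]
        exact (Pool.Agent.BEO.q_add_self _).symm
      · rw [Prod.snd_add, Prod.snd_sum]
        funext bi
        show (if c.act bi.1 bi.2 then (1 : F2) else 0) = (∑ b, (c.wB b).2) bi + 0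
        rw [add_zero, Finset.sum_apply, Finset.sum_eq_single bi.1]
        · show _ = if bi.1 = bi.1 ∧ c.act bi.1 bi.2 then (1 : F2) else 0
          by_cases h : c.act bi.1 bi.2
          · rw [if_pos h, if_pos ⟨rfl, h⟩]
          · rw [if_neg h, if_neg (fun h' => h h'.2)]
        · intro b _ hb
          exact if_neg (fun h => hb h.1.symm)
        · intro h
          exact absurd (Finset.mem_univ _) h
    rw [h3]
    exact c.WX.add_mem (c.WX.sum_mem fun b _ => c.gr_wB b) (c.gr_W c.gr_B)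

end PCfg

end Pool.Agent.SCG
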