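import Pool.Agent.SCG.GdNb

/-!
# SCG-GdTw: no twins in the extended graph
-/

set_option autoImplicit false

open Finset
open scoped Classical

namespace Pool.Agent.SCG

open Pool.Agent.BEO (F2 nb es vs dg row)

namespace PCfg

variable {k : ℕ} {V Q : Type} [Fintype V] [AddCommGroup Q] [Module F2 Q] (c : PCfg k V Q)

theorem wx_old (q : Q) (h : ((q, 0) : Q × GT c.B) ∈ c.WX) : q ∈ c.W := by
  unfold WX at h
  obtain ⟨y, hy, z, hz, hyz⟩ := Submodule.mem_sup.1 h
  obtain ⟨w, hw, rfl⟩ := Submodule.mem_map.1 hy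
  obtain ⟨r, hr⟩ := (Submodule.mem_span_range_iff_exists_fun F2).1 hz
  have h1 : ∀ b, r b = 0 := by
    intro b
    have h2 : z.2 (b, 0) = 0 := by
      have h3 := congrArg (fun t : Q × GT c.B => t.2 (b, 0)) hyz
      simpa using h3
    have h4 : z.2 (b, 0) = ∑ b', r b' * (c.wB b').2 (b, 0) := by
      rw [← hr, Prod.snd_sum, Finset.sum_apply]
      exact Finset.sum_congr rfl fun b' _ => rfl
    have h5 : ∀ b', (c.wB b').2 (b, 0) = if b = b' then 1 else 0 := by
      intro b'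
      have h6 : ∀ b, c.act b 0 := fun _ => Or.inl rfl
      unfold wB
      simp only [h6, and_true]
    rw [h4] at h2
    simp only [h5] at h2
    rw [Finset.sum_eq_single b] at h2
    · rw [if_pos rfl, mul_one] at h2
      exact h2
    · intro b' _ hb'
      rw [if_neg (Ne.symm hb'), mul_zero]
    · intro hb
      exact absurd (Finset.mem_univ b) hb
  have h2 : z = 0 := by
    rw [← hr]
    refine Finset.sum_eq_zero fun b _ => ?_
    rw [h1 b, zero_smul]
  rw [h2, add_zero] at hyz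
  have h3 : w = q := congrArg Prod.fst hyz
  rw [← h3]
  exact hw

private theorem gdtw_pair {x p q : GV c.B} {u v : GV c.B} (huv : u ≠ v)
    (hx : ∀ t, (c.extG c.L).Adj x t ↔ t = p ∨ t = q) (hu : (c.extG c.L).Adj x u)
    (hv : (c.extG c.L).Adj x v) {y : GV c.B} (hyu : (c.extG c.L).Adj u y)
    (hyv : (c.extG c.L).Adj v y) : (c.extG c.L).Adj p y ∧ (c.extG c.L).Adj q y := by
  rcases (hx u).1 hu with h1 | h1 <;> rcases (hx v).1 hv with h2 | h2
  · exact absurd (h1.trans h2.symm) huv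
  · rw [← h1, ← h2]
    exact ⟨hyu, hyv⟩
  · rw [← h1, ← h2]
    exact ⟨hyv, hyu⟩
  · exact absurd (h1.trans h2.symm) huv

/-- an inner vertex and another vertex have at most one common neighbour -/
private theorem gdtw_mid {x u v y : GV c.B} (hxm : ∃ b i j, x = c.mid b i j) (huv : u ≠ v) (hu : (c.extG c.L).Adj x u)
    (hv : (c.extG c.L).Adj x v) (hyu : (c.extG c.L).Adj u y) (hyv : (c.extG c.L).Adj v y) : y = x := by
  obtain ⟨b, i, j, rfl⟩ := hxm
  by_cases ha : c.act b i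
  · obtain ⟨p, q, _, h1, h2⟩ := c.mid_nb c.L b i j ha
    obtain ⟨h3, h4⟩ := c.gdtw_pair huv h1 hu hv hyu hyv
    exact h2 y h3 h4
  · exact absurd hu (c.mid_none c.L b i j ha u)

theorem ext_tw (u v : GV c.B) (huv : u ≠ v) (U : Finset (GV c.B))
    (hU : ∀ x ∈ U, (c.extG c.L).Adj u x ∧ (c.extG c.L).Adj v x) (hne : U.Nonempty) (hev : Even U.card) :
    ∑ x ∈ U, c.aX s(u, x) ∉ c.WX := by
  have hcard : 1 < U.card := by
    have h1 := hne.card_pos
    obtain ⟨r, hr⟩ := hev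
    omega
  obtain ⟨x0, hx0, y0, hy0, hxy0⟩ := Finset.one_lt_card.1 hcard
  -- the elements of `U` are not inner vertices
  have hUm : ∀ x ∈ U, ¬ ∃ b i j, x = c.mid b i j := by
    intro x hx hm
    obtain ⟨y, hy, hyx⟩ : ∃ y ∈ U, y ≠ x := by
      by_cases h : x = x0
      · exact ⟨y0, hy0, by rw [h]; exact hxy0.symm⟩
      · exact ⟨x0, hx0, Ne.symm h⟩
    exact hyx (c.gdtw_mid hm huv (hU x hx).1.symm (hU x hx).2.symm (hU y hy).1 (hU y hy).2)
  -- `u`, `v` are not inner vertices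
  have hum : ¬ ∃ b i j, u = c.mid b i j := by
    intro hm
    exact huv (c.gdtw_mid hm hxy0 (hU x0 hx0).1 (hU y0 hy0).1 (hU x0 hx0).2.symm
      (hU y0 hy0).2.symm).symm
  have hvm : ¬ ∃ b i j, v = c.mid b i j := by
    intro hm
    exact huv (c.gdtw_mid hm hxy0 (hU x0 hx0).2 (hU y0 hy0).2 (hU x0 hx0).1.symm
      (hU y0 hy0).1.symm)
  -- the new vertex has only inner vertices as neighbours
  have htop : ∀ x, (c.extG c.L).Adj c.top x → ∃ b i j, x = c.mid b i j := by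
    intro x hx
    rcases c.gv_cases x with ⟨w, rfl⟩ | h | rfl
    · exact absurd hx.symm (c.ext_inl_top c.L w)
    · exact h
    · exact absurd rfl hx.ne
  have hold : ∀ t, (∃ x ∈ U, (c.extG c.L).Adj t x) → (¬ ∃ b i j, t = c.mid b i j) →
      ∃ w, t = Sum.inl w := by
    intro t ht htm
    rcases c.gv_cases t with h | h | rfl
    · exact h
    · exact absurd h htm
    · obtain ⟨x, hx, hx'⟩ := ht
      exact absurd (htop x hx') (hUm x hx)
  obtain ⟨u', rfl⟩ := hold u ⟨x0, hx0, (hU x0 hx0).1⟩ hum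
  obtain ⟨v', rfl⟩ := hold v ⟨x0, hx0, (hU x0 hx0).2⟩ hvm
  have hUo : ∀ x ∈ U, ∃ w, x = Sum.inl w := by
    intro x hx
    rcases c.gv_cases x with h | h | rfl
    · exact h
    · exact absurd h (hUm x hx)
    · exact absurd (hU _ hx).1 (c.ext_inl_top c.L u')
  obtain ⟨U', hU'⟩ : ∃ U' : Finset V, U' = univ.filter (fun w => (Sum.inl w : GV c.B) ∈ U) := ⟨_, rfl⟩
  have hmem : ∀ w, w ∈ U' ↔ (Sum.inl w : GV c.B) ∈ U := by
    intro w
    rw [hU', mem_filter]
    exact ⟨fun h => h.2, fun h => ⟨mem_univ _, h⟩⟩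
  have hUe : U = U'.map ⟨Sum.inl, Sum.inl_injective⟩ := by
    ext x
    rw [mem_map]
    constructor
    · intro hx
      obtain ⟨w, rfl⟩ := hUo x hx
      exact ⟨w, (hmem w).2 hx, rfl⟩
    · rintro ⟨w, hw, rfl⟩
      exact (hmem w).1 hw
  have hsum : ∑ x ∈ U, c.aX s(Sum.inl u', x) = ((∑ w ∈ U', c.a s(u', w), 0) : Q × GT c.B) := by
    rw [hUe, sum_map]
    have h1 : ∀ w ∈ U', c.aX s(Sum.inl u', (⟨Sum.inl, Sum.inl_injective⟩ : V ↪ GV c.B) w) =
        ((c.a s(u', w), 0) : Q × GT c.B) := by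
      intro w _
      exact c.aX_old s(u', w)
    rw [sum_congr rfl h1]
    refine Prod.ext ?_ ?_
    · rw [Prod.fst_sum]
    · rw [Prod.snd_sum, sum_const_zero]
  intro hW
  rw [hsum] at hW
  have hcU : U.card = U'.card := by rw [hUe, card_map]
  refine c.tw u' v' (fun h => huv (by rw [h])) U' ?_ ?_ ?_ (c.wx_old _ hW)
  · intro w hw
    have h1 := hU _ ((hmem w).1 hw)
    exact ⟨(c.ext_inl_inl c.L u' w).1 h1.1, (c.ext_inl_inl c.L v' w).1 h1.2⟩
  · rw [← card_pos, ← hcU]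
    omega
  · rw [← hcU]
    exact hev

end PCfg

end Pool.Agent.SCG
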