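import Pool.Agent.SCG.HStq
import Pool.Agent.SCG.HTre

/-!
# SCG-HEmb: the algorithm is correct

The invariant `Inv` holds for the spanning tree (all its maps have Euler genus 0) and is kept by every step `stq`; at the
end the subgraph is the whole graph, and `best_spec` applies to the twist found.
-/

set_option autoImplicit false

open Finset
open scoped Classical

namespace Pool.Agent.SCG

open Pool.Agent.Helper35.OG (Flag GMap across side orientableGenus)
open Pool.Agent.BEO (F2 ed rp cyc ev twist tph frm nb cod Codes ec lamOf Inp Ec Pt nxc fl)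

private theorem foldl_fst (C m k T : ℕ) (A : Adl) (s : Adl × List Ec) :
    (A.foldl (stq C m k T) s).1 = s.1 ++ A := by
  induction A generalizing s with
  | nil => simp
  | cons e A ih =>
    rw [List.foldl_cons, ih]
    simp [stq]

private theorem foldl_inv {n : ℕ} {G : SimpleGraph (Fin n)} {C m k T : ℕ}
    (hstep : ∀ (s : Adl × List Ec), Inv G s → ∀ a b : Fin n, G.Adj a b →
      Inv G (stq C m k T s ((a : ℕ), (b : ℕ))))
    (A : Adl) (hA : ∀ x ∈ A, ∃ u v : Fin n, G.Adj u v ∧ x = ((u : ℕ), (v : ℕ)))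
    (s : Adl × List Ec) (hs : Inv G s) : Inv G (A.foldl (stq C m k T) s) := by
  induction A generalizing s with
  | nil => exact hs
  | cons e A ih =>
    rw [List.foldl_cons]
    refine ih (fun x hx => hA x (List.mem_cons_of_mem _ hx)) _ ?_
    obtain ⟨u, v, huv, rfl⟩ := hA e List.mem_cons_self
    exact hstep s hs u v huv

theorem main_spec (k : ℕ) : ∃ T : ℕ, ∀ (n : ℕ) (G : SimpleGraph (Fin n)), G.Connected → 2 ≤ n →
    (∀ v, (nb G v).card ≤ 3) → (∃ M : GMap G, M.eg ≤ k) → ∀ A : Adl, Lists G A →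
      main (cc (k + 2)) (mm (cc (k + 2))) (k + 2) T A = orientableGenus G := by
  obtain ⟨T, hT⟩ := best_spec (k + 2)
  refine ⟨T, fun n G hG hn hv hM A hA => ?_⟩
  obtain ⟨M, hM⟩ := hM
  have hT' : ∀ (G2 : SimpleGraph (Fin n)) (S : GMap G2) (l : Inp), Codes S l → G2.Connected →
      G2 ≤ G → S.eg ≤ ((k + 2 : ℕ) : ℤ) → ∀ lam',
        (twist S (lamOf G2 (bst0 (cc (k + 2)) (mm (cc (k + 2))) (k + 2) T l))).eg ≤
          (twist S lam').eg := by
    intro G2 S l hc hcon hle heg
    have hv2 : ∀ v, (nb G2 v).card ≤ 3 := fun v => by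
      refine le_trans (Finset.card_le_card (fun w hw => ?_)) (hv v)
      unfold nb at hw ⊢
      rw [Finset.mem_filter] at hw ⊢
      exact ⟨hw.1, hle hw.2⟩
    exact (hT n G2 S l hc hcon hn hv2 heg).1
  have hstart : Inv G (tre A, []) := by
    obtain ⟨G0, h0le, h0c, h0l, h0n⟩ := tre_spec hA hG hn
    refine ⟨G0, h0le, h0c, h0l, fun lam => ?_⟩
    rw [tree_eg h0c hn h0n, tree_eg h0c hn h0n]
  have hinv := foldl_inv (C := cc (k + 2)) (m := mm (cc (k + 2))) (k := k + 2) (T := T)
    (fun s hs a b hab => stq_inv hn hv M k T hM hT' s hs a b hab) A hA.2 (tre A, []) hstart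
  have hfst := foldl_fst (cc (k + 2)) (mm (cc (k + 2))) (k + 2) T A (tre A, [])
  obtain ⟨G1, hle, hcon, hlist, hopt⟩ := hinv
  have hG1 : G1 = G := by
    refine le_antisymm hle (fun u v huv => ?_)
    rw [hlist.1 u v, hfst]
    rcases (hA.1 u v).1 huv with h | h
    · exact Or.inl (List.mem_append_right _ h)
    · exact Or.inr (List.mem_append_right _ h)
  subst hG1
  obtain ⟨lam, hlam⟩ := sub_twist hn hv le_rfl hcon M k hM
  have heg : (twist (stdM G1) (lamOf G1 (emb (cc (k + 2)) (mm (cc (k + 2))) (k + 2) T A))).eg ≤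
      ((k + 2 : ℕ) : ℤ) := by
    refine (hopt lam).trans (hlam.trans ?_)
    push_cast
    linarith
  exact (hT n G1 _ _ (twl_codes (std_codes hA) _) hG hn hv heg).2

end Pool.Agent.SCG
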