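import Pool.Agent.SCG.HRk
import Pool.Agent.SCG.Gen

/-!
# SCG-HMin: subgraphs have twists of small Euler genus
-/

set_option autoImplicit false

open Finset
open scoped Classical

namespace Pool.Agent.SCG

open Pool.Agent.Helper35.OG (Flag GMap across side)
open Pool.Agent.BEO (F2 ed rp cyc ev twist tph frm nb)

variable {n : ℕ}

private def addG (G1 : SimpleGraph (Fin n)) {a b : Fin n} (hab : a ≠ b) : SimpleGraph (Fin n) where
  Adj u v := G1.Adj u v ∨ (u = a ∧ v = b) ∨ (u = b ∧ v = a)
  symm := ⟨by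
    rintro u v (h | ⟨h1, h2⟩ | ⟨h1, h2⟩)
    · exact Or.inl h.symm
    · exact Or.inr (Or.inr ⟨h2, h1⟩)
    · exact Or.inr (Or.inl ⟨h2, h1⟩)⟩
  loopless := ⟨by
    rintro u (h | ⟨h1, h2⟩ | ⟨h1, h2⟩)
    · exact G1.irrefl h
    · exact hab (h1.symm.trans h2)
    · exact hab (h2.symm.trans h1)⟩

theorem sub_twist {G G1 : SimpleGraph (Fin n)} (hn : 2 ≤ n) (hv : ∀ v, (nb G v).card ≤ 3) (hle : G1 ≤ G)
    (h1 : G1.Connected) (M : GMap G) (k : ℕ) (hk : M.eg ≤ k) : ∃ lam, (twist (stdM G1) lam).eg ≤ k := by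
  have : Nontrivial (Fin n) := Fin.nontrivial_iff_two_le.2 hn
  have key : ∀ m : ℕ, ∀ G1 : SimpleGraph (Fin n), G1 ≤ G → G1.Connected →
      ((univ : Finset (Fin n × Fin n)).filter fun x => G.Adj x.1 x.2 ∧ ¬ G1.Adj x.1 x.2).card ≤ m →
      ∃ lam, (twist (stdM G1) lam).eg ≤ k := by
    intro m
    induction m with
    | zero =>
      intro G1 hle h1 hc
      have hE : G1 = G := by
        refine le_antisymm hle (fun u v huv => ?_)
        by_contra hcon
        have h2 : (u, v) ∈ ((univ : Finset (Fin n × Fin n)).filter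
            fun x => G.Adj x.1 x.2 ∧ ¬ G1.Adj x.1 x.2) :=
          mem_filter.2 ⟨mem_univ _, huv, hcon⟩
        have h3 := card_pos.2 ⟨_, h2⟩
        omega
      subst hE
      obtain ⟨lam, hlam, -⟩ := exists_twist h1 hv (stdM G1) M
      exact ⟨lam, by rw [hlam]; exact hk⟩
    | succ m ih =>
      intro G1 hle h1 hc
      by_cases hE : G1 = G
      · subst hE
        obtain ⟨lam, hlam, -⟩ := exists_twist h1 hv (stdM G1) M
        exact ⟨lam, by rw [hlam]; exact hk⟩
      · obtain ⟨a, b, hab, hnab⟩ : ∃ a b, G.Adj a b ∧ ¬ G1.Adj a b := by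
          by_contra hcon
          push Not at hcon
          exact hE (le_antisymm hle (fun u v huv => hcon u v huv))
        have hne : a ≠ b := hab.ne
        have hadd : AddE G1 (addG G1 hne) a b := ⟨hne, hnab, fun u v => Iff.rfl⟩
        have hle2 : addG G1 hne ≤ G := by
          rintro u v (h | ⟨h2, h3⟩ | ⟨h2, h3⟩)
          · exact hle h
          · rw [h2, h3]
            exact hab
          · rw [h2, h3]
            exact hab.symm
        have hcon2 : (addG G1 hne).Connected := h1.mono (addE_le hadd)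
        have hcard : ((univ : Finset (Fin n × Fin n)).filter
            fun x => G.Adj x.1 x.2 ∧ ¬ (addG G1 hne).Adj x.1 x.2).card <
            ((univ : Finset (Fin n × Fin n)).filter
              fun x => G.Adj x.1 x.2 ∧ ¬ G1.Adj x.1 x.2).card := by
          apply card_lt_card
          rw [ssubset_iff_of_subset]
          · refine ⟨(a, b), mem_filter.2 ⟨mem_univ _, hab, hnab⟩, ?_⟩
            intro h
            exact (mem_filter.1 h).2.2 (Or.inr (Or.inl ⟨rfl, rfl⟩))
          · intro x hx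
            obtain ⟨-, h2, h3⟩ := mem_filter.1 hx
            exact mem_filter.2 ⟨mem_univ _, h2, fun h => h3 (Or.inl h)⟩
        obtain ⟨lam, hlam⟩ := ih (addG G1 hne) hle2 hcon2 (by omega)
        exact ⟨_, (rank_add hadd h1 hcon2 hn lam).1.trans hlam⟩
  exact key _ G1 hle h1 le_rfl

end Pool.Agent.SCG
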