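import Pool.Agent.SCG.HAdd

/-!
# SCG-HRk: the Euler genus after adding an edge
-/

set_option autoImplicit false

open Finset
open scoped Classical

namespace Pool.Agent.SCG

open Pool.Agent.Helper35.OG (Flag GMap across side)
open Pool.Agent.BEO (F2 ed rp cyc ev twist tph frm frm_rank twist_frm finrank_cyc IsL dL dL_eq frm_eq exists_L ed_surj)

private theorem inj_rank {A B C : Type*} [AddCommGroup A] [Module (ZMod 2) A] [AddCommGroup B] [Module (ZMod 2) B]
    [AddCommGroup C] [Module (ZMod 2) C] (f : B →ₗ[ZMod 2] C) (hf : Function.Injective f)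
    (g : A →ₗ[ZMod 2] B) :
    Module.finrank (ZMod 2) (LinearMap.range (f ∘ₗ g)) = Module.finrank (ZMod 2) (LinearMap.range g) := by
  rw [LinearMap.range_comp]
  exact (LinearEquiv.finrank_eq (Submodule.equivMapOfInjective f hf (LinearMap.range g))).symm

private theorem pull_rank {Z U : Type} [AddCommGroup Z] [Module (ZMod 2) Z] [AddCommGroup U] [Module (ZMod 2) U]
    (N : Z →ₗ[ZMod 2] Z →ₗ[ZMod 2] ZMod 2) (f : U →ₗ[ZMod 2] Z) :
    Module.finrank (ZMod 2) (LinearMap.range ((f.dualMap ∘ₗ N) ∘ₗ f)) = rkOn N (LinearMap.range f) := by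
  have h1 : (f.dualMap ∘ₗ N) ∘ₗ f = (f.rangeRestrict.dualMap ∘ₗ
      (((LinearMap.range f).subtype.dualMap ∘ₗ N) ∘ₗ (LinearMap.range f).subtype)) ∘ₗ f.rangeRestrict := by
    ext x y
    rfl
  unfold rkOn
  rw [h1, LinearMap.comp_assoc, inj_rank]
  · rw [LinearMap.range_comp, LinearMap.range_rangeRestrict, Submodule.map_top]
  · exact LinearMap.dualMap_injective_of_surjective f.surjective_rangeRestrict

variable {n : ℕ}

private theorem sum_e {G1 G2 : SimpleGraph (Fin n)} (hle : G1 ≤ G2) (f : G2.edgeSet → F2)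
    (hf : ∀ e : G2.edgeSet, e.1 ∉ G1.edgeSet → f e = 0) : ∑ e, f e = ∑ e : G1.edgeSet, f (eI hle e) := by
  symm
  have hinj : Function.Injective (eI hle) := by
    intro e e' h
    apply Subtype.ext
    exact congrArg (fun x : G2.edgeSet => x.1) h
  rw [← Finset.sum_image (s := univ) (g := eI hle) (f := f) (fun x _ y _ h => hinj h)]
  refine Finset.sum_subset (Finset.subset_univ _) ?_
  intro e _ he
  apply hf
  intro h1
  apply he
  rw [mem_image]
  exact ⟨⟨e.1, h1⟩, mem_univ _, rfl⟩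

private theorem frm_add {G1 G2 : SimpleGraph (Fin n)} {a b : Fin n} (h : AddE G1 G2 a b) (J : cyc G1 →ₗ[F2] cyc G2)
    (hJ1 : ∀ z e, (J z).1 (eI (addE_le h) e) = z.1 e)
    (hJ0 : ∀ z, ∀ e : G2.edgeSet, e.1 ∉ G1.edgeSet → (J z).1 e = 0) (z z' : cyc G1) :
    frm (stdM G2) (J z) (J z') = frm (stdM G1) z z' := by
  obtain ⟨L, hL⟩ := exists_L (stdM G2) (J z).1 (J z).2
  have hL1 := pot_add h z.1 (J z).1 (hJ1 z) (hJ0 z) L hL
  rw [frm_eq (stdM G2) (J z) (J z') hL, frm_eq (stdM G1) z z' hL1]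
  rw [sum_e (addE_le h) (fun e => dL L e * (J z').1 e) (fun e he => by rw [hJ0 z' e he, mul_zero])]
  refine Finset.sum_congr rfl fun e _ => ?_
  rw [hJ1 z' e]
  congr 1
  obtain ⟨p, hp⟩ := ed_surj e
  rw [← hp]
  have h1 : eI (addE_le h) (ed p) = ed (fI (addE_le h) p) := rfl
  rw [h1, dL_eq hL, dL_eq hL1]
  rfl

theorem rank_add {G1 G2 : SimpleGraph (Fin n)} {a b : Fin n} (h : AddE G1 G2 a b) (h1 : G1.Connected)
    (h2 : G2.Connected) (hn : 2 ≤ n) (lam : Finset G2.edgeSet) :
    (twist (stdM G1) (univ.filter fun e => eI (addE_le h) e ∈ lam)).eg ≤ (twist (stdM G2) lam).eg ∧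
      (twist (stdM G2) lam).eg ≤ (twist (stdM G1) (univ.filter fun e => eI (addE_le h) e ∈ lam)).eg + 2 := by
  have : Nontrivial (Fin n) := Fin.nontrivial_iff_two_le.2 hn
  obtain ⟨J, hJi, hJ1, hJ0⟩ := cyc_add h
  obtain ⟨mu, hmu⟩ : ∃ mu : Finset G1.edgeSet, mu = univ.filter fun e => eI (addE_le h) e ∈ lam := ⟨_, rfl⟩
  rw [← hmu, ← frm_rank h1 (twist (stdM G1) mu), ← frm_rank h2 (twist (stdM G2) lam)]
  -- the forms agree
  have hform : ((J.dualMap ∘ₗ frm (twist (stdM G2) lam)) ∘ₗ J) = frm (twist (stdM G1) mu) := by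
    refine LinearMap.ext fun z => LinearMap.ext fun z' => ?_
    show frm (twist (stdM G2) lam) (J z) (J z') = frm (twist (stdM G1) mu) z z'
    rw [twist_frm, twist_frm, frm_add h J hJ1 hJ0]
    congr 1
    have e1 : ∑ e ∈ lam, (J z).1 e * (J z').1 e = ∑ e : G2.edgeSet, if e ∈ lam then (J z).1 e * (J z').1 e else 0 := by
      rw [Finset.sum_ite_mem, Finset.univ_inter]
    rw [e1, sum_e (addE_le h) (fun e => if e ∈ lam then (J z).1 e * (J z').1 e else 0)
      (fun e he => by rw [hJ0 z e he, zero_mul]; exact ite_self _), hmu, Finset.sum_filter]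
    refine Finset.sum_congr rfl fun e _ => ?_
    rw [hJ1, hJ1]
  have hrk : Module.finrank F2 (LinearMap.range (frm (twist (stdM G1) mu))) =
      rkOn (frm (twist (stdM G2) lam)) (LinearMap.range J) := by
    rw [← hform]
    exact pull_rank _ J
  -- dimensions
  have hd1 := finrank_cyc h1
  have hd2 := finrank_cyc h2
  have hed : Nat.card G2.edgeSet ≤ Nat.card G1.edgeSet + 1 := by
    have hsub : (univ : Finset G2.edgeSet) ⊆ insert (⟨s(a, b), (h.2.2 a b).2 (Or.inr (Or.inl ⟨rfl, rfl⟩))⟩ : G2.edgeSet)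
        ((univ : Finset G1.edgeSet).image (eI (addE_le h))) := by
      intro e _
      obtain ⟨e, he⟩ := e
      induction e using Sym2.ind with
      | _ u v =>
        rw [mem_insert]
        rcases (h.2.2 u v).1 he with h3 | ⟨h3, h4⟩ | ⟨h3, h4⟩
        · right
          rw [mem_image]
          exact ⟨⟨s(u, v), h3⟩, mem_univ _, rfl⟩
        · left
          apply Subtype.ext
          show s(u, v) = s(a, b)
          rw [h3, h4]
        · left
          apply Subtype.ext
          show s(u, v) = s(a, b)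
          rw [h3, h4]
          exact Sym2.eq_swap
    have h3 := Finset.card_le_card hsub
    rw [Finset.card_univ] at h3
    have h4 := Finset.card_insert_le (⟨s(a, b), (h.2.2 a b).2 (Or.inr (Or.inl ⟨rfl, rfl⟩))⟩ : G2.edgeSet)
      ((univ : Finset G1.edgeSet).image (eI (addE_le h)))
    have h5 : ((univ : Finset G1.edgeSet).image (eI (addE_le h))).card ≤ Fintype.card G1.edgeSet :=
      Finset.card_image_le.trans (le_of_eq Finset.card_univ)
    rw [Nat.card_eq_fintype_card, Nat.card_eq_fintype_card]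
    omega
  have hJr : Module.finrank F2 (LinearMap.range J) = Module.finrank F2 (cyc G1) := LinearMap.finrank_range_of_inj hJi
  have hbig : Module.finrank F2 (cyc G2) ≤ Module.finrank F2 (LinearMap.range J) + 1 := by
    rw [hJr]
    omega
  have k1 : rkOn (frm (twist (stdM G2) lam)) (LinearMap.range J) ≤
      Module.finrank F2 (LinearMap.range (frm (twist (stdM G2) lam))) := rk_sub _ _
  have k2 : Module.finrank F2 (LinearMap.range (frm (twist (stdM G2) lam))) ≤
      rkOn (frm (twist (stdM G2) lam)) (LinearMap.range J) + 2 * 1 := rk_le_sub _ _ 1 hbig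
  rw [← hrk] at k1 k2
  constructor
  · exact_mod_cast k1
  · exact_mod_cast k2

end Pool.Agent.SCG
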