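import Pool.Agent.BEO.Twist
import Pool.Agent.BEO.CodS

/-!
# SCG-HStd: the standard map of a graph with numbered vertices

At every vertex `u` the neighbours are in cyclic order; `scG G u v` is the neighbour following `v`. The flag
`(d, true)` is paired with `(next dart, false)`.
The successor of a neighbour is injective, hence a bijection of the darts at a vertex; the flags at a vertex are all
connected to the flag of the smallest neighbour.
-/

set_option autoImplicit false

open Finset
open scoped Classical

namespace Pool.Agent.SCG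

open Pool.Agent.Helper35.OG (Flag GMap across side)
open Pool.Agent.BEO (F2 ed rp cyc ev twist tph)

variable {n : ℕ}

/-- the neighbours larger than `v` -/
noncomputable def upN (G : SimpleGraph (Fin n)) (u v : Fin n) : Finset (Fin n) :=
  univ.filter fun w => G.Adj u w ∧ v < w

/-- the neighbours -/
noncomputable def alN (G : SimpleGraph (Fin n)) (u : Fin n) : Finset (Fin n) := univ.filter fun w => G.Adj u w

/-- the neighbour following `v` in cyclic order -/
noncomputable def scG (G : SimpleGraph (Fin n)) (u v : Fin n) : Fin n :=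
  if h : (upN G u v).Nonempty then (upN G u v).min' h else if h : (alN G u).Nonempty then (alN G u).min' h else v

private theorem scG_spec (G : SimpleGraph (Fin n)) (u v : Fin n) (h : G.Adj u v) :
    G.Adj u (scG G u v) ∧ ((v < scG G u v ∧ ∀ w, G.Adj u w → v < w → scG G u v ≤ w) ∨
      ((∀ w, G.Adj u w → w ≤ v) ∧ ∀ w, G.Adj u w → scG G u v ≤ w)) := by
  by_cases hu : (upN G u v).Nonempty
  · have e : scG G u v = (upN G u v).min' hu := by
      unfold scG
      rw [dif_pos hu]
    have hm := (upN G u v).min'_mem hu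
    rw [← e] at hm
    unfold upN at hm
    rw [mem_filter] at hm
    refine ⟨hm.2.1, Or.inl ⟨hm.2.2, fun w hw hvw => ?_⟩⟩
    rw [e]
    refine (upN G u v).min'_le w ?_
    unfold upN
    rw [mem_filter]
    exact ⟨mem_univ _, hw, hvw⟩
  · have ha : (alN G u).Nonempty := by
      refine ⟨v, ?_⟩
      unfold alN
      rw [mem_filter]
      exact ⟨mem_univ _, h⟩
    have e : scG G u v = (alN G u).min' ha := by
      unfold scG
      rw [dif_neg hu, dif_pos ha]
    have hm := (alN G u).min'_mem ha
    rw [← e] at hm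
    unfold alN at hm
    rw [mem_filter] at hm
    refine ⟨hm.2, Or.inr ⟨fun w hw => ?_, fun w hw => ?_⟩⟩
    · by_contra hc
      refine hu ⟨w, ?_⟩
      unfold upN
      rw [mem_filter]
      exact ⟨mem_univ _, hw, not_le.mp hc⟩
    · rw [e]
      refine (alN G u).min'_le w ?_
      unfold alN
      rw [mem_filter]
      exact ⟨mem_univ _, hw⟩

theorem scG_adj (G : SimpleGraph (Fin n)) (u v : Fin n) (h : G.Adj u v) : G.Adj u (scG G u v) := by
  exact (scG_spec G u v h).1

theorem scG_inj (G : SimpleGraph (Fin n)) (u v v' : Fin n) (h : G.Adj u v) (h' : G.Adj u v')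
    (he : scG G u v = scG G u v') : v = v' := by
  have key : ∀ a b : Fin n, G.Adj u a → G.Adj u b → scG G u a = scG G u b → ¬ a < b := by
    intro a b ha hb he hab
    rcases (scG_spec G u a ha).2 with h1 | h1
    · have h2 : scG G u a ≤ b := h1.2 b hb hab
      rcases (scG_spec G u b hb).2 with h3 | h3
      · have h4 := h3.1
        rw [← he] at h4
        exact absurd h4 (not_lt.mpr h2)
      · have h4 := h3.2 a ha
        rw [← he] at h4
        exact absurd h1.1 (not_lt.mpr h4)
    · exact absurd hab (not_lt.mpr (h1.1 b hb))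
  rcases lt_trichotomy v v' with h1 | h1 | h1
  · exact absurd h1 (key v v' h h' he)
  · exact h1
  · exact absurd h1 (key v' v h' h he.symm)

theorem std_exists (G : SimpleGraph (Fin n)) : ∃ S : GMap G, ∀ p : Flag G, p.2 = true →
    (S.nxt p).2 = false ∧ (S.nxt p).1.snd = scG G p.1.fst p.1.snd := by
  obtain ⟨nd, hnd⟩ : ∃ nd : G.Dart → G.Dart, ∀ d, nd d = ⟨(d.fst, scG G d.fst d.snd), scG_adj G _ _ d.adj⟩ :=
    ⟨fun d => ⟨(d.fst, scG G d.fst d.snd), scG_adj G _ _ d.adj⟩, fun d => rfl⟩
  have nfst : ∀ d, (nd d).fst = d.fst := by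
    intro d
    rw [hnd]
  have nsnd : ∀ d, (nd d).snd = scG G d.fst d.snd := by
    intro d
    rw [hnd]
  have dext : ∀ d d' : G.Dart, d.fst = d'.fst → d.snd = d'.snd → d = d' := by
    intro d d' h1 h2
    exact SimpleGraph.Dart.ext _ _ (Prod.ext h1 h2)
  have ninj : Function.Injective nd := by
    intro d d' he
    have h1 : d.fst = d'.fst := by rw [← nfst d, ← nfst d', he]
    have h2 : scG G d.fst d.snd = scG G d.fst d'.snd := by
      rw [← nsnd d, he, nsnd d', h1]
    refine dext d d' h1 (scG_inj G d.fst _ _ d.adj ?_ h2)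
    rw [h1]
    exact d'.adj
  have nbij : Function.Bijective nd := Finite.injective_iff_bijective.mp ninj
  obtain ⟨E, hE⟩ : ∃ E : G.Dart ≃ G.Dart, ∀ d, E d = nd d := ⟨Equiv.ofBijective nd nbij, fun d => rfl⟩
  have Efst : ∀ d, (E d).fst = d.fst := fun d => by rw [hE, nfst]
  have Sfst : ∀ d, (E.symm d).fst = d.fst := by
    intro d
    rw [← Efst (E.symm d), Equiv.apply_symm_apply]
  obtain ⟨N, hNt, hNf⟩ : ∃ N : Flag G → Flag G, (∀ d, N (d, true) = (E d, false)) ∧
      (∀ d, N (d, false) = (E.symm d, true)) :=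
    ⟨fun p => if p.2 = true then (E p.1, false) else (E.symm p.1, true), fun d => if_pos rfl,
      fun d => if_neg (by simp)⟩
  have cs : ∀ (d : G.Dart) (b : Bool), Relation.EqvGen (fun x y => y = N x ∨ y = side x) (d, b) (d, true) := by
    intro d b
    cases b with
    | true => exact Relation.EqvGen.refl _
    | false => exact Relation.EqvGen.rel _ _ (Or.inr rfl)
  have cE : ∀ d : G.Dart, Relation.EqvGen (fun x y => y = N x ∨ y = side x) (d, true) (E d, true) := by
    intro d
    exact Relation.EqvGen.trans _ _ _ (Relation.EqvGen.rel _ _ (Or.inl (hNt d).symm)) (cs (E d) false)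
  have cm : ∀ (k : ℕ) (d : G.Dart), d.snd.val = k → ∃ m : G.Dart, m.fst = d.fst ∧
      (∀ w, G.Adj d.fst w → m.snd ≤ w) ∧
      Relation.EqvGen (fun x y => y = N x ∨ y = side x) (m, true) (d, true) := by
    intro k
    induction k using Nat.strong_induction_on with
    | _ k ih =>
      intro d hd
      obtain ⟨d', hd'⟩ : ∃ d', d' = E.symm d := ⟨_, rfl⟩
      have e1 : E d' = d := by rw [hd', Equiv.apply_symm_apply]
      have e2 : d'.fst = d.fst := by rw [hd', Sfst]
      have e3 : scG G d'.fst d'.snd = d.snd := by rw [← nsnd, ← hE, e1]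
      rcases (scG_spec G d'.fst d'.snd d'.adj).2 with h1 | h1
      · have h2 := h1.1
        rw [e3] at h2
        have h3 : d'.snd.val < k := by
          rw [← hd]
          exact h2
        obtain ⟨m, hm1, hm2, hm3⟩ := ih d'.snd.val h3 d' rfl
        refine ⟨m, hm1.trans e2, ?_, ?_⟩
        · rw [← e2]
          exact hm2
        · have h4 := cE d'
          rw [e1] at h4
          exact Relation.EqvGen.trans _ _ _ hm3 h4
      · refine ⟨d, rfl, ?_, Relation.EqvGen.refl _⟩
        intro w hw
        have h2 := h1.2 w (by rw [e2]; exact hw)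
        rw [e3] at h2
        exact h2
  refine ⟨⟨N, ?_, ?_, ?_, ?_⟩, ?_⟩
  · rintro ⟨d, b⟩
    cases b with
    | true => rw [hNt, hNf, Equiv.symm_apply_apply]
    | false => rw [hNf, hNt, Equiv.apply_symm_apply]
  · rintro ⟨d, b⟩ h
    have h2 := congrArg Prod.snd h
    cases b with
    | true =>
      rw [hNt] at h2
      exact Bool.false_ne_true h2
    | false =>
      rw [hNf] at h2
      exact Bool.false_ne_true h2.symm
  · rintro ⟨d, b⟩
    cases b with
    | true =>
      rw [hNt]
      exact Efst d
    | false =>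
      rw [hNf]
      exact Sfst d
  · rintro ⟨d, b⟩ ⟨d', b'⟩ h
    have hf : d.fst = d'.fst := h
    obtain ⟨m, hm1, hm2, hm3⟩ := cm _ d rfl
    obtain ⟨m', hm1', hm2', hm3'⟩ := cm _ d' rfl
    have hmm : m = m' := by
      refine dext m m' (by rw [hm1, hm1', hf]) (le_antisymm ?_ ?_)
      · refine hm2 _ ?_
        rw [hf, ← hm1']
        exact m'.adj
      · refine hm2' _ ?_
        rw [← hf, ← hm1]
        exact m.adj
    rw [← hmm] at hm3'
    exact Relation.EqvGen.trans _ _ _ (Relation.EqvGen.trans _ _ _ (cs d b) (Relation.EqvGen.symm _ _ hm3))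
      (Relation.EqvGen.trans _ _ _ hm3' (Relation.EqvGen.symm _ _ (cs d' b')))
  · rintro ⟨d, b⟩ hb
    have hb' : b = true := hb
    rw [hb']
    refine ⟨?_, ?_⟩
    · show (N (d, true)).2 = false
      rw [hNt]
    · show (N (d, true)).1.snd = scG G d.fst d.snd
      rw [hNt]
      show (E d).snd = _
      rw [hE, nsnd]

/-- the standard map -/
noncomputable def stdM (G : SimpleGraph (Fin n)) : GMap G := Classical.choose (std_exists G)

theorem stdM_nxt (G : SimpleGraph (Fin n)) (p : Flag G) (h : p.2 = true) :
    ((stdM G).nxt p).2 = false ∧ ((stdM G).nxt p).1.snd = scG G p.1.fst p.1.snd :=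
  Classical.choose_spec (std_exists G) p h

end Pool.Agent.SCG
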