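import Pool.Agent.BEO.Twist

/-!
# SCG-HTw: twisting twice
-/

set_option autoImplicit false

open Finset
open scoped Classical

namespace Pool.Agent.SCG

open Pool.Agent.Helper35.OG (Flag GMap across side side_side)
open Pool.Agent.BEO (F2 ed rp cyc ev twist tph twist_nxt)

variable {V : Type} {G : SimpleGraph V} [LinearOrder V]

private theorem tph_pos (lam : Finset G.edgeSet) {p : Flag G}
    (h : ed p ∈ lam ∧ p.1.fst < p.1.snd) : tph lam p = side p := by
  unfold tph
  rw [if_pos h]

private theorem tph_neg (lam : Finset G.edgeSet) {p : Flag G}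
    (h : ¬ (ed p ∈ lam ∧ p.1.fst < p.1.snd)) : tph lam p = p := by
  unfold tph
  rw [if_neg h]

private theorem tph_symm (lam mu : Finset G.edgeSet) (p : Flag G) :
    tph mu (tph lam p) = tph (symmDiff lam mu) p := by
  by_cases hlt : p.1.fst < p.1.snd
  · by_cases h1 : ed p ∈ lam
    · rw [tph_pos lam ⟨h1, hlt⟩]
      by_cases h2 : ed p ∈ mu
      · have h3 : ed (side p) ∈ mu ∧ (side p).1.fst < (side p).1.snd := ⟨h2, hlt⟩
        rw [tph_pos mu h3, side_side, tph_neg]
        rintro ⟨h4, -⟩
        rcases Finset.mem_symmDiff.1 h4 with h5 | h5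
        · exact h5.2 h2
        · exact h5.2 h1
      · have h3 : ¬ (ed (side p) ∈ mu ∧ (side p).1.fst < (side p).1.snd) := fun h => h2 h.1
        rw [tph_neg mu h3, tph_pos]
        exact ⟨Finset.mem_symmDiff.2 (Or.inl ⟨h1, h2⟩), hlt⟩
    · rw [tph_neg lam (fun h => h1 h.1)]
      by_cases h2 : ed p ∈ mu
      · rw [tph_pos mu ⟨h2, hlt⟩, tph_pos]
        exact ⟨Finset.mem_symmDiff.2 (Or.inr ⟨h2, h1⟩), hlt⟩
      · rw [tph_neg mu (fun h => h2 h.1), tph_neg]
        rintro ⟨h4, -⟩
        rcases Finset.mem_symmDiff.1 h4 with h5 | h5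
        · exact h1 h5.1
        · exact h2 h5.1
  · rw [tph_neg lam (fun h => hlt h.2), tph_neg mu (fun h => hlt h.2), tph_neg _ (fun h => hlt h.2)]

private theorem map_ext {M N : GMap G} (h : ∀ p, M.nxt p = N.nxt p) : M = N := by
  cases M
  cases N
  congr 1
  funext p
  exact h p

theorem twist_twist (S : GMap G) (lam mu : Finset G.edgeSet) :
    twist (twist S lam) mu = twist S (symmDiff lam mu) := by
  apply map_ext
  intro p
  rw [twist_nxt, twist_nxt, twist_nxt, tph_symm lam mu]
  have h1 : tph lam (tph mu p) = tph (symmDiff lam mu) p := by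
    rw [tph_symm mu lam, symmDiff_comm]
  rw [h1]

end Pool.Agent.SCG
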