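import Pool.Agent.SCG.SpDef
import Pool.Agent.BEO.CompS

/-!
# SCG-SpB: steps, sums of lists of edges

PLAN. `nx_cod`: `look_cod`. `acx_cod`: `ek_cod`, the definition of `lamOf`, `sd_cod`, `ac_cod`. `lamOf_nrm`: for an edge
`e` the list `nrm l c` contains `ec e` exactly once if `par c (ec e)` and not at all otherwise (`edl` has no repetitions).
`lamOf_append`: the parity of a count in `c ++ c'` is the sum of the parities (`par_iff`, `List.count_append`).
-/

set_option autoImplicit false

open Finset
open scoped Classical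

namespace Pool.Agent.SCG

open Pool.Agent.Helper35.OG (Flag GMap across side)
open Pool.Agent.BEO (F2 ed rp cyc ev twist tph cod Codes ec lamOf look memb ddp comp stp bfs par tup cds Pt Ec Inp Stt
  sd ac ek fl fcl zl lb xo bvs nF isO nE nV nxc)

variable {n : ℕ} {G : SimpleGraph (Fin n)} {S : GMap G} {l : Inp}

private theorem par_filter {X : Type} [DecidableEq X] (L c : List X) (x : X) (hn : L.Nodup) (hm : x ∈ L) :
    par (L.filter fun e => par c e) x = true ↔ par c x = true := by
  by_cases hp : par c x = true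
  · refine ⟨fun _ => hp, fun _ => ?_⟩
    rw [Pool.Agent.BEO.par_iff]
    have h1 : List.count x (L.filter fun e => par c e) = List.count x L := List.count_filter hp
    rw [h1, List.count_eq_one_of_mem hn hm]
  · refine ⟨fun h1 => ?_, fun h1 => absurd h1 hp⟩
    rw [Pool.Agent.BEO.par_iff] at h1
    have h2 : x ∉ L.filter fun e => par c e := fun h3 => hp (List.mem_filter.1 h3).2
    rw [List.count_eq_zero_of_not_mem h2] at h1
    omega

private theorem par_append {X : Type} [DecidableEq X] (c c' : List X) (x : X) :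
    par (c ++ c') x = true ↔ ((par c x = true ∧ ¬ par c' x = true) ∨ (par c' x = true ∧ ¬ par c x = true)) := by
  rw [Pool.Agent.BEO.par_iff, Pool.Agent.BEO.par_iff, Pool.Agent.BEO.par_iff, List.count_append]
  omega

private theorem par_single {X : Type} [DecidableEq X] (a x : X) : par [a] x = true ↔ x = a := by
  rw [Pool.Agent.BEO.par_iff]
  by_cases h : x = a
  · subst h
    simp
  · refine ⟨fun h1 => ?_, fun h1 => absurd h1 h⟩
    have h2 : x ∉ [a] := by
      intro h3
      rw [List.mem_singleton] at h3
      exact h h3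
    rw [List.count_eq_zero_of_not_mem h2] at h1
    omega

private theorem spb_mem (c : List Ec) (e : G.edgeSet) : e ∈ lamOf G c ↔ par c (ec e) = true := by
  unfold lamOf
  rw [Finset.mem_filter]
  exact ⟨fun h => h.2, fun h => ⟨Finset.mem_univ _, h⟩⟩

theorem nx_cod (h : Codes S l) (p : Flag G) : nx l (cod p) = cod (S.nxt p) := by
  unfold nx
  exact Pool.Agent.BEO.look_cod h p _

theorem acx_cod (c : List Ec) (p : Flag G) : acx c (cod p) = cod (acl (lamOf G c) p) := by
  unfold acx acl
  rw [Pool.Agent.BEO.ek_cod]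
  by_cases h : par c (ec (ed p)) = true
  · rw [if_pos h, if_pos ((spb_mem c (ed p)).2 h)]
    rfl
  · rw [if_neg h, if_neg fun h' => h ((spb_mem c (ed p)).1 h')]
    rfl

private theorem spb_ec_mem (h : Codes S l) (e : G.edgeSet) : ec e ∈ edl l := by
  unfold edl
  rw [Pool.Agent.BEO.mem_ddp]
  exact List.mem_map.2 ⟨cod (rp e), (Pool.Agent.BEO.mem_fl h _).2 ⟨rp e, rfl⟩, rfl⟩

theorem lamOf_nrm (h : Codes S l) (c : List Ec) : lamOf G (nrm l c) = lamOf G c := by
  ext e
  rw [spb_mem, spb_mem]
  unfold nrm
  exact par_filter (edl l) c (ec e) (Pool.Agent.BEO.nodup_ddp _) (spb_ec_mem h e)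

theorem mem_nrm (l : Inp) (c : List Ec) (x : Ec) (hx : x ∈ nrm l c) : x ∈ edl l := by
  unfold nrm at hx
  exact (List.mem_filter.1 hx).1

theorem lamOf_append (c c' : List Ec) : lamOf G (c ++ c') = symmDiff (lamOf G c) (lamOf G c') := by
  ext e
  rw [Finset.mem_symmDiff, spb_mem, spb_mem, spb_mem]
  exact par_append c c' (ec e)

theorem lamOf_single (e : G.edgeSet) : lamOf G [ec e] = {e} := by
  ext e'
  rw [Finset.mem_singleton, spb_mem, par_single]
  exact ⟨fun h => Pool.Agent.BEO.ec_inj h, fun h => by rw [h]⟩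

end Pool.Agent.SCG
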