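import Pool.Agent.SCG.SpO
import Pool.Agent.SCG.Gen
import Pool.Agent.BEO.FacS
import Pool.Agent.BEO.OriS
import Pool.Agent.BEO.CntS

/-!
# SCG-SpP: the best entries
-/

set_option autoImplicit false

open Finset
open scoped Classical

namespace Pool.Agent.SCG

open Pool.Agent.Helper35.OG (Flag GMap across side orientableGenus)
open Pool.Agent.BEO (F2 ed rp cyc ev twist tph cod Codes ec lamOf look memb ddp comp stp bfs par tup cds Pt Ec Inp Stt
  sd ac ek fl fcl zl lb xo bvs nF isO nE nV nxc nb)

private theorem spP_foldl_max_le (L : List ℕ) (a B : ℕ) (ha : a ≤ B) (h : ∀ x ∈ L, x ≤ B) :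
    L.foldl max a ≤ B := by
  induction L generalizing a with
  | nil => exact ha
  | cons x L ih =>
    rw [List.foldl_cons]
    refine ih _ ?_ ?_
    · exact max_le ha (h x (List.mem_cons_self))
    · intro y hy
      exact h y (List.mem_cons_of_mem _ hy)

private theorem spP_le_foldl_max_init (L : List ℕ) (a : ℕ) : a ≤ L.foldl max a := by
  induction L generalizing a with
  | nil => exact le_rfl
  | cons x L ih =>
    rw [List.foldl_cons]
    exact (le_max_left a x).trans (ih _)

private theorem spP_le_foldl_max (L : List ℕ) (a x : ℕ) (h : x ∈ L) : x ≤ L.foldl max a := by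
  induction L generalizing a with
  | nil => simp at h
  | cons y L ih =>
    rw [List.foldl_cons]
    rcases List.mem_cons.1 h with rfl | h
    · exact (le_max_right a x).trans (spP_le_foldl_max_init L _)
    · exact ih _ h

theorem best_spec (k : ℕ) : ∃ T : ℕ, ∀ (n : ℕ) (G : SimpleGraph (Fin n)) (S : GMap G) (l : Inp), Codes S l →
    G.Connected → 2 ≤ n → (∀ v, (nb G v).card ≤ 3) → S.eg ≤ k →
      (∀ lam', (twist S (lamOf G (bst0 (cc k) (mm (cc k)) k T l))).eg ≤ (twist S lam').eg) ∧
        genN (cc k) (mm (cc k)) k T l = orientableGenus G := by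
  obtain ⟨T, hT⟩ := ent_cpl k
  refine ⟨T, ?_⟩
  intro n G S l hl hG hn h3 hk
  have hnt : Nontrivial (Fin n) := Fin.nontrivial_iff_two_le.2 hn
  have hcard : Nat.card (Fin n) = n := by simp
  have heg : ∀ c' : List Ec, (twist S (lamOf G c')).eg = 2 - (n : ℤ) + (nE l : ℤ) - (nF l c' : ℤ) := by
    intro c'
    rw [Pool.Agent.BEO.nE_eq hl, Pool.Agent.BEO.nF_eq hl hG hn c']
    unfold Pool.Agent.Helper35.OG.GMap.eg
    rw [hcard]
  refine ⟨?_, ?_⟩
  · intro lam'
    obtain ⟨lam'', ⟨c, hc, rfl⟩, _, _, hle⟩ := hT n G S l hl hG hn h3 hk false ∅ lam'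
      (fun e he => absurd he (notMem_empty e)) (subset_univ _) (fun h => absurd h (by simp))
    rw [empty_union, empty_union] at hle
    have h1 := (bst_head (nF l) (ent (cc k) (mm (cc k)) k T l) c [] hc).2
    have h2 : (nF l c : ℤ) ≤ nF l (bst0 (cc k) (mm (cc k)) k T l) := by exact_mod_cast h1
    refine le_trans ?_ hle
    rw [heg, heg]
    linarith
  · obtain ⟨lam0, h0⟩ := exists_ori hG S
    obtain ⟨lam1, h1, hmin1⟩ := exists_min_image
      ((univ : Finset (Finset G.edgeSet)).filter fun lam => (twist S lam).Orientable)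
      (fun lam => (twist S lam).eg) ⟨lam0, mem_filter.2 ⟨mem_univ _, h0⟩⟩
    obtain ⟨lam2, ⟨c, hc, rfl⟩, _, hO, hle⟩ := hT n G S l hl hG hn h3 hk true ∅ lam1
      (fun e he => absurd he (notMem_empty e)) (subset_univ _)
      (fun _ => by rw [empty_union]; exact (mem_filter.1 h1).2)
    rw [empty_union, empty_union] at hle
    have ho : (twist S (lamOf G c)).Orientable := by
      have h2 := hO rfl
      rwa [empty_union] at h2
    have he := gen_eq' hG h3 S (lamOf G c) ho
      (fun lam' h' => hle.trans (hmin1 lam' (mem_filter.2 ⟨mem_univ _, h'⟩)))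
    have hle2 : ∀ c' : List Ec, isO l c' = true → nF l c' + n + 2 * orientableGenus G ≤ 2 + nE l := by
      intro c' hc'
      obtain ⟨g, hg1, hg2⟩ := gen_le' hG _ ((Pool.Agent.BEO.isO_iff hl hG hn c').1 hc')
      rw [heg c'] at hg1
      omega
    have hopt : isO l c = true := by
      rw [Pool.Agent.BEO.isO_iff hl hG hn c]
      exact ho
    have heq : nF l c + n + 2 * orientableGenus G = 2 + nE l := by
      have h2 := heg c
      rw [he] at h2
      omega
    have hbest : bst1 (cc k) (mm (cc k)) k T l + n + 2 * orientableGenus G = 2 + nE l := by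
      apply le_antisymm
      · have h2 : bst1 (cc k) (mm (cc k)) k T l ≤ 2 + nE l - (n + 2 * orientableGenus G) := by
          unfold bst1
          apply spP_foldl_max_le
          · exact Nat.zero_le _
          · intro x hx
            obtain ⟨c', hc', rfl⟩ := List.mem_map.1 hx
            by_cases h4 : isO l c' = true
            · rw [if_pos h4]
              have := hle2 c' h4
              omega
            · rw [if_neg h4]
              exact Nat.zero_le _
        omega
      · have h2 : nF l c ≤ bst1 (cc k) (mm (cc k)) k T l := by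
          unfold bst1
          apply spP_le_foldl_max
          rw [List.mem_map]
          refine ⟨c, hc, ?_⟩
          rw [if_pos hopt]
        omega
    unfold genN
    rw [Pool.Agent.BEO.nV_eq hl hG hn]
    omega

end Pool.Agent.SCG
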