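import Pool.Agent.SCG.HMin
import Pool.Agent.SCG.HCod
import Pool.Agent.SCG.HTw
import Pool.Agent.SCG.SpP
import Pool.Agent.SCG.SpB

/-!
# SCG-HStq: one step of the embedding algorithm

PLAN. Let `e = (a, b)` with `G.Adj a b`. If `G1.Adj a b` put `G2 := G1`, otherwise `G2 := G1` with the edge `a b`
(`AddE`). `Lists G2 (B ++ [e])`. `l := twl (std (B ++ [e])) c` codes `S2 := twist (stdM G2) (lamOf G2 c)` (`std_codes`,
`twl_codes`). `S2.eg ≤ (twist (stdM G1) (lamOf G1 c)).eg + 2` (`rank_add`: the restriction of `lamOf G2 c` to the edges of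
`G1` is `lamOf G1 c` because `ec (eI e) = ec e`), which is at most `k + 2` by optimality and `sub_twist`. `hT` is
`best_spec (k + 2)` for this graph and map: the twist of `S2` by `lamOf G2 c'`, `c' := bst0 ..`, is optimal among all
twists of `S2`; `twist_twist`, `lamOf_append`, `lamOf_nrm` give the optimality of `nrm l (c ++ c')` for `stdM G2`.
The elements of `nrm` are edge codes (`mem_nrm`, `mem_edl`).
-/

set_option autoImplicit false

open Finset
open scoped Classical

namespace Pool.Agent.SCG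

open Pool.Agent.Helper35.OG (Flag GMap across side)
open Pool.Agent.BEO (F2 ed rp cyc ev twist tph frm nb cod Codes ec lamOf Inp Ec Pt nxc fl)

variable {n : ℕ}

/-- the state of the embedding algorithm: a connected subgraph and an optimal set of edges -/
def Inv (G : SimpleGraph (Fin n)) (s : Adl × List Ec) : Prop :=
  ∃ G1 : SimpleGraph (Fin n), G1 ≤ G ∧ G1.Connected ∧ Lists G1 s.1 ∧
    ∀ lam, (twist (stdM G1) (lamOf G1 s.2)).eg ≤ (twist (stdM G1) lam).eg

private theorem mem_lamOf {G : SimpleGraph (Fin n)} (c : List Ec) (e : G.edgeSet) :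
    e ∈ lamOf G c ↔ Pool.Agent.BEO.par c (ec e) = true := by
  unfold lamOf
  rw [mem_filter]
  exact ⟨fun h => h.2, fun h => ⟨mem_univ _, h⟩⟩

private theorem ec_eI {G1 G2 : SimpleGraph (Fin n)} (h : G1 ≤ G2) (e : G1.edgeSet) : ec (eI h e) = ec e := by
  have h1 : ed (fI h (rp e)) = eI h e := by
    have h2 : eI h (ed (rp e)) = eI h e := by rw [Pool.Agent.BEO.ed_rp]
    rw [← h2]
    rfl
  rw [← h1, ← Pool.Agent.BEO.ek_cod]
  rfl

/-- the step for a graph whose map has a small Euler genus -/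
private theorem step {G : SimpleGraph (Fin n)} (k T : ℕ)
    (hT : ∀ (G2 : SimpleGraph (Fin n)) (S : GMap G2) (l : Inp), Codes S l → G2.Connected → G2 ≤ G →
      S.eg ≤ ((k + 2 : ℕ) : ℤ) → ∀ lam',
        (twist S (lamOf G2 (bst0 (cc (k + 2)) (mm (cc (k + 2))) (k + 2) T l))).eg ≤ (twist S lam').eg)
    (s : Adl × List Ec) (e : ℕ × ℕ) (G2 : SimpleGraph (Fin n)) (hle : G2 ≤ G) (hc : G2.Connected)
    (hl : Lists G2 (s.1 ++ [e])) (hg : (twist (stdM G2) (lamOf G2 s.2)).eg ≤ ((k + 2 : ℕ) : ℤ)) :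
    Inv G (stq (cc (k + 2)) (mm (cc (k + 2))) (k + 2) T s e) := by
  have hcod := twl_codes (std_codes hl) s.2
  refine ⟨G2, hle, hc, hl, fun lam => ?_⟩
  have h1 := hT G2 _ _ hcod hc hle hg (symmDiff (lamOf G2 s.2) lam)
  rw [twist_twist, twist_twist, symmDiff_symmDiff_cancel_left, ← lamOf_append, ← lamOf_nrm hcod] at h1
  exact h1

theorem stq_inv {G : SimpleGraph (Fin n)} (hn : 2 ≤ n) (hv : ∀ v, (nb G v).card ≤ 3) (M : GMap G) (k T : ℕ)
    (hk : M.eg ≤ k)
    (hT : ∀ (G2 : SimpleGraph (Fin n)) (S : GMap G2) (l : Inp), Codes S l → G2.Connected → G2 ≤ G →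
      S.eg ≤ ((k + 2 : ℕ) : ℤ) → ∀ lam',
        (twist S (lamOf G2 (bst0 (cc (k + 2)) (mm (cc (k + 2))) (k + 2) T l))).eg ≤ (twist S lam').eg)
    (s : Adl × List Ec) (h : Inv G s) (a b : Fin n) (hab : G.Adj a b) :
    Inv G (stq (cc (k + 2)) (mm (cc (k + 2))) (k + 2) T s ((a : ℕ), (b : ℕ))) := by
  obtain ⟨G1, hle, hcon, hlist, hopt⟩ := h
  obtain ⟨lam, hlam⟩ := sub_twist hn hv hle hcon M k hk
  have hk1 : (twist (stdM G1) (lamOf G1 s.2)).eg ≤ k := (hopt lam).trans hlam
  by_cases h1 : G1.Adj a b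
  · refine step k T hT s _ G1 hle hcon ⟨?_, ?_⟩ ?_
    · intro u v
      rw [List.mem_append, List.mem_append, List.mem_singleton, List.mem_singleton, hlist.1 u v]
      constructor
      · rintro (h2 | h2)
        · exact Or.inl (Or.inl h2)
        · exact Or.inr (Or.inl h2)
      · rintro ((h2 | h2) | (h2 | h2))
        · exact Or.inl h2
        · obtain ⟨h3, h4⟩ := Prod.mk.inj h2
          have h5 : u = a := Fin.ext h3
          have h6 : v = b := Fin.ext h4
          rw [h5, h6]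
          exact (hlist.1 a b).1 h1
        · exact Or.inr h2
        · obtain ⟨h3, h4⟩ := Prod.mk.inj h2
          have h5 : v = a := Fin.ext h3
          have h6 : u = b := Fin.ext h4
          rw [h5, h6]
          exact ((hlist.1 a b).1 h1).symm
    · intro x hx
      rw [List.mem_append, List.mem_singleton] at hx
      rcases hx with hx | rfl
      · exact hlist.2 x hx
      · exact ⟨a, b, h1, rfl⟩
    · push_cast
      linarith
  · obtain ⟨G2, hG2⟩ : ∃ G2 : SimpleGraph (Fin n), ∀ u v, G2.Adj u v ↔ G1.Adj u v ∨ (u = a ∧ v = b) ∨ (u = b ∧ v = a) := by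
      refine ⟨⟨fun u v => G1.Adj u v ∨ (u = a ∧ v = b) ∨ (u = b ∧ v = a), ?_, ?_⟩, fun u v => Iff.rfl⟩
      · refine ⟨?_⟩
        rintro u v (h2 | ⟨h2, h3⟩ | ⟨h2, h3⟩)
        · exact Or.inl h2.symm
        · exact Or.inr (Or.inr ⟨h3, h2⟩)
        · exact Or.inr (Or.inl ⟨h3, h2⟩)
      · refine ⟨?_⟩
        rintro u (h2 | ⟨h2, h3⟩ | ⟨h2, h3⟩)
        · exact G1.irrefl h2
        · exact hab.ne (h2.symm.trans h3)
        · exact hab.ne (h3.symm.trans h2)
    have hadd : AddE G1 G2 a b := ⟨hab.ne, h1, hG2⟩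
    have hle2 : G2 ≤ G := by
      intro u v huv
      rcases (hG2 u v).1 huv with h2 | ⟨rfl, rfl⟩ | ⟨rfl, rfl⟩
      · exact hle h2
      · exact hab
      · exact hab.symm
    have hcon2 : G2.Connected := hcon.mono (addE_le hadd)
    refine step k T hT s _ G2 hle2 hcon2 ⟨?_, ?_⟩ ?_
    · intro u v
      rw [List.mem_append, List.mem_append, List.mem_singleton, List.mem_singleton, hG2, hlist.1 u v]
      constructor
      · rintro ((h2 | h2) | ⟨rfl, rfl⟩ | ⟨rfl, rfl⟩)
        · exact Or.inl (Or.inl h2)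
        · exact Or.inr (Or.inl h2)
        · exact Or.inl (Or.inr rfl)
        · exact Or.inr (Or.inr rfl)
      · rintro ((h2 | h2) | (h2 | h2))
        · exact Or.inl (Or.inl h2)
        · obtain ⟨h3, h4⟩ := Prod.mk.inj h2
          exact Or.inr (Or.inl ⟨Fin.ext h3, Fin.ext h4⟩)
        · exact Or.inl (Or.inr h2)
        · obtain ⟨h3, h4⟩ := Prod.mk.inj h2
          exact Or.inr (Or.inr ⟨Fin.ext h4, Fin.ext h3⟩)
    · intro x hx
      rw [List.mem_append, List.mem_singleton] at hx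
      rcases hx with hx | rfl
      · obtain ⟨u, v, huv, rfl⟩ := hlist.2 x hx
        exact ⟨u, v, (hG2 u v).2 (Or.inl huv), rfl⟩
      · exact ⟨a, b, (hG2 a b).2 (Or.inr (Or.inl ⟨rfl, rfl⟩)), rfl⟩
    · have h2 := (rank_add hadd hcon hcon2 hn (lamOf G2 s.2)).2
      have h3 : (univ.filter fun e => eI (addE_le hadd) e ∈ lamOf G2 s.2) = lamOf G1 s.2 := by
        ext e
        rw [mem_filter, mem_lamOf, mem_lamOf, ec_eI]
        exact ⟨fun h => h.2, fun h => ⟨mem_univ _, h⟩⟩
      rw [h3] at h2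
      push_cast
      linarith

end Pool.Agent.SCG
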