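import Pool.Agent.SCG.RB
import Pool.Agent.SCG.RForm

/-!
# SCG-RRk: the rank inequality
-/

set_option autoImplicit false

open Finset
open scoped Classical

namespace Pool.Agent.SCG

open Pool.Agent.BEO (F2 DW Ev oddE)

namespace RDat

variable {k : ℕ} {Φ E Z : Type} [Fintype Φ] [Fintype E] [AddCommGroup Z] [Module F2 Z] [Module.Finite F2 Z]
  (D : RDat k Φ E Z)

/-- the common kernel of the coordinates -/
private def VA : Submodule F2 Z := ⨅ e, LinearMap.ker (D.a e)

/-- the span of the boundaries of the ordinary faces -/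
private def VB : Submodule F2 Z := Submodule.span F2 (Set.range fun F : {F : Φ // F ∉ D.B} => D.z F.1)

omit [Module.Finite F2 Z] in
private theorem mem_VA (x : Z) : x ∈ D.VA ↔ ∀ e, D.a e x = 0 := by
  unfold VA
  rw [Submodule.mem_iInf]
  exact Iff.rfl

omit [Module.Finite F2 Z] in
private theorem rad_VB (x y : Z) (hy : y ∈ D.VB) : D.J x y = 0 := by
  refine Submodule.span_induction (p := fun y _ => D.J x y = 0) ?_ (map_zero _) ?_ ?_ hy
  · rintro _ ⟨F, rfl⟩
    exact D.rad F.1 F.2 x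
  · intro u v _ _ hu hv
    rw [map_add, hu, hv, add_zero]
  · intro c u _ hu
    rw [map_smul, hu, smul_zero]

omit [Module.Finite F2 Z] in
private theorem cross (lam : Finset E) (x y : Z) (hx : x ∈ D.VA) (hy : y ∈ D.VB) : D.N lam x y = 0 := by
  rw [D.N_apply, D.rad_VB x y hy, zero_add]
  refine Finset.sum_eq_zero fun e _ => ?_
  rw [(D.mem_VA x).1 hx e, zero_mul]

private theorem big : Module.finrank F2 Z ≤ Module.finrank F2 (D.VA ⊔ D.VB : Submodule F2 Z) + k := by
  have h1 := Subspace.finrank_add_finrank_dualAnnihilator_eq (D.VA ⊔ D.VB : Submodule F2 Z)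
  have h2 : (D.VA ⊔ D.VB : Submodule F2 Z).dualAnnihilator ≤ clsH D.a D.z D.B := by
    intro φ hφ
    rw [Submodule.mem_dualAnnihilator] at hφ
    refine Submodule.mem_inf.2 ⟨?_, ?_⟩
    · refine mem_span_of_iInf_ker_le_ker ?_
      intro x hx
      exact hφ x (Submodule.mem_sup_left hx)
    · intro F hF
      exact hφ _ (Submodule.mem_sup_right (Submodule.subset_span ⟨⟨F, hF⟩, rfl⟩))
  have h3 := Submodule.finrank_mono h2
  have h4 := D.dimH
  have h5 : Module.finrank F2 (D.VA ⊔ D.VB : Submodule F2 Z) +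
      Module.finrank F2 (D.VA ⊔ D.VB : Submodule F2 Z).dualAnnihilator = Module.finrank F2 Z := h1
  have h6 : Module.finrank F2 (D.VA ⊔ D.VB : Submodule F2 Z).dualAnnihilator ≤
      Module.finrank F2 (clsH D.a D.z D.B) := h3
  omega

private theorem split (lam : Finset E) :
    rkOn (D.N lam) (D.VA ⊔ D.VB) = rkOn D.J D.VA + rkOn (D.N lam) D.VB := by
  rw [rk_block (D.N lam) D.VA D.VB (fun x hx y hy => D.cross lam x y hx hy)
    (fun x hx y hy => by rw [D.N_symm]; exact D.cross lam x y hx hy)]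
  congr 1
  refine rk_congr _ _ _ fun x hx y _ => ?_
  rw [D.N_apply, Finset.sum_eq_zero (fun e _ => by rw [(D.mem_VA x).1 hx e, zero_mul]), add_zero]

theorem rank_ineq (lam mu : Finset E) : D.rkN mu + D.gI lam ≤ D.rkN lam + mu.card + 2 * k := by
  have h1 : D.rkN mu ≤ rkOn (D.N mu) (D.VA ⊔ D.VB) + 2 * k := rk_le_sub (D.N mu) _ k D.big
  have h2 : rkOn (D.N lam) (D.VA ⊔ D.VB) ≤ D.rkN lam := rk_sub (D.N lam) _
  rw [D.split] at h1 h2
  have h3 : rkOn (D.N lam) D.VB = D.gI lam := rk_gram (D.N lam) fun F : {F : Φ // F ∉ D.B} => D.z F.1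
  have h4 : rkOn (D.N mu) D.VB ≤ mu.card := by
    refine rk_sum (D.N mu) D.VB mu D.a fun x _ y hy => ?_
    rw [D.N_apply, D.rad_VB x y hy, zero_add]
  omega

end RDat

end Pool.Agent.SCG
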