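import Pool.Agent.SCG.RTw
import Pool.Agent.SCG.RRk

/-!
# SCG-ROpt0: inside a piece a set of least rank and least size is bounded
-/

set_option autoImplicit false

open Finset
open scoped Classical

namespace Pool.Agent.SCG

open Pool.Agent.BEO (F2 DW Ev oddE)

private theorem ropt0_term {k : ℕ} {Φ E Z : Type} [Fintype Φ] [Fintype E] [AddCommGroup Z]
    [Module F2 Z] (D : RDat k Φ E Z) (e : E) {u x : Φ} (hl : D.s e ≠ D.t e) (hux : u ≠ x) :
    D.a e (D.z u) * D.a e (D.z x) =
      if (D.s e = u ∧ D.t e = x) ∨ (D.s e = x ∧ D.t e = u) then 1 else 0 := by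
  rw [D.inc, D.inc]
  by_cases c1 : D.s e = u
  · have c2 : D.t e ≠ u := fun h => hl (c1.trans h.symm)
    have c3 : D.s e ≠ x := fun h => hux (c1.symm.trans h)
    by_cases c4 : D.t e = x
    · rw [if_pos c1, if_neg c2, if_neg c3, if_pos c4, if_pos (Or.inl ⟨c1, c4⟩)]
      ring
    · rw [if_pos c1, if_neg c2, if_neg c3, if_neg c4, if_neg]
      · ring
      · rintro (⟨_, h⟩ | ⟨h, _⟩)
        · exact c4 h
        · exact c3 h
  · by_cases c2 : D.t e = u
    · have c3 : D.t e ≠ x := fun h => hux (c2.symm.trans h)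
      by_cases c4 : D.s e = x
      · rw [if_neg c1, if_pos c2, if_pos c4, if_neg c3, if_pos (Or.inr ⟨c4, c2⟩)]
        ring
      · rw [if_neg c1, if_pos c2, if_neg c4, if_neg c3, if_neg]
        · ring
        · rintro (⟨h, _⟩ | ⟨h, _⟩)
          · exact c1 h
          · exact c4 h
    · rw [if_neg c1, if_neg c2, add_zero, zero_mul, if_neg]
      rintro (⟨h, _⟩ | ⟨_, h⟩)
      · exact c1 h
      · exact c2 h

private theorem ropt0_N {k : ℕ} {Φ E Z : Type} [Fintype Φ] [Fintype E] [AddCommGroup Z]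
    [Module F2 Z] [Module.Finite F2 Z] (D : RDat k Φ E Z) {lam : Finset E} (h : D.Min0 lam)
    {u x : Φ} (huB : u ∉ D.B) (hux : u ≠ x) :
    D.N lam (D.z u) (D.z x) = if (D.gr lam).Adj u x then 1 else 0 := by
  rw [D.N_apply, D.J_z' _ u huB, zero_add]
  have h1 : ∑ e ∈ lam, D.a e (D.z u) * D.a e (D.z x) = ∑ e ∈ lam,
      if (D.s e = u ∧ D.t e = x) ∨ (D.s e = x ∧ D.t e = u) then (1 : F2) else 0 :=
    sum_congr rfl fun e he => ropt0_term D e (D.no_loop0 h e he) hux
  rw [h1]
  by_cases hadj : (D.gr lam).Adj u x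
  · rw [if_pos hadj]
    obtain ⟨_, e0, he0, h0⟩ := hadj
    rw [sum_eq_single e0]
    · rw [if_pos h0]
    · intro e he hne
      rw [if_neg]
      intro h2
      apply hne
      apply D.no_digon0 h e e0 he he0
      have h3 : s(D.s e, D.t e) = s(u, x) := Sym2.eq_iff.2 h2
      have h4 : s(D.s e0, D.t e0) = s(u, x) := Sym2.eq_iff.2 h0
      rw [h3, h4]
    · intro h2
      exact absurd he0 h2
  · rw [if_neg hadj]
    refine sum_eq_zero fun e he => ?_
    rw [if_neg]
    intro h2
    exact hadj ⟨hux, e, he, h2⟩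

private theorem ropt0_card {k : ℕ} {Φ E Z : Type} [Fintype Φ] [Fintype E] [AddCommGroup Z]
    [Module F2 Z] [Module.Finite F2 Z] (D : RDat k Φ E Z) {lam : Finset E} (h : D.Min0 lam) :
    (univ.filter (fun u : {F : Φ // F ∉ D.B} => ∃ x, (D.gr lam).Adj u.1 x)).card ≤
      2 ^ (3 * k) := by
  have hg : D.gI lam ≤ 2 * k := by
    have h1 := D.rank_ineq lam ∅
    have h2 := h.opt ∅
    rw [card_empty] at h1
    omega
  set W := Submodule.span F2 (Set.range fun (F G : {F : Φ // F ∉ D.B}) =>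
    D.N lam (D.z F.1) (D.z G.1)) with hW
  have hgW : Module.finrank F2 W ≤ 2 * k := hg
  let f : {F : Φ // F ∉ D.B} → W × {A : Finset Φ // A ∈ D.B.powerset} := fun u =>
    (⟨fun G => D.N lam (D.z u.1) (D.z G.1), Submodule.subset_span ⟨u, rfl⟩⟩,
      ⟨D.B.filter (fun x => (D.gr lam).Adj u.1 x), mem_powerset.2 (filter_subset _ _)⟩)
  have hinj : Set.InjOn f
      (univ.filter (fun u : {F : Φ // F ∉ D.B} => ∃ x, (D.gr lam).Adj u.1 x) :
        Finset {F : Φ // F ∉ D.B}) := by
    intro u hu v _ huv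
    have hu' := (mem_filter.1 (mem_coe.1 hu)).2
    by_contra hne
    have hne' : u.1 ≠ v.1 := fun h2 => hne (Subtype.ext h2)
    have e1 : (fun G : {F : Φ // F ∉ D.B} => D.N lam (D.z u.1) (D.z G.1)) =
        fun G => D.N lam (D.z v.1) (D.z G.1) :=
      congrArg (fun p : W × {A : Finset Φ // A ∈ D.B.powerset} => p.1.1) huv
    have e2 : D.B.filter (fun x => (D.gr lam).Adj u.1 x) =
        D.B.filter (fun x => (D.gr lam).Adj v.1 x) :=
      congrArg (fun p : W × {A : Finset Φ // A ∈ D.B.powerset} => p.2.1) huv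
    apply D.no_twin0 h u.1 v.1 u.2 hne' hu'
    intro x hxu hxv
    by_cases hxB : x ∈ D.B
    · constructor
      · intro h3
        have h4 : x ∈ D.B.filter (fun x => (D.gr lam).Adj u.1 x) := mem_filter.2 ⟨hxB, h3⟩
        rw [e2] at h4
        exact (mem_filter.1 h4).2
      · intro h3
        have h4 : x ∈ D.B.filter (fun x => (D.gr lam).Adj v.1 x) := mem_filter.2 ⟨hxB, h3⟩
        rw [← e2] at h4
        exact (mem_filter.1 h4).2
    · have h3 : D.N lam (D.z u.1) (D.z x) = D.N lam (D.z v.1) (D.z x) :=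
        congrFun e1 ⟨x, hxB⟩
      rw [ropt0_N D h u.2 hxu.symm, ropt0_N D h v.2 hxv.symm] at h3
      constructor
      · intro h4
        rw [if_pos h4] at h3
        by_contra h5
        rw [if_neg h5] at h3
        exact one_ne_zero h3
      · intro h4
        rw [if_pos h4] at h3
        by_contra h5
        rw [if_neg h5] at h3
        exact one_ne_zero h3.symm
  have hfin : Finite (W × {A : Finset Φ // A ∈ D.B.powerset}) := by
    have h1 : Finite W := by
      have h2 : Finite ({F : Φ // F ∉ D.B} → F2) := inferInstance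
      infer_instance
    infer_instance
  letI := Fintype.ofFinite (W × {A : Finset Φ // A ∈ D.B.powerset})
  have h1 := card_le_card_of_injOn f (fun u _ => mem_univ (f u)) hinj
  refine h1.trans ?_
  rw [card_univ, ← Nat.card_eq_fintype_card, Nat.card_prod]
  have h2 : Nat.card {A : Finset Φ // A ∈ D.B.powerset} ≤ 2 ^ k := by
    rw [Nat.card_eq_fintype_card, Fintype.card_coe, card_powerset]
    exact Nat.pow_le_pow_right (by norm_num) D.cardB
  have h3 : Nat.card W ≤ 2 ^ (2 * k) := by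
    rw [Module.natCard_eq_pow_finrank (K := F2), Nat.card_zmod]
    exact Nat.pow_le_pow_right (by norm_num) hgW
  calc Nat.card W * Nat.card {A : Finset Φ // A ∈ D.B.powerset} ≤ 2 ^ (2 * k) * 2 ^ k :=
        Nat.mul_le_mul h3 h2
    _ = 2 ^ (3 * k) := by
        rw [← pow_add]
        congr 1
        ring

theorem exists_opt0 (k : ℕ) : ∃ T : ℕ, ∀ (Φ E Z : Type) [Fintype Φ] [Fintype E] [AddCommGroup Z] [Module F2 Z]
    [Module.Finite F2 Z] (D : RDat k Φ E Z), ∃ lam : Finset E, lam.card ≤ T ∧ ∀ lam', D.rkN lam ≤ D.rkN lam' := by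
  refine ⟨(2 ^ (3 * k) + k) ^ 2, ?_⟩
  intro Φ E Z _ _ _ _ _ D
  obtain ⟨lam, h⟩ := D.exists_min0
  refine ⟨lam, ?_, h.opt⟩
  set S := univ.filter (fun u : {F : Φ // F ∉ D.B} => ∃ x, (D.gr lam).Adj u.1 x) with hS
  have hScard : S.card ≤ 2 ^ (3 * k) := ropt0_card D h
  set S0 := S.image Subtype.val ∪ D.B with hS0
  have hS0card : S0.card ≤ 2 ^ (3 * k) + k := by
    refine (card_union_le _ _).trans ?_
    exact Nat.add_le_add (card_image_le.trans hScard) D.cardB
  have hmem : ∀ F G, (D.gr lam).Adj F G → F ∈ S0 := by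
    intro F G hFG
    rw [hS0, mem_union]
    by_cases hF : F ∈ D.B
    · exact Or.inr hF
    · left
      rw [mem_image]
      exact ⟨⟨F, hF⟩, mem_filter.2 ⟨mem_univ _, G, hFG⟩, rfl⟩
  have h1 : lam.card ≤ (S0 ×ˢ S0).card := by
    refine card_le_card_of_injOn (fun e => (D.s e, D.t e)) ?_ ?_
    · intro e he
      have he' := mem_coe.1 he
      have hadj : (D.gr lam).Adj (D.s e) (D.t e) :=
        ⟨D.no_loop0 h e he', e, he', Or.inl ⟨rfl, rfl⟩⟩
      have h2 : (D.s e, D.t e) ∈ S0 ×ˢ S0 :=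
        mem_product.2 ⟨hmem _ _ hadj, hmem _ _ hadj.symm⟩
      exact_mod_cast h2
    · intro e he e' he' hee
      have h2 : D.s e = D.s e' := congrArg Prod.fst hee
      have h3 : D.t e = D.t e' := congrArg Prod.snd hee
      refine D.no_digon0 h e e' (mem_coe.1 he) (mem_coe.1 he') ?_
      rw [h2, h3]
  rw [card_product] at h1
  refine h1.trans ?_
  rw [pow_two]
  exact Nat.mul_le_mul hS0card hS0card

end Pool.Agent.SCG
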