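import Pool.Agent.SCG.RTop
import Pool.Agent.SCG.ROpt0

/-!
# SCG-Leaf0: complete families for good pieces, Euler genus
-/

set_option autoImplicit false

open Finset
open scoped Classical

namespace Pool.Agent.SCG

open Pool.Agent.Helper35.OG (Flag GMap across side)
open Pool.Agent.BEO (F2 DW Ev oddE ed rp cyc ev bdF frm twist)

theorem leaf_cpl0 (k : ℕ) : ∃ T : ℕ, ∀ (V : Type) [Fintype V] [LinearOrder V] [Nontrivial V] (G : SimpleGraph V)
    (_ : G.Connected) (S : GMap G) (In : Finset G.edgeSet), GoodIn S In → S.eg + ((Bf S In).card : ℤ) ≤ k →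
      Cpl S In false {lam | lam.card ≤ T} := by
  obtain ⟨T, hT⟩ := exists_opt0 k
  refine ⟨T, ?_⟩
  intro V _ _ _ G hG S In hg hk lo lam hlo hlam _
  obtain ⟨mu, hmu, hopt⟩ := hT S.Face {e : G.edgeSet // e ∈ In} (cyc G) (mkR hG S In lo hlo k hk hg)
  refine ⟨mu.map (Function.Embedding.subtype _), ?_, ?_, ?_, ?_⟩
  · show (mu.map (Function.Embedding.subtype _)).card ≤ T
    rw [Finset.card_map]
    exact hmu
  · intro e he
    rw [Finset.mem_map] at he
    obtain ⟨e', _, rfl⟩ := he
    exact e'.2
  · intro h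
    exact absurd h (by decide)
  · have h1 := hopt (lam.subtype (· ∈ In))
    have h2 : (lam.subtype (· ∈ In)).map (Function.Embedding.subtype _) = lam := by
      rw [Finset.subtype_map]
      exact Finset.filter_true_of_mem fun e he => hlam he
    have h3 := mkR_rk hG S In lo hlo k hk hg mu
    have h4 := mkR_rk hG S In lo hlo k hk hg (lam.subtype (· ∈ In))
    rw [h2] at h4
    rw [← h3, ← h4]
    exact_mod_cast h1

end Pool.Agent.SCG
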