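import Pool.Agent.SCG.RDat
import Pool.Agent.BEO.LegB
import Pool.Agent.BEO.DWB

/-!
# SCG-RLeg: relative legs

A set of edges with a bounded number of relatively even subsets is the disjoint union of a bounded number of lists such
that every relatively even subset is a union of some of them, and every list is the concatenation of two walks of the
dual graph.

PLAN. Contract `B`: `π F := if F ∈ B then none else some F : Option Φ`, `s' := π ∘ s`, `t' := π ∘ t`. `quo_ev`:
`Ev s' t' ν ↔ REv s t B ν` (at `some F`, `F ∉ B`: the same sum; at `some F`, `F ∈ B`: no term; at `none`: the sum of all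
the degrees is `∑ e ∈ ν, (1 + 1) = 0`, so it is the sum of the others). `exists_legs` for `s', t'` gives `L : LegSys` with
`m ≤ 2 c`. `lift`: a list `l = e1 ... er` with `DW s' t' x y l` such that no proper nonempty prefix is a walk from `x` to
`none` satisfies `∃ F G, DW s t F G l` with `π F = x` (`l ≠ []`) (induction on the walk with generalised start: the first
edge joins `F` to `G'` with `π G' ≠ none` unless the list ends, so `G'` is determined). For a leg `l` take the shortest
proper nonempty prefix `l1` from `x` to `none`, if there is one, `l = l1 ++ l2`: if `l2` had again a proper nonempty prefix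
from `none` to `none`, this prefix would be a relatively even (`DW.bd` for `s', t'`, `nd`) proper nonempty part of the leg,
contradicting `un`; the same if `x = none` for `l1`. Otherwise `l2 := []`.
-/

set_option autoImplicit false

open Finset
open scoped Classical

namespace Pool.Agent.SCG

open Pool.Agent.BEO (F2 DW Ev oddE LegSys exists_legs)

variable {Φ E : Type} [Fintype Φ] {s t : E → Φ} {lam : Finset E}

/-- the contraction of `B` -/
noncomputable def pi (B : Finset Φ) (F : Φ) : Option Φ := if F ∈ B then none else some F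

omit [Fintype Φ] in
private theorem pi_eq_some {B : Finset Φ} {F G : Φ} (h : pi B F = some G) : F = G := by
  unfold pi at h
  by_cases hF : F ∈ B
  · rw [if_pos hF] at h
    exact absurd h (by simp)
  · rw [if_neg hF] at h
    exact Option.some.inj h

omit [Fintype Φ] in
private theorem pi_some_iff {B : Finset Φ} {F G : Φ} (hG : G ∉ B) : pi B F = some G ↔ F = G := by
  constructor
  · exact pi_eq_some
  · rintro rfl
    unfold pi
    rw [if_neg hG]

omit [Fintype Φ] in
private theorem pi_not_mem {B : Finset Φ} {F G : Φ} (h : pi B F = some G) : G ∉ B := by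
  have h1 := pi_eq_some h
  subst h1
  intro hF
  unfold pi at h
  rw [if_pos hF] at h
  exact absurd h (by simp)

private noncomputable def gg (s t : E → Φ) (B : Finset Φ) (X : Option Φ) (e : E) : F2 :=
  (@ite F2 (pi B (s e) = X) (Classical.propDecidable _) 1 0) +
    (@ite F2 (pi B (t e) = X) (Classical.propDecidable _) 1 0)

omit [Fintype Φ] in
private theorem gg_ev (B : Finset Φ) (ν : Finset E) :
    Ev (fun e => pi B (s e)) (fun e => pi B (t e)) ν ↔ ∀ X, ∑ e ∈ ν, gg s t B X e = 0 := Iff.rfl

omit [Fintype Φ] in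
private theorem gg_some {B : Finset Φ} {F : Φ} (hF : F ∉ B) (e : E) :
    gg s t B (some F) e = (if s e = F then 1 else 0) + (if t e = F then 1 else 0) := by
  unfold gg
  simp only [pi_some_iff hF]

omit [Fintype Φ] in
private theorem gg_mem {B : Finset Φ} {F : Φ} (hF : F ∈ B) (e : E) :
    gg s t B (some F) e = 0 := by
  unfold gg
  rw [if_neg (fun h1 => pi_not_mem h1 hF), if_neg (fun h1 => pi_not_mem h1 hF), add_zero]

private theorem ite_sum (Y : Option Φ) :
    ∑ X : Option Φ, (@ite F2 (Y = X) (Classical.propDecidable _) 1 0) = 1 := by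
  rw [Finset.sum_eq_single Y, if_pos rfl]
  · intro X _ hX
    rw [if_neg (fun h => hX h.symm)]
  · intro h
    exact absurd (mem_univ _) h

private theorem gg_sum (B : Finset Φ) (e : E) : ∑ X : Option Φ, gg s t B X e = 0 := by
  unfold gg
  rw [Finset.sum_add_distrib, ite_sum, ite_sum]
  exact CharTwo.add_self_eq_zero 1

theorem quo_ev (B : Finset Φ) (ν : Finset E) :
    Ev (fun e => pi B (s e)) (fun e => pi B (t e)) ν ↔ REv s t B ν := by
  rw [gg_ev]
  constructor
  · intro h F hF
    refine Eq.trans ?_ (h (some F))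
    exact Finset.sum_congr rfl fun e _ => (gg_some hF e).symm
  · intro h
    have hsome : ∀ F : Φ, ∑ e ∈ ν, gg s t B (some F) e = 0 := by
      intro F
      by_cases hF : F ∈ B
      · exact Finset.sum_eq_zero fun e _ => gg_mem hF e
      · refine Eq.trans ?_ (h F hF)
        exact Finset.sum_congr rfl fun e _ => gg_some hF e
    intro X
    cases X with
    | some F => exact hsome F
    | none =>
      have h1 : ∑ X : Option Φ, ∑ e ∈ ν, gg s t B X e = 0 := by
        rw [Finset.sum_comm]
        exact Finset.sum_eq_zero fun e _ => gg_sum B e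
      rw [Fintype.sum_option, Finset.sum_eq_zero (fun F _ => hsome F), add_zero] at h1
      exact h1

omit [Fintype Φ] in
private theorem lift (B : Finset Φ) {x y : Option Φ} {l : List E}
    (h : DW (fun e => pi B (s e)) (fun e => pi B (t e)) x y l) :
    (∀ l1 l2, l = l1 ++ l2 → l1 ≠ [] → l2 ≠ [] →
      ¬ DW (fun e => pi B (s e)) (fun e => pi B (t e)) x none l1) → l ≠ [] →
    ∃ F G, DW s t F G l ∧ pi B F = x := by
  induction h with
  | nil x => exact fun _ h => absurd rfl h
  | cons x x' y e l' he hl' ih =>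
    intro hp _
    by_cases hl : l' = []
    · subst hl
      rcases he with ⟨h1, h2⟩ | ⟨h1, h2⟩
      · exact ⟨s e, t e, Pool.Agent.BEO.DW.single e, h1⟩
      · exact ⟨t e, s e, DW.cons _ _ _ e [] (Or.inr ⟨rfl, rfl⟩) (DW.nil _), h2⟩
    · have hx' : x' ≠ none := by
        intro hx
        refine hp [e] l' rfl (by simp) hl ?_
        rw [← hx]
        exact DW.cons _ _ _ e [] he (DW.nil _)
      obtain ⟨F', G', hFG, hF'⟩ := ih (by
        intro l1 l2 h12 h1 h2 hd
        refine hp (e :: l1) l2 (by rw [h12]; rfl) (by simp) h2 ?_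
        exact DW.cons _ _ _ e l1 he hd) hl
      obtain ⟨F2', hF2⟩ := Option.ne_none_iff_exists'.1 hx'
      have hF3 : F' = F2' := pi_eq_some (hF'.trans hF2)
      subst hF3
      rcases he with ⟨h1, h2⟩ | ⟨h1, h2⟩
      · have h3 : t e = F' := pi_eq_some (h2.trans hF2)
        exact ⟨s e, G', DW.cons _ F' _ e l' (Or.inl ⟨rfl, h3⟩) hFG, h1⟩
      · have h3 : s e = F' := pi_eq_some (h1.trans hF2)
        exact ⟨t e, G', DW.cons _ F' _ e l' (Or.inr ⟨h3, rfl⟩) hFG, h2⟩

private theorem DW_det {Ψ : Type} {a b : E → Ψ} {x y y' : Ψ} {l : List E} (h : DW a b x y l)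
    (h' : DW a b x y' l) : y = y' := by
  induction h with
  | nil x =>
    cases h'
    rfl
  | cons x x' y e l he _ ih =>
    cases h' with
    | cons _ x'' _ _ _ he' hl' =>
      have : x' = x'' := by
        rcases he with ⟨h1, h2⟩ | ⟨h1, h2⟩ <;> rcases he' with ⟨h3, h4⟩ | ⟨h3, h4⟩
        · exact h2.symm.trans h4
        · rw [← h2, h4, ← h1, h3]
        · rw [← h1, h3, ← h2, h4]
        · exact h1.symm.trans h3
      subst this
      exact ih hl'

private theorem DW_split {Ψ : Type} {a b : E → Ψ} (l1 : List E) : ∀ {x y : Ψ} {l2 : List E},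
    DW a b x y (l1 ++ l2) → ∃ z, DW a b x z l1 ∧ DW a b z y l2 := by
  induction l1 with
  | nil => exact fun h => ⟨_, DW.nil _, h⟩
  | cons e l1 ih =>
    intro x y l2 h
    cases h with
    | cons _ x' _ _ _ he hl =>
      obtain ⟨z, h1, h2⟩ := ih hl
      exact ⟨z, DW.cons _ _ _ e l1 he h1, h2⟩

theorem rel_legs (B : Finset Φ) (hev : REv s t B lam) (c : ℕ)
    (hc : ((lam.powerset).filter fun ν => REv s t B ν).card ≤ 2 ^ c) :
    ∃ (m : ℕ) (w : Fin m → List E), m ≤ 2 * c ∧ (∀ i, w i ≠ []) ∧ (∀ i, (w i).Nodup) ∧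
      (∀ i j, i ≠ j → ∀ e, e ∈ w i → e ∉ w j) ∧ (∀ e, e ∈ lam ↔ ∃ i, e ∈ w i) ∧
      (∀ ν, ν ⊆ lam → REv s t B ν → ∀ i, (∀ e ∈ w i, e ∈ ν) ∨ (∀ e ∈ w i, e ∉ ν)) ∧
      ∀ i, ∃ l1 l2, w i = l1 ++ l2 ∧ l1 ≠ [] ∧ (∃ F G, DW s t F G l1) ∧ (l2 = [] ∨ ∃ F G, DW s t F G l2) := by
  have hc' : ((lam.powerset).filter fun ν =>
      Ev (fun e => pi B (s e)) (fun e => pi B (t e)) ν).card ≤ 2 ^ c := by
    rw [Finset.filter_congr (fun ν _ => quo_ev (s := s) (t := t) B ν)]
    exact hc
  obtain ⟨m, hm, ⟨L⟩⟩ := exists_legs (s := fun e => pi B (s e)) (t := fun e => pi B (t e))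
    ((quo_ev B lam).2 hev) c hc'
  refine ⟨m, L.w, hm, L.ne, L.nd, L.dj, L.cov,
    fun ν hν hr i => L.un ν hν ((quo_ev B ν).2 hr) i, fun i => ?_⟩
  by_cases hex : ∃ n, ∃ l1 l2, L.w i = l1 ++ l2 ∧ l1 ≠ [] ∧ l2 ≠ [] ∧
      DW (fun e => pi B (s e)) (fun e => pi B (t e)) (L.src i) none l1 ∧ l1.length = n
  · obtain ⟨l1, l2, h1, h2, h3, h4, h5⟩ := Nat.find_spec hex
    have hmin : ∀ l1' l2', l1 = l1' ++ l2' → l1' ≠ [] → l2' ≠ [] →
        ¬ DW (fun e => pi B (s e)) (fun e => pi B (t e)) (L.src i) none l1' := by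
      intro l1' l2' h6 h7 h8 h9
      have hlt : l1'.length < Nat.find hex := by
        rw [← h5, h6, List.length_append]
        have := List.length_pos_iff.2 h8
        omega
      refine Nat.find_min hex hlt ⟨l1', l2' ++ l2, ?_, h7, ?_, h9, rfl⟩
      · rw [h1, h6, List.append_assoc]
      · intro h10
        exact h8 (List.append_eq_nil_iff.1 h10).1
    obtain ⟨F, G, hFG, _⟩ := lift B h4 hmin h2
    have hdw := L.dw i
    rw [h1] at hdw
    obtain ⟨z, hz1, hz2⟩ := DW_split l1 hdw
    have hz : z = none := DW_det hz1 h4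
    subst hz
    have hnd := L.nd i
    rw [h1] at hnd
    have hmin2 : ∀ l1' l2', l2 = l1' ++ l2' → l1' ≠ [] → l2' ≠ [] →
        ¬ DW (fun e => pi B (s e)) (fun e => pi B (t e)) none none l1' := by
      intro p q h6 h7 h8 h9
      have hnd2 : (p ++ q).Nodup := by
        rw [← h6]
        exact (List.nodup_append.1 hnd).2.1
      have hev' : Ev (fun e => pi B (s e)) (fun e => pi B (t e)) p.toFinset := by
        intro X
        rw [List.sum_toFinset _ (List.nodup_append.1 hnd2).1]
        rw [h9.bd X]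
        exact CharTwo.add_self_eq_zero _
      have hsub : ∀ e ∈ p, e ∈ L.w i := by
        intro e he
        rw [h1, h6]
        exact List.mem_append_right _ (List.mem_append_left _ he)
      have hν : p.toFinset ⊆ lam := by
        intro e he
        exact (L.cov e).2 ⟨i, hsub e (List.mem_toFinset.1 he)⟩
      rcases L.un _ hν hev' i with hu | hu
      · obtain ⟨e, he⟩ := List.exists_mem_of_ne_nil _ h8
        have h10 : e ∈ L.w i := by
          rw [h1, h6]
          exact List.mem_append_right _ (List.mem_append_right _ he)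
        have h11 := List.mem_toFinset.1 (hu e h10)
        exact (List.nodup_append.1 hnd2).2.2 e h11 e he rfl
      · obtain ⟨e, he⟩ := List.exists_mem_of_ne_nil _ h7
        exact hu e (hsub e he) (List.mem_toFinset.2 he)
    obtain ⟨F', G', hFG', _⟩ := lift B hz2 hmin2 h3
    exact ⟨l1, l2, h1, h2, ⟨F, G, hFG⟩, Or.inr ⟨F', G', hFG'⟩⟩
  · refine ⟨L.w i, [], (List.append_nil _).symm, L.ne i, ?_, Or.inl rfl⟩
    obtain ⟨F, G, hFG, _⟩ := lift B (L.dw i) (by
      intro l1 l2 h1 h2 h3 h4
      exact hex ⟨l1.length, l1, l2, h1, h2, h3, h4, rfl⟩) (L.ne i)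
    exact ⟨F, G, hFG⟩

end Pool.Agent.SCG
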