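import Pool.Agent.SCG.REvC
import Pool.Agent.SCG.RLeg
import Pool.Agent.SCG.RRepl

/-!
# SCG-ROpt: inside a piece an optimal admissible set is a sum of a bounded number of canonical walks
-/

set_option autoImplicit false

open Finset
open scoped Classical

namespace Pool.Agent.SCG

open Pool.Agent.BEO (F2 DW Ev oddE)

theorem exists_opt (k : ℕ) : ∃ T : ℕ, ∀ (Φ E Z : Type) [Fintype Φ] [Fintype E] [AddCommGroup Z] [Module F2 Z]
    [Module.Finite F2 Z] (D : RDat k Φ E Z) (W : Set (List E)),
    (∀ (F G : Φ) (w : List E), DW D.s D.t F G w → w ≠ [] → ∃ w' ∈ W, w' ≠ [] ∧ w'.length ≤ w.length ∧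
      (w'.length + w.length) % 2 = 0 ∧ (w'.map D.a).sum = (w.map D.a).sum) →
    ∀ lam, D.Adm lam → ∃ l : List (List E), l.length ≤ T ∧ (∀ w ∈ l, w ∈ W) ∧ D.Adm (oddE l.flatten) ∧
      D.rkN (oddE l.flatten) ≤ D.rkN lam := by
  obtain ⟨C, hC⟩ := even_count k
  refine ⟨4 * C, ?_⟩
  intro Φ E Z _ _ _ _ _ D W hW lam hadm
  obtain ⟨lam0, mu, hmin⟩ := D.exists_min lam hadm
  obtain ⟨m, w, hm, hne, hnd, hdj, hcov, hun, hsp⟩ := rel_legs D.B (D.rev_of_adm lam0 hmin.adm) C
    (hC Φ E Z D lam0 mu hmin)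
  have key : ∀ i, ∃ L : List (List E), L.length ≤ 2 ∧ (∀ v ∈ L, v ∈ W) ∧ L.flatten ≠ [] ∧
      L.flatten.length ≤ (w i).length ∧ (L.flatten.length + (w i).length) % 2 = 0 ∧
      (L.flatten.map D.a).sum = ((w i).map D.a).sum := by
    intro i
    obtain ⟨l1, l2, h1, h2, ⟨F, G, h3⟩, h4⟩ := hsp i
    obtain ⟨w1, a1, a2, a3, a4, a5⟩ := hW F G l1 h3 h2
    by_cases h5 : l2 = []
    · refine ⟨[w1], by simp, by simpa using a1, ?_, ?_, ?_, ?_⟩
      · simpa using a2
      · rw [h1, h5]
        simpa using a3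
      · rw [h1, h5]
        simpa using a4
      · rw [h1, h5]
        simpa using a5
    · rcases h4 with h6 | ⟨F', G', h6⟩
      · exact absurd h6 h5
      · obtain ⟨w2, b1, b2, b3, b4, b5⟩ := hW F' G' l2 h6 h5
        refine ⟨[w1, w2], by simp, ?_, ?_, ?_, ?_, ?_⟩
        · intro v hv
          rw [List.mem_cons, List.mem_singleton] at hv
          rcases hv with rfl | rfl
          · exact a1
          · exact b1
        · simp [a2]
        · rw [h1]
          simp only [List.flatten_cons, List.flatten_nil, List.append_nil, List.length_append]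
          omega
        · rw [h1]
          simp only [List.flatten_cons, List.flatten_nil, List.append_nil, List.length_append]
          omega
        · rw [h1]
          simp only [List.flatten_cons, List.flatten_nil, List.append_nil, List.map_append, List.sum_append,
            a5, b5]
  choose LL k1 k2 k3 k4 k5 k6 using key
  obtain ⟨h2, h3⟩ := D.repl lam0 hmin.adm m w (fun i => (LL i).flatten) hne hnd hdj hcov hun k3 k4 k5 k6
  have hfl : (List.ofFn LL).flatten.flatten = (List.ofFn fun i => (LL i).flatten).flatten := by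
    rw [List.flatten_flatten, List.map_ofFn]
    rfl
  refine ⟨(List.ofFn LL).flatten, ?_, ?_, ?_, ?_⟩
  · rw [List.length_flatten, List.map_ofFn, List.sum_ofFn]
    refine (Finset.sum_le_sum (fun i _ => k1 i) : _ ≤ ∑ _ : Fin m, 2).trans ?_
    rw [Finset.sum_const, Finset.card_univ, Fintype.card_fin, smul_eq_mul]
    omega
  · intro v hv
    rw [List.mem_flatten] at hv
    obtain ⟨L, hL, hv⟩ := hv
    rw [List.mem_ofFn] at hL
    obtain ⟨i, rfl⟩ := hL
    exact k2 i v hv
  · rw [hfl]
    exact h2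
  · rw [hfl]
    exact h3.trans (hmin.opt lam hadm)

end Pool.Agent.SCG
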