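import Pool.Agent.SCG.RTop
import Pool.Agent.SCG.ROpt

/-!
# SCG-Leaf1: complete families for good pieces, orientable Euler genus
-/

set_option autoImplicit false

open Finset
open scoped Classical

namespace Pool.Agent.SCG

open Pool.Agent.Helper35.OG (Flag GMap across side)
open Pool.Agent.BEO (F2 DW Ev oddE ed rp cyc ev bdF frm twist)

private theorem lf_dw {Φ E : Type} {p : E → Prop} (s t : E → Φ) {F F' : Φ} {w : List {e : E // p e}}
    (h : DW (fun e : {e : E // p e} => s e.1) (fun e => t e.1) F F' w) :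
    DW s t F F' (w.map Subtype.val) := by
  induction h with
  | nil F => exact DW.nil F
  | cons F G H e l h1 _ ih => exact DW.cons F G H e.1 _ h1 ih

private theorem lf_odd {E E' : Type} [Fintype E] [Fintype E'] (f : E' ↪ E) (w : List E') :
    oddE (w.map f) = (oddE w).map f := by
  ext e
  rw [mem_map]
  unfold oddE
  constructor
  · intro h
    have h1 := (mem_filter.1 h).2
    have h2 : e ∈ w.map f := by
      by_contra hcon
      rw [List.count_eq_zero_of_not_mem hcon] at h1
      exact absurd h1 (by norm_num)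
    obtain ⟨x, _, rfl⟩ := List.mem_map.1 h2
    refine ⟨x, mem_filter.2 ⟨mem_univ _, ?_⟩, rfl⟩
    rw [List.count_map_of_injective _ _ f.injective] at h1
    exact h1
  · rintro ⟨x, hx, rfl⟩
    refine mem_filter.2 ⟨mem_univ _, ?_⟩
    have h1 := (mem_filter.1 hx).2
    rw [List.count_map_of_injective _ _ f.injective]
    exact h1

theorem leaf_cpl1 (k : ℕ) : ∃ T : ℕ, ∀ (V : Type) [Fintype V] [LinearOrder V] [Nontrivial V] (G : SimpleGraph V)
    (_ : G.Connected) (S : GMap G) (In : Finset G.edgeSet), GoodIn S In → S.eg + ((Bf S In).card : ℤ) ≤ k →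
      ∀ W : Set (List G.edgeSet),
      (∀ (F F' : S.Face) (w : List G.edgeSet), DW (fun e => S.face (rp e)) (fun e => S.face (side (rp e))) F F' w →
        w ≠ [] → (∀ e ∈ w, e ∈ In) → ∃ w' ∈ W, w' ≠ [] ∧ (∀ e ∈ w', e ∈ In) ∧ w'.length ≤ w.length ∧
          (w'.length + w.length) % 2 = 0 ∧ (w'.map (ev (G := G))).sum = (w.map (ev (G := G))).sum) →
      Cpl S In true {lam | ∃ l : List (List G.edgeSet), l.length ≤ T ∧ (∀ w ∈ l, w ∈ W) ∧ lam = oddE l.flatten} := by
  obtain ⟨T, hT⟩ := exists_opt k
  refine ⟨T, ?_⟩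
  intro V _ _ _ G hG S In hgood hk W hW lo lam hlo hlam hor
  have hrk := mkR_rk hG S In lo hlo k hk hgood
  have hadm := mkR_adm hG S In lo hlo k hk hgood
  have hcond : ∀ (F F' : S.Face) (w : List {e : G.edgeSet // e ∈ In}),
      DW (mkR hG S In lo hlo k hk hgood).s (mkR hG S In lo hlo k hk hgood).t F F' w → w ≠ [] →
      ∃ w' ∈ {w : List {e : G.edgeSet // e ∈ In} | w.map Subtype.val ∈ W}, w' ≠ [] ∧
        w'.length ≤ w.length ∧ (w'.length + w.length) % 2 = 0 ∧
        (w'.map (mkR hG S In lo hlo k hk hgood).a).sum =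
          (w.map (mkR hG S In lo hlo k hk hgood).a).sum := by
    intro F F' w hw hne
    have h1 : DW (fun e => S.face (rp e)) (fun e => S.face (side (rp e))) F F'
        (w.map Subtype.val) := lf_dw (fun e => S.face (rp e)) (fun e => S.face (side (rp e))) hw
    have h2 : w.map Subtype.val ≠ [] := by
      intro h
      exact hne (List.map_eq_nil_iff.1 h)
    have h3 : ∀ e ∈ w.map Subtype.val, e ∈ In := by
      intro e he
      obtain ⟨x, _, rfl⟩ := List.mem_map.1 he
      exact x.2
    obtain ⟨w', hw'W, hw'ne, hw'In, hlen, hpar, hsum⟩ := hW F F' _ h1 h2 h3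
    lift w' to List {e : G.edgeSet // e ∈ In} using hw'In
    refine ⟨w', hw'W, ?_, ?_, ?_, ?_⟩
    · rintro rfl
      exact hw'ne rfl
    · rw [List.length_map, List.length_map] at hlen
      exact hlen
    · rw [List.length_map, List.length_map] at hpar
      exact hpar
    · rw [List.map_map, List.map_map] at hsum
      exact hsum
  have hlam0 : (lam.subtype (· ∈ In)).map (Function.Embedding.subtype _) = lam := by
    rw [subtype_map]
    exact filter_true_of_mem hlam
  have hadm0 : (mkR hG S In lo hlo k hk hgood).Adm (lam.subtype (· ∈ In)) := by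
    rw [hadm, hlam0]
    exact hor rfl
  obtain ⟨l, hl1, hl2, hl3, hl4⟩ := hT S.Face {e : G.edgeSet // e ∈ In} (cyc G)
    (mkR hG S In lo hlo k hk hgood) {w | w.map Subtype.val ∈ W} hcond _ hadm0
  have hflat : (l.map (List.map Subtype.val)).flatten = l.flatten.map Subtype.val :=
    (List.map_flatten).symm
  have hodd : oddE (l.map (List.map Subtype.val)).flatten =
      (oddE l.flatten).map (Function.Embedding.subtype _) := by
    rw [hflat]
    exact lf_odd (Function.Embedding.subtype _) l.flatten
  refine ⟨oddE (l.map (List.map Subtype.val)).flatten, ⟨l.map (List.map Subtype.val), ?_, ?_, rfl⟩,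
    ?_, ?_, ?_⟩
  · rw [List.length_map]
    exact hl1
  · intro w hw
    obtain ⟨x, hx, rfl⟩ := List.mem_map.1 hw
    exact hl2 x hx
  · rw [hodd]
    intro e he
    obtain ⟨x, _, rfl⟩ := mem_map.1 he
    exact x.2
  · intro _
    rw [hodd]
    exact (hadm _).1 hl3
  · rw [hodd, ← hrk]
    have h5 := hrk (lam.subtype (· ∈ In))
    rw [hlam0] at h5
    rw [← h5]
    exact_mod_cast hl4

end Pool.Agent.SCG
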