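import Pool.Agent.SCG.RDat

/-!
# SCG-RB: elementary facts about the linear data of a piece
-/

set_option autoImplicit false

open Finset
open scoped Classical

namespace Pool.Agent.SCG

open Pool.Agent.BEO (F2 DW Ev oddE)

namespace RDat

variable {k : ℕ} {Φ E Z : Type} [Fintype Φ] [Fintype E] [AddCommGroup Z] [Module F2 Z] (D : RDat k Φ E Z)

theorem N_apply (lam : Finset E) (x y : Z) : D.N lam x y = D.J x y + ∑ e ∈ lam, D.a e x * D.a e y := by
  unfold N
  rw [LinearMap.add_apply, LinearMap.add_apply, LinearMap.sum_apply, LinearMap.sum_apply]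
  rfl

theorem N_symm (lam : Finset E) (x y : Z) : D.N lam x y = D.N lam y x := by
  rw [N_apply, N_apply, D.symm]
  congr 1
  exact sum_congr rfl fun e _ => mul_comm _ _

theorem J_z' (x : Z) (F : Φ) (hF : F ∉ D.B) : D.J (D.z F) x = 0 := by
  rw [D.symm]
  exact D.rad F hF x

private theorem f2_mul (y : F2) : y * y = y := by
  revert y
  decide

private theorem f2_add (y : F2) : y + y = 0 := by
  revert y
  decide

private theorem f2_add_eq (x y : F2) : x + y = 0 ↔ x = y := by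
  revert x y
  decide

/-- `x ↦ J x x` is additive on the diagonal: an admissible set has class `J x x` -/
theorem adm_char (lam : Finset E) : D.Adm lam ↔ ∀ x, D.J x x = (∑ e ∈ lam, D.a e) x := by
  unfold Adm
  refine forall_congr' fun x => ?_
  rw [N_apply, LinearMap.sum_apply, sum_congr rfl fun e _ => f2_mul (D.a e x), f2_add_eq]

theorem adm_iff (lam lam' : Finset E) (h : ∑ e ∈ lam, D.a e = ∑ e ∈ lam', D.a e) : D.Adm lam ↔ D.Adm lam' := by
  rw [adm_char, adm_char, h]

theorem cls_of_adm (lam lam' : Finset E) (h : D.Adm lam) (h' : D.Adm lam') :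
    ∑ e ∈ lam, D.a e = ∑ e ∈ lam', D.a e := by
  rw [adm_char] at h h'
  exact LinearMap.ext fun x => (h x).symm.trans (h' x)

theorem rev_iff (ν : Finset E) : REv D.s D.t D.B ν ↔ ∀ F, F ∉ D.B → ∑ e ∈ ν, D.a e (D.z F) = 0 := by
  unfold REv
  simp only [D.inc]

theorem rev_of_adm (lam : Finset E) (h : D.Adm lam) : REv D.s D.t D.B lam := by
  rw [rev_iff]
  intro F hF
  have h1 := (D.adm_char lam).1 h (D.z F)
  rw [D.rad F hF, LinearMap.sum_apply] at h1
  exact h1.symm

theorem sum_mem (ν : Finset E) (h : REv D.s D.t D.B ν) : ∑ e ∈ ν, D.a e ∈ clsH D.a D.z D.B := by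
  refine Submodule.mem_inf.2 ⟨Submodule.sum_mem _ fun e _ => Submodule.subset_span ⟨e, rfl⟩, ?_⟩
  intro F hF
  rw [LinearMap.sum_apply]
  exact (D.rev_iff ν).1 h F hF

theorem sum_cls (l : List E) : (l.map D.a).sum = ∑ e ∈ oddE l, D.a e := by
  have hsm : ∀ (n : ℕ) (φ : Z →ₗ[F2] F2), n • φ = if n % 2 = 1 then φ else 0 := by
    intro n φ
    have h2 : (2 : ℕ) • φ = 0 := by
      rw [two_nsmul]
      exact LinearMap.ext fun y => f2_add (φ y)
    rcases Nat.mod_two_eq_zero_or_one n with h | h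
    · rw [if_neg (by omega)]
      conv_lhs => rw [← Nat.div_add_mod n 2, h, add_zero, mul_comm, mul_nsmul', h2, nsmul_zero]
    · rw [if_pos h]
      conv_lhs => rw [← Nat.div_add_mod n 2, h, add_nsmul, mul_comm, mul_nsmul', h2, nsmul_zero, zero_add,
        one_nsmul]
  rw [sum_list_map_count]
  unfold oddE
  rw [sum_filter]
  rw [sum_subset (subset_univ l.toFinset) (fun e _ he => by
    rw [List.count_eq_zero.2 (fun h => he (List.mem_toFinset.2 h)), zero_nsmul])]
  exact sum_congr rfl fun e _ => hsm _ _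

/-- if there is an admissible set there are optimal sets -/
theorem exists_min [Module.Finite F2 Z] (lam0 : Finset E) (h0 : D.Adm lam0) : ∃ lam mu, D.Min lam mu := by
  obtain ⟨lam₀, h₀, hmin₀⟩ := exists_min_image ((univ : Finset (Finset E)).filter fun lam => D.Adm lam) D.rkN
    ⟨lam0, mem_filter.2 ⟨mem_univ _, h0⟩⟩
  obtain ⟨lam, hl, hminl⟩ := exists_min_image
    ((univ : Finset (Finset E)).filter fun lam => D.Adm lam ∧ D.rkN lam ≤ D.rkN lam₀) Finset.card
    ⟨lam₀, mem_filter.2 ⟨mem_univ _, (mem_filter.1 h₀).2, le_rfl⟩⟩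
  obtain ⟨mu, hm, hminm⟩ := exists_min_image (lam.powerset.filter fun lam => D.Adm lam) Finset.card
    ⟨lam, mem_filter.2 ⟨mem_powerset_self _, (mem_filter.1 hl).2.1⟩⟩
  refine ⟨lam, mu, (mem_filter.1 hl).2.1, ?_, ?_, mem_powerset.1 (mem_filter.1 hm).1, (mem_filter.1 hm).2, ?_⟩
  · intro lam' h'
    exact (mem_filter.1 hl).2.2.trans (hmin₀ lam' (mem_filter.2 ⟨mem_univ _, h'⟩))
  · intro lam' h' hr
    exact hminl lam' (mem_filter.2 ⟨mem_univ _, h', hr.trans (mem_filter.1 hl).2.2⟩)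
  · intro mu' hs h'
    exact hminm mu' (mem_filter.2 ⟨mem_powerset.2 hs, h'⟩)

theorem exists_min0 [Module.Finite F2 Z] : ∃ lam, D.Min0 lam := by
  obtain ⟨lam₀, _, hmin₀⟩ := exists_min_image (univ : Finset (Finset E)) D.rkN ⟨∅, mem_univ _⟩
  obtain ⟨lam, hl, hminl⟩ := exists_min_image
    ((univ : Finset (Finset E)).filter fun lam => D.rkN lam ≤ D.rkN lam₀) Finset.card
    ⟨lam₀, mem_filter.2 ⟨mem_univ _, le_rfl⟩⟩
  refine ⟨lam, ?_, ?_⟩
  · intro lam'
    exact (mem_filter.1 hl).2.trans (hmin₀ lam' (mem_univ _))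
  · intro lam' hr
    exact hminl lam' (mem_filter.2 ⟨mem_univ _, hr.trans (mem_filter.1 hl).2⟩)

end RDat

end Pool.Agent.SCG
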