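import Pool.Agent.SCG.Pc
import Pool.Agent.SCG.RB
import Pool.Agent.BEO.FrmRank
import Pool.Agent.BEO.FrmOri

/-!
# SCG-MkR: the linear data of a piece
-/

set_option autoImplicit false

open Finset
open scoped Classical

namespace Pool.Agent.SCG

open Pool.Agent.Helper35.OG (Flag GMap across side across_across side_side across_ne side_ne side_fst across_fst vertex_const
  all_const exists_flag face_nxt face_across face_surj nxt_inj sum_inv eqvGen_eq IsBand)
open Pool.Agent.BEO (F2 DW Ev oddE ed rp cyc ev bdF frm twist tph IsL dL frm_symm frm_rad frm_rank frm_alt twist_frm bdF_eq)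

variable {V : Type} {G : SimpleGraph V} [Fintype V] [LinearOrder V]

omit [LinearOrder V] in
private theorem mr_eq (S : GMap G) (F : S.Face) (e : G.edgeSet) :
    (bdF S F).1 e = (if S.face (rp e) = F then 1 else 0) + (if S.face (side (rp e)) = F then 1 else 0) := by
  have h := bdF_eq S F (rp e)
  rw [Pool.Agent.BEO.ed_rp] at h
  exact h

omit [LinearOrder V] in
private theorem mr_ev (e : G.edgeSet) (z : cyc G) : ev e z = z.1 e := rfl

omit [LinearOrder V] in
/-- the boundary of a face all of whose edges have the property `P` vanishes at an edge without it -/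
private theorem mr_zero (S : GMap G) (F : S.Face) (P : G.edgeSet → Prop) (h : ∀ p : Flag G, S.face p = F → P (ed p))
    (e : G.edgeSet) (he : ¬ P e) : (bdF S F).1 e = 0 := by
  rw [mr_eq]
  have h1 : S.face (rp e) ≠ F := by
    intro hh
    have h2 := h _ hh
    rw [Pool.Agent.BEO.ed_rp] at h2
    exact he h2
  have h3 : S.face (side (rp e)) ≠ F := by
    intro hh
    have h2 := h _ hh
    rw [Pool.Agent.BEO.ed_side, Pool.Agent.BEO.ed_rp] at h2
    exact he h2
  rw [if_neg h1, if_neg h3, add_zero]

omit [LinearOrder V] in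
private theorem mr_out (S : GMap G) (In : Finset G.edgeSet) (F : S.Face) (hF : ¬ Tch S In F) (e : G.edgeSet)
    (he : e ∈ In) : (bdF S F).1 e = 0 :=
  mr_zero S F (fun e => e ∉ In) (fun p hp hin => hF ⟨p, hp, hin⟩) e (fun h => h he)

omit [LinearOrder V] in
private theorem mr_mem (S : GMap G) (In : Finset G.edgeSet) (F : S.Face) (h : Tch S In F) {p : Flag G}
    (hp : S.face p = F) (hin : ed p ∉ In) : F ∈ Bf S In := by
  unfold Bf
  rw [mem_filter]
  exact ⟨mem_univ _, h, p, hp, hin⟩

omit [LinearOrder V] in
private theorem mr_ker (S : GMap G) (F : S.Face) (x : cyc G) : frm S x (bdF S F) = 0 := by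
  rw [frm_symm]
  exact (frm_rad S (bdF S F)).2 (Submodule.subset_span ⟨F, rfl⟩) x

theorem mkR_inc (S : GMap G) (In : Finset G.edgeSet) (e : {e : G.edgeSet // e ∈ In}) (F : S.Face) :
    ev e.1 (zI S In F) = (if S.face (rp e.1) = F then (1 : F2) else 0) + (if S.face (side (rp e.1)) = F then 1 else 0) := by
  unfold zI
  by_cases h : Tch S In F
  · rw [if_pos h, mr_ev, mr_eq]
  · rw [if_neg h, map_zero, ← mr_eq, mr_out S In F h e.1 e.2]

theorem mkR_rad (S : GMap G) (In lo : Finset G.edgeSet) (hlo : ∀ e ∈ lo, e ∉ In) (F : S.Face) (hF : F ∉ Bf S In)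
    (x : cyc G) : frm (twist S lo) x (zI S In F) = 0 := by
  unfold zI
  by_cases h : Tch S In F
  · rw [if_pos h, twist_frm, mr_ker, zero_add]
    refine Finset.sum_eq_zero fun e he => ?_
    have h0 : (bdF S F).1 e = 0 := by
      refine mr_zero S F (fun e => e ∈ In) (fun p hp => ?_) e (hlo e he)
      by_contra hin
      exact hF (mr_mem S In F h hp hin)
    rw [h0, mul_zero]
  · rw [if_neg h, map_zero]

theorem mkR_dim [Nontrivial V] (hG : G.Connected) (S : GMap G) (In : Finset G.edgeSet) (k : ℕ)
    (hk : S.eg + ((Bf S In).card : ℤ) ≤ k) :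
    Module.finrank F2 (clsH (fun e : {e : G.edgeSet // e ∈ In} => ev e.1) (zI S In) (Bf S In)) ≤ k := by
  have hr := frm_rank hG S
  have hk1 := LinearMap.finrank_range_add_finrank_ker (frm S)
  have hker : LinearMap.ker (frm S) = Submodule.span F2 (Set.range (bdF S)) := by
    ext z
    rw [LinearMap.mem_ker, ← frm_rad S z]
    constructor
    · intro h z'
      rw [h, LinearMap.zero_apply]
    · intro h
      exact LinearMap.ext h
  rw [hker] at hk1
  set W : Submodule F2 (cyc G) := Submodule.span F2 (Set.range (bdF S)) with hW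
  have hA := Subspace.finrank_add_finrank_dualAnnihilator_eq W
  -- the values on the exceptional faces
  set C := clsH (fun e : {e : G.edgeSet // e ∈ In} => ev e.1) (zI S In) (Bf S In) with hC
  have hCb : ∀ φ ∈ C, ∀ F, F ∉ Bf S In → φ (bdF S F) = 0 := by
    intro φ hφ F hF
    obtain ⟨h1, h2⟩ := Submodule.mem_inf.1 hφ
    by_cases h : Tch S In F
    · have h3 : φ (zI S In F) = 0 := h2 F hF
      unfold zI at h3
      rw [if_pos h] at h3
      exact h3
    · refine Submodule.span_induction (p := fun φ _ => φ (bdF S F) = 0) ?_ ?_ ?_ ?_ h1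
      · rintro _ ⟨e, rfl⟩
        exact mr_out S In F h e.1 e.2
      · exact LinearMap.zero_apply _
      · intro φ ψ _ _ h3 h4
        rw [LinearMap.add_apply, h3, h4, add_zero]
      · intro r φ _ h3
        rw [LinearMap.smul_apply, h3, smul_zero]
  let T : C →ₗ[F2] ({F // F ∈ Bf S In} → F2) :=
    { toFun := fun φ F => φ.1 (bdF S F.1)
      map_add' := fun _ _ => rfl
      map_smul' := fun _ _ => rfl }
  have hT := LinearMap.finrank_range_add_finrank_ker T
  have hT1 : Module.finrank F2 (LinearMap.range T) ≤ (Bf S In).card := by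
    refine (Submodule.finrank_le _).trans ?_
    rw [Module.finrank_fintype_fun_eq_card, Fintype.card_coe]
  have hT2 : Module.finrank F2 (LinearMap.ker T) ≤ Module.finrank F2 W.dualAnnihilator := by
    rw [← Submodule.finrank_map_subtype_eq C (LinearMap.ker T)]
    refine Submodule.finrank_mono ?_
    rintro φ ⟨ψ, hψ, rfl⟩
    rw [Submodule.mem_dualAnnihilator]
    intro w hw
    have h1 : ∀ F, ψ.1 (bdF S F) = 0 := by
      intro F
      by_cases hF : F ∈ Bf S In
      · exact congrFun (LinearMap.mem_ker.1 hψ) ⟨F, hF⟩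
      · exact hCb ψ.1 ψ.2 F hF
    have h2 : W ≤ LinearMap.ker ψ.1 := by
      rw [hW, Submodule.span_le]
      rintro _ ⟨F, rfl⟩
      exact h1 F
    exact h2 hw
  have hfin : Module.finrank F2 C ≤ Module.finrank F2 W.dualAnnihilator + (Bf S In).card := by omega
  omega

theorem mkR_card [Nontrivial V] (hG : G.Connected) (S : GMap G) (In : Finset G.edgeSet) (k : ℕ)
    (hk : S.eg + ((Bf S In).card : ℤ) ≤ k) : (Bf S In).card ≤ k := by
  have h1 := frm_rank hG S
  omega

theorem mkR_wide (S : GMap G) (In : Finset G.edgeSet) (hg : GoodIn S In) (F : S.Face)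
    (l : List {e : G.edgeSet // e ∈ In})
    (h : DW (fun e : {e : G.edgeSet // e ∈ In} => S.face (rp e.1)) (fun e => S.face (side (rp e.1))) F F l)
    (hl : l.length ≤ 6) : (l.map fun e => ev (G := G) e.1).sum = 0 := by
  have hmap : ∀ (F F' : S.Face) (l : List {e : G.edgeSet // e ∈ In}),
      DW (fun e : {e : G.edgeSet // e ∈ In} => S.face (rp e.1)) (fun e => S.face (side (rp e.1))) F F' l →
      DW (fun e : G.edgeSet => S.face (rp e)) (fun e => S.face (side (rp e))) F F' (l.map Subtype.val) := by
    intro F F' l hl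
    induction hl with
    | nil F => exact DW.nil F
    | cons F G' H e l he _ ih => exact DW.cons F G' H e.1 _ he ih
  have h1 := hg F (l.map Subtype.val) (hmap F F l h) (by
    intro e he
    obtain ⟨e', _, rfl⟩ := List.mem_map.1 he
    exact e'.2) (by rw [List.length_map]; exact hl)
  rw [List.map_map] at h1
  exact h1

/-- the linear data of a piece, `lo` being twisted outside -/
noncomputable def mkR [Nontrivial V] (hG : G.Connected) (S : GMap G) (In lo : Finset G.edgeSet)
    (hlo : ∀ e ∈ lo, e ∉ In) (k : ℕ) (hk : S.eg + ((Bf S In).card : ℤ) ≤ k) (hg : GoodIn S In) :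
    RDat k S.Face {e : G.edgeSet // e ∈ In} (cyc G) where
  s e := S.face (rp e.1)
  t e := S.face (side (rp e.1))
  z := zI S In
  a e := ev e.1
  J := frm (twist S lo)
  B := Bf S In
  symm := frm_symm (twist S lo)
  inc := mkR_inc S In
  rad F hF x := mkR_rad S In lo hlo F hF x
  cardB := mkR_card hG S In k hk
  dimH := mkR_dim hG S In k hk
  wide := mkR_wide S In hg

end Pool.Agent.SCG
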