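import Pool.Agent.BEO.Base

/-!
# SCG: the configuration of an optimal set inside a piece

The conditions of `Cfg` hold only at the vertices outside the bounded set `B`.
-/

set_option autoImplicit false

open Finset
open scoped Classical

namespace Pool.Agent.SCG

open Pool.Agent.BEO (F2 nb es vs dg row)

/-- the rows of the adjacency matrix of the graph induced outside `B` -/
noncomputable def rowI {V : Type} (L : SimpleGraph V) (B : Finset V) (v u : {v : V // v ∉ B}) : F2 :=
  if L.Adj v.1 u.1 then 1 else 0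

/-- their span -/
noncomputable def rowISp {V : Type} (L : SimpleGraph V) (B : Finset V) : Submodule F2 ({v : V // v ∉ B} → F2) :=
  Submodule.span F2 (Set.range (rowI L B))

/-- The configuration attached to a smallest blocking set inside a piece. -/
structure PCfg (k : ℕ) (V Q : Type) [Fintype V] [AddCommGroup Q] [Module F2 Q] where
  /-- the graph of the blocking set -/
  L : SimpleGraph V
  /-- its smallest subset with the same class -/
  M : SimpleGraph V
  le : M ≤ L
  /-- the exceptional vertices -/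
  B : Finset V
  cardB : B.card ≤ k
  /-- the class of an edge -/
  a : Sym2 V → Q
  /-- the image of the form -/
  W : Submodule F2 Q
  /-- the classes of cycles -/
  H : Submodule F2 Q
  evL : ∀ v, v ∉ B → Even (nb L v).card
  evM : ∀ v, v ∉ B → Even (nb M v).card
  par : ∀ v, Even ((nb L v).card + (nb M v).card)
  null : ∀ (v : V) (w : L.Walk v v), w.length ≤ 6 → (w.edges.map a).sum = 0
  rho : ∀ v, v ∉ B → ∑ u ∈ nb L v, a s(v, u) ∈ W
  tw : ∀ u v, u ≠ v → ∀ U : Finset V, (∀ x ∈ U, L.Adj u x ∧ L.Adj v x) → U.Nonempty → Even U.card →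
    ∑ x ∈ U, a s(u, x) ∉ W
  cls : ∀ χ : Finset (Sym2 V), (∀ e ∈ χ, e ∈ L.edgeSet) → (∀ v, v ∉ B → Even (dg χ v)) → ∑ e ∈ χ, a e ∈ H
  finH : Module.Finite F2 H
  dimH : Module.finrank F2 H ≤ k
  mn : ∀ χ : Finset (Sym2 V), (∀ e ∈ χ, e ∈ L.edgeSet) → (∀ v, Even (dg χ v)) → ∑ e ∈ χ, a e = 0 →
    (χ.filter fun e => e ∈ M.edgeSet).card ≤ (χ.filter fun e => e ∉ M.edgeSet).card
  rk : Module.finrank F2 (rowISp L B) ≤ k + (es M).card

end Pool.Agent.SCG
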