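import Pool.Agent.SCG.GdEv
import Pool.Agent.SCG.GdRho
import Pool.Agent.SCG.GdTw
import Pool.Agent.SCG.GdNull
import Pool.Agent.SCG.GdCls
import Pool.Agent.SCG.GdRk
import Pool.Agent.BEO.Core

/-!
# SCG-PCore: a bounded number of relatively even sets
-/

set_option autoImplicit false

open Finset
open scoped Classical

namespace Pool.Agent.SCG

open Pool.Agent.BEO (F2 nb es vs dg row rowSp Cfg)

namespace PCfg

variable {k : ℕ} {V Q : Type} [Fintype V] [AddCommGroup Q] [Module F2 Q] (c : PCfg k V Q)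

private def prodE {P T : Type} [AddCommGroup P] [Module F2 P] [AddCommGroup T] [Module F2 T] (H : Submodule F2 P) :
    (H × T) ≃ₗ[F2] (H.prod (⊤ : Submodule F2 T)) where
  toFun x := ⟨(x.1.1, x.2), Submodule.mem_prod.2 ⟨x.1.2, Submodule.mem_top⟩⟩
  map_add' _ _ := rfl
  map_smul' _ _ := rfl
  invFun y := (⟨y.1.1, (Submodule.mem_prod.1 y.2).1⟩, y.1.2)
  left_inv _ := rfl
  right_inv _ := rfl

private theorem ext_mono : c.extG c.M ≤ c.extG c.L := by
  intro x y h
  unfold extG at h ⊢
  rw [SimpleGraph.fromRel_adj] at h ⊢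
  refine ⟨h.1, h.2.imp ?_ ?_⟩
  · intro h1
    unfold gRel at h1 ⊢
    rcases h1 with ⟨u, v, h2, h3, h4⟩ | h1
    · exact Or.inl ⟨u, v, h2, h3, c.le h4⟩
    · exact Or.inr h1
  · intro h1
    unfold gRel at h1 ⊢
    rcases h1 with ⟨u, v, h2, h3, h4⟩ | h1
    · exact Or.inl ⟨u, v, h2, h3, c.le h4⟩
    · exact Or.inr h1

theorem exists_ext : ∃ c' : Cfg (30 * k + 10) (GV c.B) (Q × GT c.B), c'.L = c.extG c.L := by
  have hf := c.finH
  have hfin : Module.Finite F2 c.HX := Module.Finite.equiv (prodE (T := GT c.B) c.H)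
  have hdim : Module.finrank F2 c.HX ≤ 30 * k + 10 := by
    have h1 : Module.finrank F2 c.HX = Module.finrank F2 (c.H × GT c.B) :=
      (LinearEquiv.finrank_eq (prodE (T := GT c.B) c.H)).symm
    rw [h1, Module.finrank_prod]
    have h2 : Module.finrank F2 (GT c.B) = 2 * c.B.card := by
      rw [Module.finrank_fintype_fun_eq_card, Fintype.card_prod, Fintype.card_fin, mul_comm]
      congr 1
      exact Fintype.card_coe c.B
    have h3 := c.dimH
    have h4 := c.cardB
    omega
  exact ⟨{ L := c.extG c.L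
           M := c.extG c.M
           le := c.ext_mono
           a := c.aX
           W := c.WX
           H := c.HX
           evL := c.ext_evL
           evM := c.ext_evM
           null := c.ext_null
           rho := c.ext_rho
           tw := fun u v huv U hU hne hev => c.ext_tw u v huv U hU hne hev
           cls := c.ext_cls
           finH := hfin
           dimH := hdim
           mn := c.ext_mn
           rk := c.ext_rk }, rfl⟩

end PCfg

theorem pcore (k : ℕ) : ∃ C : ℕ, ∀ (V Q : Type) [Fintype V] [AddCommGroup Q] [Module F2 Q] (c : PCfg k V Q),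
    (((es c.L).powerset).filter fun χ => ∀ v, v ∉ c.B → Even (dg χ v)).card ≤ 2 ^ C := by
  obtain ⟨C, hC⟩ := Pool.Agent.BEO.core (30 * k + 10)
  refine ⟨C, ?_⟩
  intro V Q _ _ _ c
  obtain ⟨c', hc'⟩ := c.exists_ext
  refine le_trans ?_ (hC (GV c.B) (Q × GT c.B) c')
  have hup : ∀ ν ∈ ((es c.L).powerset).filter (fun χ => ∀ v, v ∉ c.B → Even (dg χ v)),
      ∃ χ : Finset (Sym2 (GV c.B)), (∀ e ∈ χ, e ∈ (c.extG c.L).edgeSet) ∧ (∀ v, Even (dg χ v)) ∧ c.oldE χ = ν := by
    intro ν hν
    rw [mem_filter, mem_powerset] at hν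
    exact c.ext_up ν (fun e he => (mem_filter.1 (hν.1 he)).2) hν.2
  refine Finset.card_le_card_of_injOn (fun ν => if h : ∃ χ : Finset (Sym2 (GV c.B)),
    (∀ e ∈ χ, e ∈ (c.extG c.L).edgeSet) ∧ (∀ v, Even (dg χ v)) ∧ c.oldE χ = ν then h.choose else ∅) ?_ ?_
  · intro ν hν
    have h := hup ν (Finset.mem_coe.1 hν)
    have h1 := h.choose_spec
    apply Finset.mem_coe.2
    simp only [dif_pos h]
    rw [mem_filter, mem_powerset]
    refine ⟨?_, h1.2.1⟩
    intro e he
    unfold es
    rw [mem_filter, hc']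
    exact ⟨mem_univ _, h1.1 e he⟩
  · intro ν hν ν' hν' hh
    have h := hup ν (Finset.mem_coe.1 hν)
    have h' := hup ν' (Finset.mem_coe.1 hν')
    simp only [dif_pos h, dif_pos h'] at hh
    have h1 := h.choose_spec.2.2
    have h2 := h'.choose_spec.2.2
    rw [← h1, ← h2, hh]

end Pool.Agent.SCG
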