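import Pool.Agent.BEO.Topo
import Pool.Agent.BEO.Twist
import Pool.Agent.BEO.BdF

/-!
# SCG: pieces of an embedding

`In` is a set of edges (the edges inside the piece), `lo` a set of edges outside the piece.
-/

set_option autoImplicit false

open Finset
open scoped Classical

namespace Pool.Agent.SCG

open Pool.Agent.Helper35.OG (Flag GMap across side across_across side_side across_ne side_ne side_fst across_fst vertex_const
  all_const exists_flag face_nxt face_across face_surj nxt_inj sum_inv eqvGen_eq IsBand)
open Pool.Agent.BEO (F2 DW Ev oddE ed rp cyc ev bdF frm twist tph IsL dL)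

variable {V : Type} {G : SimpleGraph V}

section faces

variable [Fintype V] (S : GMap G) (In : Finset G.edgeSet)

/-- the face has an edge inside -/
def Tch (F : S.Face) : Prop := ∃ p : Flag G, S.face p = F ∧ ed p ∈ In

/-- the faces which have an edge inside and an edge outside -/
noncomputable def Bf : Finset S.Face := univ.filter fun F => Tch S In F ∧ ∃ p : Flag G, S.face p = F ∧ ed p ∉ In

/-- the boundary of a face which has an edge inside -/
noncomputable def zI (F : S.Face) : cyc G := if Tch S In F then bdF S F else 0

/-- every closed walk of the dual graph of length at most 6 which crosses only edges inside is null-homologous -/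
def GoodIn : Prop := ∀ (F : S.Face) (l : List G.edgeSet),
  DW (fun e => S.face (rp e)) (fun e => S.face (side (rp e))) F F l → (∀ e ∈ l, e ∈ In) → l.length ≤ 6 →
    (l.map (ev (G := G))).sum = 0

end faces

/-- `T` is a complete family of sets of edges inside the piece: every set inside can be replaced by a member of `T`
without increasing the Euler genus, whatever is twisted outside; if `o` holds, orientability is preserved. -/
def Cpl [LinearOrder V] (S : GMap G) (In : Finset G.edgeSet) (o : Bool) (T : Set (Finset G.edgeSet)) : Prop :=
  ∀ lo lam : Finset G.edgeSet, (∀ e ∈ lo, e ∉ In) → lam ⊆ In → (o = true → (twist S (lo ∪ lam)).Orientable) →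
    ∃ lam' ∈ T, lam' ⊆ In ∧ (o = true → (twist S (lo ∪ lam')).Orientable) ∧
      (twist S (lo ∪ lam')).eg ≤ (twist S (lo ∪ lam)).eg

/-- the graph of a set of edges -/
def gD (D : Finset G.edgeSet) : SimpleGraph V where
  Adj u v := ∃ p : Flag G, p.1.fst = u ∧ p.1.snd = v ∧ ed p ∈ D
  symm := ⟨by
    rintro u v ⟨p, h1, h2, h3⟩
    refine ⟨across p, h2, h1, ?_⟩
    rw [Pool.Agent.BEO.ed_across]
    exact h3⟩
  loopless := ⟨by
    rintro u ⟨p, h1, h2, _⟩
    have h := p.1.adj
    rw [h1, h2] at h
    exact G.irrefl h⟩

/-- the edges of `D` in the component of `u` -/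
noncomputable def InD (D : Finset G.edgeSet) (u : V) : Finset G.edgeSet :=
  D.filter fun e => ∃ p : Flag G, ed p = e ∧ (gD D).Reachable u p.1.fst

/-- the edges outside `D` at the component of `u` -/
noncomputable def KD [Fintype V] (D : Finset G.edgeSet) (u : V) : Finset G.edgeSet :=
  univ.filter fun e => e ∉ D ∧ ∃ p : Flag G, ed p = e ∧ (gD D).Reachable u p.1.fst

end Pool.Agent.SCG
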