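import Pool.Agent.BEO.Dat

/-!
# SCG: the linear data of a piece of an embedding

The edges `E` are the edges inside the piece, `B` the set of faces which also have other edges. `J` is the form of the
embedding twisted outside the piece.
-/

set_option autoImplicit false

open Finset
open scoped Classical

namespace Pool.Agent.SCG

open Pool.Agent.BEO (F2 DW Ev oddE)

/-- the functionals vanishing on the vectors `z F`, `F` not in `B` -/
def annB {Φ Z : Type} [AddCommGroup Z] [Module F2 Z] (z : Φ → Z) (B : Finset Φ) : Submodule F2 (Z →ₗ[F2] F2) where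
  carrier := {φ | ∀ F, F ∉ B → φ (z F) = 0}
  add_mem' := by
    intro φ ψ h h' F hF
    rw [LinearMap.add_apply, h F hF, h' F hF, add_zero]
  zero_mem' := fun _ _ => rfl
  smul_mem' := by
    intro r φ h F hF
    rw [LinearMap.smul_apply, h F hF, smul_zero]

/-- the classes of the sets of edges without boundary outside `B` -/
def clsH {Φ E Z : Type} [AddCommGroup Z] [Module F2 Z] (a : E → Z →ₗ[F2] F2) (z : Φ → Z) (B : Finset Φ) :
    Submodule F2 (Z →ₗ[F2] F2) := Submodule.span F2 (Set.range a) ⊓ annB z B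

/-- sets of edges with an even number of ends at every vertex outside `B` -/
def REv {Φ E : Type} (s t : E → Φ) (B : Finset Φ) (ν : Finset E) : Prop :=
  ∀ F, F ∉ B → ∑ e ∈ ν, ((if s e = F then (1 : F2) else 0) + (if t e = F then 1 else 0)) = 0

/-- The linear data. -/
structure RDat (k : ℕ) (Φ E Z : Type) [Fintype Φ] [Fintype E] [AddCommGroup Z] [Module F2 Z] where
  /-- one face of an edge -/
  s : E → Φ
  /-- the other face of an edge -/
  t : E → Φ
  /-- boundary of a face -/
  z : Φ → Z
  /-- coordinate -/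
  a : E → Z →ₗ[F2] F2
  /-- the form -/
  J : Z →ₗ[F2] Z →ₗ[F2] F2
  /-- the exceptional faces -/
  B : Finset Φ
  symm : ∀ x y, J x y = J y x
  inc : ∀ e F, a e (z F) = (if s e = F then 1 else 0) + (if t e = F then 1 else 0)
  rad : ∀ F, F ∉ B → ∀ x, J x (z F) = 0
  cardB : B.card ≤ k
  dimH : Module.finrank F2 (clsH a z B) ≤ k
  wide : ∀ (F : Φ) (l : List E), DW s t F F l → l.length ≤ 6 → (l.map a).sum = 0

namespace RDat

variable {k : ℕ} {Φ E Z : Type} [Fintype Φ] [Fintype E] [AddCommGroup Z] [Module F2 Z] (D : RDat k Φ E Z)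

/-- the form of the twist along `lam` -/
noncomputable def N (lam : Finset E) : Z →ₗ[F2] Z →ₗ[F2] F2 := D.J + ∑ e ∈ lam, (D.a e).smulRight (D.a e)

/-- the twist is orientable -/
def Adm (lam : Finset E) : Prop := ∀ x, D.N lam x x = 0

/-- its Euler genus -/
noncomputable def rkN (lam : Finset E) : ℕ := Module.finrank F2 (LinearMap.range (D.N lam))

/-- the rank of the Gram matrix of the ordinary faces -/
noncomputable def gI (lam : Finset E) : ℕ :=
  Module.finrank F2 (Submodule.span F2 (Set.range fun (F G : {F : Φ // F ∉ D.B}) => D.N lam (D.z F.1) (D.z G.1)))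

/-- `lam` is admissible of least rank, then of least size; `mu ⊆ lam` is admissible of least size. -/
structure Min (lam mu : Finset E) : Prop where
  adm : D.Adm lam
  opt : ∀ lam', D.Adm lam' → D.rkN lam ≤ D.rkN lam'
  small : ∀ lam', D.Adm lam' → D.rkN lam' ≤ D.rkN lam → lam.card ≤ lam'.card
  sub : mu ⊆ lam
  admM : D.Adm mu
  smallM : ∀ mu', mu' ⊆ lam → D.Adm mu' → mu.card ≤ mu'.card

/-- `lam` is of least rank, then of least size. -/
structure Min0 (lam : Finset E) : Prop where
  opt : ∀ lam', D.rkN lam ≤ D.rkN lam'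
  small : ∀ lam', D.rkN lam' ≤ D.rkN lam → lam.card ≤ lam'.card

/-- the graph of a set of edges of the dual graph -/
def gr (lam : Finset E) : SimpleGraph Φ where
  Adj F G := F ≠ G ∧ ∃ e ∈ lam, (D.s e = F ∧ D.t e = G) ∨ (D.s e = G ∧ D.t e = F)
  symm := ⟨by
    rintro F G ⟨h, e, he, h1 | h1⟩
    · exact ⟨h.symm, e, he, Or.inr h1⟩
    · exact ⟨h.symm, e, he, Or.inl h1⟩⟩
  loopless := ⟨fun F h => h.1 rfl⟩

end RDat

end Pool.Agent.SCG
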