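import Pool.Agent.SCG.RCfg
import Pool.Agent.SCG.PCore

/-!
# SCG-REvC: an optimal set inside a piece has a bounded number of relatively even subsets
-/

set_option autoImplicit false

open Finset
open scoped Classical

namespace Pool.Agent.SCG

open Pool.Agent.BEO (F2 DW Ev oddE dg es even_cast)

private theorem evc_if {Φ : Type} {s t F : Φ} (hn : s ≠ t) :
    ((if s = F then (1 : F2) else 0) + (if t = F then 1 else 0)) = if F ∈ s(s, t) then 1 else 0 := by
  have hm : F ∈ s(s, t) ↔ F = s ∨ F = t := Sym2.mem_iff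
  by_cases h1 : s = F
  · have h2 : t ≠ F := fun h2 => hn (h1.trans h2.symm)
    rw [if_pos h1, if_neg h2, if_pos (hm.2 (Or.inl h1.symm)), add_zero]
  · by_cases h2 : t = F
    · rw [if_neg h1, if_pos h2, if_pos (hm.2 (Or.inr h2.symm)), zero_add]
    · rw [if_neg h1, if_neg h2, if_neg, add_zero]
      intro h3
      rcases hm.1 h3 with h4 | h4
      · exact h1 h4.symm
      · exact h2 h4.symm

theorem even_count (k : ℕ) : ∃ C : ℕ, ∀ (Φ E Z : Type) [Fintype Φ] [Fintype E] [AddCommGroup Z] [Module F2 Z]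
    [Module.Finite F2 Z] (D : RDat k Φ E Z) (lam mu : Finset E), D.Min lam mu →
      ((lam.powerset).filter fun ν => REv D.s D.t D.B ν).card ≤ 2 ^ C := by
  obtain ⟨C, hC⟩ := pcore (2 * k)
  refine ⟨C, ?_⟩
  intro Φ E Z _ _ _ _ _ D lam mu h
  obtain ⟨c, hc, hcB⟩ := D.exists_cfg h
  refine le_trans ?_ (hC Φ (Z →ₗ[F2] F2) c)
  have hinj : ∀ e ∈ lam, ∀ e' ∈ lam, s(D.s e, D.t e) = s(D.s e', D.t e') → e = e' :=
    fun e he e' he' hh => D.no_digon h e e' he he' hh
  refine Finset.card_le_card_of_injOn (fun ν => ν.image fun e => s(D.s e, D.t e)) ?_ ?_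
  · intro ν hν
    obtain ⟨h1, h2⟩ := mem_filter.1 (mem_coe.1 hν)
    have hsub : ν ⊆ lam := mem_powerset.1 h1
    refine mem_coe.2 (mem_filter.2 ⟨mem_powerset.2 ?_, ?_⟩)
    · intro e' he'
      obtain ⟨e, he, rfl⟩ := mem_image.1 he'
      unfold es
      refine mem_filter.2 ⟨mem_univ _, ?_⟩
      rw [hc, D.gr_edge h]
      exact ⟨e, hsub he, rfl⟩
    · intro F hF
      rw [hcB] at hF
      rw [even_cast]
      have h3 : ((dg (ν.image fun e => s(D.s e, D.t e)) F : ℕ) : F2) =
          ∑ e ∈ ν, ((if D.s e = F then (1 : F2) else 0) + (if D.t e = F then 1 else 0)) := by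
        unfold dg
        rw [filter_image, card_image_of_injOn (fun e he e' he' hh => hinj e
          (hsub (mem_filter.1 he).1) e' (hsub (mem_filter.1 he').1) hh), ← sum_boole]
        exact sum_congr rfl fun e he => (evc_if (D.no_loop h e (hsub he))).symm
      rw [h3]
      exact h2 F hF
  · intro ν hν χ hχ hh
    have h1 : ν ⊆ lam := mem_powerset.1 (mem_filter.1 (mem_coe.1 hν)).1
    have h2 : χ ⊆ lam := mem_powerset.1 (mem_filter.1 (mem_coe.1 hχ)).1
    have hh' : (ν.image fun e => s(D.s e, D.t e)) = χ.image fun e => s(D.s e, D.t e) := hh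
    have key : ∀ ν χ : Finset E, ν ⊆ lam → χ ⊆ lam →
        (ν.image fun e => s(D.s e, D.t e)) = (χ.image fun e => s(D.s e, D.t e)) → ν ⊆ χ := by
      intro ν χ h1 h2 hh e he
      have h3 : s(D.s e, D.t e) ∈ χ.image fun e => s(D.s e, D.t e) := by
        rw [← hh]
        exact mem_image_of_mem _ he
      obtain ⟨e', he', hq⟩ := mem_image.1 h3
      rwa [← hinj e' (h2 he') e (h1 he) hq]
    exact Subset.antisymm (key ν χ h1 h2 hh') (key χ ν h2 h1 hh'.symm)

end Pool.Agent.SCG
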