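import Pool.Agent.SCG.RSmp

/-!
# SCG-RK2U: the `K_{2,U}` rule inside a piece
-/

set_option autoImplicit false

open Finset
open scoped Classical

namespace Pool.Agent.SCG

open Pool.Agent.BEO (F2 DW Ev oddE rank_pull)

namespace RDat

variable {k : ℕ} {Φ E Z : Type} [Fintype Φ] [Fintype E] [AddCommGroup Z] [Module F2 Z] [Module.Finite F2 Z]
  (D : RDat k Φ E Z) {lam mu : Finset E}

private theorem f2_a : ∀ a b c d : F2, a + (b + (c + d)) = 0 → a + b = d + c := by decide

private theorem f2_b : ∀ a b c : F2, a + b = c → b = a + c := by decide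

private theorem f2_c : ∀ a b c d : F2, a * b + (a + c) * (b + d) = a * d + c * b + c * d := by decide

private theorem f2_d : ∀ a b c d : F2, a + b = c → b = d → a = c + d := by decide

private theorem f2_e : ∀ a b : F2, 0 + a * b + b * a = 0 := by decide

private theorem f2_f (c : F2) {n : ℕ} (hn : Even n) : n • c = 0 := by
  obtain ⟨m, rfl⟩ := hn
  have h : c + c = 0 := by
    revert c
    decide
  rw [add_nsmul, ← nsmul_add, h, nsmul_zero]

theorem k2u (h : D.Min lam mu) (F G : Φ) (hFG : F ≠ G) (U : Finset Φ) (hU : U.Nonempty) (hev : Even U.card)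
    (eF eG : Φ → E) (hF : ∀ u ∈ U, eF u ∈ lam ∧ s(D.s (eF u), D.t (eF u)) = s(F, u))
    (hG : ∀ u ∈ U, eG u ∈ lam ∧ s(D.s (eG u), D.t (eG u)) = s(G, u)) :
    ∑ u ∈ U, D.a (eF u) ∉ LinearMap.range (D.N lam) := by
  rintro ⟨z0, hz0⟩
  have hFu : ∀ u ∈ U, F ≠ u := by
    intro u hu hFu
    have h1 := D.no_loop h (eF u) (hF u hu).1
    have h2 := (hF u hu).2
    rw [← hFu, Sym2.eq_iff] at h2
    rw [← hFu] at h1
    rcases h2 with ⟨h3, h4⟩ | ⟨h3, h4⟩ <;> exact h1 (h3.trans h4.symm)
  have hGu : ∀ u ∈ U, G ≠ u := by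
    intro u hu hGu
    have h1 := D.no_loop h (eG u) (hG u hu).1
    have h2 := (hG u hu).2
    rw [← hGu, Sym2.eq_iff] at h2
    rw [← hGu] at h1
    rcases h2 with ⟨h3, h4⟩ | ⟨h3, h4⟩ <;> exact h1 (h3.trans h4.symm)
  have hwk : ∀ u ∈ U, ∀ u' ∈ U, D.a (eF u) + D.a (eG u) = D.a (eF u') + D.a (eG u') := by
    intro u hu u' hu'
    have hw : DW D.s D.t F F [eF u, eG u, eG u', eF u'] :=
      DW.cons F u F _ _ (Sym2.eq_iff.1 (hF u hu).2)
        (DW.cons u G F _ _ (Or.symm (Sym2.eq_iff.1 (hG u hu).2))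
          (DW.cons G u' F _ _ (Sym2.eq_iff.1 (hG u' hu').2)
            (DW.cons u' F F _ _ (Or.symm (Sym2.eq_iff.1 (hF u' hu').2)) (DW.nil F))))
    have h1 := D.wide F _ hw (by simp)
    simp only [List.map_cons, List.map_nil, List.sum_cons, List.sum_nil, add_zero] at h1
    refine LinearMap.ext fun x => ?_
    have h2 := LinearMap.congr_fun h1 x
    simp only [LinearMap.add_apply, LinearMap.zero_apply] at h2 ⊢
    exact f2_a _ _ _ _ h2
  obtain ⟨u0, hu0⟩ := hU
  obtain ⟨d, hd⟩ : ∃ d : Z →ₗ[F2] F2, ∀ u ∈ U, ∀ x, D.a (eG u) x = D.a (eF u) x + d x := by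
    refine ⟨D.a (eF u0) + D.a (eG u0), fun u hu x => ?_⟩
    have h1 := LinearMap.congr_fun (hwk u hu u0 hu0) x
    rw [LinearMap.add_apply] at h1
    exact f2_b _ _ _ h1
  -- the removed edges
  have hinjF : Set.InjOn eF U := by
    intro u hu u' hu' huu
    have h1 := (hF u hu).2
    rw [huu, (hF u' hu').2] at h1
    exact (Sym2.congr_right.1 h1).symm
  have hinjG : Set.InjOn eG U := by
    intro u hu u' hu' huu
    have h1 := (hG u hu).2
    rw [huu, (hG u' hu').2] at h1
    exact (Sym2.congr_right.1 h1).symm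
  have hdis : Disjoint (U.image eF) (U.image eG) := by
    rw [Finset.disjoint_left]
    intro e he he'
    obtain ⟨u, hu, rfl⟩ := mem_image.1 he
    obtain ⟨u', hu', huu⟩ := mem_image.1 he'
    have h1 := (hG u' hu').2
    rw [huu, (hF u hu).2, Sym2.eq_iff] at h1
    rcases h1 with ⟨h2, -⟩ | ⟨h2, -⟩
    · exact hFG h2
    · exact hFu u' hu' h2
  have hsub : U.image eF ∪ U.image eG ⊆ lam := by
    intro e he
    rcases mem_union.1 he with h1 | h1
    · obtain ⟨u, hu, rfl⟩ := mem_image.1 h1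
      exact (hF u hu).1
    · obtain ⟨u, hu, rfl⟩ := mem_image.1 h1
      exact (hG u hu).1
  have hX : ∀ x, D.N lam z0 x = ∑ u ∈ U, D.a (eF u) x := by
    intro x
    rw [hz0, LinearMap.sum_apply]
  have hN : ∀ x y, D.N (lam \ (U.image eF ∪ U.image eG)) x y =
      D.N lam x y + D.N lam z0 x * d y + d x * D.N lam z0 y := by
    intro x y
    have h1 : D.N (lam \ (U.image eF ∪ U.image eG)) x y +
        ∑ e ∈ U.image eF ∪ U.image eG, D.a e x * D.a e y = D.N lam x y := by
      rw [N_apply, N_apply, add_assoc, sum_sdiff hsub]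
    have h2 : ∑ e ∈ U.image eF ∪ U.image eG, D.a e x * D.a e y =
        D.N lam z0 x * d y + d x * D.N lam z0 y := by
      rw [sum_union hdis, sum_image hinjF, sum_image hinjG, ← sum_add_distrib, hX, hX]
      have h3 : ∀ u ∈ U, D.a (eF u) x * D.a (eF u) y + D.a (eG u) x * D.a (eG u) y =
          D.a (eF u) x * d y + d x * D.a (eF u) y + d x * d y := by
        intro u hu
        rw [hd u hu x, hd u hu y, f2_c]
      rw [sum_congr rfl h3, sum_add_distrib, sum_add_distrib, sum_const, f2_f _ hev, add_zero,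
        sum_mul, mul_sum]
    rw [add_assoc]
    exact f2_d _ _ _ _ h1 h2
  have hadm : D.Adm (lam \ (U.image eF ∪ U.image eG)) := by
    intro x
    rw [hN, h.adm x, mul_comm (d x)]
    have := f2_e (D.N lam z0 x) (d x)
    rw [mul_comm (d x)] at this
    exact this
  have hrk : D.rkN (lam \ (U.image eF ∪ U.image eG)) ≤ D.rkN lam :=
    rank_pull (D.N lam) h.adm z0 d _ hN
  have hcard := h.small _ hadm hrk
  have hlt : (lam \ (U.image eF ∪ U.image eG)).card < lam.card := by
    refine card_lt_card ⟨sdiff_subset, fun h1 => ?_⟩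
    have h2 : eF u0 ∈ U.image eF ∪ U.image eG := mem_union_left _ (mem_image_of_mem _ hu0)
    exact (mem_sdiff.1 (h1 (hsub h2))).2 h2
  omega

end RDat

end Pool.Agent.SCG
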