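import Pool.Agent.SCG.MkR

/-!
# SCG-RTop: the linear data of a piece and twists
-/

set_option autoImplicit false

open Finset
open scoped Classical

namespace Pool.Agent.SCG

open Pool.Agent.Helper35.OG (Flag GMap across side across_across side_side across_ne side_ne side_fst across_fst vertex_const
  all_const exists_flag face_nxt face_across face_surj nxt_inj sum_inv eqvGen_eq IsBand)
open Pool.Agent.BEO (F2 DW Ev oddE ed rp cyc ev bdF frm twist tph IsL dL frm_symm frm_rad frm_rank frm_alt twist_frm bdF_eq)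

variable {V : Type} {G : SimpleGraph V} [Fintype V] [LinearOrder V] [Nontrivial V]

theorem mkR_N (hG : G.Connected) (S : GMap G) (In lo : Finset G.edgeSet) (hlo : ∀ e ∈ lo, e ∉ In) (k : ℕ)
    (hk : S.eg + ((Bf S In).card : ℤ) ≤ k) (hg : GoodIn S In) (lam : Finset {e : G.edgeSet // e ∈ In}) :
    (mkR hG S In lo hlo k hk hg).N lam = frm (twist S (lo ∪ lam.map (Function.Embedding.subtype _))) := by
  have hd : Disjoint lo (lam.map (Function.Embedding.subtype _)) := by
    rw [Finset.disjoint_left]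
    intro e he he'
    obtain ⟨e', _, rfl⟩ := Finset.mem_map.1 he'
    exact hlo _ he e'.2
  refine LinearMap.ext fun x => LinearMap.ext fun y => ?_
  rw [RDat.N_apply, twist_frm, Finset.sum_union hd, Finset.sum_map, ← add_assoc, ← twist_frm]
  rfl

theorem mkR_rk (hG : G.Connected) (S : GMap G) (In lo : Finset G.edgeSet) (hlo : ∀ e ∈ lo, e ∉ In) (k : ℕ)
    (hk : S.eg + ((Bf S In).card : ℤ) ≤ k) (hg : GoodIn S In) (lam : Finset {e : G.edgeSet // e ∈ In}) :
    (((mkR hG S In lo hlo k hk hg).rkN lam : ℕ) : ℤ) =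
      (twist S (lo ∪ lam.map (Function.Embedding.subtype _))).eg := by
  unfold RDat.rkN
  rw [mkR_N]
  exact frm_rank hG _

theorem mkR_adm (hG : G.Connected) (S : GMap G) (In lo : Finset G.edgeSet) (hlo : ∀ e ∈ lo, e ∉ In) (k : ℕ)
    (hk : S.eg + ((Bf S In).card : ℤ) ≤ k) (hg : GoodIn S In) (lam : Finset {e : G.edgeSet // e ∈ In}) :
    (mkR hG S In lo hlo k hk hg).Adm lam ↔
      (twist S (lo ∪ lam.map (Function.Embedding.subtype _))).Orientable := by
  unfold RDat.Adm
  rw [mkR_N, frm_alt]

end Pool.Agent.SCG
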