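import Pool.Agent.SCG.RSmp

/-!
# SCG-RTw: no twins in a set of least rank

Suppose `u ∉ B` and `v ≠ u` have the same neighbours apart from each other, `u` has a neighbour. There is a functional
`δ` with `a e + a f = δ` for all edges `e` (joining `u` to `x`) and `f` (joining `v` to `x`) of `lam`, and `a e = δ` if
`e` joins `u` and `v`. `lam' := lam` without all the edges at `u` or `v`. With `P x := x + δ x • z u` one has
`N lam' x y = N lam (P x) (P y)`. So `rkN lam' ≤ rkN lam` and `lam'` is smaller: contradiction to `small`.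
-/

set_option autoImplicit false

open Finset
open scoped Classical

namespace Pool.Agent.SCG

open Pool.Agent.BEO (F2 DW Ev oddE)

private theorem rtw_f2 (y : F2) : y + y = 0 := by
  revert y
  decide

private theorem rtw_f2_eq (x y : F2) (h : x + y = 0) : x = y := by
  revert x y
  decide

private theorem rtw_pull {Z : Type} [AddCommGroup Z] [Module F2 Z] [Module.Finite F2 Z]
    (N N' : Z →ₗ[F2] Z →ₗ[F2] F2) (P : Z →ₗ[F2] Z) (h : ∀ x y, N' x y = N (P x) (P y)) :
    Module.finrank F2 (LinearMap.range N') ≤ Module.finrank F2 (LinearMap.range N) := by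
  let g : (Z →ₗ[F2] F2) →ₗ[F2] (Z →ₗ[F2] F2) := LinearMap.lcomp F2 F2 P
  have hN' : N' = g ∘ₗ N ∘ₗ P := by
    ext u v
    exact h u v
  rw [hN', LinearMap.range_comp]
  refine (Submodule.finrank_map_le g _).trans ?_
  exact Submodule.finrank_mono (LinearMap.range_comp_le_range P N)

namespace RDat

variable {k : ℕ} {Φ E Z : Type} [Fintype Φ] [Fintype E] [AddCommGroup Z] [Module F2 Z] [Module.Finite F2 Z]
  (D : RDat k Φ E Z) {lam : Finset E}

/-- the edge `e` has ends `x` and `y` -/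
private def rtwE (e : E) (x y : Φ) : Prop := (D.s e = x ∧ D.t e = y) ∨ (D.s e = y ∧ D.t e = x)

private theorem rtwE_symm {e : E} {x y : Φ} (h : D.rtwE e x y) : D.rtwE e y x := h.symm

private theorem rtwE_sym2 {e f : E} {x y : Φ} (h : D.rtwE e x y) (h' : D.rtwE f x y) :
    s(D.s e, D.t e) = s(D.s f, D.t f) := by
  have h1 : s(D.s e, D.t e) = s(x, y) := Sym2.eq_iff.2 h
  have h2 : s(D.s f, D.t f) = s(x, y) := Sym2.eq_iff.2 h'
  rw [h1, h2]

private theorem rtwE_other {e : E} {x y y' : Φ} (h : D.rtwE e x y) (h' : D.rtwE e x y') : y = y' := by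
  rcases h with ⟨h1, h2⟩ | ⟨h1, h2⟩ <;> rcases h' with ⟨h3, h4⟩ | ⟨h3, h4⟩
  · rw [← h2, ← h4]
  · rw [← h2, h4, ← h1, h3]
  · rw [← h1, h3, ← h2, h4]
  · rw [← h1, ← h3]

private theorem rtw_delta (h : D.Min0 lam) (u v : Φ) (huv : u ≠ v) (hu : ∃ x, (D.gr lam).Adj u x)
    (hall : ∀ x, x ≠ u → x ≠ v → ((D.gr lam).Adj u x ↔ (D.gr lam).Adj v x)) :
    ∃ δ : Z →ₗ[F2] F2, (∀ e ∈ lam, D.rtwE e u v → ∀ x, D.a e x + δ x = 0) ∧
      ∀ x, x ≠ u → x ≠ v → ∀ e ∈ lam, ∀ f ∈ lam, D.rtwE e u x → D.rtwE f v x →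
        ∀ y, D.a e y + δ y = D.a f y := by
  by_cases hadj : (D.gr lam).Adj u v
  · obtain ⟨-, e0, he0, h0⟩ := hadj
    refine ⟨D.a e0, ?_, ?_⟩
    · intro e he hE x
      have : e = e0 := D.no_digon0 h e e0 he he0 (D.rtwE_sym2 hE h0)
      rw [this]
      exact rtw_f2 _
    · intro x hxu hxv e he f hf hE hF y
      have hw : DW D.s D.t u u [e, f, e0] :=
        DW.cons u x u e _ hE (DW.cons x v u f _ (D.rtwE_symm hF) (DW.cons v u u e0 _ (D.rtwE_symm h0) (DW.nil _)))
      have ha := D.wide _ _ hw (by simp)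
      rw [List.map_cons, List.map_cons, List.map_cons, List.map_nil, List.sum_cons, List.sum_cons, List.sum_cons,
        List.sum_nil, add_zero] at ha
      have h1 := LinearMap.congr_fun ha y
      rw [LinearMap.add_apply, LinearMap.add_apply, LinearMap.zero_apply] at h1
      refine rtw_f2_eq _ _ ?_
      rw [← h1]
      ring
  · obtain ⟨x0, hx0⟩ := hu
    have hx0u : x0 ≠ u := hx0.1.symm
    have hx0v : x0 ≠ v := by
      rintro rfl
      exact hadj hx0
    have hv0 := (hall x0 hx0u hx0v).1 hx0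
    obtain ⟨-, e1, he1, hE1⟩ := hx0
    obtain ⟨-, f1, hf1, hF1⟩ := hv0
    refine ⟨D.a e1 + D.a f1, ?_, ?_⟩
    · intro e he hE x
      exact absurd ⟨huv, e, he, hE⟩ hadj
    · intro x hxu hxv e he f hf hE hF y
      have hw : DW D.s D.t u u [e, f, f1, e1] :=
        DW.cons u x u e _ hE (DW.cons x v u f _ (D.rtwE_symm hF) (DW.cons v x0 u f1 _ hF1
          (DW.cons x0 u u e1 _ (D.rtwE_symm hE1) (DW.nil _))))
      have ha := D.wide _ _ hw (by simp)
      rw [List.map_cons, List.map_cons, List.map_cons, List.map_cons, List.map_nil, List.sum_cons, List.sum_cons,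
        List.sum_cons, List.sum_cons, List.sum_nil, add_zero] at ha
      have h1 := LinearMap.congr_fun ha y
      rw [LinearMap.add_apply, LinearMap.add_apply, LinearMap.add_apply, LinearMap.zero_apply] at h1
      refine rtw_f2_eq _ _ ?_
      rw [LinearMap.add_apply, ← h1]
      ring

omit [Module.Finite F2 Z] in
private theorem rtw_az {e : E} {u x : Φ} (hux : u ≠ x) (hE : D.rtwE e u x) : D.a e (D.z u) = 1 := by
  rw [D.inc]
  rcases hE with ⟨h1, h2⟩ | ⟨h1, h2⟩
  · rw [if_pos h1, if_neg (fun h => hux (by rw [← h, h2])), add_zero]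
  · rw [if_pos h2, if_neg (fun h => hux (by rw [← h, h1])), zero_add]

omit [Module.Finite F2 Z] in
private theorem rtw_az0 {e : E} {u : Φ} (h1 : ¬ (D.s e = u ∨ D.t e = u)) : D.a e (D.z u) = 0 := by
  rw [D.inc, if_neg (fun h => h1 (Or.inl h)), if_neg (fun h => h1 (Or.inr h)), add_zero]

omit [Module.Finite F2 Z] in
private theorem rtw_end {e : E} {u : Φ} (hl : D.s e ≠ D.t e) (h1 : D.s e = u ∨ D.t e = u) :
    ∃ x, x ≠ u ∧ D.rtwE e u x := by
  rcases h1 with h1 | h1
  · exact ⟨D.t e, fun h => hl (by rw [h1, h]), Or.inl ⟨h1, rfl⟩⟩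
  · exact ⟨D.s e, fun h => hl (by rw [h1, h]), Or.inr ⟨rfl, h1⟩⟩

theorem no_twin0 (h : D.Min0 lam) (u v : Φ) (huB : u ∉ D.B) (huv : u ≠ v) (hu : ∃ x, (D.gr lam).Adj u x) :
    ¬ ∀ x, x ≠ u → x ≠ v → ((D.gr lam).Adj u x ↔ (D.gr lam).Adj v x) := by
  intro hall
  obtain ⟨δ, hδ1, hδ2⟩ := D.rtw_delta h u v huv hu hall
  -- the edges at `u`, the edges at `v` but not at `u`, the other edges
  let A := lam.filter (fun e => D.s e = u ∨ D.t e = u)
  let R := lam.filter (fun e => ¬ (D.s e = u ∨ D.t e = u))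
  let Bv := R.filter (fun e => D.s e = v ∨ D.t e = v)
  let L' := R.filter (fun e => ¬ (D.s e = v ∨ D.t e = v))
  have hsplit : ∀ g : E → F2, ∑ e ∈ lam, g e = ∑ e ∈ A, g e + ∑ e ∈ R, g e := fun g =>
    (Finset.sum_filter_add_sum_filter_not lam _ g).symm
  have hsplit2 : ∀ g : E → F2, ∑ e ∈ R, g e = ∑ e ∈ Bv, g e + ∑ e ∈ L', g e := fun g =>
    (Finset.sum_filter_add_sum_filter_not R _ g).symm
  -- the value of the form at `z u`
  have haz1 : ∀ e ∈ A, D.a e (D.z u) = 1 := by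
    intro e he
    have he' := mem_filter.1 he
    obtain ⟨x, hx, hE⟩ := D.rtw_end (D.no_loop0 h e he'.1) he'.2
    exact D.rtw_az hx.symm hE
  have haz0 : ∀ e ∈ R, D.a e (D.z u) = 0 := by
    intro e he
    exact D.rtw_az0 (mem_filter.1 he).2
  have hNz : ∀ y, D.N lam (D.z u) y = ∑ e ∈ A, D.a e y := by
    intro y
    rw [D.N_apply, D.J_z' y u huB, zero_add, hsplit]
    have e1 : ∑ e ∈ R, D.a e (D.z u) * D.a e y = 0 :=
      Finset.sum_eq_zero fun e he => by rw [haz0 e he, zero_mul]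
    have e2 : ∑ e ∈ A, D.a e (D.z u) * D.a e y = ∑ e ∈ A, D.a e y :=
      Finset.sum_congr rfl fun e he => by rw [haz1 e he, one_mul]
    rw [e1, e2, add_zero]
  have hNzz : D.N lam (D.z u) (D.z u) = ∑ e ∈ A, (1 : F2) := by
    rw [hNz]
    exact Finset.sum_congr rfl haz1
  -- the exchange
  have hex : ∀ x y, ∑ e ∈ A, (D.a e x + δ x) * (D.a e y + δ y) = ∑ e ∈ Bv, D.a e x * D.a e y := by
    intro x y
    let A' := A.filter (fun e => ¬ D.rtwE e u v)
    have hA : ∑ e ∈ A, (D.a e x + δ x) * (D.a e y + δ y) = ∑ e ∈ A', (D.a e x + δ x) * (D.a e y + δ y) := by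
      rw [← Finset.sum_filter_add_sum_filter_not A (fun e => D.rtwE e u v)]
      have : ∑ e ∈ A.filter (fun e => D.rtwE e u v), (D.a e x + δ x) * (D.a e y + δ y) = 0 := by
        refine Finset.sum_eq_zero fun e he => ?_
        have he' := mem_filter.1 he
        rw [hδ1 e (mem_filter.1 he'.1).1 he'.2 x, zero_mul]
      rw [this, zero_add]
    rw [hA]
    -- the partner of an edge
    have hpart : ∀ e, e ∈ A' → ∃ f, f ∈ Bv ∧ ∃ w, w ≠ u ∧ w ≠ v ∧ D.rtwE e u w ∧ D.rtwE f v w := by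
      intro e he
      have he' := mem_filter.1 he
      have he'' := mem_filter.1 he'.1
      obtain ⟨w, hw, hE⟩ := D.rtw_end (D.no_loop0 h e he''.1) he''.2
      have hwv : w ≠ v := by
        rintro rfl
        exact he'.2 hE
      obtain ⟨-, f, hf, hF⟩ := (hall w hw hwv).1 ⟨hw.symm, e, he''.1, hE⟩
      refine ⟨f, ?_, w, hw, hwv, hE, hF⟩
      refine mem_filter.2 ⟨mem_filter.2 ⟨hf, ?_⟩, ?_⟩
      · rcases hF with ⟨h1, h2⟩ | ⟨h1, h2⟩
        · rw [h1, h2]
          rintro (h3 | h3)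
          · exact huv h3.symm
          · exact hw h3
        · rw [h1, h2]
          rintro (h3 | h3)
          · exact hw h3
          · exact huv h3.symm
      · rcases hF with ⟨h1, h2⟩ | ⟨h1, h2⟩
        · exact Or.inl h1
        · exact Or.inr h2
    choose! π hπB hπ using hpart
    refine Finset.sum_bij (fun e _ => π e) (fun e he => hπB e he) ?_ ?_ ?_
    · intro e1 he1 e2 he2 heq
      obtain ⟨w1, hw1u, hw1v, hE1, hF1⟩ := hπ e1 he1
      obtain ⟨w2, hw2u, hw2v, hE2, hF2⟩ := hπ e2 he2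
      have heq' : π e1 = π e2 := heq
      rw [heq'] at hF1
      have hw : w1 = w2 := D.rtwE_other hF1 hF2
      rw [hw] at hE1
      exact D.no_digon0 h e1 e2 (mem_filter.1 (mem_filter.1 he1).1).1 (mem_filter.1 (mem_filter.1 he2).1).1
        (D.rtwE_sym2 hE1 hE2)
    · intro f hf
      have hf' := mem_filter.1 hf
      have hf'' := mem_filter.1 hf'.1
      obtain ⟨w, hw, hF⟩ := D.rtw_end (D.no_loop0 h f hf''.1) hf'.2
      have hwu : w ≠ u := by
        rintro rfl
        rcases hF with ⟨h1, h2⟩ | ⟨h1, h2⟩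
        · exact hf''.2 (Or.inr h2)
        · exact hf''.2 (Or.inl h1)
      obtain ⟨-, e, he, hE⟩ := (hall w hwu hw).2 ⟨hw.symm, f, hf''.1, hF⟩
      have heA : e ∈ A' := by
        refine mem_filter.2 ⟨mem_filter.2 ⟨he, ?_⟩, ?_⟩
        · rcases hE with ⟨h1, h2⟩ | ⟨h1, h2⟩
          · exact Or.inl h1
          · exact Or.inr h2
        · intro h3
          exact hw (D.rtwE_other hE h3)
      refine ⟨e, heA, ?_⟩
      obtain ⟨w', hw'u, hw'v, hE', hF'⟩ := hπ e heA
      have hww : w = w' := D.rtwE_other hE hE'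
      rw [← hww] at hF'
      exact D.no_digon0 h _ _ (mem_filter.1 (mem_filter.1 (hπB e heA)).1).1 hf''.1 (D.rtwE_sym2 hF' hF)
    · intro e he
      obtain ⟨w, hwu, hwv, hE, hF⟩ := hπ e he
      have he1 : e ∈ lam := (mem_filter.1 (mem_filter.1 he).1).1
      have hf1 : π e ∈ lam := (mem_filter.1 (mem_filter.1 (hπB e he)).1).1
      rw [hδ2 w hwu hwv e he1 (π e) hf1 hE hF x, hδ2 w hwu hwv e he1 (π e) hf1 hE hF y]
  -- the new form
  let P : Z →ₗ[F2] Z := LinearMap.id + δ.smulRight (D.z u)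
  have hP : ∀ x, P x = x + δ x • D.z u := fun x => rfl
  have hform : ∀ x y, D.N L' x y = D.N lam (P x) (P y) := by
    intro x y
    have e2 : D.N lam (x + δ x • D.z u) (y + δ y • D.z u) =
        D.N lam x y + δ y * D.N lam x (D.z u) + (δ x * D.N lam (D.z u) y +
          δ x * (δ y * D.N lam (D.z u) (D.z u))) := by
      rw [map_add (D.N lam) x _, LinearMap.add_apply, map_add (D.N lam x), map_smul (D.N lam) (δ x) (D.z u),
        LinearMap.smul_apply, map_add (D.N lam (D.z u)), map_smul (D.N lam x), map_smul (D.N lam (D.z u)),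
        smul_eq_mul, smul_eq_mul, smul_eq_mul, mul_add]
    rw [hP, hP, e2, D.N_symm lam x (D.z u), hNzz, hNz, hNz, D.N_apply, D.N_apply, hsplit, hsplit2]
    have e3 := hex x y
    have e4 : ∑ e ∈ A, (D.a e x + δ x) * (D.a e y + δ y) = ∑ e ∈ A, D.a e x * D.a e y + δ y * ∑ e ∈ A, D.a e x +
        (δ x * ∑ e ∈ A, D.a e y + δ x * (δ y * ∑ e ∈ A, (1 : F2))) := by
      rw [Finset.mul_sum, Finset.mul_sum, Finset.mul_sum, Finset.mul_sum, ← Finset.sum_add_distrib,
        ← Finset.sum_add_distrib, ← Finset.sum_add_distrib]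
      refine Finset.sum_congr rfl fun e _ => ?_
      ring
    rw [e4] at e3
    have e5 := rtw_f2 (∑ e ∈ Bv, D.a e x * D.a e y)
    linear_combination (-1 : F2) * e3 - e5
  have hrk : D.rkN L' ≤ D.rkN lam := rtw_pull (D.N lam) (D.N L') P hform
  have hcard := h.small L' hrk
  obtain ⟨x0, -, e0, he0, hE0⟩ := hu
  have hlt : L'.card < lam.card := by
    refine Finset.card_lt_card ⟨fun e he => (mem_filter.1 (mem_filter.1 he).1).1, fun hsub => ?_⟩
    have h1 := hsub he0
    have h2 := (mem_filter.1 (mem_filter.1 h1).1).2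
    rcases hE0 with ⟨h3, h4⟩ | ⟨h3, h4⟩
    · exact h2 (Or.inl h3)
    · exact h2 (Or.inr h4)
  omega

end RDat

end Pool.Agent.SCG
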