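import Pool.Agent.SCG.SpA
import Pool.Agent.SCG.SpB

/-!
# SCG-SpC: closed faces are counted correctly

PLAN. `comp_look` for `labU l K u c`: all pairs of `relU` are flags at vertices of the piece (`mem_flU`; the other end of
an inner edge is in the piece, `nxt_fst`). By `nx_cod`, `acx_cod`, `mem_flU`, `mem_fli` the relation on codes is the image
of `RFi` (for `p` in the piece), so the `EqvGen`s agree (transport by the injective `cod`; both directions by induction on
`EqvGen`, all points of the chain are in the piece). `clo_eq`: `ddp (map snd)` lists the labels, one for each class in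
`flU`; the labels which are not the label of a boundary flag correspond to the classes of `RFi` all of whose flags are in
the piece and not at the boundary (`clR`); a bijection between a duplicate-free list and a type (compare `comp_card`).
-/

set_option autoImplicit false

open Finset
open scoped Classical

namespace Pool.Agent.SCG

open Pool.Agent.Helper35.OG (Flag GMap across side)
open Pool.Agent.BEO (F2 ed rp cyc ev twist tph cod Codes ec lamOf look memb ddp comp stp bfs par tup cds Pt Ec Inp Stt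
  sd ac ek fl fcl zl lb xo bvs nF isO nE nV nxc)

variable {n : ℕ} {G : SimpleGraph (Fin n)} {S : GMap G} {l : Inp}

private theorem ed_acl (lam : Finset G.edgeSet) (p : Flag G) : ed (acl lam p) = ed p := by
  unfold acl
  by_cases h : ed p ∈ lam
  · rw [if_pos h]
    show ed (across p) = ed p
    exact Pool.Agent.BEO.ed_across p
  · rw [if_neg h]
    exact Pool.Agent.BEO.ed_across p

private theorem mem_relU (h : Codes S l) (hG : G.Connected) (hn : 2 ≤ n) (K : List Ec) (u : Fin n) (c : List Ec)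
    (a b : Pt) : (a, b) ∈ relU l K (u : ℕ) c ↔ ∃ p : Flag G, a = cod p ∧ p.1.fst ∈ UD (DK G K) u ∧
      (b = cod (S.nxt p) ∨ (ed p ∈ InD (DK G K) u ∧ b = cod (acl (lamOf G c) p))) := by
  unfold relU
  rw [List.mem_append, List.mem_map, List.mem_map]
  constructor
  · rintro (⟨x, hx, hab⟩ | ⟨x, hx, hab⟩)
    · obtain ⟨p, rfl, hp⟩ := (mem_flU h hG hn K u x).1 hx
      rw [Prod.mk.injEq, nx_cod h] at hab
      exact ⟨p, hab.1.symm, hp, Or.inl hab.2.symm⟩
    · obtain ⟨p, rfl, hp⟩ := (mem_fli h hG hn K u x).1 hx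
      rw [Prod.mk.injEq, acx_cod] at hab
      exact ⟨p, hab.1.symm, inD_fst _ u p hp, Or.inr ⟨hp, hab.2.symm⟩⟩
  · rintro ⟨p, rfl, hp, hb⟩
    rcases hb with rfl | ⟨hp2, rfl⟩
    · exact Or.inl ⟨cod p, (mem_flU h hG hn K u _).2 ⟨p, rfl, hp⟩, by rw [nx_cod h]⟩
    · exact Or.inr ⟨cod p, (mem_fli h hG hn K u _).2 ⟨p, rfl, hp2⟩, by rw [acx_cod]⟩

private theorem relU_pts (h : Codes S l) (hG : G.Connected) (hn : 2 ≤ n) (K : List Ec) (u : Fin n) (c : List Ec) :
    ∀ r ∈ relU l K (u : ℕ) c, r.1 ∈ flU l K (u : ℕ) ∧ r.2 ∈ flU l K (u : ℕ) := by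
  rintro ⟨a, b⟩ hr
  obtain ⟨p, ha, hp, hb⟩ := (mem_relU h hG hn K u c a b).1 hr
  refine ⟨(mem_flU h hG hn K u a).2 ⟨p, ha, hp⟩, ?_⟩
  rcases hb with hb | ⟨hp2, hb⟩
  · refine (mem_flU h hG hn K u b).2 ⟨_, hb, ?_⟩
    rw [S.nxt_fst]
    exact hp
  · refine (mem_flU h hG hn K u b).2 ⟨_, hb, ?_⟩
    apply inD_fst
    rw [ed_acl]
    exact hp2

/-- the inner relation does not leave the piece -/
private theorem RFi_mem (D : Finset G.edgeSet) (u : Fin n) (lam : Finset G.edgeSet) {p q : Flag G}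
    (h : RFi S (InD D u) (UD D u) lam p q) : q.1.fst ∈ UD D u := by
  obtain ⟨h1, h2 | ⟨h2, h3⟩⟩ := h
  · rw [h2, S.nxt_fst]
    exact h1
  · apply inD_fst
    rw [h3, ed_acl]
    exact h2

private theorem RFi_eqv (D : Finset G.edgeSet) (u : Fin n) (lam : Finset G.edgeSet) {p q : Flag G}
    (h : Relation.EqvGen (RFi S (InD D u) (UD D u) lam) p q) : p.1.fst ∈ UD D u ↔ q.1.fst ∈ UD D u := by
  induction h with
  | rel x y hxy => exact ⟨fun _ => RFi_mem D u lam hxy, fun _ => hxy.1⟩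
  | refl x => exact Iff.rfl
  | symm x y _ ih => exact ih.symm
  | trans x y z _ _ ih1 ih2 => exact ih1.trans ih2

private theorem key (h : Codes S l) (hG : G.Connected) (hn : 2 ≤ n) (K : List Ec) (u : Fin n) (c : List Ec)
    (p q : Flag G) : Relation.EqvGen (fun a b => (a, b) ∈ relU l K (u : ℕ) c) (cod p) (cod q) ↔
      Relation.EqvGen (RFi S (InD (DK G K) u) (UD (DK G K) u) (lamOf G c)) p q := by
  constructor
  · intro hpq
    have h1 : ∀ p : Flag G, {f : Quot (RFi S (InD (DK G K) u) (UD (DK G K) u) (lamOf G c)) |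
        ∃ p' : Flag G, cod p = cod p' ∧ f = Quot.mk _ p'} = {Quot.mk _ p} := by
      intro p
      ext f
      constructor
      · rintro ⟨p', hp', rfl⟩
        rw [Pool.Agent.BEO.cod_inj hp']
        rfl
      · intro hf
        exact ⟨p, rfl, hf⟩
    have h2 := Pool.Agent.Helper35.OG.eqvGen_eq (fun x : Pt =>
      {f : Quot (RFi S (InD (DK G K) u) (UD (DK G K) u) (lamOf G c)) |
        ∃ p' : Flag G, x = cod p' ∧ f = Quot.mk _ p'}) (by
        intro x y hxy
        obtain ⟨p', rfl, hp', hb⟩ := (mem_relU h hG hn K u c _ _).1 hxy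
        rcases hb with rfl | ⟨hp2, rfl⟩
        · show {f : Quot (RFi S (InD (DK G K) u) (UD (DK G K) u) (lamOf G c)) |
              ∃ p'' : Flag G, cod p' = cod p'' ∧ f = Quot.mk _ p''} =
            {f | ∃ p'' : Flag G, cod (S.nxt p') = cod p'' ∧ f = Quot.mk _ p''}
          rw [h1, h1]
          exact congrArg _ (Quot.sound ⟨hp', Or.inl rfl⟩)
        · show {f : Quot (RFi S (InD (DK G K) u) (UD (DK G K) u) (lamOf G c)) |
              ∃ p'' : Flag G, cod p' = cod p'' ∧ f = Quot.mk _ p''} =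
            {f | ∃ p'' : Flag G, cod (acl (lamOf G c) p') = cod p'' ∧ f = Quot.mk _ p''}
          rw [h1, h1]
          exact congrArg _ (Quot.sound ⟨hp', Or.inr ⟨hp2, rfl⟩⟩)) hpq
    have h3 : {f : Quot (RFi S (InD (DK G K) u) (UD (DK G K) u) (lamOf G c)) |
          ∃ p' : Flag G, cod p = cod p' ∧ f = Quot.mk _ p'} =
        {f | ∃ p' : Flag G, cod q = cod p' ∧ f = Quot.mk _ p'} := h2
    rw [h1, h1] at h3
    exact Quot.eqvGen_exact (Set.singleton_injective h3)
  · intro hpq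
    induction hpq with
    | rel x y hxy =>
      refine Relation.EqvGen.rel _ _ ((mem_relU h hG hn K u c _ _).2 ⟨x, rfl, hxy.1, ?_⟩)
      rcases hxy.2 with hxy | ⟨h2, hxy⟩
      · exact Or.inl (by rw [hxy])
      · exact Or.inr ⟨h2, by rw [hxy]⟩
    | refl x => exact Relation.EqvGen.refl _
    | symm x y _ ih => exact Relation.EqvGen.symm _ _ ih
    | trans x y z _ _ ih1 ih2 => exact Relation.EqvGen.trans _ _ _ ih1 ih2

theorem labU_iff (h : Codes S l) (hG : G.Connected) (hn : 2 ≤ n) (K : List Ec) (u : Fin n) (c : List Ec)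
    (p q : Flag G) (hp : p.1.fst ∈ UD (DK G K) u) (hq : q.1.fst ∈ UD (DK G K) u) :
    look (labU l K (u : ℕ) c) (cod p) (cod p) = look (labU l K (u : ℕ) c) (cod q) (cod q) ↔
      Relation.EqvGen (RFi S (InD (DK G K) u) (UD (DK G K) u) (lamOf G c)) p q := by
  rw [← key h hG hn K u c p q]
  unfold labU
  exact Pool.Agent.BEO.comp_look _ _ (relU_pts h hG hn K u c) _ _ ((mem_flU h hG hn K u _).2 ⟨p, rfl, hp⟩)
    ((mem_flU h hG hn K u _).2 ⟨q, rfl, hq⟩)

private theorem nodup_flU (l : Inp) (K : List Ec) (u : ℕ) : (flU l K u).Nodup := by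
  unfold flU fl
  exact (Pool.Agent.BEO.nodup_ddp _).filter _

private theorem mem_snd (h : Codes S l) (hG : G.Connected) (hn : 2 ≤ n) (K : List Ec) (u : Fin n) (c : List Ec)
    (y : Pt) : y ∈ (labU l K (u : ℕ) c).map Prod.snd ↔
      ∃ p : Flag G, p.1.fst ∈ UD (DK G K) u ∧ y = look (labU l K (u : ℕ) c) (cod p) (cod p) := by
  have hfst : (labU l K (u : ℕ) c).map Prod.fst = flU l K (u : ℕ) := Pool.Agent.BEO.comp_fst _ _
  have hnd : ((labU l K (u : ℕ) c).map Prod.fst).Nodup := by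
    rw [hfst]
    exact nodup_flU _ _ _
  have hlk : ∀ x ∈ flU l K (u : ℕ), (x, look (labU l K (u : ℕ) c) x x) ∈ labU l K (u : ℕ) c := by
    intro x hx
    apply Pool.Agent.BEO.look_mem
    rw [← hfst, List.mem_map] at hx
    obtain ⟨⟨a, b⟩, hab, rfl⟩ := hx
    exact ⟨b, hab⟩
  rw [List.mem_map]
  constructor
  · rintro ⟨⟨a, b⟩, hab, rfl⟩
    have ha : a ∈ flU l K (u : ℕ) := by
      rw [← hfst]
      exact List.mem_map.2 ⟨(a, b), hab, rfl⟩
    obtain ⟨p, rfl, hp⟩ := (mem_flU h hG hn K u a).1 ha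
    refine ⟨p, hp, ?_⟩
    have h1 := List.inj_on_of_nodup_map hnd hab (hlk _ ha) rfl
    exact (Prod.mk.inj h1).2
  · rintro ⟨p, hp, rfl⟩
    exact ⟨_, hlk _ ((mem_flU h hG hn K u _).2 ⟨p, rfl, hp⟩), rfl⟩

theorem clo_eq (h : Codes S l) (hG : G.Connected) (hn : 2 ≤ n) (K : List Ec) (u : Fin n) (c : List Ec) :
    clo l K (u : ℕ) c = clF S (InD (DK G K) u) (UD (DK G K) u) (lamOf G c) := by
  have hmem : ∀ y, y ∈ ((ddp ((labU l K (u : ℕ) c).map Prod.snd)).filter fun x =>
      !((flb l K (u : ℕ)).any fun p => decide (look (labU l K (u : ℕ) c) p p = x))).toFinset ↔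
      (∃ p : Flag G, p.1.fst ∈ UD (DK G K) u ∧ y = look (labU l K (u : ℕ) c) (cod p) (cod p)) ∧
      ∀ q : Flag G, q.1.fst ∈ UD (DK G K) u → ec (ed q) ∈ K →
        look (labU l K (u : ℕ) c) (cod q) (cod q) ≠ y := by
    intro y
    rw [List.mem_toFinset, List.mem_filter, Pool.Agent.BEO.mem_ddp, mem_snd h hG hn K u c]
    refine and_congr Iff.rfl ?_
    rw [Bool.not_eq_true', List.any_eq_false]
    constructor
    · intro h1 q hq1 hq2 h3
      exact h1 (cod q) ((mem_flb h hG hn K u _).2 ⟨q, rfl, hq1, hq2⟩) (decide_eq_true h3)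
    · intro h1 x hx h3
      obtain ⟨q, rfl, hq1, hq2⟩ := (mem_flb h hG hn K u x).1 hx
      exact h1 q hq1 hq2 (of_decide_eq_true h3)
  unfold clo clF clR
  rw [← List.toFinset_card_of_nodup ((Pool.Agent.BEO.nodup_ddp _).filter _)]
  have hK : ∀ q : Flag G, q.1.fst ∈ UD (DK G K) u → (ed q ∉ InD (DK G K) u ↔ ec (ed q) ∈ K) := by
    intro q hq
    rw [inD_iff _ u q hq]
    unfold DK
    rw [mem_filter]
    constructor
    · intro h1
      by_contra h2
      exact h1 ⟨mem_univ _, h2⟩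
    · intro h1 h2
      exact h2.2 h1
  have hrep : ∀ c' : {c' : Quot (RFi S (InD (DK G K) u) (UD (DK G K) u) (lamOf G c)) //
      ∀ x, Quot.mk _ x = c' → x.1.fst ∈ UD (DK G K) u ∧ ¬ (x.1.fst ∈ UD (DK G K) u ∧ ed x ∉ InD (DK G K) u)},
      ∃ p : Flag G, Quot.mk _ p = c'.1 ∧ p.1.fst ∈ UD (DK G K) u := by
    rintro ⟨c', hc'⟩
    obtain ⟨p, hp⟩ := Quot.exists_rep c'
    exact ⟨p, hp, (hc' p hp).1⟩
  choose rep hrep1 hrep2 using hrep
  have hb : Function.Bijective (fun c' : {c' : Quot (RFi S (InD (DK G K) u) (UD (DK G K) u) (lamOf G c)) //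
      ∀ x, Quot.mk _ x = c' → x.1.fst ∈ UD (DK G K) u ∧ ¬ (x.1.fst ∈ UD (DK G K) u ∧ ed x ∉ InD (DK G K) u)} =>
      (⟨look (labU l K (u : ℕ) c) (cod (rep c')) (cod (rep c')), (hmem _).2 ⟨⟨rep c', hrep2 c', rfl⟩, by
        intro q hq1 hq2 h3
        have h4 := (labU_iff h hG hn K u c q (rep c') hq1 (hrep2 c')).1 h3
        have h5 : Quot.mk (RFi S (InD (DK G K) u) (UD (DK G K) u) (lamOf G c)) q = c'.1 := by
          rw [← hrep1 c']
          exact Quot.eqvGen_sound h4
        exact (c'.2 q h5).2 ⟨hq1, (hK q hq1).2 hq2⟩⟩⟩ :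
      ((ddp ((labU l K (u : ℕ) c).map Prod.snd)).filter fun x =>
      !((flb l K (u : ℕ)).any fun p => decide (look (labU l K (u : ℕ) c) p p = x))).toFinset)) := by
    constructor
    · intro c1 c2 h12
      have h1 := congrArg Subtype.val h12
      have h2 := (labU_iff h hG hn K u c (rep c1) (rep c2) (hrep2 c1) (hrep2 c2)).1 h1
      apply Subtype.ext
      rw [← hrep1 c1, ← hrep1 c2]
      exact Quot.eqvGen_sound h2
    · rintro ⟨y, hy⟩
      obtain ⟨⟨p, hp, hyp⟩, hy2⟩ := (hmem y).1 hy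
      refine ⟨⟨Quot.mk _ p, ?_⟩, ?_⟩
      · intro q hq
        have hqp := Quot.eqvGen_exact hq
        have hq1 : q.1.fst ∈ UD (DK G K) u := (RFi_eqv _ u _ hqp).2 hp
        refine ⟨hq1, fun hq2 => ?_⟩
        refine hy2 q hq1 ((hK q hq1).1 hq2.2) ?_
        rw [hyp]
        exact (labU_iff h hG hn K u c q p hq1 hp).2 hqp
      · apply Subtype.ext
        refine Eq.trans ?_ hyp.symm
        refine (labU_iff h hG hn K u c _ p (hrep2 _) hp).2 ?_
        exact Quot.eqvGen_exact (hrep1 _)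
  rw [Nat.card_congr (Equiv.ofBijective _ hb), Nat.card_eq_fintype_card, Fintype.card_coe]

end Pool.Agent.SCG
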