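import Pool.Agent.SCG.SpA
import Pool.Agent.SCG.SpB

/-!
# SCG-SpD: coloured flags

PLAN. As in SpC: `comp_look` for `labC l K u c`, points `ptC`, the relation is the image of `RCi`.
-/

set_option autoImplicit false

open Finset
open scoped Classical

namespace Pool.Agent.SCG

open Pool.Agent.Helper35.OG (Flag GMap across side)
open Pool.Agent.BEO (F2 ed rp cyc ev twist tph cod Codes ec lamOf look memb ddp comp stp bfs par tup cds Pt Ec Inp Stt
  sd ac ek fl fcl zl lb xo bvs nF isO nE nV nxc)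

variable {n : ℕ} {G : SimpleGraph (Fin n)} {S : GMap G} {l : Inp}

private theorem ed_acl (lam : Finset G.edgeSet) (p : Flag G) : ed (acl lam p) = ed p := by
  unfold acl
  by_cases h : ed p ∈ lam
  · rw [if_pos h]
    show ed (across p) = ed p
    exact Pool.Agent.BEO.ed_across p
  · rw [if_neg h]
    exact Pool.Agent.BEO.ed_across p

/-- the code of a coloured flag -/
private def cdc (x : Flag G × Bool) : Pt × Bool := (cod x.1, x.2)

private theorem cdc_inj {x y : Flag G × Bool} (h : cdc x = cdc y) : x = y := by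
  obtain ⟨h1, h2⟩ := Prod.mk.inj h
  exact Prod.ext (Pool.Agent.BEO.cod_inj h1) h2

private theorem mem_ptC (h : Codes S l) (hG : G.Connected) (hn : 2 ≤ n) (K : List Ec) (u : Fin n)
    (a : Pt × Bool) : a ∈ ptC l K (u : ℕ) ↔ ∃ x : Flag G × Bool, a = cdc x ∧ x.1.1.fst ∈ UD (DK G K) u := by
  unfold ptC
  rw [List.mem_flatMap]
  constructor
  · rintro ⟨x, hx, ha⟩
    obtain ⟨p, rfl, hp⟩ := (mem_flU h hG hn K u x).1 hx
    rw [List.mem_cons, List.mem_singleton] at ha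
    rcases ha with ha | ha
    · exact ⟨(p, false), ha, hp⟩
    · exact ⟨(p, true), ha, hp⟩
  · rintro ⟨⟨p, b⟩, rfl, hp⟩
    refine ⟨cod p, (mem_flU h hG hn K u _).2 ⟨p, rfl, hp⟩, ?_⟩
    rw [List.mem_cons, List.mem_singleton]
    cases b
    · exact Or.inl rfl
    · exact Or.inr rfl

private theorem inK (K : List Ec) (u : Fin n) (p : Flag G) (hp : p.1.fst ∈ UD (DK G K) u) :
    ed p ∈ InD (DK G K) u ↔ (!memb K (ek (cod p))) = true := by
  rw [inD_iff _ u p hp, Pool.Agent.BEO.ek_cod, Bool.not_eq_true', ← Bool.not_eq_true, Pool.Agent.BEO.memb_iff]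
  unfold DK
  rw [mem_filter]
  exact ⟨fun h => h.2, fun h => ⟨mem_univ _, h⟩⟩

private theorem mem_relC (h : Codes S l) (hG : G.Connected) (hn : 2 ≤ n) (K : List Ec) (u : Fin n) (c : List Ec)
    (a b : Pt × Bool) : (a, b) ∈ relC l K (u : ℕ) c ↔ ∃ x : Flag G × Bool, a = cdc x ∧
      ∃ y, b = cdc y ∧ RCi S (InD (DK G K) u) (UD (DK G K) u) (lamOf G c) x y := by
  unfold relC
  rw [List.mem_append, List.mem_append, List.mem_map, List.mem_map, List.mem_map]
  constructor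
  · rintro (⟨z, hz, hab⟩ | ⟨z, hz, hab⟩ | ⟨z, hz, hab⟩)
    · obtain ⟨x, rfl, hx⟩ := (mem_ptC h hG hn K u z).1 hz
      obtain ⟨h1, h2⟩ := Prod.mk.inj hab
      refine ⟨x, h1.symm, (S.nxt x.1, !x.2), ?_, hx, Or.inl rfl⟩
      rw [← h2]
      show (nx l (cod x.1), !x.2) = (cod (S.nxt x.1), !x.2)
      rw [nx_cod h]
    · obtain ⟨x, rfl, hx⟩ := (mem_ptC h hG hn K u z).1 hz
      obtain ⟨h1, h2⟩ := Prod.mk.inj hab
      refine ⟨x, h1.symm, (side x.1, !x.2), ?_, hx, Or.inr (Or.inl rfl)⟩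
      rw [← h2]
      rfl
    · rw [List.mem_filter] at hz
      obtain ⟨x, rfl, hx⟩ := (mem_ptC h hG hn K u z).1 hz.1
      obtain ⟨h1, h2⟩ := Prod.mk.inj hab
      refine ⟨x, h1.symm, (acl (lamOf G c) x.1, !x.2), ?_, hx, Or.inr (Or.inr ⟨(inK K u x.1 hx).2 hz.2, rfl⟩)⟩
      rw [← h2]
      show (acx c (cod x.1), !x.2) = (cod (acl (lamOf G c) x.1), !x.2)
      rw [acx_cod]
  · rintro ⟨x, rfl, y, rfl, hx, hy⟩
    have hm : cdc x ∈ ptC l K (u : ℕ) := (mem_ptC h hG hn K u _).2 ⟨x, rfl, hx⟩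
    rcases hy with rfl | rfl | ⟨hy, rfl⟩
    · refine Or.inl ⟨cdc x, hm, ?_⟩
      show (cdc x, (nx l (cod x.1), !x.2)) = (cdc x, (cod (S.nxt x.1), !x.2))
      rw [nx_cod h]
    · exact Or.inr (Or.inl ⟨cdc x, hm, rfl⟩)
    · refine Or.inr (Or.inr ⟨cdc x, List.mem_filter.2 ⟨hm, (inK K u x.1 hx).1 hy⟩, ?_⟩)
      show (cdc x, (acx c (cod x.1), !x.2)) = (cdc x, (cod (acl (lamOf G c) x.1), !x.2))
      rw [acx_cod]

private theorem relC_pts (h : Codes S l) (hG : G.Connected) (hn : 2 ≤ n) (K : List Ec) (u : Fin n) (c : List Ec) :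
    ∀ r ∈ relC l K (u : ℕ) c, r.1 ∈ ptC l K (u : ℕ) ∧ r.2 ∈ ptC l K (u : ℕ) := by
  rintro ⟨a, b⟩ hr
  obtain ⟨x, ha, y, hb, hx, hy⟩ := (mem_relC h hG hn K u c a b).1 hr
  refine ⟨(mem_ptC h hG hn K u a).2 ⟨x, ha, hx⟩, (mem_ptC h hG hn K u b).2 ⟨y, hb, ?_⟩⟩
  rcases hy with rfl | rfl | ⟨hy, rfl⟩
  · show (S.nxt x.1).1.fst ∈ UD (DK G K) u
    rw [S.nxt_fst]
    exact hx
  · exact hx
  · apply inD_fst
    show ed (acl (lamOf G c) x.1) ∈ _
    rw [ed_acl]
    exact hy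

private theorem key (h : Codes S l) (hG : G.Connected) (hn : 2 ≤ n) (K : List Ec) (u : Fin n) (c : List Ec)
    (p q : Flag G × Bool) : Relation.EqvGen (fun a b => (a, b) ∈ relC l K (u : ℕ) c) (cdc p) (cdc q) ↔
      Relation.EqvGen (RCi S (InD (DK G K) u) (UD (DK G K) u) (lamOf G c)) p q := by
  constructor
  · intro hpq
    have h1 : ∀ p : Flag G × Bool, {f : Quot (RCi S (InD (DK G K) u) (UD (DK G K) u) (lamOf G c)) |
        ∃ p' : Flag G × Bool, cdc p = cdc p' ∧ f = Quot.mk _ p'} = {Quot.mk _ p} := by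
      intro p
      ext f
      constructor
      · rintro ⟨p', hp', rfl⟩
        rw [cdc_inj hp']
        rfl
      · intro hf
        exact ⟨p, rfl, hf⟩
    have h2 := Pool.Agent.Helper35.OG.eqvGen_eq (fun x : Pt × Bool =>
      {f : Quot (RCi S (InD (DK G K) u) (UD (DK G K) u) (lamOf G c)) |
        ∃ p' : Flag G × Bool, x = cdc p' ∧ f = Quot.mk _ p'}) (by
        intro x y hxy
        obtain ⟨x', rfl, y', rfl, hxy'⟩ := (mem_relC h hG hn K u c _ _).1 hxy
        show {f : Quot (RCi S (InD (DK G K) u) (UD (DK G K) u) (lamOf G c)) |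
              ∃ p'' : Flag G × Bool, cdc x' = cdc p'' ∧ f = Quot.mk _ p''} =
            {f | ∃ p'' : Flag G × Bool, cdc y' = cdc p'' ∧ f = Quot.mk _ p''}
        rw [h1, h1]
        exact congrArg _ (Quot.sound hxy')) hpq
    have h3 : {f : Quot (RCi S (InD (DK G K) u) (UD (DK G K) u) (lamOf G c)) |
          ∃ p' : Flag G × Bool, cdc p = cdc p' ∧ f = Quot.mk _ p'} =
        {f | ∃ p' : Flag G × Bool, cdc q = cdc p' ∧ f = Quot.mk _ p'} := h2
    rw [h1, h1] at h3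
    exact Quot.eqvGen_exact (Set.singleton_injective h3)
  · intro hpq
    induction hpq with
    | rel x y hxy => exact Relation.EqvGen.rel _ _ ((mem_relC h hG hn K u c _ _).2 ⟨x, rfl, y, rfl, hxy⟩)
    | refl x => exact Relation.EqvGen.refl _
    | symm x y _ ih => exact Relation.EqvGen.symm _ _ ih
    | trans x y z _ _ ih1 ih2 => exact Relation.EqvGen.trans _ _ _ ih1 ih2

theorem labC_iff (h : Codes S l) (hG : G.Connected) (hn : 2 ≤ n) (K : List Ec) (u : Fin n) (c : List Ec)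
    (p q : Flag G) (b b' : Bool) (hp : p.1.fst ∈ UD (DK G K) u) (hq : q.1.fst ∈ UD (DK G K) u) :
    look (labC l K (u : ℕ) c) (cod p, b) (cod p, b) = look (labC l K (u : ℕ) c) (cod q, b') (cod q, b') ↔
      Relation.EqvGen (RCi S (InD (DK G K) u) (UD (DK G K) u) (lamOf G c)) (p, b) (q, b') := by
  rw [← key h hG hn K u c (p, b) (q, b')]
  unfold labC
  exact Pool.Agent.BEO.comp_look _ _ (relC_pts h hG hn K u c) _ _ ((mem_ptC h hG hn K u _).2 ⟨(p, b), rfl, hp⟩)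
    ((mem_ptC h hG hn K u _).2 ⟨(q, b'), rfl, hq⟩)

end Pool.Agent.SCG
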