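import Pool.Agent.SCG.Alg
import Pool.Agent.SCG.ExDef
import Pool.Agent.SCG.DcDef
import Pool.Agent.BEO.CodS

/-!
# SCG: the dictionary between the algorithm and the pieces
-/

set_option autoImplicit false

open Finset
open scoped Classical

namespace Pool.Agent.SCG

open Pool.Agent.Helper35.OG (Flag GMap across side)
open Pool.Agent.BEO (F2 ed rp cyc ev twist tph cod Codes ec lamOf look memb ddp comp stp bfs par tup cds Pt Ec Inp Stt
  sd ac ek fl fcl zl lb xo bvs nF isO nE nV nxc)

variable {n : ℕ} {G : SimpleGraph (Fin n)}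

/-- the edges of `G` outside `K` -/
noncomputable def DK (G : SimpleGraph (Fin n)) (K : List Ec) : Finset G.edgeSet := univ.filter fun e => ec e ∉ K

/-- the vertices of the component of `u` -/
def UD (D : Finset G.edgeSet) (u : Fin n) : Set (Fin n) := {v | (gD D).Reachable u v}

/-- `K` lists the edges outside `D` at the component of `u`, without repetitions -/
def RepK (D : Finset G.edgeSet) (u : Fin n) (K : List Ec) : Prop :=
  K.Nodup ∧ ∀ x, x ∈ K ↔ ∃ e ∈ KD D u, x = ec e

/-- the bound for the length of signatures -/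
def mm (C : ℕ) : ℕ := 1 + 48 * C ^ 2

/-- the sets of edges stored for the piece `(K, u)` after `r` rounds -/
def st (G : SimpleGraph (Fin n)) (k T : ℕ) (l : Inp) (r : ℕ) (K : List Ec) (u : ℕ) : Set (Finset G.edgeSet) :=
  {lam | ∃ c ∈ look ((rnd (cc k) (mm (cc k)) k T l)^[r] []) (K, u) [], lam = lamOf G c}

/-- after `r` rounds the tables of all components of `gD D` with fewer than `r` edges are complete -/
def TabC (S : GMap G) (k T : ℕ) (l : Inp) (o : Bool) (D : Finset G.edgeSet) (r : ℕ) : Prop :=
  ∀ (u : Fin n) (K : List Ec), RepK D u K → (InD D u).card < r → Cpl S (InD D u) o (st G k T l r K (u : ℕ))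

end Pool.Agent.SCG
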