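import Pool.Agent.SCG.SpC
import Pool.Agent.SCG.SpD

/-!
# SCG-SpE: equal signatures mean the same view from outside

PLAN. Equal lists have equal heads and equal tails; the tails are `flatMap`s of the same list `prs l K u` with blocks of
length 3, so the blocks agree for every pair (`List.flatMap` of lists of constant length: induction on the list;
`List.cons.inj`, `List.append_inj`). With `labU_iff`, `labC_iff` (the boundary flags `cod p`: `mem_flb`; `ed p ∉ InD` and
`p.1.fst ∈ UD` iff `ec (ed p) ∈ K`, by `inD_iff` and the definition of `DK`) these are the conditions `f` and `c` for the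
colours `(false, false)` and `(false, true)`; the other colours follow because the map changing all colours preserves
`RCi`: `EqvGen (p, true) (q, b') ↔ EqvGen (p, false) (q, !b')`. `sgn_len`: `(flb l K u).length ≤ 4 * K.length` because
`flb` has no repetitions and an edge code has four flags; `prs` has length `(flb ..).length ^ 2`.
-/

set_option autoImplicit false

open Finset
open scoped Classical

namespace Pool.Agent.SCG

open Pool.Agent.Helper35.OG (Flag GMap across side)
open Pool.Agent.BEO (F2 ed rp cyc ev twist tph cod Codes ec lamOf look memb ddp comp stp bfs par tup cds Pt Ec Inp Stt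
  sd ac ek fl fcl zl lb xo bvs nF isO nE nV nxc)

variable {n : ℕ} {G : SimpleGraph (Fin n)} {S : GMap G} {l : Inp}

private theorem flat_inj {α β : Type} (f g : α → List β) (L : List α) (hl : ∀ x, (f x).length = (g x).length)
    (h : L.flatMap f = L.flatMap g) : ∀ x ∈ L, f x = g x := by
  induction L with
  | nil =>
    intro x hx
    exact absurd hx List.not_mem_nil
  | cons a L ih =>
    rw [List.flatMap_cons, List.flatMap_cons] at h
    obtain ⟨h1, h2⟩ := List.append_inj h (hl a)
    intro x hx
    rcases List.mem_cons.1 hx with rfl | hx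
    · exact h1
    · exact ih h2 x hx

/-- changing all colours -/
private theorem RCi_flip {In : Finset G.edgeSet} {U : Set (Fin n)} {lam : Finset G.edgeSet}
    {x y : Flag G × Bool} (h : Relation.EqvGen (RCi S In U lam) x y) :
    Relation.EqvGen (RCi S In U lam) (x.1, !x.2) (y.1, !y.2) := by
  induction h with
  | rel x y hxy =>
    refine Relation.EqvGen.rel _ _ ⟨hxy.1, ?_⟩
    rcases hxy.2 with rfl | rfl | ⟨h1, rfl⟩
    · exact Or.inl rfl
    · exact Or.inr (Or.inl rfl)
    · exact Or.inr (Or.inr ⟨h1, rfl⟩)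
  | refl x => exact Relation.EqvGen.refl _
  | symm x y _ ih => exact Relation.EqvGen.symm _ _ ih
  | trans x y z _ _ ih1 ih2 => exact Relation.EqvGen.trans _ _ _ ih1 ih2

private theorem RCi_true {In : Finset G.edgeSet} {U : Set (Fin n)} {lam : Finset G.edgeSet}
    (p q : Flag G) (b' : Bool) : Relation.EqvGen (RCi S In U lam) (p, true) (q, b') ↔
      Relation.EqvGen (RCi S In U lam) (p, false) (q, !b') := by
  constructor
  · intro h
    exact RCi_flip h
  · intro h
    have h1 := RCi_flip h
    have h2 : (!(!b')) = b' := Bool.not_not b'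
    rw [← h2]
    exact h1

private theorem in_flb (h : Codes S l) (hG : G.Connected) (hn : 2 ≤ n) (K : List Ec) (u : Fin n) (p : Flag G)
    (hp : p.1.fst ∈ UD (DK G K) u) (hp2 : ed p ∉ InD (DK G K) u) : cod p ∈ flb l K (u : ℕ) := by
  refine (mem_flb h hG hn K u _).2 ⟨p, rfl, hp, ?_⟩
  rw [inD_iff _ u p hp] at hp2
  unfold DK at hp2
  rw [mem_filter] at hp2
  by_contra h2
  exact hp2 ⟨mem_univ _, h2⟩

theorem sgn_same (h : Codes S l) (hG : G.Connected) (hn : 2 ≤ n) (K : List Ec) (u : Fin n) (c c' : List Ec)
    (hs : sgn l K (u : ℕ) c = sgn l K (u : ℕ) c') :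
    Same S (InD (DK G K) u) (UD (DK G K) u) (lamOf G c) (lamOf G c') := by
  unfold sgn at hs
  obtain ⟨hs1, hs2⟩ := List.cons.inj hs
  have hb := flat_inj _ _ _ (by intro x; rfl) hs2
  have hpair : ∀ p q : Flag G, p.1.fst ∈ UD (DK G K) u → ed p ∉ InD (DK G K) u → q.1.fst ∈ UD (DK G K) u →
      ed q ∉ InD (DK G K) u → bF (labU l K (u : ℕ) c) (cod p) (cod q) = bF (labU l K (u : ℕ) c') (cod p) (cod q) ∧
      ∀ b : Bool, bC (labC l K (u : ℕ) c) (cod p) (cod q) b = bC (labC l K (u : ℕ) c') (cod p) (cod q) b := by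
    intro p q hp hp2 hq hq2
    have hm : (cod p, cod q) ∈ prs l K (u : ℕ) := by
      unfold prs
      exact List.mem_flatMap.2 ⟨cod p, in_flb h hG hn K u p hp hp2,
        List.mem_map.2 ⟨cod q, in_flb h hG hn K u q hq hq2, rfl⟩⟩
    have h1 := hb _ hm
    obtain ⟨h2, h3⟩ := List.cons.inj h1
    obtain ⟨h4, h5⟩ := List.cons.inj h3
    obtain ⟨h6, _⟩ := List.cons.inj h5
    refine ⟨h2, fun b => ?_⟩
    cases b
    · exact h4
    · exact h6
  have hc : ∀ (p q : Flag G) (b' : Bool), p.1.fst ∈ UD (DK G K) u → ed p ∉ InD (DK G K) u →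
      q.1.fst ∈ UD (DK G K) u → ed q ∉ InD (DK G K) u →
      (Relation.EqvGen (RCi S (InD (DK G K) u) (UD (DK G K) u) (lamOf G c)) (p, false) (q, b') ↔
        Relation.EqvGen (RCi S (InD (DK G K) u) (UD (DK G K) u) (lamOf G c')) (p, false) (q, b')) := by
    intro p q b' hp hp2 hq hq2
    rw [← labC_iff h hG hn K u c p q false b' hp hq, ← labC_iff h hG hn K u c' p q false b' hp hq]
    exact decide_eq_decide.1 ((hpair p q hp hp2 hq hq2).2 b')
  refine ⟨?_, ?_, ?_⟩
  · intro p q hp hp2 hq hq2
    rw [← labU_iff h hG hn K u c p q hp hq, ← labU_iff h hG hn K u c' p q hp hq]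
    exact decide_eq_decide.1 (hpair p q hp hp2 hq hq2).1
  · intro p q b b' hp hp2 hq hq2
    cases b
    · exact hc p q b' hp hp2 hq hq2
    · rw [RCi_true, RCi_true]
      exact hc p q _ hp hp2 hq hq2
  · have hany : ∀ c : List Ec, ((flU l K (u : ℕ)).any fun p => bC (labC l K (u : ℕ) c) p p true) = true ↔
        ∃ p : Flag G, p.1.fst ∈ UD (DK G K) u ∧
          Relation.EqvGen (RCi S (InD (DK G K) u) (UD (DK G K) u) (lamOf G c)) (p, false) (p, true) := by
      intro c
      rw [List.any_eq_true]
      constructor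
      · rintro ⟨x, hx, hx2⟩
        obtain ⟨p, rfl, hp⟩ := (mem_flU h hG hn K u x).1 hx
        exact ⟨p, hp, (labC_iff h hG hn K u c p p false true hp hp).1 (of_decide_eq_true hx2)⟩
      · rintro ⟨p, hp, hp2⟩
        exact ⟨cod p, (mem_flU h hG hn K u _).2 ⟨p, rfl, hp⟩,
          decide_eq_true ((labC_iff h hG hn K u c p p false true hp hp).2 hp2)⟩
    rw [← hany c, ← hany c', hs1]

private theorem ek_inv (x : Pt) (e : Ec) (h : ek x = e) :
    x ∈ [((e.1, (e.2, false)) : Pt), (e.1, (e.2, true)), (e.2, (e.1, false)), (e.2, (e.1, true))] := by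
  obtain ⟨a, b, c⟩ := x
  subst h
  unfold ek
  by_cases hab : decide (a ≤ b) = true
  · rw [if_pos hab]
    cases c <;> simp
  · rw [if_neg hab]
    cases c <;> simp

private theorem flb_len (l : Inp) (K : List Ec) (u : ℕ) : (flb l K u).length ≤ 4 * K.length := by
  have hnd : (flb l K u).Nodup := by
    unfold flb flU fl
    exact ((Pool.Agent.BEO.nodup_ddp _).filter _).filter _
  have hsub : (flb l K u).toFinset ⊆ (K.flatMap fun e =>
      [((e.1, (e.2, false)) : Pt), (e.1, (e.2, true)), (e.2, (e.1, false)), (e.2, (e.1, true))]).toFinset := by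
    intro x hx
    rw [List.mem_toFinset] at hx ⊢
    unfold flb at hx
    rw [List.mem_filter, Pool.Agent.BEO.memb_iff] at hx
    exact List.mem_flatMap.2 ⟨ek x, hx.2, ek_inv x _ rfl⟩
  have h1 := card_le_card hsub
  rw [List.toFinset_card_of_nodup hnd] at h1
  refine h1.trans ((List.toFinset_card_le _).trans ?_)
  rw [List.length_flatMap]
  have h2 : (K.map fun e : Ec => [((e.1, (e.2, false)) : Pt), (e.1, (e.2, true)), (e.2, (e.1, false)),
      (e.2, (e.1, true))].length) = K.map fun _ => 4 := rfl
  rw [h2, List.map_const', List.sum_replicate, smul_eq_mul, mul_comm]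

theorem sgn_len (l : Inp) (K : List Ec) (u : ℕ) (c : List Ec) (C : ℕ) (hC : K.length ≤ C) :
    (sgn l K u c).length ≤ mm C := by
  have h1 := flb_len l K u
  have h2 : (prs l K u).length = (flb l K u).length * (flb l K u).length := by
    unfold prs
    rw [List.length_flatMap]
    have h3 : ((flb l K u).map fun p => ((flb l K u).map fun q => (p, q)).length) =
        (flb l K u).map fun _ => (flb l K u).length := by
      refine List.map_congr_left fun p _ => ?_
      rw [List.length_map]
    rw [h3, List.map_const', List.sum_replicate, smul_eq_mul]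
  unfold sgn mm
  rw [List.length_cons, List.length_flatMap]
  have h3 : ((prs l K u).map fun x => [bF (labU l K u c) x.1 x.2, bC (labC l K u c) x.1 x.2 false,
      bC (labC l K u c) x.1 x.2 true].length) = (prs l K u).map fun _ => 3 := rfl
  rw [h3, List.map_const', List.sum_replicate, smul_eq_mul, h2]
  have h4 : (flb l K u).length ≤ 4 * C := h1.trans (Nat.mul_le_mul_left 4 hC)
  have h5 := Nat.mul_le_mul h4 h4
  nlinarith

end Pool.Agent.SCG
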