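import Pool.Agent.SCG.SpI

/-!
# SCG-SpG: the tables of good pieces are complete
-/

set_option autoImplicit false

open Finset
open scoped Classical

namespace Pool.Agent.SCG

open Pool.Agent.Helper35.OG (Flag GMap across side)
open Pool.Agent.BEO (F2 ed rp cyc ev twist tph cod Codes ec lamOf look memb ddp comp stp bfs par tup cds Pt Ec Inp Stt
  sd ac ek fl fcl zl lb xo bvs nF isO nE nV nxc nb)

variable {n : ℕ} {G : SimpleGraph (Fin n)} {S : GMap G} {l : Inp}

theorem tab_good (hc : Codes S l) (hG : G.Connected) (hn : 2 ≤ n) (k T : ℕ) (o : Bool) (D : Finset G.edgeSet)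
    (hk : ∀ u, (KD D u).card ≤ cc k)
    (hl : ∀ (u : Fin n) (K : List Ec), RepK D u K →
      Cpl S (InD D u) o {lam | ∃ c ∈ leaf k T l (fli l K (u : ℕ)), lam = lamOf G c}) (r : ℕ) :
    TabC S k T l o D r := by
  intro u K h hcard
  obtain ⟨r', rfl⟩ : ∃ r', r = r' + 1 := ⟨r - 1, by omega⟩
  refine sel_cpl hc hG hn k T o D u K h (hk u) r'
    (fun c hcn => cnd_in hc hG hn k T r' D u K h c hcn) ?_
  refine cpl_mono S (InD D u) o _ _ (hl u K h) ?_
  rintro lam ⟨c, hcm, rfl⟩ _
  exact ⟨c, List.mem_append_left _ hcm, rfl⟩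

end Pool.Agent.SCG
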