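import Pool.Agent.SCG.SpDef

/-!
# SCG-SpS: deleting an inner edge

`a`, `b` are the ends of the inner edge `e` of the component of `u`.
-/

set_option autoImplicit false

open Finset
open scoped Classical

namespace Pool.Agent.SCG

open Pool.Agent.Helper35.OG (Flag GMap across side)
open Pool.Agent.BEO (F2 ed rp cyc ev twist tph)

variable {V : Type} {G : SimpleGraph V} [Fintype V]

omit [Fintype V] in
private theorem sps_mem (D : Finset G.edgeSet) (u : V) (e : G.edgeSet) :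
    e ∈ InD D u ↔ e ∈ D ∧ ∃ p : Flag G, ed p = e ∧ (gD D).Reachable u p.1.fst := by
  unfold InD
  rw [mem_filter]

private theorem sps_memK (D : Finset G.edgeSet) (u : V) (e : G.edgeSet) :
    e ∈ KD D u ↔ e ∉ D ∧ ∃ p : Flag G, ed p = e ∧ (gD D).Reachable u p.1.fst := by
  unfold KD
  rw [mem_filter]
  exact ⟨fun h => h.2, fun h => ⟨mem_univ _, h⟩⟩

omit [Fintype V] in
private theorem sps_adj {D : Finset G.edgeSet} {p : Flag G} (h : ed p ∈ D) : (gD D).Adj p.1.fst p.1.snd :=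
  ⟨p, rfl, rfl, h⟩

omit [Fintype V] in
private theorem sps_eq {p q : Flag G} (h : ed p = ed q) :
    (p.1.fst = q.1.fst ∧ p.1.snd = q.1.snd) ∨ (p.1.fst = q.1.snd ∧ p.1.snd = q.1.fst) := by
  have h1 : p.1.edge = q.1.edge := congrArg Subtype.val h
  rcases (SimpleGraph.dart_edge_eq_iff _ _).1 h1 with h2 | h2
  · left
    rw [h2]
    exact ⟨rfl, rfl⟩
  · right
    rw [h2]
    exact ⟨rfl, rfl⟩

omit [Fintype V] in
private theorem sps_le {D D' : Finset G.edgeSet} (h : D' ⊆ D) {u v : V} (hr : (gD D').Reachable u v) :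
    (gD D).Reachable u v := by
  refine hr.mono ?_
  rintro a b ⟨p, h1, h2, h3⟩
  exact ⟨p, h1, h2, h h3⟩

omit [Fintype V] in
private theorem sps_of {D : Finset G.edgeSet} {u : V} {q r : Flag G} (hq : ed q ∈ D) (h : ed r = ed q)
    (hr : (gD D).Reachable u r.1.fst) : (gD D).Reachable u q.1.fst := by
  rcases sps_eq h with h1 | h1
  · rw [← h1.1]
    exact hr
  · rw [h1.1] at hr
    exact hr.trans (sps_adj hq).symm.reachable

omit [Fintype V] in
private theorem sps_split {D : Finset G.edgeSet} (p : Flag G) {x : V} (hr : (gD D).Reachable p.1.fst x) :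
    (gD (D.erase (ed p))).Reachable p.1.fst x ∨ (gD (D.erase (ed p))).Reachable p.1.snd x := by
  rw [SimpleGraph.reachable_iff_reflTransGen] at hr
  induction hr with
  | refl => exact Or.inl (SimpleGraph.Reachable.refl _)
  | tail _ h2 ih =>
    obtain ⟨q, h3, h4, h5⟩ := h2
    subst h3
    subst h4
    by_cases h6 : ed q = ed p
    · rcases sps_eq h6 with h7 | h7
      · rw [h7.2]
        exact Or.inr (SimpleGraph.Reachable.refl _)
      · rw [h7.2]
        exact Or.inl (SimpleGraph.Reachable.refl _)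
    · have h8 : (gD (D.erase (ed p))).Adj q.1.fst q.1.snd := sps_adj (mem_erase.2 ⟨h6, h5⟩)
      exact ih.imp (fun h => h.trans h8.reachable) fun h => h.trans h8.reachable

theorem erase_conn (D : Finset G.edgeSet) (u : V) (p : Flag G) (hp : ed p ∈ InD D u)
    (h : (gD (D.erase (ed p))).Reachable p.1.fst p.1.snd) :
    ∀ x, x ∈ InD D u ↔ x ∈ InD (D.erase (ed p)) p.1.fst ∨ x = ed p := by
  obtain ⟨hpD, r, hr, hru⟩ := (sps_mem D u _).1 hp
  have hua : (gD D).Reachable u p.1.fst := sps_of hpD hr hru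
  intro x
  constructor
  · intro hx
    by_cases hxp : x = ed p
    · exact Or.inr hxp
    · obtain ⟨hxD, q, hq, hqu⟩ := (sps_mem D u x).1 hx
      refine Or.inl ((sps_mem _ _ x).2 ⟨mem_erase.2 ⟨hxp, hxD⟩, q, hq, ?_⟩)
      rcases sps_split p (hua.symm.trans hqu) with h1 | h1
      · exact h1
      · exact h.trans h1
  · rintro (hx | rfl)
    · obtain ⟨hxD, q, hq, hqu⟩ := (sps_mem _ _ x).1 hx
      exact (sps_mem D u x).2 ⟨(mem_erase.1 hxD).2, q, hq, hua.trans (sps_le (erase_subset _ _) hqu)⟩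
    · exact hp

theorem erase_disc (D : Finset G.edgeSet) (u : V) (p : Flag G) (hp : ed p ∈ InD D u)
    (h : ¬ (gD (D.erase (ed p))).Reachable p.1.fst p.1.snd) :
    (∀ x, x ∈ InD D u ↔ x ∈ InD (D.erase (ed p)) p.1.fst ∨ x ∈ InD (D.erase (ed p)) p.1.snd ∨ x = ed p) ∧
      Disjoint (InD (D.erase (ed p)) p.1.fst) (InD (D.erase (ed p)) p.1.snd) := by
  obtain ⟨hpD, r, hr, hru⟩ := (sps_mem D u _).1 hp
  have hua : (gD D).Reachable u p.1.fst := sps_of hpD hr hru
  have hub : (gD D).Reachable u p.1.snd := hua.trans (sps_adj hpD).reachable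
  constructor
  · intro x
    constructor
    · intro hx
      by_cases hxp : x = ed p
      · exact Or.inr (Or.inr hxp)
      · obtain ⟨hxD, q, hq, hqu⟩ := (sps_mem D u x).1 hx
        rcases sps_split p (hua.symm.trans hqu) with h1 | h1
        · exact Or.inl ((sps_mem _ _ x).2 ⟨mem_erase.2 ⟨hxp, hxD⟩, q, hq, h1⟩)
        · exact Or.inr (Or.inl ((sps_mem _ _ x).2 ⟨mem_erase.2 ⟨hxp, hxD⟩, q, hq, h1⟩))
    · rintro (hx | hx | rfl)
      · obtain ⟨hxD, q, hq, hqu⟩ := (sps_mem _ _ x).1 hx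
        exact (sps_mem D u x).2 ⟨(mem_erase.1 hxD).2, q, hq, hua.trans (sps_le (erase_subset _ _) hqu)⟩
      · obtain ⟨hxD, q, hq, hqu⟩ := (sps_mem _ _ x).1 hx
        exact (sps_mem D u x).2 ⟨(mem_erase.1 hxD).2, q, hq, hub.trans (sps_le (erase_subset _ _) hqu)⟩
      · exact hp
  · rw [Finset.disjoint_left]
    intro x hx hx'
    obtain ⟨hxD, q, hq, hqu⟩ := (sps_mem _ _ x).1 hx
    obtain ⟨_, q', hq', hqu'⟩ := (sps_mem _ _ x).1 hx'
    subst hq
    have h1 := sps_of hxD hq' hqu'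
    exact h (hqu.trans h1.symm)

theorem erase_not (D : Finset G.edgeSet) (e : G.edgeSet) (u : V) : e ∉ InD (D.erase e) u := by
  intro h
  exact (mem_erase.1 ((sps_mem _ _ e).1 h).1).1 rfl

theorem erase_reach (D : Finset G.edgeSet) (u : V) (p : Flag G) (hp : ed p ∈ InD D u) :
    (gD D).Reachable u p.1.fst ∧ (gD D).Reachable u p.1.snd := by
  obtain ⟨hpD, r, hr, hru⟩ := (sps_mem D u _).1 hp
  have hua : (gD D).Reachable u p.1.fst := sps_of hpD hr hru
  exact ⟨hua, hua.trans (sps_adj hpD).reachable⟩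

theorem erase_other (D : Finset G.edgeSet) (e : G.edgeSet) (he : e ∈ D) (u : V) (h : e ∉ InD D u) :
    InD D u = InD (D.erase e) u ∧ KD D u = KD (D.erase e) u := by
  have key : ∀ x, (gD D).Reachable u x ↔ (gD (D.erase e)).Reachable u x := by
    intro x
    refine ⟨fun hr => ?_, fun hr => sps_le (erase_subset _ _) hr⟩
    rw [SimpleGraph.reachable_iff_reflTransGen] at hr
    induction hr with
    | refl => exact SimpleGraph.Reachable.refl _
    | tail _ h2 ih =>
      obtain ⟨q, h3, h4, h5⟩ := h2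
      subst h3
      subst h4
      have h6 : ed q ≠ e := by
        intro h7
        exact h ((sps_mem D u e).2 ⟨he, q, h7, sps_le (erase_subset _ _) ih⟩)
      exact ih.trans (sps_adj (mem_erase.2 ⟨h6, h5⟩)).reachable
  constructor
  · ext x
    rw [sps_mem, sps_mem]
    constructor
    · rintro ⟨h1, q, h2, h3⟩
      refine ⟨mem_erase.2 ⟨?_, h1⟩, q, h2, (key _).1 h3⟩
      rintro rfl
      exact h ((sps_mem D u _).2 ⟨he, q, h2, h3⟩)
    · rintro ⟨h1, q, h2, h3⟩
      exact ⟨(mem_erase.1 h1).2, q, h2, (key _).2 h3⟩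
  · ext x
    rw [sps_memK, sps_memK]
    constructor
    · rintro ⟨h1, q, h2, h3⟩
      exact ⟨fun h4 => h1 (mem_erase.1 h4).2, q, h2, (key _).1 h3⟩
    · rintro ⟨h1, q, h2, h3⟩
      refine ⟨fun h4 => h1 (mem_erase.2 ⟨?_, h4⟩), q, h2, (key _).2 h3⟩
      rintro rfl
      exact h ((sps_mem D u _).2 ⟨he, q, h2, (key _).2 h3⟩)

omit [Fintype V] in
private theorem sps_end (q : Flag G) : q.1.fst ∈ (ed q).1 ∧ q.1.snd ∈ (ed q).1 :=
  ⟨Sym2.mem_mk_left q.1.fst q.1.snd, Sym2.mem_mk_right q.1.fst q.1.snd⟩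

private theorem sps_one (D1 D2 : Finset G.edgeSet) (h : ∀ e1 ∈ D1, ∀ e2 ∈ D2, ∀ v, ¬ (v ∈ e1.1 ∧ v ∈ e2.1)) (u : V)
    (h0 : ∀ e2 ∈ D2, u ∉ e2.1) : InD (D1 ∪ D2) u = InD D1 u ∧ KD (D1 ∪ D2) u = KD D1 u := by
  have key : ∀ x, (gD (D1 ∪ D2)).Reachable u x → (gD D1).Reachable u x ∧ ∀ e2 ∈ D2, x ∉ e2.1 := by
    intro x hr
    rw [SimpleGraph.reachable_iff_reflTransGen] at hr
    induction hr with
    | refl => exact ⟨SimpleGraph.Reachable.refl _, h0⟩
    | tail _ h2 ih =>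
      obtain ⟨q, h3, h4, h5⟩ := h2
      subst h3
      subst h4
      have h6 : ed q ∈ D1 := by
        rcases mem_union.1 h5 with h7 | h7
        · exact h7
        · exact absurd (sps_end q).1 (ih.2 _ h7)
      refine ⟨ih.1.trans (sps_adj h6).reachable, fun e2 he2 h7 => ?_⟩
      exact h (ed q) h6 e2 he2 _ ⟨(sps_end q).2, h7⟩
  constructor
  · ext x
    rw [sps_mem, sps_mem]
    constructor
    · rintro ⟨h1, q, h2, h3⟩
      obtain ⟨h4, h5⟩ := key _ h3
      refine ⟨?_, q, h2, h4⟩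
      rcases mem_union.1 h1 with h6 | h6
      · exact h6
      · subst h2
        exact absurd (sps_end q).1 (h5 _ h6)
    · rintro ⟨h1, q, h2, h3⟩
      exact ⟨mem_union_left _ h1, q, h2, sps_le subset_union_left h3⟩
  · ext x
    rw [sps_memK, sps_memK]
    constructor
    · rintro ⟨h1, q, h2, h3⟩
      exact ⟨fun h4 => h1 (mem_union_left _ h4), q, h2, (key _ h3).1⟩
    · rintro ⟨h1, q, h2, h3⟩
      have h3' := sps_le (D := D1 ∪ D2) subset_union_left h3
      refine ⟨fun h4 => ?_, q, h2, h3'⟩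
      rcases mem_union.1 h4 with h6 | h6
      · exact h1 h6
      · subst h2
        exact absurd (sps_end q).1 ((key _ h3').2 _ h6)

theorem union_comp (D1 D2 : Finset G.edgeSet) (h : ∀ e1 ∈ D1, ∀ e2 ∈ D2, ∀ v, ¬ (v ∈ e1.1 ∧ v ∈ e2.1)) (u : V) :
    (InD (D1 ∪ D2) u = InD D1 u ∧ KD (D1 ∪ D2) u = KD D1 u) ∨
      (InD (D1 ∪ D2) u = InD D2 u ∧ KD (D1 ∪ D2) u = KD D2 u) := by
  by_cases h0 : ∀ e2 ∈ D2, u ∉ e2.1
  · exact Or.inl (sps_one D1 D2 h u h0)
  · right
    push Not at h0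
    obtain ⟨e2, he2, hu⟩ := h0
    rw [union_comm]
    exact sps_one D2 D1 (fun e he e' he' v hv => h e' he' e he v ⟨hv.2, hv.1⟩) u
      fun e1 he1 hu1 => h e1 he1 e2 he2 u ⟨hu1, hu⟩

end Pool.Agent.SCG
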