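import Pool.Agent.SCG.SpM
import Pool.Agent.SCG.SpS

/-!
# SCG-SpI: all stored sets lie inside the piece

Induction on the number of rounds: leaf candidates consist of codes of inner edges, and the candidates obtained by
deleting an inner edge consist of that edge and of elements of the stored lists for smaller components, whose inner
edges are inner edges of the piece.
-/

set_option autoImplicit false

open Finset
open scoped Classical

namespace Pool.Agent.SCG

open Pool.Agent.Helper35.OG (Flag GMap across side)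
open Pool.Agent.BEO (F2 ed rp cyc ev twist tph cod Codes ec lamOf look memb ddp comp stp bfs par tup cds Pt Ec Inp Stt
  sd ac ek fl fcl zl lb xo bvs nF isO nE nV nxc)

variable {n : ℕ} {G : SimpleGraph (Fin n)} {S : GMap G} {l : Inp}

/-- an element with odd count is an element -/
private theorem par_mem' {X : Type} [DecidableEq X] (c : List X) (x : X) (h : par c x = true) : x ∈ c := by
  by_contra hx
  unfold par at h
  have h1 : (c.filter fun y => decide (y = x)) = [] := by
    rw [List.filter_eq_nil_iff]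
    intro y hy hyx
    have : y = x := of_decide_eq_true hyx
    rw [this] at hy
    exact hx hy
  rw [h1] at h
  simp at h

private theorem par_mem (c : List Ec) (x : Ec) (h : par c x = true) : x ∈ c := par_mem' c x h

private theorem arU_lab (k : ℕ) (l : Inp) (es : List Ec) (fs : List Pt) (a : (Stt × Stt) × Ec)
    (h : a ∈ arU k l es fs) : ∃ p ∈ fs, a.2 = ek p := by
  unfold arU at h
  obtain ⟨p, hp, h1⟩ := List.mem_flatMap.1 h
  obtain ⟨v, _, h2⟩ := List.mem_flatMap.1 h1
  obtain ⟨b, _, h3⟩ := List.mem_map.1 h2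
  exact ⟨p, hp, by rw [← h3]⟩

private theorem aw_lab (k : ℕ) (l : Inp) (es : List Ec) (fs : List Pt) (x y : Stt) (w : List Ec)
    (h : Pool.Agent.BEO.AW (arU k l es fs) x y w) : ∀ i ∈ w, ∃ p ∈ fs, i = ek p := by
  induction h with
  | nil =>
    intro i hi
    exact absurd hi List.not_mem_nil
  | snoc y z i w _ ha ih =>
    intro j hj
    rcases List.mem_append.1 hj with hj | hj
    · exact ih j hj
    · rw [List.mem_singleton] at hj
      obtain ⟨p, hp, h1⟩ := arU_lab k l es fs _ ha
      exact ⟨p, hp, by rw [hj]; exact h1⟩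

private theorem wlu_lab (k : ℕ) (l : Inp) (es : List Ec) (fs : List Pt) (w : List Ec) (h : w ∈ wlu k l es fs) :
    ∀ i ∈ w, ∃ p ∈ fs, i = ek p := by
  unfold wlu at h
  obtain ⟨p0, hp0, h1⟩ := List.mem_flatMap.1 h
  obtain ⟨⟨y, w'⟩, h2, h3⟩ := List.mem_map.1 h1
  have h3' : w' = w := h3
  rw [h3'] at h2
  obtain ⟨x, l0, l1, hx, haw, he⟩ := Pool.Agent.BEO.bfs_sound _ _ y w h2
  intro i hi
  rw [he] at hi
  rcases List.mem_append.1 hi with hi | hi
  · unfold inu at hx
    obtain ⟨p, hp, h4⟩ := List.mem_map.1 hx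
    have h5 : [ek p] = l0 := congrArg Prod.snd h4
    rw [← h5, List.mem_singleton] at hi
    exact ⟨p, (List.mem_filter.1 hp).1, hi⟩
  · exact aw_lab k l es fs x y l1 haw i hi

private theorem leaf_lab (k T : ℕ) (l : Inp) (fs : List Pt) (c : List Ec) (h : c ∈ leaf k T l fs) :
    ∀ i ∈ c, ∃ p ∈ fs, i = ek p := by
  unfold leaf at h
  intro i hi
  rcases List.mem_append.1 h with h | h
  · rw [Pool.Agent.BEO.mem_cds] at h
    obtain ⟨ws, _, h2, h3⟩ := h
    rw [h3] at hi
    obtain ⟨w, hw, hiw⟩ := List.mem_flatten.1 hi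
    obtain ⟨p, hp, h4⟩ := List.mem_map.1 (h2 w hw)
    rw [← h4, List.mem_singleton] at hiw
    exact ⟨p, hp, hiw⟩
  · obtain ⟨es, _, h1⟩ := List.mem_flatMap.1 h
    rw [Pool.Agent.BEO.mem_cds] at h1
    obtain ⟨ws, _, h2, h3⟩ := h1
    rw [h3] at hi
    obtain ⟨w, hw, hiw⟩ := List.mem_flatten.1 hi
    exact wlu_lab k l es fs w (h2 w hw) i hiw

/-- the components of the code of an edge are the codes of the ends of a flag over it -/
private theorem ek_ends (p : Flag G) : ∃ q : Flag G, ed q = ed p ∧ (ek (cod p)).1 = (q.1.fst : ℕ) ∧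
    (ek (cod p)).2 = (q.1.snd : ℕ) := by
  by_cases h : (cod p).1 ≤ (cod p).2.1
  · refine ⟨p, rfl, ?_, ?_⟩
    · unfold ek
      rw [if_pos (decide_eq_true h)]
      rfl
    · unfold ek
      rw [if_pos (decide_eq_true h)]
      rfl
  · refine ⟨across p, Pool.Agent.BEO.ed_across p, ?_, ?_⟩
    · unfold ek
      rw [if_neg (by rw [decide_eq_true_iff]; exact h)]
      rfl
    · unfold ek
      rw [if_neg (by rw [decide_eq_true_iff]; exact h)]
      rfl

private theorem reach_step (D : Finset G.edgeSet) (p : Flag G) (h : ed p ∈ D) :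
    (gD D).Reachable p.1.fst p.1.snd :=
  SimpleGraph.Adj.reachable ⟨p, rfl, rfl, h⟩

private theorem mem_DK (K : List Ec) (e : G.edgeSet) : e ∈ DK G K ↔ ec e ∉ K := by
  unfold DK
  rw [mem_filter]
  exact ⟨fun h => h.2, fun h => ⟨mem_univ _, h⟩⟩

private theorem reach_mono (D D' : Finset G.edgeSet) (h : ∀ e ∈ D, e ∈ D') (u v : Fin n)
    (hr : (gD D).Reachable u v) : (gD D').Reachable u v := by
  refine hr.mono ?_
  rintro a b ⟨p, h1, h2, h3⟩
  exact ⟨p, h1, h2, h _ h3⟩

private theorem mem_InD (D : Finset G.edgeSet) (u : Fin n) (e : G.edgeSet) :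
    e ∈ InD D u ↔ e ∈ D ∧ ∃ p : Flag G, ed p = e ∧ (gD D).Reachable u p.1.fst := by
  unfold InD
  exact @Finset.mem_filter _ _ (fun a => Classical.propDecidable _) _ _

/-- an edge of `K'` at the component of `x` is listed -/
private theorem prn_mem (hc : Codes S l) (hG : G.Connected) (hn : 2 ≤ n) (K : List Ec) (x : Fin n) (p : Flag G)
    (hp : (gD (DK G K)).Reachable x p.1.fst) (h : ec (ed p) ∉ prn l K (x : ℕ)) : ec (ed p) ∉ K := by
  intro hK
  apply h
  unfold prn
  rw [List.mem_filter]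
  refine ⟨(Pool.Agent.BEO.mem_ddp _ _).2 hK, ?_⟩
  obtain ⟨q, hq, h1, h2⟩ := ek_ends p
  have hx := (inU_iff hc hG hn K x p.1.fst).2 hp
  rw [← Pool.Agent.BEO.ek_cod]
  rw [Bool.or_eq_true]
  have h3 : q.1.fst = p.1.fst ∨ q.1.snd = p.1.fst := by
    have h4 : q.1.edge = p.1.edge := congrArg Subtype.val hq
    rw [SimpleGraph.dart_edge_eq_iff] at h4
    rcases h4 with h4 | h4
    · exact Or.inl (by rw [h4])
    · exact Or.inr (by rw [h4]; rfl)
  rcases h3 with h3 | h3
  · left
    rw [h1, h3]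
    exact hx
  · right
    rw [h2, h3]
    exact hx

private theorem prn_reach (hc : Codes S l) (hG : G.Connected) (hn : 2 ≤ n) (K : List Ec) (x v : Fin n)
    (hr : (gD (DK G (prn l K (x : ℕ)))).Reachable x v) : (gD (DK G K)).Reachable x v := by
  obtain ⟨w⟩ := hr
  have key : ∀ (a b : Fin n) (w : (gD (DK G (prn l K (x : ℕ)))).Walk a b), (gD (DK G K)).Reachable x a →
      (gD (DK G K)).Reachable x b := by
    intro a b w
    induction w with
    | nil => exact fun h => h
    | cons hab _ ih =>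
      intro h
      apply ih
      obtain ⟨p, h1, h2, h3⟩ := hab
      rw [mem_DK] at h3
      have h4 : (gD (DK G K)).Reachable x p.1.fst := by rw [h1]; exact h
      have h5 := prn_mem hc hG hn K x p h4 h3
      have h6 := reach_step (DK G K) p ((mem_DK K _).2 h5)
      rw [← h2]
      exact h4.trans h6
  exact key x v w (SimpleGraph.Reachable.refl x)

/-- inner edges of the part are inner edges of the piece -/
private theorem inD_prn (hc : Codes S l) (hG : G.Connected) (hn : 2 ≤ n) (K : List Ec) (y : Ec) (u x : Fin n)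
    (hx : (gD (DK G K)).Reachable u x) (e : G.edgeSet)
    (he : e ∈ InD (DK G (prn l (y :: K) (x : ℕ))) x) : e ∈ InD (DK G K) u := by
  rw [mem_InD] at he ⊢
  obtain ⟨h1, p, h2, h3⟩ := he
  rw [mem_DK] at h1
  have h4 := prn_reach hc hG hn (y :: K) x p.1.fst h3
  have h5 : ec (ed p) ∉ y :: K := by
    apply prn_mem hc hG hn (y :: K) x p h4
    rw [h2]
    exact h1
  rw [h2] at h5
  have h6 : (gD (DK G K)).Reachable x p.1.fst := by
    refine reach_mono _ _ ?_ _ _ h4
    intro f hf
    rw [mem_DK] at hf ⊢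
    exact fun h => hf (List.mem_cons_of_mem _ h)
  refine ⟨?_, p, h2, hx.trans h6⟩
  rw [mem_DK]
  exact fun h => h5 (List.mem_cons_of_mem _ h)

/-- all elements are codes of inner edges -/
private def Gd (G : SimpleGraph (Fin n)) (K : List Ec) (u : Fin n) (c : List Ec) : Prop :=
  ∀ x ∈ c, ∃ e ∈ InD (DK G K) u, x = ec e

private theorem fli_gd (hc : Codes S l) (hG : G.Connected) (hn : 2 ≤ n) (K : List Ec) (u : Fin n) (p : Pt)
    (hp : p ∈ fli l K (u : ℕ)) : ∃ q : Flag G, p = cod q ∧ ed q ∈ InD (DK G K) u ∧ ek p = ec (ed q) := by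
  obtain ⟨q, h1, h2⟩ := (mem_fli hc hG hn K u p).1 hp
  refine ⟨q, h1, h2, ?_⟩
  rw [h1]
  exact Pool.Agent.BEO.ek_cod q

private theorem cmb_gd (hc : Codes S l) (hG : G.Connected) (hn : 2 ≤ n) (tab : Tab)
    (ht : ∀ (K : List Ec) (u : Fin n), ∀ c ∈ look tab (K, (u : ℕ)) [], Gd G K u c) (K : List Ec) (u : Fin n)
    (c : List Ec) (h : c ∈ cmb l tab K (u : ℕ)) : Gd G K u c := by
  unfold cmb at h
  obtain ⟨p, hp, h⟩ := List.mem_flatMap.1 h
  obtain ⟨a, ha, h⟩ := List.mem_flatMap.1 h
  obtain ⟨b, hb, h⟩ := List.mem_flatMap.1 h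
  obtain ⟨q, hq1, hq2, hq3⟩ := fli_gd hc hG hn K u p hp
  obtain ⟨q', hq', he1, he2⟩ := ek_ends q
  rw [← hq1] at he1 he2
  have hin : ed q' ∈ InD (DK G K) u := by
    rw [hq']
    exact hq2
  have hr1 : (gD (DK G K)).Reachable u q'.1.fst := by
    have := inD_fst (DK G K) u q' hin
    exact this
  have hr2 : (gD (DK G K)).Reachable u q'.1.snd :=
    hr1.trans (reach_step _ q' ((mem_InD _ _ _).1 hin).1)
  have hga : Gd G K u a := by
    intro x hx
    unfold sub at ha
    rw [he1] at ha
    obtain ⟨e, he, hxe⟩ := ht _ _ a ha x hx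
    exact ⟨e, inD_prn hc hG hn K (ek p) u q'.1.fst hr1 e he, hxe⟩
  have hgb : Gd G K u b := by
    rcases List.mem_cons.1 hb with hb | hb
    · rw [hb]
      intro x hx
      exact absurd hx List.not_mem_nil
    · intro x hx
      unfold sub at hb
      rw [he2] at hb
      obtain ⟨e, he, hxe⟩ := ht _ _ b hb x hx
      exact ⟨e, inD_prn hc hG hn K (ek p) u q'.1.snd hr2 e he, hxe⟩
  have hgab : Gd G K u (a ++ b) := by
    intro x hx
    rcases List.mem_append.1 hx with hx | hx
    · exact hga x hx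
    · exact hgb x hx
  rcases List.mem_cons.1 h with h | h
  · rw [h]
    exact hgab
  · rw [List.mem_singleton] at h
    rw [h]
    intro x hx
    rcases List.mem_cons.1 hx with hx | hx
    · exact ⟨ed q, hq2, by rw [hx]; exact hq3⟩
    · exact hgab x hx

private theorem cnd_gd (hc : Codes S l) (hG : G.Connected) (hn : 2 ≤ n) (k T : ℕ) (tab : Tab)
    (ht : ∀ (K : List Ec) (u : Fin n), ∀ c ∈ look tab (K, (u : ℕ)) [], Gd G K u c) (K : List Ec) (u : Fin n)
    (c : List Ec) (h : c ∈ leaf k T l (fli l K (u : ℕ)) ++ cmb l tab K (u : ℕ)) : Gd G K u c := by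
  rcases List.mem_append.1 h with h | h
  · intro x hx
    obtain ⟨p, hp, hxp⟩ := leaf_lab k T l _ c h x hx
    obtain ⟨q, _, hq2, hq3⟩ := fli_gd hc hG hn K u p hp
    exact ⟨ed q, hq2, by rw [hxp]; exact hq3⟩
  · exact cmb_gd hc hG hn tab ht K u c h

private theorem st_gd (hc : Codes S l) (hG : G.Connected) (hn : 2 ≤ n) (k T : ℕ) (r : ℕ) :
    ∀ (K : List Ec) (u : Fin n), ∀ c ∈ look ((rnd (cc k) (mm (cc k)) k T l)^[r] []) (K, (u : ℕ)) [],
      Gd G K u c := by
  induction r with
  | zero =>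
    intro K u c h
    rw [Function.iterate_zero, id_eq, Pool.Agent.BEO.look_none _ _ _ (fun y => List.not_mem_nil)] at h
    exact absurd h List.not_mem_nil
  | succ r ih =>
    intro K u c h
    rw [Function.iterate_succ_apply'] at h
    by_cases hk : (K, (u : ℕ)) ∈ keys (cc k) l
    · rw [rnd_look _ _ _ _ _ _ _ _ hk] at h
      have h1 := sel_mem _ _ _ _ _ _ h
      obtain ⟨c0, hc0, h2⟩ := List.mem_map.1 h1
      have h3 := cnd_gd hc hG hn k T _ ih K u c0 hc0
      intro x hx
      apply h3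
      rw [← h2] at hx
      unfold nrm at hx
      exact par_mem c0 x (List.mem_filter.1 hx).2
    · rw [Pool.Agent.BEO.look_none] at h
      · exact absurd h List.not_mem_nil
      · intro y hy
        unfold rnd at hy
        obtain ⟨q, hq, h1⟩ := List.mem_map.1 hy
        apply hk
        have h2 : q = (K, (u : ℕ)) := congrArg Prod.fst h1
        rw [← h2]
        exact hq

theorem st_in (hc : Codes S l) (hG : G.Connected) (hn : 2 ≤ n) (k T : ℕ) (r : ℕ) (K : List Ec) (u : Fin n)
    (c : List Ec) (h : c ∈ look ((rnd (cc k) (mm (cc k)) k T l)^[r] []) (K, (u : ℕ)) []) (x : Ec) (hx : x ∈ c) :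
    ∃ e ∈ InD (DK G K) u, x = ec e :=
  st_gd hc hG hn k T r K u c h x hx

theorem cnd_in (hc : Codes S l) (hG : G.Connected) (hn : 2 ≤ n) (k T : ℕ) (r : ℕ) (D : Finset G.edgeSet) (u : Fin n)
    (K : List Ec) (h : RepK D u K) (c : List Ec) (hcn : c ∈ cnd k T l r K (u : ℕ)) : lamOf G c ⊆ InD D u := by
  intro e he
  unfold cnd at hcn
  have h1 := cnd_gd hc hG hn k T _ (st_gd hc hG hn k T r) K u c hcn
  have h2 : par c (ec e) = true := by
    unfold lamOf at he
    exact (mem_filter.1 he).2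
  obtain ⟨e', he', h3⟩ := h1 _ (par_mem c _ h2)
  rw [Pool.Agent.BEO.ec_inj h3, ← (inD_rep D u K h).1]
  exact he'

end Pool.Agent.SCG
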