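import Pool.Agent.SCG.SpT
import Pool.Agent.SCG.SpF
import Pool.Agent.SCG.SpB
import Pool.Agent.SCG.Leaf0
import Pool.Agent.SCG.Leaf1
import Pool.Agent.SCG.BfC
import Pool.Agent.SCG.CplRm

/-!
# SCG-SpK: the leaf candidates are a complete family in a good piece
-/

set_option autoImplicit false

open Finset
open scoped Classical

namespace Pool.Agent.SCG

open Pool.Agent.Helper35.OG (Flag GMap across side)
open Pool.Agent.BEO (F2 ed rp cyc ev twist tph cod Codes ec lamOf look memb ddp comp stp bfs par tup cds Pt Ec Inp Stt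
  sd ac ek fl fcl zl lb xo bvs nF isO nE nV nxc)

private theorem sk_odd {E : Type} [Fintype E] (lam : Finset E) : Pool.Agent.BEO.oddE lam.toList = lam := by
  ext e
  unfold Pool.Agent.BEO.oddE
  rw [Finset.mem_filter]
  constructor
  · rintro ⟨_, h⟩
    by_contra hcon
    have h1 : e ∉ lam.toList := fun h2 => hcon (Finset.mem_toList.1 h2)
    rw [List.count_eq_zero_of_not_mem h1] at h
    exact absurd h (by norm_num)
  · intro h
    refine ⟨Finset.mem_univ _, ?_⟩
    rw [List.count_eq_one_of_mem lam.nodup_toList (Finset.mem_toList.2 h)]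

private theorem sk_sub {V : Type} {G : SimpleGraph V} {D : Finset G.edgeSet} {u : V} {e : G.edgeSet}
    (h : e ∈ InD D u) : e ∈ D := by
  unfold InD at h
  exact (Finset.mem_filter.1 h).1

theorem leaf_spec (k C : ℕ) : ∃ T : ℕ, ∀ (n : ℕ) (G : SimpleGraph (Fin n)) (S : GMap G) (l : Inp), Codes S l →
    G.Connected → 2 ≤ n → S.eg ≤ k → ∀ (D : Finset G.edgeSet) (u : Fin n) (fs : List Pt), GoodIn S D →
      (KD D u).card ≤ C → (∀ x, x ∈ fs ↔ ∃ p : Flag G, x = cod p ∧ ed p ∈ InD D u) →
        ∀ o : Bool, Cpl S (InD D u) o {lam | ∃ c ∈ leaf k T l fs, lam = lamOf G c} := by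
  obtain ⟨T0, hT0⟩ := leaf_cpl0 (k + 2 * C)
  obtain ⟨T1, hT1⟩ := leaf_cpl1 (k + 2 * C)
  refine ⟨max T0 T1, ?_⟩
  intro n G S l hl hG hn hk D u fs hgD hC hfs o
  have hnt : Nontrivial (Fin n) := Fin.nontrivial_iff_two_le.2 hn
  have hg : GoodIn S (InD D u) := fun F w hw hin hlen =>
    hgD F w hw (fun e he => sk_sub (hin e he)) hlen
  have hb : S.eg + ((Bf S (InD D u)).card : ℤ) ≤ ((k + 2 * C : ℕ) : ℤ) := by
    have h1 := bf_card S D u
    push_cast
    omega
  cases o with
  | false =>
    refine cpl_mono S _ false _ _ (hT0 (Fin n) G hG S (InD D u) hg hb) ?_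
    intro lam hlam hsub
    refine ⟨lam.toList.map ec, ?_, ?_⟩
    · unfold leaf
      rw [List.mem_append]
      left
      rw [Pool.Agent.BEO.mem_cds]
      refine ⟨lam.toList.map fun e => [ec e], ?_, ?_, ?_⟩
      · rw [List.length_map, Finset.length_toList]
        exact le_trans hlam (le_max_left _ _)
      · intro w hw
        obtain ⟨e, he, rfl⟩ := List.mem_map.1 hw
        refine List.mem_map.2 ⟨cod (rp e), (hfs _).2 ⟨rp e, rfl, ?_⟩, rfl⟩
        rw [Pool.Agent.BEO.ed_rp]
        exact hsub (Finset.mem_toList.1 he)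
      · generalize lam.toList = L
        induction L with
        | nil => rfl
        | cons x L ih => rw [List.map_cons, List.map_cons, List.flatten_cons, ← ih]; rfl
    · rw [Pool.Agent.BEO.lamOf_map, sk_odd]
  | true =>
    obtain ⟨es, hes, htup⟩ := exists_tuple hl hG hn k hk
    refine cpl_mono S _ true _ _ (hT1 (Fin n) G hG S (InD D u) hg hb {w | w.map ec ∈ wlu k l es fs} ?_) ?_
    · intro F F' w hw hne hin
      obtain ⟨w', h1, h2, h3, h4, h5, h6⟩ := htup fs (InD D u) hfs F F' w hw hne hin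
      exact ⟨w', h1, h2, h3, h4, h5, h6⟩
    · rintro lam ⟨ls, hlen, hW, rfl⟩ _
      refine ⟨(ls.map (List.map ec)).flatten, ?_, ?_⟩
      · unfold leaf
        rw [List.mem_append]
        right
        rw [List.mem_flatMap]
        refine ⟨es, hes, ?_⟩
        rw [Pool.Agent.BEO.mem_cds]
        refine ⟨ls.map (List.map ec), ?_, ?_, rfl⟩
        · rw [List.length_map]
          exact le_trans hlen (le_max_right _ _)
        · intro w hw
          obtain ⟨x, hx, rfl⟩ := List.mem_map.1 hw
          exact hW x hx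
      · rw [← List.map_flatten, Pool.Agent.BEO.lamOf_map]

end Pool.Agent.SCG
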