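import Pool.Agent.SCG.SpA

/-!
# SCG-SpL: lists of edges at the boundary of a component
-/

set_option autoImplicit false

open Finset
open scoped Classical

namespace Pool.Agent.SCG

open Pool.Agent.Helper35.OG (Flag GMap across side)
open Pool.Agent.BEO (F2 ed rp cyc ev twist tph cod Codes ec lamOf look memb ddp comp stp bfs par tup cds Pt Ec Inp Stt
  sd ac ek fl fcl zl lb xo bvs nF isO nE nV nxc)

variable {n : ℕ} {G : SimpleGraph (Fin n)} {S : GMap G} {l : Inp}

private theorem reach_of (D1 D2 : Finset G.edgeSet) (x : Fin n)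
    (h : ∀ p : Flag G, (gD D1).Reachable x p.1.fst → (gD D2).Reachable x p.1.fst → ed p ∈ D1 → ed p ∈ D2)
    (v : Fin n) (hv : (gD D1).Reachable x v) : (gD D2).Reachable x v := by
  rw [SimpleGraph.reachable_iff_reflTransGen] at hv
  induction hv with
  | refl => exact SimpleGraph.Reachable.refl _
  | tail hab hbc ih =>
    obtain ⟨p, h1, h2, h3⟩ := hbc
    refine ih.trans (SimpleGraph.Adj.reachable ⟨p, h1, h2, ?_⟩)
    apply h p
    · rw [h1, SimpleGraph.reachable_iff_reflTransGen]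
      exact hab
    · rw [h1]
      exact ih
    · exact h3

private theorem mem_DK (K : List Ec) (e : G.edgeSet) : e ∈ DK G K ↔ ec e ∉ K := by
  simp [DK]

private theorem mem_KD (D : Finset G.edgeSet) (u : Fin n) (e : G.edgeSet) :
    e ∈ KD D u ↔ e ∉ D ∧ ∃ p : Flag G, ed p = e ∧ (gD D).Reachable u p.1.fst := by
  simp [KD]

private theorem mem_InD (D : Finset G.edgeSet) (u : Fin n) (e : G.edgeSet) :
    e ∈ InD D u ↔ e ∈ D ∧ ∃ p : Flag G, ed p = e ∧ (gD D).Reachable u p.1.fst := by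
  simp [InD]

private theorem dk_iff (D : Finset G.edgeSet) (u : Fin n) (K : List Ec) (h : RepK D u K) (p : Flag G)
    (hp : (gD D).Reachable u p.1.fst) : ed p ∈ DK G K ↔ ed p ∈ D := by
  rw [mem_DK, h.2]
  constructor
  · intro h1
    by_contra h2
    exact h1 ⟨ed p, (mem_KD D u _).2 ⟨h2, p, rfl, hp⟩, rfl⟩
  · rintro h1 ⟨e, he, h2⟩
    have h3 := Pool.Agent.BEO.ec_inj h2
    rw [h3] at h1
    exact ((mem_KD D u e).1 he).1 h1

theorem rep_comp (D : Finset G.edgeSet) (u : Fin n) (K : List Ec) (h : RepK D u K) (v : Fin n) :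
    (gD (DK G K)).Reachable u v ↔ (gD D).Reachable u v := by
  constructor
  · apply reach_of
    intro p _ h2 h3
    exact (dk_iff D u K h p h2).1 h3
  · apply reach_of
    intro p h1 _ h3
    exact (dk_iff D u K h p h1).2 h3

theorem inD_rep (D : Finset G.edgeSet) (u : Fin n) (K : List Ec) (h : RepK D u K) :
    InD (DK G K) u = InD D u ∧ UD (DK G K) u = UD D u := by
  constructor
  · ext e
    rw [mem_InD, mem_InD]
    constructor
    · rintro ⟨h1, p, h2, h3⟩
      rw [rep_comp D u K h] at h3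
      subst h2
      exact ⟨(dk_iff D u K h p h3).1 h1, p, rfl, h3⟩
    · rintro ⟨h1, p, h2, h3⟩
      subst h2
      exact ⟨(dk_iff D u K h p h3).2 h1, p, rfl, (rep_comp D u K h _).2 h3⟩
  · ext v
    exact rep_comp D u K h v

theorem rep_len (D : Finset G.edgeSet) (u : Fin n) (K : List Ec) (h : RepK D u K) :
    K.length = (KD D u).card := by
  have h1 : K.toFinset = (KD D u).image ec := by
    ext x
    rw [List.mem_toFinset, h.2, Finset.mem_image]
    constructor
    · rintro ⟨e, he, h2⟩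
      exact ⟨e, he, h2.symm⟩
    · rintro ⟨e, he, h2⟩
      exact ⟨e, he, h2.symm⟩
  rw [← List.toFinset_card_of_nodup h.1, h1, Finset.card_image_of_injective]
  intro a b hab
  exact Pool.Agent.BEO.ec_inj hab

private theorem ec_ends (e : G.edgeSet) :
    ∃ p : Flag G, ed p = e ∧ (ec e).1 = (p.1.fst : ℕ) ∧ (ec e).2 = (p.1.snd : ℕ) := by
  have h : ec e = ek (cod (rp e)) := rfl
  by_cases h1 : ((rp e).1.fst : ℕ) ≤ ((rp e).1.snd : ℕ)
  · refine ⟨rp e, Pool.Agent.BEO.ed_rp e, ?_, ?_⟩ <;> rw [h] <;> simp [ek, cod, h1]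
  · refine ⟨across (rp e), ?_, ?_, ?_⟩
    · rw [Pool.Agent.BEO.ed_across, Pool.Agent.BEO.ed_rp]
    · rw [h, ek]
      have h2 : ¬ (cod (rp e)).1 ≤ (cod (rp e)).2.1 := h1
      simp only [h2, decide_false]
      rfl
    · rw [h, ek]
      have h2 : ¬ (cod (rp e)).1 ≤ (cod (rp e)).2.1 := h1
      simp only [h2, decide_false]
      rfl

private theorem fst_of_ed {p q : Flag G} (h : ed p = ed q) : p.1.fst = q.1.fst ∨ p.1.fst = q.1.snd := by
  have h1 : p.1.edge = q.1.edge := congrArg Subtype.val h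
  rw [SimpleGraph.dart_edge_eq_iff] at h1
  rcases h1 with h1 | h1
  · left
    rw [h1]
  · right
    rw [h1]
    rfl

private theorem gD_mono {D1 D2 : Finset G.edgeSet} (h : D1 ⊆ D2) (x v : Fin n) (hv : (gD D1).Reachable x v) :
    (gD D2).Reachable x v :=
  reach_of D1 D2 x (fun _ _ _ h3 => h h3) v hv

theorem rep_prn (hc : Codes S l) (hG : G.Connected) (hn : 2 ≤ n) (D : Finset G.edgeSet) (u : Fin n) (K : List Ec)
    (h : RepK D u K) (e : G.edgeSet) (he : e ∈ InD D u) (x : Fin n) (hx : (gD D).Reachable u x) :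
    RepK (D.erase e) x (prn l (ec e :: K) (x : ℕ)) := by
  have hr : ∀ v, (gD (DK G (ec e :: K))).Reachable x v ↔ (gD (D.erase e)).Reachable x v := by
    intro v
    constructor
    · apply reach_of
      intro p _ h2 h3
      have h4 := hx.trans (gD_mono (Finset.erase_subset e D) _ _ h2)
      rw [mem_DK, List.mem_cons, not_or] at h3
      rw [Finset.mem_erase]
      refine ⟨fun h5 => h3.1 (by rw [h5]), (dk_iff D u K h p h4).1 ((mem_DK _ _).2 h3.2)⟩
    · apply reach_of
      intro p h2 _ h3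
      have h4 := hx.trans (gD_mono (Finset.erase_subset e D) _ _ h2)
      rw [Finset.mem_erase] at h3
      rw [mem_DK, List.mem_cons, not_or]
      exact ⟨fun h5 => h3.1 (Pool.Agent.BEO.ec_inj h5), (mem_DK _ _).1 ((dk_iff D u K h p h4).2 h3.2)⟩
  refine ⟨(Pool.Agent.BEO.nodup_ddp _).filter _, ?_⟩
  intro g
  unfold prn
  rw [List.mem_filter, Pool.Agent.BEO.mem_ddp, Bool.or_eq_true]
  constructor
  · rintro ⟨h1, h2⟩
    obtain ⟨e', he', hg⟩ : ∃ e' : G.edgeSet, e' ∉ D.erase e ∧ g = ec e' := by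
      rcases List.mem_cons.1 h1 with h3 | h3
      · exact ⟨e, Finset.notMem_erase e D, h3⟩
      · obtain ⟨e', h4, h5⟩ := (h.2 g).1 h3
        exact ⟨e', fun h6 => ((mem_KD D u e').1 h4).1 (Finset.mem_of_mem_erase h6), h5⟩
    obtain ⟨p, hp, hp1, hp2⟩ := ec_ends e'
    refine ⟨e', (mem_KD _ _ _).2 ⟨he', ?_⟩, hg⟩
    rw [hg, hp1, hp2] at h2
    rcases h2 with h2 | h2
    · rw [inU_iff hc hG hn] at h2
      exact ⟨p, hp, (hr _).1 h2⟩
    · rw [inU_iff hc hG hn] at h2
      refine ⟨across p, ?_, (hr _).1 h2⟩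
      rw [Pool.Agent.BEO.ed_across, hp]
  · rintro ⟨e', he', hg⟩
    obtain ⟨h1, p, hp, h2⟩ := (mem_KD _ _ _).1 he'
    have h4 := hx.trans (gD_mono (Finset.erase_subset e D) _ _ h2)
    constructor
    · rw [hg, List.mem_cons]
      by_cases h5 : e' = e
      · left
        rw [h5]
      · right
        rw [h.2]
        refine ⟨e', (mem_KD _ _ _).2 ⟨fun h6 => h1 (Finset.mem_erase.2 ⟨h5, h6⟩), p, hp, h4⟩, rfl⟩
    · obtain ⟨q, hq, hq1, hq2⟩ := ec_ends e'
      rw [hg, hq1, hq2, inU_iff hc hG hn, inU_iff hc hG hn, hr, hr]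
      rcases fst_of_ed (hp.trans hq.symm) with h5 | h5
      · left
        rw [← h5]
        exact h2
      · right
        rw [← h5]
        exact h2

theorem rep_mem (hc : Codes S l) (D : Finset G.edgeSet) (u : Fin n) (K : List Ec) (h : RepK D u K) (x : Ec)
    (hx : x ∈ K) : x ∈ edl l := by
  rw [mem_edl hc]
  obtain ⟨e, _, h1⟩ := (h.2 x).1 hx
  exact ⟨e, h1⟩

/-- there is such a list -/
theorem exists_rep (D : Finset G.edgeSet) (u : Fin n) : ∃ K, RepK D u K := by
  refine ⟨(KD D u).toList.map ec, ?_, ?_⟩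
  · apply List.Nodup.map
    · intro a b hab
      exact Pool.Agent.BEO.ec_inj hab
    · exact Finset.nodup_toList _
  · intro x
    rw [List.mem_map]
    constructor
    · rintro ⟨e, he, h1⟩
      exact ⟨e, Finset.mem_toList.1 he, h1.symm⟩
    · rintro ⟨e, he, h1⟩
      exact ⟨e, Finset.mem_toList.2 he, h1.symm⟩

end Pool.Agent.SCG
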