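import Pool.Agent.SCG.SpK
import Pool.Agent.SCG.SpL
import Pool.Agent.SCG.SpE
import Pool.Agent.SCG.ExS

/-!
# SCG-SpM: the selection keeps a complete family complete
-/

set_option autoImplicit false

open Finset
open scoped Classical

namespace Pool.Agent.SCG

open Pool.Agent.Helper35.OG (Flag GMap across side)
open Pool.Agent.BEO (F2 ed rp cyc ev twist tph cod Codes ec lamOf look memb ddp comp stp bfs par tup cds Pt Ec Inp Stt
  sd ac ek fl fcl zl lb xo bvs nF isO nE nV nxc)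

variable {n : ℕ} {G : SimpleGraph (Fin n)} {S : GMap G} {l : Inp}

/-- the candidates for a piece in round `r + 1` -/
def cnd (k T : ℕ) (l : Inp) (r : ℕ) (K : List Ec) (u : ℕ) : List (List Ec) :=
  leaf k T l (fli l K u) ++ cmb l ((rnd (cc k) (mm (cc k)) k T l)^[r] []) K u

theorem sel_cpl (hc : Codes S l) (hG : G.Connected) (hn : 2 ≤ n) (k T : ℕ) (o : Bool) (D : Finset G.edgeSet)
    (u : Fin n) (K : List Ec) (h : RepK D u K) (hk : (KD D u).card ≤ cc k) (r : ℕ)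
    (hin : ∀ c ∈ cnd k T l r K (u : ℕ), lamOf G c ⊆ InD D u)
    (hcpl : Cpl S (InD D u) o {lam | ∃ c ∈ cnd k T l r K (u : ℕ), lam = lamOf G c}) :
    Cpl S (InD D u) o (st G k T l (r + 1) K (u : ℕ)) := by
  have : Nontrivial (Fin n) := Fin.nontrivial_iff_two_le.2 hn
  have hlen : K.length ≤ cc k := by
    rw [rep_len D u K h]
    exact hk
  have hkey : (K, (u : ℕ)) ∈ keys (cc k) l :=
    (mem_keys (cc k) l K u).2 ⟨hlen, fun x hx => rep_mem hc D u K h x hx, (mem_vl hc hG hn _).2 u.2⟩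
  have hlook : look ((rnd (cc k) (mm (cc k)) k T l)^[r + 1] []) (K, (u : ℕ)) [] =
      sel (mm (cc k)) l K (u : ℕ) ((cnd k T l r K (u : ℕ)).map (nrm l)) := by
    rw [Function.iterate_succ_apply']
    exact rnd_look _ _ k T l _ K u hkey
  obtain ⟨hI, hU⟩ := inD_rep D u K h
  refine cpl_sel hG S (InD D u) (UD D u) (fun p hp => inD_fst D u p hp) o _ _ hcpl ?_
  rintro lam ⟨c, hcm, rfl⟩ _
  obtain ⟨c'', hm'', hs, hle⟩ := sel_spec (mm (cc k)) l K (u : ℕ) ((cnd k T l r K (u : ℕ)).map (nrm l)) (nrm l c)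
    (List.mem_map_of_mem hcm) (sgn_len l K (u : ℕ) _ (cc k) hlen)
  obtain ⟨c0, hc0, he0⟩ := List.mem_map.1 (sel_mem _ _ _ _ _ _ hm'')
  refine ⟨lamOf G c'', ⟨c'', by rw [hlook]; exact hm'', rfl⟩, ?_, ?_, ?_⟩
  · rw [← he0, lamOf_nrm hc]
    exact hin c0 hc0
  · have h1 := sgn_same hc hG hn K u (nrm l c) c'' hs.symm
    rw [lamOf_nrm hc, hI, hU] at h1
    exact h1
  · rw [clo_eq hc hG hn, clo_eq hc hG hn, lamOf_nrm hc, hI, hU] at hle
    exact hle

end Pool.Agent.SCG
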