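import Pool.Agent.SCG.SpI

/-!
# SCG-SpN: the tables of the components of a set of edges from those without one edge, and of unions (helper2)
-/

set_option autoImplicit false

open Finset
open scoped Classical

namespace Pool.Agent.SCG

open Pool.Agent.Helper35.OG (Flag GMap across side)
open Pool.Agent.BEO (F2 ed rp cyc ev twist tph cod Codes ec lamOf look memb ddp comp stp bfs par tup cds Pt Ec Inp Stt
  sd ac ek fl fcl zl lb xo bvs nF isO nE nV nxc nb)

variable {n : ℕ} {G : SimpleGraph (Fin n)} {S : GMap G} {l : Inp}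

private theorem er_eq (i1 i2 : DecidableEq G.edgeSet) (D : Finset G.edgeSet) (e : G.edgeSet) :
    @Finset.erase _ i1 D e = @Finset.erase _ i2 D e := by
  rw [Subsingleton.elim i1 i2]

private theorem un_eq (i1 i2 : DecidableEq G.edgeSet) (D D' : Finset G.edgeSet) :
    @Union.union (Finset G.edgeSet) (@Finset.instUnion _ i1) D D' =
      @Union.union (Finset G.edgeSet) (@Finset.instUnion _ i2) D D' := by
  rw [Subsingleton.elim i1 i2]

private theorem e_not (D : Finset G.edgeSet) (e : G.edgeSet) (u : Fin n) : e ∉ InD (D.erase e) u := by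
  have h := erase_not D e u
  rw [er_eq _ (inferInstanceAs (DecidableEq G.edgeSet))] at h
  exact h

private theorem e_other (D : Finset G.edgeSet) (e : G.edgeSet) (he : e ∈ D) (u : Fin n) (h : e ∉ InD D u) :
    InD D u = InD (D.erase e) u ∧ KD D u = KD (D.erase e) u := by
  have h := erase_other D e he u h
  rw [er_eq _ (inferInstanceAs (DecidableEq G.edgeSet))] at h
  exact h

private theorem e_conn (D : Finset G.edgeSet) (u : Fin n) (p : Flag G) (hp : ed p ∈ InD D u)
    (h : (gD (D.erase (ed p))).Reachable p.1.fst p.1.snd) :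
    ∀ x, x ∈ InD D u ↔ x ∈ InD (D.erase (ed p)) p.1.fst ∨ x = ed p := by
  have h1 := erase_conn D u p hp
  rw [er_eq _ (inferInstanceAs (DecidableEq G.edgeSet))] at h1
  exact h1 h

private theorem e_disc (D : Finset G.edgeSet) (u : Fin n) (p : Flag G) (hp : ed p ∈ InD D u)
    (h : ¬ (gD (D.erase (ed p))).Reachable p.1.fst p.1.snd) :
    (∀ x, x ∈ InD D u ↔ x ∈ InD (D.erase (ed p)) p.1.fst ∨ x ∈ InD (D.erase (ed p)) p.1.snd ∨ x = ed p) ∧
      Disjoint (InD (D.erase (ed p)) p.1.fst) (InD (D.erase (ed p)) p.1.snd) := by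
  have h1 := erase_disc D u p hp
  rw [er_eq _ (inferInstanceAs (DecidableEq G.edgeSet))] at h1
  exact h1 h

private theorem mem_app (c c' : List Ec) (x : G.edgeSet) : x ∈ lamOf G (c ++ c') ↔
    (x ∈ lamOf G c ∧ x ∉ lamOf G c') ∨ (x ∈ lamOf G c' ∧ x ∉ lamOf G c) := by
  rw [lamOf_append, Finset.mem_symmDiff]

private theorem mem_cns (e : G.edgeSet) (c : List Ec) (he : e ∉ lamOf G c) (x : G.edgeSet) :
    x ∈ lamOf G (ec e :: c) ↔ x = e ∨ x ∈ lamOf G c := by
  have h := mem_app (G := G) [ec e] c x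
  rw [List.singleton_append, lamOf_single, Finset.mem_singleton] at h
  rw [h]
  constructor
  · rintro (⟨h1, _⟩ | ⟨h1, _⟩)
    · exact Or.inl h1
    · exact Or.inr h1
  · rintro (h1 | h1)
    · refine Or.inl ⟨h1, ?_⟩
      rw [h1]
      exact he
    · refine Or.inr ⟨h1, ?_⟩
      rintro rfl
      exact he h1

private theorem cmb_mem {tab : Tab} {K : List Ec} {u : ℕ} {q : Pt} (hq : q ∈ fli l K u) {a b : List Ec}
    (ha : a ∈ sub l tab (ek q :: K) (ek q).1) (hb : b ∈ [] :: sub l tab (ek q :: K) (ek q).2) :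
    a ++ b ∈ cmb l tab K u ∧ ek q :: (a ++ b) ∈ cmb l tab K u := by
  unfold cmb
  constructor
  · rw [List.mem_flatMap]
    refine ⟨q, hq, ?_⟩
    rw [List.mem_flatMap]
    refine ⟨a, ha, ?_⟩
    rw [List.mem_flatMap]
    refine ⟨b, hb, ?_⟩
    exact List.mem_cons_self
  · rw [List.mem_flatMap]
    refine ⟨q, hq, ?_⟩
    rw [List.mem_flatMap]
    refine ⟨a, ha, ?_⟩
    rw [List.mem_flatMap]
    refine ⟨b, hb, ?_⟩
    exact List.mem_cons_of_mem _ List.mem_cons_self

private theorem exists_p (e : G.edgeSet) : ∃ p : Flag G, ed p = e ∧ (ek (cod p)).1 = (p.1.fst : ℕ) ∧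
    (ek (cod p)).2 = (p.1.snd : ℕ) := by
  have key : ∀ p : Flag G, (p.1.fst : ℕ) ≤ (p.1.snd : ℕ) → (ek (cod p)).1 = (p.1.fst : ℕ) ∧
      (ek (cod p)).2 = (p.1.snd : ℕ) := by
    intro p hp
    unfold ek cod
    simp [hp]
  rcases le_total ((rp e).1.fst : ℕ) ((rp e).1.snd : ℕ) with h | h
  · exact ⟨rp e, Pool.Agent.BEO.ed_rp e, key _ h⟩
  · refine ⟨across (rp e), (Pool.Agent.BEO.ed_across _).trans (Pool.Agent.BEO.ed_rp e), key _ h⟩

theorem tab_erase (hc : Codes S l) (hG : G.Connected) (hn : 2 ≤ n) (k T : ℕ) (o : Bool) (D : Finset G.edgeSet)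
    (e : G.edgeSet) (he : e ∈ D) (hk : ∀ u, (KD D u).card ≤ cc k) (hk' : ∀ u, (KD (D.erase e) u).card ≤ cc k)
    (h : ∀ r, TabC S k T l o (D.erase e) r) (r : ℕ) : TabC S k T l o D r := by
  intro u K hR hcard
  by_cases hin : e ∈ InD D u
  swap
  · obtain ⟨h1, h2⟩ := e_other D e he u hin
    have hR' : RepK (D.erase e) u K := by
      unfold RepK at hR ⊢
      rw [← h2]
      exact hR
    rw [h1] at hcard ⊢
    exact h r u K hR' hcard
  · obtain ⟨r', rfl⟩ : ∃ r', r = r' + 1 := ⟨r - 1, by omega⟩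
    obtain ⟨p, hpe, hp1, hp2⟩ := exists_p e
    subst hpe
    have hek : ek (cod p) = ec (ed p) := Pool.Agent.BEO.ek_cod p
    obtain ⟨hr1, hr2⟩ := erase_reach D u p hin
    have hR1 := rep_prn hc hG hn D u K hR (ed p) hin p.1.fst hr1
    have hR2 := rep_prn hc hG hn D u K hR (ed p) hin p.1.snd hr2
    have hn1 := e_not D (ed p) p.1.fst
    have hn2 := e_not D (ed p) p.1.snd
    have hfli : cod p ∈ fli l K (u : ℕ) := by
      rw [mem_fli hc hG hn K u]
      refine ⟨p, rfl, ?_⟩
      rw [(inD_rep D u K hR).1]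
      exact hin
    refine sel_cpl hc hG hn k T o D u K hR (hk u) r' (fun c hcn => cnd_in hc hG hn k T r' D u K hR c hcn) ?_
    -- the stored sets inside the parts
    have hsub : ∀ a : Fin n, InD (D.erase (ed p)) a ⊆ InD D u → RepK (D.erase (ed p)) a
        (prn l (ec (ed p) :: K) (a : ℕ)) → Cpl S (InD (D.erase (ed p)) a) o
          {lam | (∃ c ∈ sub l ((rnd (cc k) (mm (cc k)) k T l)^[r'] []) (ec (ed p) :: K) (a : ℕ), lam = lamOf G c) ∧
            lam ⊆ InD (D.erase (ed p)) a} := by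
      intro a hsa hRa
      have hlt : (InD (D.erase (ed p)) a).card < (InD D u).card := by
        refine Finset.card_lt_card ?_
        rw [Finset.ssubset_iff_of_subset hsa]
        exact ⟨ed p, hin, e_not D (ed p) a⟩
      have h1 := h r' a _ hRa (by omega)
      refine cpl_mono S _ o _ _ h1 ?_
      intro lam hlam hle
      obtain ⟨c, hc1, hc2⟩ := hlam
      exact ⟨⟨c, hc1, hc2⟩, hle⟩
    by_cases hconn : (gD (D.erase (ed p))).Reachable p.1.fst p.1.snd
    · have hI := e_conn D u p hin hconn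
      have h1 := hsub p.1.fst (fun x hx => (hI x).2 (Or.inl hx)) hR1
      refine cpl_one S (InD D u) (InD (D.erase (ed p)) p.1.fst) (ed p) o _ _ hI hn1 h1 ?_
      rintro mu ⟨⟨a, ha, rfl⟩, hmu⟩
      have hea : ed p ∉ lamOf G a := fun hx => hn1 (hmu hx)
      have hm := cmb_mem (l := l) (tab := (rnd (cc k) (mm (cc k)) k T l)^[r'] []) hfli (a := a) (b := [])
        (by rw [hek, ← hek, hp1, hek]; exact ha) List.mem_cons_self
      rw [List.append_nil, hek] at hm
      constructor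
      · exact ⟨a, List.mem_append_right _ hm.1, rfl⟩
      · refine ⟨ec (ed p) :: a, List.mem_append_right _ hm.2, ?_⟩
        ext x
        rw [Finset.mem_insert, mem_cns (ed p) a hea x]
    · obtain ⟨hI, hdis⟩ := e_disc D u p hin hconn
      have h1 := hsub p.1.fst (fun x hx => (hI x).2 (Or.inl hx)) hR1
      have h2 := hsub p.1.snd (fun x hx => (hI x).2 (Or.inr (Or.inl hx))) hR2
      refine cpl_two S (InD D u) (InD (D.erase (ed p)) p.1.fst) (InD (D.erase (ed p)) p.1.snd) (ed p) o _ _ _ hI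
        hdis hn1 hn2 h1 h2 ?_
      rintro mu ⟨⟨a, ha, rfl⟩, hmu⟩ nu ⟨⟨b, hb, rfl⟩, hnu⟩
      have hdab : ∀ x, x ∈ lamOf G a → x ∈ lamOf G b → False := fun x hx hx' =>
        Finset.disjoint_left.1 hdis (hmu hx) (hnu hx')
      have hab : ∀ x, x ∈ lamOf G (a ++ b) ↔ x ∈ lamOf G a ∨ x ∈ lamOf G b := by
        intro x
        rw [mem_app]
        constructor
        · rintro (⟨h3, _⟩ | ⟨h3, _⟩)
          · exact Or.inl h3
          · exact Or.inr h3
        · rintro (h3 | h3)
          · exact Or.inl ⟨h3, fun h4 => hdab x h3 h4⟩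
          · exact Or.inr ⟨h3, fun h4 => hdab x h4 h3⟩
      have hea : ed p ∉ lamOf G (a ++ b) := by
        rw [hab]
        rintro (h3 | h3)
        · exact hn1 (hmu h3)
        · exact hn2 (hnu h3)
      have hm := cmb_mem (l := l) (tab := (rnd (cc k) (mm (cc k)) k T l)^[r'] []) hfli (a := a) (b := b)
        (by rw [hp1, hek]; exact ha) (List.mem_cons_of_mem _ (by rw [hp2, hek]; exact hb))
      rw [hek] at hm
      constructor
      · refine ⟨a ++ b, List.mem_append_right _ hm.1, ?_⟩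
        ext x
        rw [Finset.mem_union, hab]
      · refine ⟨ec (ed p) :: (a ++ b), List.mem_append_right _ hm.2, ?_⟩
        ext x
        rw [Finset.mem_insert, Finset.mem_union, mem_cns (ed p) (a ++ b) hea x, hab]

theorem tab_union (k T : ℕ) (o : Bool) (D1 D2 : Finset G.edgeSet)
    (hd : ∀ e1 ∈ D1, ∀ e2 ∈ D2, ∀ v, ¬ (v ∈ e1.1 ∧ v ∈ e2.1)) (h1 : ∀ r, TabC S k T l o D1 r)
    (h2 : ∀ r, TabC S k T l o D2 r) (r : ℕ) : TabC S k T l o (D1 ∪ D2) r := by
  intro u K hR hcard
  have h3 := union_comp D1 D2 hd u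
  rw [un_eq _ (inferInstanceAs (DecidableEq G.edgeSet))] at h3
  rcases h3 with ⟨hI, hK⟩ | ⟨hI, hK⟩
  · have hR' : RepK D1 u K := by
      unfold RepK at hR ⊢
      rw [← hK]
      exact hR
    rw [hI] at hcard ⊢
    exact h1 r u K hR' hcard
  · have hR' : RepK D2 u K := by
      unfold RepK at hR ⊢
      rw [← hK]
      exact hR
    rw [hI] at hcard ⊢
    exact h2 r u K hR' hcard

end Pool.Agent.SCG
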