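import Pool.Agent.SCG.SpN
import Pool.Agent.SCG.SpG
import Pool.Agent.SCG.DcInd

/-!
# SCG-SpO: the entries for the whole graph are a complete family
-/

set_option autoImplicit false

open Finset
open scoped Classical

namespace Pool.Agent.SCG

open Pool.Agent.Helper35.OG (Flag GMap across side)
open Pool.Agent.BEO (F2 ed rp cyc ev twist tph cod Codes ec lamOf look memb ddp comp stp bfs par tup cds Pt Ec Inp Stt
  sd ac ek fl fcl zl lb xo bvs nF isO nE nV nxc nb)

private theorem reach_univ {V : Type} {G : SimpleGraph V} [Fintype V] (hG : G.Connected) (u v : V) :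
    (gD (univ : Finset G.edgeSet)).Reachable u v := by
  obtain ⟨w⟩ := hG.preconnected u v
  induction w with
  | nil => exact SimpleGraph.Reachable.refl _
  | cons h _ ih =>
    refine SimpleGraph.Reachable.trans (SimpleGraph.Adj.reachable ?_) ih
    exact ⟨((⟨(_, _), h⟩ : G.Dart), true), rfl, rfl, mem_univ _⟩

private theorem mem_inD' {V : Type} {G : SimpleGraph V} (D : Finset G.edgeSet) (u : V) (e : G.edgeSet) :
    e ∈ InD D u ↔ e ∈ D ∧ ∃ p : Flag G, ed p = e ∧ (gD D).Reachable u p.1.fst := by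
  unfold InD
  rw [mem_filter]

private theorem inD_univ' {V : Type} {G : SimpleGraph V} [Fintype V] (hG : G.Connected) (u : V)
    (D : Finset G.edgeSet) (hD : ∀ e, e ∈ D) : InD D u = D := by
  have h0 : D = univ := eq_univ_iff_forall.2 hD
  subst h0
  refine eq_univ_iff_forall.2 fun e => ?_
  rw [mem_inD']
  exact ⟨mem_univ _, rp e, Pool.Agent.BEO.ed_rp e, reach_univ hG u _⟩

private theorem kD_univ' {V : Type} {G : SimpleGraph V} [Fintype V] (u : V)
    (D : Finset G.edgeSet) (hD : ∀ e, e ∈ D) (e : G.edgeSet) : e ∉ KD D u := by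
  intro he
  unfold KD at he
  rw [mem_filter] at he
  exact he.2.1 (hD e)

private theorem inD_univ {n : ℕ} {G : SimpleGraph (Fin n)} (hG : G.Connected) (u : Fin n) :
    InD (univ : Finset G.edgeSet) u = univ := inD_univ' hG u _ fun e => mem_univ e

private theorem rep_univ {n : ℕ} {G : SimpleGraph (Fin n)} (u : Fin n) :
    RepK (univ : Finset G.edgeSet) u [] := by
  refine ⟨List.nodup_nil, fun x => ⟨fun h => absurd h List.not_mem_nil, ?_⟩⟩
  rintro ⟨e, he, _⟩
  exact absurd he (kD_univ' u _ (fun e => mem_univ e) e)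

private theorem card_lt {n : ℕ} {G : SimpleGraph (Fin n)} {S : GMap G} {l : Inp} (hc : Codes S l)
    (A : Finset G.edgeSet) : A.card < (fl l).length + 1 := by
  have h1 : A.card ≤ (fl l).toFinset.card := by
    refine card_le_card_of_injOn (fun e => cod (rp e)) ?_ ?_
    · intro e _
      rw [mem_coe, List.mem_toFinset]
      exact (Pool.Agent.BEO.mem_fl hc _).2 ⟨rp e, rfl⟩
    · intro e _ e' _ h
      have h2 : rp e = rp e' := Pool.Agent.BEO.cod_inj h
      rw [← Pool.Agent.BEO.ed_rp e, ← Pool.Agent.BEO.ed_rp e', h2]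
  have h2 := List.toFinset_card_le (fl l)
  omega

private theorem headD_mem_of {l : List ℕ} (h : l ≠ []) (d : ℕ) : l.headD d ∈ l := by
  cases l with
  | nil => exact absurd rfl h
  | cons a t => exact List.mem_cons_self

private theorem erase_inst {α : Type} (i j : DecidableEq α) (D : Finset α) (e : α) :
    @Finset.erase α i D e = @Finset.erase α j D e := by
  rw [Subsingleton.elim i j]

private theorem union_inst {α : Type} (i j : DecidableEq α) (D D' : Finset α) :
    @Union.union (Finset α) (@Finset.instUnion α i) D D' = @Union.union (Finset α) (@Finset.instUnion α j) D D' := by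
  rw [Subsingleton.elim i j]

private theorem tab_erase' {n : ℕ} {G : SimpleGraph (Fin n)} {S : GMap G} {l : Inp} (inst : DecidableEq G.edgeSet)
    (hc : Codes S l) (hG : G.Connected) (hn : 2 ≤ n) (k T : ℕ) (o : Bool) (D : Finset G.edgeSet)
    (e : G.edgeSet) (he : e ∈ D) (hk : ∀ u, (KD D u).card ≤ cc k)
    (hk' : ∀ u, (KD (@Finset.erase G.edgeSet inst D e) u).card ≤ cc k)
    (h : ∀ r, TabC S k T l o (@Finset.erase G.edgeSet inst D e) r) (r : ℕ) : TabC S k T l o D r := by
  rw [erase_inst inst _ D e] at hk' h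
  exact tab_erase hc hG hn k T o D e he hk hk' h r

private theorem tab_union' {n : ℕ} {G : SimpleGraph (Fin n)} {S : GMap G} {l : Inp} (inst : DecidableEq G.edgeSet)
    (k T : ℕ) (o : Bool) (D1 D2 : Finset G.edgeSet)
    (hd : ∀ e1 ∈ D1, ∀ e2 ∈ D2, ∀ v, ¬ (v ∈ e1.1 ∧ v ∈ e2.1)) (h1 : ∀ r, TabC S k T l o D1 r)
    (h2 : ∀ r, TabC S k T l o D2 r) (r : ℕ) :
    TabC S k T l o (@Union.union (Finset G.edgeSet) (@Finset.instUnion G.edgeSet inst) D1 D2) r := by
  rw [union_inst inst _ D1 D2]
  exact tab_union k T o D1 D2 hd h1 h2 r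

theorem ent_cpl (k : ℕ) : ∃ T : ℕ, ∀ (n : ℕ) (G : SimpleGraph (Fin n)) (S : GMap G) (l : Inp), Codes S l →
    G.Connected → 2 ≤ n → (∀ v, (nb G v).card ≤ 3) → S.eg ≤ k → ∀ o : Bool,
      Cpl S univ o {lam | ∃ c ∈ ent (cc k) (mm (cc k)) k T l, lam = lamOf G c} := by
  obtain ⟨T, hT⟩ := leaf_spec k (cc k)
  refine ⟨T, ?_⟩
  intro n G S l hc hG hn hv hk o
  have hnt : Nontrivial (Fin n) := Fin.nontrivial_iff_two_le.2 hn
  have hQ : ∀ r, TabC S k T l o univ r := by
    refine dec_ind hG hv S k hk (fun D => ∀ r, TabC S k T l o D r) ?_ ?_ ?_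
    · intro D hD hKD r
      refine tab_good hc hG hn k T o D hKD ?_ r
      intro u K hRep
      refine hT n G S l hc hG hn hk D u (fli l K (u : ℕ)) hD (hKD u) ?_ o
      intro x
      rw [mem_fli hc hG hn K u x, (inD_rep D u K hRep).1]
    · intro D e he h1 h2 h3 r
      exact tab_erase' _ hc hG hn k T o D e he h1 h2 h3 r
    · intro D1 D2 hd h1 h2 r
      exact tab_union' _ k T o D1 D2 hd h1 h2 r
  have h0 : (0 : ℕ) ∈ vl l := (mem_vl hc hG hn 0).2 (by omega)
  have hne : vl l ≠ [] := fun h => by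
    rw [h] at h0
    exact absurd h0 List.not_mem_nil
  have hlt : (vl l).headD 0 < n := (mem_vl hc hG hn _).1 (headD_mem_of hne 0)
  have key := hQ ((fl l).length + 1) ⟨(vl l).headD 0, hlt⟩ [] (rep_univ _) (card_lt hc _)
  rw [inD_univ hG] at key
  exact key

end Pool.Agent.SCG
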