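import Pool.Agent.SCG.SpW
import Pool.Agent.SCG.SpA
import Pool.Agent.BEO.TreS
import Pool.Agent.BEO.TupL
import Pool.Agent.BEO.FrmRank
import Pool.Agent.BEO.DWB

/-!
# SCG-SpT: for a suitable tuple the canonical walks in every piece have the right classes
-/

set_option autoImplicit false

open Finset
open scoped Classical

namespace Pool.Agent.SCG

open Pool.Agent.Helper35.OG (Flag GMap across side exists_flag)
open Pool.Agent.BEO (F2 ed rp cyc ev twist tph cod Codes ec lamOf look memb ddp comp stp bfs par tup cds Pt Ec Inp Stt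
  sd ac ek fl fcl zl lb lbs xo bvs nF isO nE nV nxc DW pc zc_mem zc_span exists_coords bdF bdF_eq frm frm_rad
  frm_rank mem_tup ed_rp)

variable {n : ℕ} {G : SimpleGraph (Fin n)} {S : GMap G} {l : Inp}

private theorem fold_sum (L : List Bool) : ∀ a : Bool, (if L.foldl xor a = true then (1 : F2) else 0) =
    (if a = true then 1 else 0) + (L.map fun b : Bool => if b = true then (1 : F2) else 0).sum := by
  induction L with
  | nil => intro a; cases a <;> simp
  | cons b L ih =>
    intro a
    rw [List.foldl_cons, ih, List.map_cons, List.sum_cons, ← add_assoc]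
    congr 1
    revert a b
    decide

private theorem sum_app {E Z : Type} [AddCommGroup Z] [Module F2 Z] (a : E → Z →ₗ[F2] F2) (w : List E) (x : Z) :
    (w.map a).sum x = (w.map fun e => a e x).sum := by
  induction w with
  | nil => rfl
  | cons e w ih =>
    rw [List.map_cons, List.sum_cons, List.map_cons, List.sum_cons, LinearMap.add_apply, ih]

private theorem lbs_pc (l : Inp) (es : List G.edgeSet) (w w' : List G.edgeSet)
    (h : lbs l (es.map ec) (w'.map ec) = lbs l (es.map ec) (w.map ec)) (e : G.edgeSet) (he : e ∈ es) :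
    (w'.map fun a => pc (zl l (ec e)) a).sum = (w.map fun a => pc (zl l (ec e)) a).sum := by
  have key : ∀ v : List G.edgeSet, (v.map fun a => pc (zl l (ec e)) a).sum =
      if ((v.map ec).map fun a => par (zl l (ec e)) a).foldl xor false = true then (1 : F2) else 0 := by
    intro v
    rw [fold_sum]
    simp only [List.map_map, Bool.false_eq_true, if_false, zero_add]
    rfl
  have h1 : ∀ x ∈ es.map ec, ((w'.map ec).map fun a => par (zl l x) a).foldl xor false =
      ((w.map ec).map fun a => par (zl l x) a).foldl xor false := by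
    unfold lbs at h
    exact List.map_inj_left.1 h
  rw [key, key, h1 (ec e) (List.mem_map.2 ⟨e, he, rfl⟩)]

private theorem finrank_ann [Nontrivial (Fin n)] (hG : G.Connected) (S : GMap G) :
    ((Module.finrank F2 (Submodule.span F2 (Set.range (bdF S))).dualAnnihilator : ℕ) : ℤ) = S.eg := by
  rw [← frm_rank hG S]
  have h4 : LinearMap.ker (frm S) = Submodule.span F2 (Set.range (bdF S)) := by
    ext z
    rw [LinearMap.mem_ker, ← frm_rad S z]
    constructor
    · intro h z'
      rw [h]
      rfl
    · intro h
      apply LinearMap.ext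
      intro z'
      exact h z'
  have h1 := LinearMap.finrank_range_add_finrank_ker (frm S)
  have h2 := Subspace.finrank_add_finrank_dualAnnihilator_eq (Submodule.span F2 (Set.range (bdF S)))
  rw [h4] at h1
  have h3 : Module.finrank F2 (Submodule.span F2 (Set.range (bdF S))).dualAnnihilator =
      Module.finrank F2 (LinearMap.range (frm S)) := by omega
  rw [h3]

theorem exists_tuple (h : Codes S l) (hG : G.Connected) (hn : 2 ≤ n) (k : ℕ) (hk : S.eg ≤ k) :
    ∃ es : List Ec, es ∈ tup (edl l) k ∧ ∀ (fs : List Pt) (In : Finset G.edgeSet),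
      (∀ x, x ∈ fs ↔ ∃ p : Flag G, x = cod p ∧ ed p ∈ In) → ∀ (F F' : S.Face) (w : List G.edgeSet),
      DW (fun e => S.face (rp e)) (fun e => S.face (side (rp e))) F F' w → w ≠ [] → (∀ e ∈ w, e ∈ In) →
        ∃ w' : List G.edgeSet, w'.map ec ∈ wlu k l es fs ∧ w' ≠ [] ∧ (∀ e ∈ w', e ∈ In) ∧ w'.length ≤ w.length ∧
          (w'.length + w.length) % 2 = 0 ∧ (w'.map (ev (G := G))).sum = (w.map (ev (G := G))).sum := by
  have : Nontrivial (Fin n) := Fin.nontrivial_iff_two_le.2 hn
  let zc : G.edgeSet → cyc G := fun e => ⟨pc (zl l (ec e)), zc_mem h hG hn e⟩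
  have hspan : ∀ φ : cyc G →ₗ[ZMod 2] ZMod 2, (∀ e, φ (zc e) = 0) → φ = 0 := by
    intro φ hφ
    apply LinearMap.ext
    intro z
    have hz : z = ∑ e, z.1 e • zc e := by
      apply Subtype.ext
      funext e'
      rw [zc_span h hG hn z.1 z.2 e', Submodule.coe_sum, Finset.sum_apply]
      rfl
    rw [hz, map_sum]
    simp only [map_smul, hφ, smul_zero, Finset.sum_const_zero]
    rfl
  have hfr := finrank_ann hG S
  obtain ⟨es0, hlen, hes0⟩ := exists_coords zc hspan _
    (Submodule.span F2 (Set.range (bdF S))).dualAnnihilator rfl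
  have hlek : es0.length ≤ k := by
    rw [hlen]
    have := hfr.trans_le hk
    exact_mod_cast this
  obtain ⟨p0, -⟩ := exists_flag hG (⟨0, by omega⟩ : Fin n)
  obtain ⟨es, hes⟩ : ∃ es, es = es0 ++ List.replicate (k - es0.length) (ed p0) := ⟨_, rfl⟩
  have hesl : es.length = k := by
    rw [hes, List.length_append, List.length_replicate]
    omega
  refine ⟨es.map ec, ?_, ?_⟩
  · rw [mem_tup]
    refine ⟨by rw [List.length_map, hesl], ?_⟩
    intro x hx
    obtain ⟨e, -, rfl⟩ := List.mem_map.1 hx
    exact (mem_edl h _).2 ⟨e, rfl⟩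
  · intro fs In hfs F F' w hw hne hIn
    obtain ⟨w', h1, h2, h3, h4, h5, h6, h7⟩ := wlu_complete h k (es.map ec)
      (by rw [List.length_map, hesl]) fs In hfs F F' w hw hne hIn
    refine ⟨w', h1, h2, h3, h4, h5, ?_⟩
    rw [← sub_eq_zero]
    apply hes0
    · rw [Submodule.mem_dualAnnihilator]
      have hX : ∀ X, ((w'.map (ev (G := G))).sum - (w.map (ev (G := G))).sum) (bdF S X) = 0 := by
        intro X
        have e1 : ∀ v : List G.edgeSet, DW (fun e => S.face (rp e)) (fun e => S.face (side (rp e))) F F' v →
            (v.map (ev (G := G))).sum (bdF S X) = (if F = X then 1 else 0) + (if F' = X then 1 else 0) := by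
          intro v hv
          rw [sum_app, ← hv.bd X]
          congr 1
          apply List.map_congr_left
          intro e _
          have h8 := bdF_eq S X (rp e)
          rw [ed_rp] at h8
          exact h8
        rw [LinearMap.sub_apply, e1 w' h6, e1 w hw, sub_self]
      intro z hz
      refine Submodule.span_induction (p := fun z _ =>
        ((w'.map (ev (G := G))).sum - (w.map (ev (G := G))).sum) z = 0) ?_ (map_zero _) ?_ ?_ hz
      · rintro _ ⟨X, rfl⟩
        exact hX X
      · intro x y _ _ hx hy
        rw [map_add, hx, hy, add_zero]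
      · intro r x _ hx
        rw [map_smul, hx, smul_zero]
    · intro e he
      rw [LinearMap.sub_apply, sum_app, sum_app, sub_eq_zero]
      refine lbs_pc l es w w' h7 e ?_
      rw [hes]
      exact List.mem_append_left _ he

end Pool.Agent.SCG
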