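import Pool.Agent.SCG.SpDef
import Pool.Agent.BEO.WlkS

/-!
# SCG-SpW: the canonical walks in a piece

`fs` is a list of codes of flags containing with the code of a flag the codes of all flags over the same edge.
PLAN. Adapt `Pool/Agent/BEO/WlkS.lean` (proved; it contains `lbs`): the arcs are restricted to the edges with flags in
`fs`; walks of the dual graph whose edges have their flags in `fs` correspond to walks of `arU`. The edges of the walks
found are edges of arcs, so they have flags in `fs`.
-/

set_option autoImplicit false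

open Finset
open scoped Classical

namespace Pool.Agent.SCG

open Pool.Agent.Helper35.OG (Flag GMap across side across_across side_side face_across)
open Pool.Agent.BEO (F2 ed rp cyc ev twist tph cod Codes ec lamOf look memb ddp comp stp bfs par tup cds Pt Ec Inp Stt
  sd ac ek fl fcl zl lb lbs xo bvs nF isO nE nV nxc DW AW ed_rp ed_side mem_tup mem_fl fcl_iff ek_cod sd_cod bfs_complete
  bfs_sound)

variable {n : ℕ} {G : SimpleGraph (Fin n)} {S : GMap G} {l : Inp}

private theorem wu_faces (S : GMap G) (p : Flag G) :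
    (S.face (rp (ed p)) = S.face p ∧ S.face (side (rp (ed p))) = S.face (side p)) ∨
      (S.face (rp (ed p)) = S.face (side p) ∧ S.face (side (rp (ed p))) = S.face p) := by
  obtain ⟨r, hr⟩ : ∃ r, r = rp (ed p) := ⟨_, rfl⟩
  have h1 : ed r = ed p := by
    rw [hr]
    exact ed_rp _
  rw [← hr]
  have h2 : r.1.edge = p.1.edge := congrArg Subtype.val h1
  obtain ⟨rd, rb⟩ := r
  obtain ⟨pd, pb⟩ := p
  have hac : S.face (side (across (pd, pb))) = S.face (side (pd, pb)) := by
    have h3 : side (across (pd, pb)) = across (side (pd, pb)) := rfl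
    rw [h3, face_across]
  rcases SimpleGraph.dart_edge_eq_iff rd pd |>.1 h2 with h3 | h3
  · subst h3
    by_cases hb : rb = pb
    · subst hb
      exact Or.inl ⟨rfl, rfl⟩
    · have h4 : rb = !pb := by
        revert hb
        cases rb <;> cases pb <;> decide
      right
      have h5 : ((rd, rb) : Flag G) = side (rd, pb) := by
        rw [h4]
        rfl
      rw [h5, side_side]
      exact ⟨rfl, rfl⟩
  · by_cases hb : rb = pb
    · right
      have h5 : ((rd, rb) : Flag G) = side (across (pd, pb)) := by
        rw [h3, hb]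
        change (pd.symm, pb) = (pd.symm, !(!pb))
        rw [Bool.not_not]
      rw [h5, side_side, hac, face_across]
      exact ⟨rfl, rfl⟩
    · have h4 : rb = !pb := by
        revert hb
        cases rb <;> cases pb <;> decide
      left
      have h5 : ((rd, rb) : Flag G) = across (pd, pb) := by
        rw [h3, h4]
        rfl
      rw [h5, hac, face_across]
      exact ⟨rfl, rfl⟩

/-- the edge of `p` joins the faces of `p` and `side p` -/
private theorem wu_join (S : GMap G) (p : Flag G) :
    (S.face (rp (ed p)) = S.face p ∧ S.face (side (rp (ed p))) = S.face (side p)) ∨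
      (S.face (rp (ed p)) = S.face (side p) ∧ S.face (side (rp (ed p))) = S.face p) :=
  wu_faces S p

/-- a flag over `e` with prescribed order of the faces -/
private theorem wu_flag (S : GMap G) (e : G.edgeSet) (F H : S.Face)
    (h : (S.face (rp e) = F ∧ S.face (side (rp e)) = H) ∨
      (S.face (rp e) = H ∧ S.face (side (rp e)) = F)) :
    ∃ p : Flag G, ed p = e ∧ S.face p = F ∧ S.face (side p) = H := by
  rcases h with ⟨h1, h2⟩ | ⟨h1, h2⟩
  · exact ⟨rp e, ed_rp e, h1, h2⟩
  · refine ⟨side (rp e), ?_, h2, ?_⟩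
    · rw [ed_side, ed_rp]
    · rw [side_side]
      exact h1

/-- the state of a walk -/
private noncomputable def stt (l : Inp) (es : List Ec) (q : Flag G) (u : List G.edgeSet) : Stt :=
  (fcl l (cod q), (lbs l es (u.map ec), decide (u.length % 2 = 1)))

private theorem lbs_single (l : Inp) (es : List Ec) (a : Ec) : lbs l es [a] = lb l es a := by
  unfold lbs lb
  refine List.map_congr_left fun e _ => ?_
  change xor false (par (zl l e) a) = _
  rw [Bool.false_xor]

private theorem lbs_snoc (l : Inp) (es : List Ec) (w : List Ec) (a : Ec) :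
    lbs l es (w ++ [a]) = xo (lbs l es w) (lb l es a) := by
  unfold lbs lb xo
  rw [List.zipWith_map, List.zipWith_self]
  refine List.map_congr_left fun e _ => ?_
  rw [List.map_append, List.foldl_append]
  rfl

private theorem lbs_mem (l : Inp) (es : List Ec) (k : ℕ) (hes : es.length = k) (w : List Ec) :
    lbs l es w ∈ bvs k := by
  unfold bvs
  rw [mem_tup]
  refine ⟨?_, fun x _ => ?_⟩
  · unfold lbs
    rw [List.length_map, hes]
  · cases x <;> simp

private theorem stt_snoc (l : Inp) (es : List Ec) (q : Flag G) (u : List G.edgeSet)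
    (e : G.edgeSet) : stt l es q (u ++ [e]) =
      (fcl l (cod q), (xo (lbs l es (u.map ec)) (lb l es (ec e)), !decide (u.length % 2 = 1))) := by
  unfold stt
  rw [List.map_append]
  change (_, (lbs l es (u.map ec ++ [ec e]), _)) = _
  rw [lbs_snoc, List.length_append, List.length_singleton]
  have h : decide ((u.length + 1) % 2 = 1) = !decide (u.length % 2 = 1) := by
    by_cases h1 : u.length % 2 = 1
    · have h2 : ¬ (u.length + 1) % 2 = 1 := by omega
      rw [decide_eq_true h1, decide_eq_false h2]
      rfl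
    · have h2 : (u.length + 1) % 2 = 1 := by omega
      rw [decide_eq_false h1, decide_eq_true h2]
      rfl
  rw [h]

/-- an arc -/
private theorem wu_arc {S : GMap G} {l : Inp} (h : Codes S l) (k : ℕ) (es : List Ec)
    (hes : es.length = k) (fs : List Pt) (p q : Flag G) (u : List G.edgeSet) (hp : cod p ∈ fs)
    (hpq : S.face p = S.face q) :
    ((stt l es q u, stt l es (side p) (u ++ [ed p])), ec (ed p)) ∈ arU k l es fs := by
  unfold arU
  rw [List.mem_flatMap]
  refine ⟨cod p, hp, ?_⟩
  rw [List.mem_flatMap]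
  refine ⟨lbs l es (u.map ec), lbs_mem l es k hes _, ?_⟩
  rw [List.mem_map]
  refine ⟨decide (u.length % 2 = 1), ?_, ?_⟩
  · cases decide (u.length % 2 = 1) <;> simp
  · rw [stt_snoc, ek_cod, sd_cod, (fcl_iff h p q).2 hpq]
    rfl

/-- walks in the dual graph are walks of `arD` -/
private theorem wu_aw {S : GMap G} {l : Inp} (h : Codes S l) (k : ℕ) (es : List Ec)
    (hes : es.length = k) (fs : List Pt) (In : Finset G.edgeSet)
    (hfs : ∀ x, x ∈ fs ↔ ∃ p : Flag G, x = cod p ∧ ed p ∈ In) {F F' : S.Face} {w : List G.edgeSet}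
    (hw : DW (fun e => S.face (rp e)) (fun e => S.face (side (rp e))) F F' w) (hIn : ∀ e ∈ w, e ∈ In) :
    ∀ (u : List G.edgeSet) (q : Flag G) (x0 : Stt) (l0 : List Ec), S.face q = F →
      AW (arU k l es fs) x0 (stt l es q u) l0 →
      ∃ q', S.face q' = F' ∧ AW (arU k l es fs) x0 (stt l es q' (u ++ w)) (l0 ++ w.map ec) := by
  induction hw with
  | nil F =>
    intro u q x0 l0 hq hA
    refine ⟨q, hq, ?_⟩
    rw [List.append_nil, List.map_nil, List.append_nil]
    exact hA
  | cons F G1 H e w1 he _ ih =>
    intro u q x0 l0 hq hA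
    obtain ⟨p, hp1, hp2, hp3⟩ := wu_flag S e F G1 he
    have hpI : cod p ∈ fs := (hfs _).2 ⟨p, rfl, by
      rw [hp1]
      exact hIn e List.mem_cons_self⟩
    have h1 := wu_arc h k es hes fs p q u hpI (hp2.trans hq.symm)
    rw [hp1] at h1
    have h2 := AW.snoc _ _ _ _ _ hA h1
    obtain ⟨q', hq', hA'⟩ := ih (fun e' he' => hIn e' (List.mem_cons_of_mem _ he')) (u ++ [e]) (side p) x0
      (l0 ++ [ec e]) hp3 h2
    refine ⟨q', hq', ?_⟩
    rw [List.append_assoc, List.append_assoc] at hA'
    exact hA'

/-- walks of `arD` are walks in the dual graph -/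
private theorem wu_dw {S : GMap G} {l : Inp} (h : Codes S l) (k : ℕ) (es : List Ec) (fs : List Pt)
    (In : Finset G.edgeSet) (hfs : ∀ x, x ∈ fs ↔ ∃ p : Flag G, x = cod p ∧ ed p ∈ In) (r : Flag G)
    {x y : Stt} {l1 : List Ec} (hA : AW (arU k l es fs) x y l1) :
    x = stt l es (side r) [ed r] → ∃ (w1 : List G.edgeSet) (q1 : Flag G), (∀ e ∈ w1, e ∈ In) ∧ l1 = w1.map ec ∧
      DW (fun e => S.face (rp e)) (fun e => S.face (side (rp e))) (S.face r) (S.face q1)
        (ed r :: w1) ∧ y = stt l es q1 (ed r :: w1) := by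
  induction hA with
  | nil =>
    intro hx
    refine ⟨[], side r, fun e he => absurd he List.not_mem_nil, rfl, ?_, hx⟩
    exact DW.cons _ (S.face (side r)) _ _ _ (wu_join S r) (DW.nil _)
  | snoc y z i l0 _ hi ih =>
    intro hx
    obtain ⟨w1, q1, hw1, e1, hD, hy⟩ := ih hx
    unfold arU at hi
    rw [List.mem_flatMap] at hi
    obtain ⟨c, hc, hi⟩ := hi
    rw [List.mem_flatMap] at hi
    obtain ⟨v, -, hi⟩ := hi
    rw [List.mem_map] at hi
    obtain ⟨b, -, hi⟩ := hi
    obtain ⟨r', rfl, hr'⟩ := (hfs c).1 hc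
    rw [ek_cod, sd_cod] at hi
    have h1 : (fcl l (cod r'), (v, b)) = y := congrArg (fun t => t.1.1) hi
    have h2 : (fcl l (cod (side r')), (xo v (lb l es (ec (ed r'))), !b)) = z :=
      congrArg (fun t => t.1.2) hi
    have h3 : ec (ed r') = i := congrArg (fun t => t.2) hi
    rw [hy] at h1
    have h4 : fcl l (cod r') = fcl l (cod q1) := congrArg (fun t => t.1) h1
    have h5 : v = lbs l es ((ed r :: w1).map ec) := congrArg (fun t => t.2.1) h1
    have h6 : b = decide ((ed r :: w1).length % 2 = 1) := congrArg (fun t => t.2.2) h1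
    have h7 := (fcl_iff h r' q1).1 h4
    refine ⟨w1 ++ [ed r'], side r', ?_, ?_, ?_, ?_⟩
    · intro e he
      rcases List.mem_append.1 he with he | he
      · exact hw1 e he
      · rw [List.mem_singleton.1 he]
        exact hr'
    · rw [List.map_append, ← e1, ← h3]
      rfl
    · rw [← List.cons_append]
      refine DW.snoc hD ?_
      rw [← h7]
      exact wu_join S r'
    · rw [← List.cons_append, stt_snoc, ← h5, ← h6, h2]

theorem wlu_complete (h : Codes S l) (k : ℕ) (es : List Ec) (hes : es.length = k) (fs : List Pt)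
    (In : Finset G.edgeSet) (hfs : ∀ x, x ∈ fs ↔ ∃ p : Flag G, x = cod p ∧ ed p ∈ In)
    (F F' : S.Face) (w : List G.edgeSet) (hw : DW (fun e => S.face (rp e)) (fun e => S.face (side (rp e))) F F' w)
    (hne : w ≠ []) (hIn : ∀ e ∈ w, e ∈ In) : ∃ w' : List G.edgeSet, w'.map ec ∈ wlu k l es fs ∧ w' ≠ [] ∧
      (∀ e ∈ w', e ∈ In) ∧ w'.length ≤ w.length ∧ (w'.length + w.length) % 2 = 0 ∧
      DW (fun e => S.face (rp e)) (fun e => S.face (side (rp e))) F F' w' ∧
      lbs l es (w'.map ec) = lbs l es (w.map ec) := by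
  cases hw with
  | nil => exact absurd rfl hne
  | cons _ G1 _ e rest he hrest =>
    obtain ⟨p, hp1, hp2, hp3⟩ := wu_flag S e F G1 he
    have hx0 : stt l es (side p) [e] = (fcl l (sd (cod p)), (lb l es (ek (cod p)), true)) := by
      unfold stt
      change (fcl l (cod (side p)), (lbs l es [ec e], decide (1 % 2 = 1))) = _
      rw [lbs_single, ek_cod, sd_cod, hp1]
      rfl
    have heI : e ∈ In := hIn e List.mem_cons_self
    have hpI : cod p ∈ fs := (hfs _).2 ⟨p, rfl, by
      rw [hp1]
      exact heI⟩
    obtain ⟨q', hq', hA⟩ := wu_aw h k es hes fs In hfs hrest (fun e' he' => hIn e' (List.mem_cons_of_mem _ he')) [e] (side p) (stt l es (side p) [e]) [] hp3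
      (AW.nil _)
    rw [List.nil_append] at hA
    have hini : (stt l es (side p) [e], [ec e]) ∈ inu l es fs (cod p) := by
      unfold inu
      rw [List.mem_map]
      refine ⟨cod p, ?_, ?_⟩
      · rw [List.mem_filter]
        exact ⟨hpI, decide_eq_true rfl⟩
      · rw [hx0, ek_cod, hp1]
    have hL : ∀ t ∈ inu l es fs (cod p), t.2.length = 1 := by
      intro t ht
      unfold inu at ht
      rw [List.mem_map] at ht
      obtain ⟨c, -, hc⟩ := ht
      rw [← hc]
      rfl
    obtain ⟨l', hl', hlen⟩ := bfs_complete (arU k l es fs) (inu l es fs (cod p)) 1 hL _ _ _ _ hini hA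
    obtain ⟨x, l0', l1', hx, hA1, hl1⟩ := bfs_sound _ _ _ _ hl'
    unfold inu at hx
    rw [List.mem_map] at hx
    obtain ⟨c, hc, hcx⟩ := hx
    rw [List.mem_filter] at hc
    obtain ⟨r, rfl, hrI⟩ := (hfs c).1 hc.1
    have hr : S.face r = S.face p := (fcl_iff h r p).1 (of_decide_eq_true hc.2)
    rw [ek_cod, sd_cod] at hcx
    have hx1 : x = stt l es (side r) [ed r] := by
      have h1 : (fcl l (cod (side r)), (lb l es (ec (ed r)), true)) = x := congrArg Prod.fst hcx
      rw [← h1]
      unfold stt
      change _ = (fcl l (cod (side r)), (lbs l es [ec (ed r)], decide (1 % 2 = 1)))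
      rw [lbs_single]
      rfl
    have hl0 : [ec (ed r)] = l0' := congrArg Prod.snd hcx
    obtain ⟨w1, q1, hw1, e1, hD, hy⟩ := wu_dw h k es fs In hfs r hA1 hx1
    have hmap : (ed r :: w1).map ec = l' := by
      rw [hl1, ← hl0, e1]
      rfl
    have h4 : fcl l (cod q') = fcl l (cod q1) := congrArg (fun t => t.1) hy
    have h5 : lbs l es (([e] ++ rest).map ec) = lbs l es ((ed r :: w1).map ec) :=
      congrArg (fun t => t.2.1) hy
    have h6 : decide (([e] ++ rest).length % 2 = 1) = decide ((ed r :: w1).length % 2 = 1) :=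
      congrArg (fun t => t.2.2) hy
    have h7 : S.face q1 = F' := ((fcl_iff h q' q1).1 h4).symm.trans hq'
    refine ⟨ed r :: w1, ?_, List.cons_ne_nil _ _, ?_, ?_, ?_, ?_, ?_⟩
    · rw [hmap]
      unfold wlu
      rw [List.mem_flatMap]
      refine ⟨cod p, hpI, ?_⟩
      rw [List.mem_map]
      exact ⟨_, hl', rfl⟩
    · intro e' he'
      rcases List.mem_cons.1 he' with he' | he'
      · rw [he']
        exact hrI
      · exact hw1 e' he'
    · have h8 : (ed r :: w1).length = l'.length := by
        rw [← hmap, List.length_map]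
      rw [h8, List.length_cons]
      rw [List.length_map] at hlen
      omega
    · have h8 : ([e] ++ rest).length % 2 = 1 ↔ (ed r :: w1).length % 2 = 1 := by
        rw [← decide_eq_true_iff (p := ([e] ++ rest).length % 2 = 1), h6, decide_eq_true_iff]
      have h9 : ([e] ++ rest).length = (e :: rest).length := rfl
      rw [h9] at h8
      omega
    · rw [← h7]
      rw [hr, hp2] at hD
      exact hD
    · exact h5.symm

end Pool.Agent.SCG
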